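import Pool.Agent.FGK.StA

/-!
# FGK, module AbEx (C0): short exact sequences of simplicial abelian groups

`thm_AbEx (hSl : St_Sl) (hBd : KQ.St_Bd) (hBd0 : KQ.St_Bd0) : St_AbEx`.
-/

set_option autoImplicit false

namespace Pool.Agent.FGK

open CategoryTheory Function Pool.Agent.KQ

universe u

/-- degreewise isomorphisms are isomorphisms of homotopy groups -/
theorem abex_iso {G H : SGp.{u}} (φ : G ⟶ H) (h : ∀ n, Bijective (φ.app n)) (n : ℕ) :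
    Bijective (SGp.PiMap φ n) := by
  let ψ : H ⟶ G := ⟨fun n => (MulEquiv.ofBijective (φ.app n) (h n)).symm.toMonoidHom,
    fun {m n} θ x => by
      apply (h m).1
      have h1 : ∀ k (y : H.obj k),
          φ.app k ((MulEquiv.ofBijective (φ.app k) (h k)).symm y) = y := fun k y =>
        (MulEquiv.ofBijective (φ.app k) (h k)).apply_symm_apply y
      change φ.app m ((MulEquiv.ofBijective (φ.app m) (h m)).symm (H.map θ x)) =
        φ.app m (G.map θ ((MulEquiv.ofBijective (φ.app n) (h n)).symm x))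
      rw [h1, φ.nat, h1]⟩
  have h1 : φ ≫ ψ = 𝟙 G := SGp.hom_ext fun k x =>
    (MulEquiv.ofBijective (φ.app k) (h k)).symm_apply_apply x
  have h2 : ψ ≫ φ = 𝟙 H := SGp.hom_ext fun k x =>
    (MulEquiv.ofBijective (φ.app k) (h k)).apply_symm_apply x
  refine bijective_iff_has_inverse.2 ⟨SGp.PiMap ψ n, fun x => ?_, fun y => ?_⟩
  · rw [← SGp.PiMap_comp, h1, SGp.PiMap_id]
  · rw [← SGp.PiMap_comp, h2, SGp.PiMap_id]

/-- the map to the kernel -/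
def abexφ {X Y Z : SAb.{u}} (f : X ⟶ Y) (g : Y ⟶ Z) (h : SAb.SES f g) :
    SAb.gp.obj X ⟶ SGp.ker (SAb.gp.map g) :=
  ⟨fun n => ((SAb.gp.map f).app n).codRestrict _ fun x => ((h.ex n _).2 ⟨x, rfl⟩ :
    g.app n (f.app n x) = 0), fun θ x => Subtype.ext ((SAb.gp.map f).nat θ x)⟩

theorem abexφ_bij {X Y Z : SAb.{u}} (f : X ⟶ Y) (g : Y ⟶ Z) (h : SAb.SES f g) (n : ℕ) :
    Bijective ((abexφ f g h).app n) := by
  refine ⟨fun x y hxy => h.inj n (congrArg Subtype.val hxy), fun y => ?_⟩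
  obtain ⟨x, hx⟩ := (h.ex n y.1).1 y.2
  exact ⟨x, Subtype.ext hx⟩

/-- the long exact sequence -/
theorem abex_les (hBd : KQ.St_Bd.{u}) (hBd0 : KQ.St_Bd0.{u}) {X Y Z : SAb.{u}} (f : X ⟶ Y)
    (g : Y ⟶ Z) (h : SAb.SES f g) :
    (∀ n : ℕ, ∃ δ : (SAb.gp.obj Z).Pi (n + 1) →* (SAb.gp.obj X).Pi n,
      (∀ y, δ y = 1 ↔ ∃ x, SGp.PiMap (SAb.gp.map g) (n + 1) x = y) ∧
      (∀ z, SGp.PiMap (SAb.gp.map f) n z = 1 ↔ ∃ y, δ y = z)) ∧
    (∀ (n : ℕ) (y : (SAb.gp.obj Y).Pi n), SGp.PiMap (SAb.gp.map g) n y = 1 ↔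
      ∃ z, SGp.PiMap (SAb.gp.map f) n z = y) ∧
    Surjective (SGp.PiMap (SAb.gp.map g) 0) := by
  have hs : ∀ n, Surjective ((SAb.gp.map g).app n) := h.surj
  have hφ := abex_iso (abexφ f g h) (abexφ_bij f g h)
  have hf : ∀ (n : ℕ) (z : (SAb.gp.obj X).Pi n), SGp.PiMap (SAb.gp.map f) n z =
      SGp.PiMap (SGp.kerι (SAb.gp.map g)) n (SGp.PiMap (abexφ f g h) n z) := fun n z =>
    SGp.PiMap_comp (abexφ f g h) (SGp.kerι (SAb.gp.map g)) n z
  refine ⟨fun n => ?_, fun n y => ?_, (hBd0 _ hs).2⟩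
  · obtain ⟨δ, -, h1, h2⟩ := hBd (SAb.gp.map g) hs n
    refine ⟨(MulEquiv.ofBijective (SGp.PiMap (abexφ f g h) n) (hφ n)).symm.toMonoidHom.comp δ,
      fun y => ?_, fun z => ?_⟩
    · rw [← h1 y]
      exact (MulEquiv.ofBijective (SGp.PiMap (abexφ f g h) n) (hφ n)).symm.map_eq_one_iff
    · rw [hf, h2]
      refine exists_congr fun y => ?_
      exact ((MulEquiv.ofBijective (SGp.PiMap (abexφ f g h) n) (hφ n)).symm_apply_eq).symm
  · rw [(hBd0 _ hs).1]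
    constructor
    · rintro ⟨z, hz⟩
      obtain ⟨w, rfl⟩ := (hφ n).2 z
      exact ⟨w, by rw [hf, hz]⟩
    · rintro ⟨w, hw⟩
      exact ⟨_, by rw [← hw, hf]⟩

/-- C0. -/
theorem thm_AbEx (hSl : St_Sl.{u}) (hBd : KQ.St_Bd.{u}) (hBd0 : KQ.St_Bd0.{u}) :
    St_AbEx.{u} := by
  intro X Y Z f g h c
  obtain ⟨hδ, hY, h0⟩ := abex_les hBd hBd0 f g h
  choose δ h1 h2 using hδ
  have hgf : ∀ n (x : (SAb.gp.obj X).Pi n),
      SGp.PiMap (SAb.gp.map g) n (SGp.PiMap (SAb.gp.map f) n x) = 1 := fun n x =>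
    (hY n _).2 ⟨x, rfl⟩
  have hfδ : ∀ n (y : (SAb.gp.obj Z).Pi (n + 1)),
      SGp.PiMap (SAb.gp.map f) n (δ n y) = 1 := fun n y => (h2 n _).2 ⟨y, rfl⟩
  have c2 : ∀ c, SAb.Triv c X → SAb.Conn c g := by
    intro c hX
    have hsur : ∀ j ≤ c, Surjective (SGp.PiMap (SAb.gp.map g) j) := by
      intro j hj
      cases j with
      | zero => exact h0
      | succ j => exact fun y => (h1 j y).1 (hX j (by omega) _)
    refine ⟨fun j hj => ⟨?_, hsur j hj.le⟩, hsur c le_rfl⟩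
    rw [injective_iff_map_eq_one]
    intro y hy
    obtain ⟨z, rfl⟩ := (hY j y).1 hy
    rw [hX j hj z, map_one]
  have c4 : ∀ c, SAb.Conn c g → SAb.Triv c X := by
    intro c hg j hj z
    have e1 : SGp.PiMap (SAb.gp.map f) j z = 1 :=
      (injective_iff_map_eq_one _).1 (hg.1 j hj).1 _ (hgf j z)
    obtain ⟨w, rfl⟩ := (h2 j z).1 e1
    refine (h1 j w).2 ?_
    rcases (Nat.succ_le_of_lt hj).lt_or_eq with h3 | h3
    · exact (hg.1 _ h3).2 w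
    · have h4 := hg.2
      rw [← h3] at h4
      exact h4 w
  have c5 : ∀ c, SAb.Triv c Z → ∀ j < c, Surjective (SGp.PiMap (SAb.gp.map f) j) :=
    fun c hZ j hj y => (hY j y).1 (hZ j hj _)
  have c6 : ∀ c, SAb.Triv (c + 1) Z → ∀ j < c, Bijective (SGp.PiMap (SAb.gp.map f) j) := by
    intro c hZ j hj
    refine ⟨?_, c5 (c + 1) hZ j (by omega)⟩
    rw [injective_iff_map_eq_one]
    intro z hz
    obtain ⟨w, rfl⟩ := (h2 j z).1 hz
    rw [hZ (j + 1) (by omega) w, map_one]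
  refine ⟨fun hX hZ j hj y => ?_, c2 c, fun hX => ((c2 (c + 1) hX).1 c (Nat.lt_succ_self c)),
    c4 c, c5 c, c6 c, fun hY' hZ j hj z => ?_, fun j hX hZ => ?_, fun j hY' hZ => ?_,
    fun j hX hY' => ?_, fun hY' => ?_, ⟨fun hX j => ?_, fun hg d => ?_⟩,
    ⟨fun hZ j => ?_, fun hf d => ?_⟩⟩
  · obtain ⟨z, rfl⟩ := (hY j y).1 (hZ j hj _)
    rw [hX j hj z, map_one]
  · obtain ⟨w, rfl⟩ := (h2 j z).1 (hY' j hj _)
    rw [hZ (j + 1) (by omega) w, map_one]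
  · exact hSl.2.2 (SGp.PiMap (SAb.gp.map f) j) (SGp.PiMap (SAb.gp.map g) j)
      (fun b hb => (hY j b).1 hb) hX hZ
  · exact hSl.2.2 (δ j) (SGp.PiMap (SAb.gp.map f) j) (fun b hb => (h2 j b).1 hb) hZ hY'
  · exact hSl.2.2 (SGp.PiMap (SAb.gp.map g) (j + 1)) (δ j) (fun b hb => (h1 j b).1 hb) hY' hX
  · exact hSl.2.1 (SGp.PiMap (SAb.gp.map g) 0) h0 hY'
  · exact (c2 (j + 1) (hX (j + 1))).1 j (Nat.lt_succ_self j)
  · exact c4 d ⟨fun j _ => hg j, (hg d).2⟩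
  · exact c6 (j + 1) (hZ _) j (Nat.lt_succ_self j)
  · intro j _ z
    have e2 : ∃ y, SGp.PiMap (SAb.gp.map g) j y = z := by
      cases j with
      | zero => exact h0 z
      | succ j =>
        exact (h1 j z).1 ((injective_iff_map_eq_one _).1 (hf j).1 _ (hfδ j z))
    obtain ⟨y, rfl⟩ := e2
    obtain ⟨x, rfl⟩ := (hf j).2 y
    exact hgf j x

end Pool.Agent.FGK
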