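import Pool.Agent.FGK.StA

/-!
# FGK [AbReal]: the realisation lemmas for simplicial abelian groups
-/

set_option autoImplicit false

namespace Pool.Agent.FGK

open CategoryTheory Function Pool.Agent.KQ

universe u

/-- a bisimplicial abelian group as a bisimplicial group -/
abbrev abreal_gp (X : SOb SAb.{u}) : SOb SGp.{u} := (SOb.mapF SAb.gp).obj X

theorem abreal_diag (X : SOb SAb.{u}) : SGp.diag (abreal_gp X) = SAb.gp.obj (SAb.diag X) := rfl

theorem thm_AbReal (hReal : KQ.St_Real.{u}) (hRealW : KQ.St_RealW.{u}) (hDec : KQ.St_Dec.{u})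
    (hUp : St_RealUp.{u}) (hUps : St_Ups.{u}) (hSl : St_SlDiag.{u}) : St_AbReal.{u} := by
  refine ⟨?_, ?_, ?_, ?_, ?_, ?_, ?_, ?_⟩
  · intro c X Y f h
    exact hReal c ((SOb.mapF SAb.gp).map f) h
  · intro X Y f h
    exact hRealW ((SOb.mapF SAb.gp).map f) h
  · intro c X Y f h h0
    exact hUp c ((SOb.mapF SAb.gp).map f) h h0
  · intro c X h
    have h1 := hUps 0 c (abreal_gp X) (fun m hm => absurd hm (Nat.not_lt_zero m)) h
    rw [zero_add] at h1
    exact h1
  · intro c d X h0 h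
    exact hUps c d (abreal_gp X) (fun m hm n x => h0 m hm n x) h
  · intro X J h
    exact hSl (abreal_gp X) J h
  · intro X
    exact hDec (abreal_gp X)
  · intro X
    refine ⟨fun n => Subtype.val_injective, fun n y => ?_, fun n y => ?_⟩
    · exact ⟨fun h => ⟨⟨y, h⟩, rfl⟩, fun ⟨x, hx⟩ => hx ▸ x.2⟩
    · refine ⟨(X.map (sg 0)).app n y, ?_⟩
      change (X.map (dl 0)).app n ((X.map (sg 0)).app n y) = y
      have h1 : X.map (sg (0 : Fin (n + 1))) ≫ X.map (dl 0) = 𝟙 (X.obj n) := by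
        rw [← X.map_comp, dl_zero_comp_sg_zero, X.map_id]
      exact congrArg (fun e : X.obj n ⟶ X.obj n => e.app n y) h1

end Pool.Agent.FGK
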