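import Pool.Agent.FGK.StA

/-!
# FGK: statements, part B: free groups, Postnikov stages, Eilenberg-MacLane groups, finiteness
-/

set_option autoImplicit false
set_option linter.unusedVariables false

namespace Pool.Agent.FGK

open CategoryTheory Function Pool.Agent.KQ

universe u

/-! ### E: free simplicial groups -/

/-- **E1.** Fox calculus: `ℤ[F(X)] ⊗ ℤ~[X] = ℤ~[F(X)]`, natural in the pointed simplicial set `X`.

Proof. In degree `n`, with `X = X_n` a pointed set, `F = Fr X`: `ZP` is `ℤ[X] / ℤ[*]`,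
`φ (single g [single x c]) = c [g * x] - c [g]` (well defined as the base point is `1` in `Fr X`). It is
natural. Inverse: there is a unique crossed homomorphism `D : F → (F →₀ ℤ~X)`, `D(gh) = D(g) + g D(h)`,
`D(x) = single 1 [x]` (a homomorphism to the semidirect product; `D(*) = 0`), and
`[g] - [1] ↦ D(g)` is the inverse: `φ (D g) = [g] - [1]` holds on generators and is compatible with
products, so for all `g` (both sides are crossed homomorphisms); `D`-extension of
`φ(single g [x]) = ([g x] - [1]) - ([g] - [1])` is `D(gx) - D(g) = g D(x) = single g [x]`. -/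
def St_Fox : Prop := ∀ X : SOb Pointed.{u},
  ∃ φ : (ZP X).fs (frS X).und ⟶ (SAb.const (ULift.{u} ℤ)).red (frS X).und,
    ∀ n, Bijective (φ.app n)

/-- **E2.** Homology of `F(X)` in the stable range.

Proof. `0 → (ZP X).red F → (ZP X)[F] → ZP X → 0`, `F = (frS X).und`; `HTriv k F` by D3, so the first
term is `2k`-trivial (C5) and `π_j((ZP X)[F]) → π_j(ZP X)` is injective for `j < 2k`; E1; C0 for
`0 → ℤ.red F → ℤ[F] → ℤ → 0`. -/
def St_FoxSl : Prop := ∀ (k : ℕ) (X : SOb Pointed.{u}), SGp.Triv k (frS X) →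
  SAb.Triv k (ZP X) → ∀ j < 2 * k, (ZP X).SlAt j → HSl (frS X).und j

/-! ### F: Postnikov stages and Eilenberg-MacLane groups -/

/-- **F1.** The first stage of the Postnikov tower.

Proof. `A = π_n(G) = G_n / B_n` (all elements of `G_n` are cycles), commutative (`St_Comm`), finitely
generated. `S_m = {x ∈ G_m | ∀ f : Mo n m, G.map f x ∈ B_n}` is a normal subgroup of `G_m`, and
`G_m / S_m` embeds into the finite power `(Mo n m → A)` by `x ↦ ([G.map f x])_f`; so it is a finitely
generated abelian group; `P_m` = the image, written additively. `P_m = 0` for `m < n`. `π_j(P) = 0` for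
`j ≠ n`: `j < n` clear; `j > n`: a cycle `x ∈ P_j` has all faces trivial, every `f : Mo n j` factors
through a face, so all components are trivial. `S_j = G_j` for `j < n`, `S_n = B_n`; for `j > n` cycles and
elements of `N_{j+1}` are in `S` (they have trivial components, see above; `N_{n+1}(G) ≤ S_{n+1}` because
for `y ∈ N_{n+1}` all `G.map f y`, `f : Mo n (n+1)`, are trivial or `d_0 y ∈ B_n`), so `π_j(S) = π_j(G)` for
`j > n`, and `π_n(S) = B_n / B_n = 1`, `π_j(S) = 1` for `j < n`. -/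
def St_Post : Prop := ∀ (n : ℕ) (G : SGp.{u}), 1 ≤ n → (∀ m < n, ∀ x : G.obj m, x = 1) →
  Sl (G.Pi n) → ∃ (P : SAb.{u}) (f : G ⟶ P.gpo), (∀ m, Surjective (f.app m)) ∧
    (∀ m < n, ∀ x : P.obj m, x = 0) ∧ (∀ m, AddGroup.FG (P.obj m)) ∧
    (∀ j, j ≠ n → ∀ x : P.gpo.Pi j, x = 1) ∧ SGp.Triv (n + 1) (SGp.ker f) ∧
    ∀ j, n < j → Bijective (SGp.PiMap (SGp.kerι f) j)

/-- **F2.** A quotient of the homology: if `G_m = 1` for `m < n`, `n ≥ 1`, and `H_n(G)` is slender, so is
`π_n(G)`.

Proof. `π_n(G) = G_n / B_n`, commutative (`St_Comm`). The homomorphism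
`ℤ[G]_n → Additive π_n(G)`, `[x] ↦ [x]`, maps `B_n(ℤ[G])` to `0`: for `z ∈ N_{n+1}(ℤ[G])`
`z = ∑ c_i [y_i]`, `d_0 z = ∑ (-1)^j d_j z ↦ ∑ c_i ∑ (-1)^j [d_j y_i]`, and for `y ∈ G_{n+1}`
`∑ (-1)^j [d_j y] = 0` in `π_n(G)`: modulo degeneracies `y = y' ∏ s_i(..)` with `y' ∈ N_{n+1}` (see
`KQ.St_Bd`, (0)); the map `y ↦ ∑ (-1)^j [d_j y]` is a homomorphism, it vanishes on `s_i x` (`x ∈ G_n`;
the two faces `d_i`, `d_{i+1}` cancel and the other faces of `s_i x` are degeneracies of elements of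
`G_{n-1} = 1`) and on `N_{n+1}` (`d_0 y ∈ B_n`). So it induces `H_n(G) → π_n(G)`, onto because
`[x] - [1]` is a cycle for `x ∈ G_n`. -/
def St_Hur : Prop := ∀ (n : ℕ) (G : SGp.{u}), 1 ≤ n → (∀ m < n, ∀ x : G.obj m, x = 1) →
  HSl G.und n → Sl (G.Pi n)

/-- **F3.** The circle: `B ℤ` has homology of finite type.

Proof. Let `E_m = (Fin (m+1) → ℤ)` with the action of `ℤ` by translations, `E → B ℤ`,
`u ↦ (u j - u i)`; `R ≤ E`: the monotone `u` with `u(last) ≤ u(0) + 1`; `C ≤ B ℤ` the image of `R`, finite in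
every degree. (i) `E` and `R` are contractible: `E`: homotopy `u_i ↦ u_i` or `0`. `R`: union of
`R^N = {u | -N ≤ u ≤ N}`, `R^N` contractible: `h α u i = min (u i) (b-1)` if `α i = false`, `u i` if
`α i = true` is a homotopy on `{a ≤ u ≤ b}` from `u ↦ min u (b-1)` to the identity; induction on `b - a`;
`KQ.St_StrUnion`. (ii) for `Y = E, R` the bisimplicial set `p ↦ Y × ℤ^p`, the nerve of the action
groupoid (`{(y_0, .., y_p)} ⊂ Y^{p+1}` in one orbit), maps to `Y/ℤ` by a strong map (as in D1: the action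
is free; columns). (iii) `ℤ[R × ℤ^p] → ℤ[E × ℤ^p]` is an isomorphism on `π_*` for every `p`
(`R → pt`, `E → pt` are strong; C2), so `ℤ[C] → ℤ[B ℤ]` is one (`St_RealW`). -/
def St_Circle : Prop := FTy (BG (ULift.{u} ℤ)).gpo.und

/-- **F4.** `B A` has homology of finite type for finitely generated `A`.

Proof. Structure theorem: `A` is isomorphic to a product of finitely many cyclic groups;
`B (A × A') = B A × B A'` (isomorphism of simplicial sets), C6; F3 for `ℤ`; for finite `A` `B A` is finite in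
every degree. -/
def St_BG : Prop := ∀ (A : Type u) [AddCommGroup A], AddGroup.FG A → FTy (BG A).gpo.und

/-- **F5.** Eilenberg-MacLane groups of degree one.

Proof. `A = P_1 / B_1 = π_1(P)` is finitely generated. The homomorphism `P → B A`,
`x ↦ ([G.map f_{ij} x])` for `i ≤ j`, `f_{ij} : Mo 1 m`, `0 ↦ i`, `1 ↦ j`, and minus this for `i > j`, is
well defined (for `y ∈ P_2`: `d_1 y - d_0 y - d_2 y ∈ B_1`, as in the proof of F2), onto: for `c` choose
`a_i ∈ P_1` over `c (i, i+1)` and put `x = ∑ P.map ε_i a_i`, `ε_i : Mo m 1`, `ε_i j = 1` iff `j > i`. It is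
an isomorphism on `π_1`, so its kernel has trivial homotopy groups; D4, F4 and A2. -/
def St_KA1 : Prop := ∀ P : SAb.{u}, (∀ x : P.obj 0, x = 0) → (∀ m, AddGroup.FG (P.obj m)) →
  (∀ j, j ≠ 1 → ∀ x : P.gpo.Pi j, x = 1) → ∀ j, HSl P.gpo.und j

/-- **F6.** Eilenberg-MacLane groups have slender homology.

Proof. Induction on `n`; `n = 1`: F5. Step from `n` to `n + 1`, `n ≥ 1`: `G = P.gpo`, `f = pathπ G`, kernel
`L = loopG G`; `L_m ≤ G_{m+1}` is commutative, finitely generated, trivial for `m < n`, and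
`π_j(L) = π_{j+1}(G)` (D2). So all `L^p` satisfy the hypotheses for `n` (as simplicial abelian groups).
`H_*(G) = π_*(diag (p ↦ ℤ[cechS f p]))` (D1, C2), `cechS f p = pathG G × L^p`,
`ℤ[pathG G × L^p] → ℤ[L^p]` is an isomorphism on `π_*` (C4, C2, D2), so the rows have slender homotopy
groups; A3. -/
def St_KAn : Prop := ∀ (n : ℕ) (P : SAb.{u}), 1 ≤ n → (∀ m < n, ∀ x : P.obj m, x = 0) →
  (∀ m, AddGroup.FG (P.obj m)) → (∀ j, j ≠ n → ∀ x : P.gpo.Pi j, x = 1) →
  ∀ j, HSl P.gpo.und j

/-- **F7.** THE FINITENESS THEOREM: a `k`-trivial simplicial group with slender homology in degrees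
`< R ≤ 2k` has slender homotopy groups in degrees `< R`.

Proof. For `n ≥ k` let `C(n)`: the claim for all `n`-trivial `G`. `C(n)` holds for `n ≥ R`. Downward
induction: let `G` be `n`-trivial, `k ≤ n < R`. Replace `G` by `eil G n` (B1: same `π_j` for `j ≥ n`; D6: same
homology). F2: `π_n(G)` is slender. F1: `f : G → P`, `K = ker f` is `(n+1)`-trivial, so
`HTriv (n+1) K.und` (D3); `P` has slender homology (F6); D7 with `n' = n + 1`, `R ≤ 2k ≤ 2(n+1)`: `K` has
slender homology in degrees `< R`. By `C(n+1)` `π_j(K)` is slender for `j < R`, and `π_j(G) = π_j(K)` for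
`j > n`. -/
def St_FG2 : Prop := ∀ (k R : ℕ) (G : SGp.{u}), 1 ≤ k → SGp.Triv k G → R ≤ 2 * k →
  (∀ j < R, HSl G.und j) → ∀ j < R, Sl (G.Pi j)

end Pool.Agent.FGK
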