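import Pool.Agent.FGK.StA
import Pool.Agent.FGK.StB

/-!
# FGK, module BG (helper85): `B A` has homology of finite type for finitely generated `A`
-/

set_option autoImplicit false
set_option linter.unusedVariables false

namespace Pool.Agent.FGK

open CategoryTheory Function Pool.Agent.KQ

universe u

theorem bg_ZSmap_app {Y Y' : SSt.{u}} (f : Y ⟶ Y') (n : ℕ) (x : Y.obj n →₀ ULift.{u} ℤ) :
    (ZSmap f).app n x = Finsupp.mapDomain (f.app n) x := by
  change Finsupp.mapDomain (f.app n)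
    (Finsupp.mapRange (AddMonoidHom.id (ULift.{u} ℤ)) (map_zero _) x) = _
  congr 1
  ext y
  rfl

theorem bg_ZSmap_inv {Y Y' : SSt.{u}} (f : Y ⟶ Y') (g : Y' ⟶ Y)
    (h : ∀ (n : ℕ) (x : Y.obj n), g.app n (f.app n x) = x) : ZSmap f ≫ ZSmap g = 𝟙 (ZS Y) := by
  refine SAb.hom_ext fun n x => ?_
  change (ZSmap g).app n ((ZSmap f).app n x) = x
  rw [bg_ZSmap_app, bg_ZSmap_app, ← Finsupp.mapDomain_comp,
    show g.app n ∘ f.app n = id from funext (h n), Finsupp.mapDomain_id]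

/-- an isomorphism of simplicial sets is bijective on homology -/
theorem bg_weq {Y Y' : SSt.{u}} (f : Y ⟶ Y') (g : Y' ⟶ Y)
    (h : ∀ (n : ℕ) (x : Y.obj n), g.app n (f.app n x) = x)
    (h' : ∀ (n : ℕ) (x : Y'.obj n), f.app n (g.app n x) = x) : SAb.Weq (ZSmap f) := by
  intro j
  have key : ∀ {X X' : SSt.{u}} (a : X ⟶ X') (b : X' ⟶ X),
      (∀ (n : ℕ) (x : X.obj n), b.app n (a.app n x) = x) → ∀ x,
      SGp.PiMap (SAb.gp.map (ZSmap b)) j (SGp.PiMap (SAb.gp.map (ZSmap a)) j x) = x := by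
    intro X X' a b hab x
    have h1 : SAb.gp.map (ZSmap a) ≫ SAb.gp.map (ZSmap b) = 𝟙 (SAb.gp.obj (ZS X)) := by
      rw [← SAb.gp.map_comp, bg_ZSmap_inv a b hab, SAb.gp.map_id]
    rw [← SGp.PiMap_comp, h1, SGp.PiMap_id]
  exact bijective_iff_has_inverse.2 ⟨_, key f g h, key g f h'⟩

theorem bg_conn {X Y : SAb.{u}} {f : X ⟶ Y} (h : SAb.Weq f) (c : ℕ) : SAb.Conn c f :=
  ⟨fun j _ => h j, (h c).2⟩

/-- simplicial sets which are finite in every degree -/
theorem bg_fin (Y : SSt.{u}) (h : ∀ n, Finite (Y.obj n)) : FTy Y := fun c =>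
  ⟨Y, 𝟙 Y, h, bg_conn (bg_weq (𝟙 Y) (𝟙 Y) (fun _ _ => rfl) fun _ _ => rfl) c⟩

/-- functoriality of `B A` -/
def bg_map {A A' : Type u} [AddCommGroup A] [AddCommGroup A'] (φ : A →+ A') :
    (BG A).gpo.und ⟶ (BG A').gpo.und :=
  ⟨fun m (c : BGs A m) => (⟨fun i j => φ (c.1 i j), fun i j k => by
    rw [← map_add, c.2 i j k]⟩ : BGs A' m), fun _ _ => rfl⟩

theorem bg_equiv (hP : St_Prods.{u}) {A A' : Type u} [AddCommGroup A] [AddCommGroup A']
    (φ : A ≃+ A') (h : FTy (BG A).gpo.und) : FTy (BG A').gpo.und := by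
  refine hP.2.2.2.2.2 (bg_map φ.toAddMonoidHom) (bg_weq _ (bg_map φ.symm.toAddMonoidHom) ?_ ?_) h
  · intro n c
    refine Subtype.ext (funext fun i => funext fun j => ?_)
    exact φ.symm_apply_apply _
  · intro n c
    refine Subtype.ext (funext fun i => funext fun j => ?_)
    exact φ.apply_symm_apply _

/-- `B A × B A' → B (A × A')` -/
def bg_prodTo (A A' : Type u) [AddCommGroup A] [AddCommGroup A'] :
    ((BG A).gpo.und.prod (BG A').gpo.und) ⟶ (BG (A × A')).gpo.und :=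
  ⟨fun m (c : BGs A m × BGs A' m) => (⟨fun i j => (c.1.1 i j, c.2.1 i j), fun i j k => by
    rw [Prod.mk_add_mk, c.1.2 i j k, c.2.2 i j k]⟩ : BGs (A × A') m), fun _ _ => rfl⟩

/-- `B (A × A') → B A × B A'` -/
def bg_prodFrom (A A' : Type u) [AddCommGroup A] [AddCommGroup A'] :
    (BG (A × A')).gpo.und ⟶ ((BG A).gpo.und.prod (BG A').gpo.und) :=
  ⟨fun m (c : BGs (A × A') m) => ((⟨fun i j => (c.1 i j).1, fun i j k => by
    rw [← Prod.fst_add, c.2 i j k]⟩, ⟨fun i j => (c.1 i j).2, fun i j k => by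
    rw [← Prod.snd_add, c.2 i j k]⟩) : BGs A m × BGs A' m), fun _ _ => rfl⟩

theorem bg_prod (hP : St_Prods.{u}) {A A' : Type u} [AddCommGroup A] [AddCommGroup A']
    (h : FTy (BG A).gpo.und) (h' : FTy (BG A').gpo.und) : FTy (BG (A × A')).gpo.und :=
  hP.2.2.2.2.2 (bg_prodTo A A') (bg_weq _ (bg_prodFrom A A') (fun _ _ => rfl) fun _ _ => rfl)
    (hP.2.2.2.1 _ _ h h')

theorem bg_finite {A : Type u} [AddCommGroup A] [Finite A] : FTy (BG A).gpo.und := by
  refine bg_fin _ fun n => ?_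
  change Finite (BGs A n)
  infer_instance

theorem bg_free (hC : St_Circle.{u}) (hP : St_Prods.{u}) : ∀ n : ℕ,
    FTy (BG (ULift.{u} (Fin n → ℤ))).gpo.und
  | 0 => bg_finite
  | n + 1 => by
    have e : (ULift.{u} ℤ × ULift.{u} (Fin n → ℤ)) ≃+ ULift.{u} (Fin (n + 1) → ℤ) :=
      { toFun := fun x => ⟨Fin.cons x.1.down x.2.down⟩
        invFun := fun x => (⟨x.down 0⟩, ⟨fun i => x.down i.succ⟩)
        left_inv := fun x => rfl
        right_inv := fun x => by
          refine ULift.ext _ _ (funext fun i => ?_)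
          refine Fin.cases ?_ (fun i => ?_) i <;> rfl
        map_add' := fun x y => by
          refine ULift.ext _ _ (funext fun i => ?_)
          refine Fin.cases ?_ (fun i => ?_) i <;> rfl }
    exact bg_equiv hP e (bg_prod hP hC (bg_free hC hP n))

/-- `B A` has homology of finite type for finitely generated `A` -/
theorem thm_BG (hC : St_Circle.{u}) (hP : St_Prods.{u}) : St_BG.{u} := by
  intro A _ hA
  obtain ⟨n, ι, hι, p, hp, e, ⟨φ⟩⟩ := AddCommGroup.equiv_free_prod_directSum_zmod A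
  classical
  have hfin : Finite (DirectSum ι fun i => ZMod (p i ^ e i)) := by
    have : ∀ i, NeZero (p i ^ e i) := fun i => ⟨pow_ne_zero _ (hp i).ne_zero⟩
    have : ∀ i, Finite (ZMod (p i ^ e i)) := fun i => inferInstance
    have h1 : Finite (∀ i, ZMod (p i ^ e i)) := inferInstance
    exact Finite.of_injective (fun x : DirectSum ι fun i => ZMod (p i ^ e i) => fun i => x i)
      DFunLike.coe_injective
  have e1 : (ULift.{u} (Fin n → ℤ) × ULift.{u} (DirectSum ι fun i => ZMod (p i ^ e i))) ≃+ A :=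
    (AddEquiv.prodCongr AddEquiv.ulift AddEquiv.ulift).trans
      ((AddEquiv.prodCongr (Finsupp.linearEquivFunOnFinite ℤ ℤ (Fin n)).symm.toAddEquiv
        (AddEquiv.refl _)).trans φ.symm)
  exact bg_equiv hP e1 (bg_prod hP (bg_free hC hP n) bg_finite)

end Pool.Agent.FGK
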