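import Pool.Agent.FGK.StA

/-!
# FGK D1: the Čech nerve of a surjection is strong
-/

set_option autoImplicit false

namespace Pool.Agent.FGK

open CategoryTheory Function Pool.Agent.KQ

universe u

/-- the augmentation as a map to the constant bisimplicial set -/
def cech_bi {G H : SGp.{u}} (f : G ⟶ H) : cech f ⟶ SOb.const H.und where
  app p := ⟨fun n x => f.app n (x.1 0), fun θ x => f.nat θ (x.1 0)⟩
  nat θ := SSt.hom_ext fun n x => x.2 (θ 0) 0

/-- the section on the column `n` -/
def cech_sec {G H : SGp.{u}} (f : G ⟶ H) (n : ℕ) (s : H.obj n → G.obj n)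
    (hs : ∀ h, f.app n (s h) = h) :
    SSt.col (SOb.const H.und) n ⟶ SSt.col (cech f) n :=
  ⟨fun _ h => (⟨fun _ => s h, fun _ _ => rfl⟩ :
    {x : Fin (_ + 1) → G.obj n // ∀ i j, f.app n (x i) = f.app n (x j)}), fun _ _ => rfl⟩

/-- the homotopy on the column `n` -/
def cech_htpy {G H : SGp.{u}} (f : G ⟶ H) (n : ℕ) (s : H.obj n → G.obj n)
    (hs : ∀ h, f.app n (s h) = h) :
    SSt.Htpy (𝟙 (SSt.col (cech f) n)) (SSt.colMap (cech_bi f) n ≫ cech_sec f n s hs) where
  h m α x := (⟨fun i => if α i = true then s (f.app n (x.1 0)) else x.1 i, fun i j => by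
    have hi : ∀ i, f.app n (if α i = true then s (f.app n (x.1 0)) else x.1 i) =
        f.app n (x.1 0) := by
      intro i
      split_ifs
      · exact hs _
      · exact x.2 i 0
    rw [hi i, hi j]⟩ : {x : Fin (m + 1) → G.obj n // ∀ i j, f.app n (x i) = f.app n (x j)})
  nat {m k} θ α x := Subtype.ext (funext fun i => by
    change (if α (θ i) = true then s (f.app n (x.1 (θ 0))) else x.1 (θ i)) =
      (if α (θ i) = true then s (f.app n (x.1 0)) else x.1 (θ i))
    rw [x.2 (θ 0) 0])
  h0 m α x h := Subtype.ext (funext fun i => by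
    change (if α i = true then s (f.app n (x.1 0)) else x.1 i) = x.1 i
    rw [if_neg (by rw [h i]; exact Bool.false_ne_true)])
  h1 m α x h := Subtype.ext (funext fun i => by
    change (if α i = true then s (f.app n (x.1 0)) else x.1 i) = s (f.app n (x.1 0))
    rw [if_pos (h i)])

theorem cech_col (hHt : St_StrHt.{u}) {G H : SGp.{u}} (f : G ⟶ H)
    (hf : ∀ n, Surjective (f.app n)) (n : ℕ) : SSt.Strong (SSt.colMap (cech_bi f) n) := by
  have hs : ∀ h, f.app n (surjInv (hf n) h) = h := surjInv_eq (hf n)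
  refine hHt.2.1 _ (cech_sec f n (surjInv (hf n)) hs) ?_ ?_
  · intro Φ j
    exact (hHt.1 _ _ ⟨cech_htpy f n _ hs⟩ Φ j).symm
  · intro Φ j
    rw [show cech_sec f n (surjInv (hf n)) hs ≫ SSt.colMap (cech_bi f) n = 𝟙 _ from
      SSt.hom_ext fun m h => hs h]

/-- **D1.** The Čech nerve of a surjection is strong. -/
theorem thm_Cech (hCol : St_StrCol.{u}) (hHt : St_StrHt.{u}) : St_Cech.{u} := by
  intro G H f hf
  have h : SSt.Strong (SSt.diagF.map (cech_bi f)) := hCol _ (cech_col hHt f hf)
  exact h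

end Pool.Agent.FGK
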