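import Pool.Agent.FGK.StA

/-!
# FGK [CechSl]: slender homology of the kernel
-/

set_option autoImplicit false
set_option linter.unusedVariables false

namespace Pool.Agent.FGK

open CategoryTheory Function Pool.Agent.KQ

universe u

/-! ### general facts -/

theorem cechsl_kerSES {X Y : SAb.{u}} (f : X ⟶ Y) (h : ∀ n, Surjective (f.app n)) :
    SAb.SES (SAb.kerι f) f where
  inj n := Subtype.val_injective
  ex n y := ⟨fun hy => ⟨⟨y, hy⟩, rfl⟩, fun ⟨x, hx⟩ => by rw [← hx]; exact x.2⟩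
  surj := h

theorem cechsl_triv_sub (X : SAb.{u}) (h : ∀ n (x : X.obj n), x = 0) (d : ℕ) : SAb.Triv d X := by
  intro j _ x
  obtain ⟨z, rfl⟩ := SGp.cls_surj _ j x
  rw [show z = 1 from Subtype.ext (h j z.1), map_one]

theorem cechsl_iso (hE : St_AbEx.{u}) {X Y : SAb.{u}} (f : X ⟶ Y)
    (h : ∀ n, Bijective (f.app n)) : SAb.Weq f :=
  (hE (SAb.kerι f) f (cechsl_kerSES f fun n => (h n).2) 0).2.2.2.2.2.2.2.2.2.2.2.1.1 fun d =>
    cechsl_triv_sub (SAb.ker f)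
      (fun n x => Subtype.ext ((h n).1 (Eq.trans x.2 (map_zero (f.app n)).symm))) d

theorem cechsl_triv {X Y : SAb.{u}} (f : X ⟶ Y) (h : SAb.Weq f) (c : ℕ) (hX : SAb.Triv c X) :
    SAb.Triv c Y := by
  intro j hj y
  obtain ⟨x, rfl⟩ := (h j).2 y
  rw [hX j hj x, map_one]

theorem cechsl_slX (hS : St_Sl.{u}) {X Y : SAb.{u}} (f : X ⟶ Y) (h : SAb.Weq f) (j : ℕ)
    (hY : Y.SlAt j) : X.SlAt j := hS.1 _ (h j).1 hY

theorem cechsl_slY (hS : St_Sl.{u}) {X Y : SAb.{u}} (f : X ⟶ Y) (h : SAb.Weq f) (j : ℕ)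
    (hX : X.SlAt j) : Y.SlAt j := hS.2.1 _ (h j).2 hX

theorem cechsl_sl_triv (X : SAb.{u}) (c : ℕ) (h : SAb.Triv c X) (j : ℕ) (hj : j < c) :
    X.SlAt j := by
  intro H
  have e : H = ⊥ := by
    rw [Subgroup.eq_bot_iff_forall]
    exact fun x _ => h j hj x
  rw [e]
  exact Subgroup.FG.bot

/-! ### `M[Y]` -/

theorem cechsl_single {M M' : SAb.{u}} {Y Y' : SSt.{u}} (f : M ⟶ M') (g : Y ⟶ Y') (n : ℕ)
    (y : Y.obj n) (a : M.obj n) :
    (SAb.fsMap f g).app n (Finsupp.single y a : Y.obj n →₀ M.obj n) =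
      (Finsupp.single (g.app n y) (f.app n a) : Y'.obj n →₀ M'.obj n) := by
  change Finsupp.mapDomain (g.app n) (Finsupp.mapRange (f.app n) (map_zero _)
    (Finsupp.single y a)) = _
  rw [Finsupp.mapRange_single, Finsupp.mapDomain_single]

theorem cechsl_aug (M : SAb.{u}) (Y : SSt.{u}) (n : ℕ) (y : Y.obj n) (a : M.obj n) :
    (M.aug Y).app n (Finsupp.single y a : Y.obj n →₀ M.obj n) = a := by
  change Finsupp.liftAddHom (fun _ => AddMonoidHom.id (M.obj n)) (Finsupp.single y a) = a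
  rw [Finsupp.liftAddHom_apply_single]
  rfl

theorem cechsl_ext {M : SAb.{u}} {Y : SSt.{u}} {X : SAb.{u}} {f g : M.fs Y ⟶ X}
    (h : ∀ n y a, f.app n (Finsupp.single y a : Y.obj n →₀ M.obj n) =
      g.app n (Finsupp.single y a : Y.obj n →₀ M.obj n)) : f = g :=
  SAb.Hom.ext (funext fun n => Finsupp.addHom_ext (h n))

/-- `Y ↦ M[Y]` as a functor -/
noncomputable def cechsl_F (M : SAb.{u}) : SSt.{u} ⥤ SAb.{u} where
  obj Y := M.fs Y
  map g := SAb.fsMap (𝟙 M) g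
  map_id Y := cechsl_ext fun n y a => by
    rw [cechsl_single]
    rfl
  map_comp g h := cechsl_ext fun n y a => by
    rw [cechsl_single, SAb.comp_app, cechsl_single, cechsl_single]
    rfl

/-- the bisimplicial abelian group `p ↦ M[cechS f p]` -/
noncomputable def cechsl_A {G P : SGp.{u}} (M : SAb.{u}) (f : G ⟶ P) : SOb SAb.{u} :=
  (SOb.mapF (cechsl_F M)).obj (cech f)

theorem cechsl_fsMap_bij {M : SAb.{u}} {Y Y' : SSt.{u}} (g : Y ⟶ Y') (g' : Y' ⟶ Y)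
    (h : g ≫ g' = 𝟙 _) (h' : g' ≫ g = 𝟙 _) (n : ℕ) :
    Bijective ((SAb.fsMap (𝟙 M) g).app n) := by
  have h1 : SAb.fsMap (𝟙 M) g ≫ SAb.fsMap (𝟙 M) g' = 𝟙 _ := by
    have := (cechsl_F M).map_comp g g'
    rw [h, (cechsl_F M).map_id] at this
    exact this.symm
  have h2 : SAb.fsMap (𝟙 M) g' ≫ SAb.fsMap (𝟙 M) g = 𝟙 _ := by
    have := (cechsl_F M).map_comp g' g
    rw [h', (cechsl_F M).map_id] at this
    exact this.symm
  refine ⟨LeftInverse.injective (g := (SAb.fsMap (𝟙 M) g').app n) fun x => ?_,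
    RightInverse.surjective (g := (SAb.fsMap (𝟙 M) g').app n) fun x => ?_⟩
  · exact congrArg (fun e : M.fs Y ⟶ M.fs Y => e.app n x) h1
  · exact congrArg (fun e : M.fs Y' ⟶ M.fs Y' => e.app n x) h2

/-! ### the double kernel -/

theorem cechsl_fs_aug {M M' : SAb.{u}} (h : M ⟶ M') (Y : SSt.{u}) :
    SAb.fsMap h (𝟙 Y) ≫ M'.aug Y = M.aug Y ≫ h := cechsl_ext fun n y a => by
  rw [SAb.comp_app, cechsl_single, SAb.comp_app, cechsl_aug, cechsl_aug]

/-- `(N.red K).red K → N[K][K]` -/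
noncomputable def cechsl_ι (N : SAb.{u}) (K : SSt.{u}) : (N.red K).red K ⟶ (N.fs K).fs K :=
  SAb.kerι ((N.red K).aug K) ≫ SAb.fsMap (SAb.kerι (N.aug K)) (𝟙 K)

theorem cechsl_ι_inj (N : SAb.{u}) (K : SSt.{u}) (n : ℕ) :
    Injective ((cechsl_ι N K).app n) := by
  intro x y h
  refine Subtype.ext (Finsupp.ext fun k => Subtype.ext ?_)
  change Finsupp.mapDomain (fun k : K.obj n => k) (Finsupp.mapRange _ (map_zero _) x.1) =
    Finsupp.mapDomain (fun k : K.obj n => k) (Finsupp.mapRange _ (map_zero _) y.1) at h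
  rw [show (fun k : K.obj n => k) = id from rfl, Finsupp.mapDomain_id, Finsupp.mapDomain_id] at h
  exact congrArg (fun e : K.obj n →₀ (K.obj n →₀ N.obj n) => e k) h

/-- elements of `M[Y]` as functions -/
def cechsl_co {M : SAb.{u}} {Y : SSt.{u}} {n : ℕ} (x : (M.fs Y).obj n) : Y.obj n →₀ M.obj n := x

theorem cechsl_co_ext {M : SAb.{u}} {Y : SSt.{u}} {n : ℕ} {x y : (M.fs Y).obj n}
    (h : ∀ k, cechsl_co x k = cechsl_co y k) : x = y := Finsupp.ext (f := cechsl_co x) h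

theorem cechsl_fs_id {M M' : SAb.{u}} (h : M ⟶ M') (Y : SSt.{u}) (n : ℕ)
    (x : (M.fs Y).obj n) (y : Y.obj n) :
    cechsl_co ((SAb.fsMap h (𝟙 Y)).app n x) y = h.app n (cechsl_co x y) := by
  change Finsupp.mapDomain (fun k : Y.obj n => k) (Finsupp.mapRange _ (map_zero _)
    (cechsl_co x)) y = _
  rw [show (fun k : Y.obj n => k) = id from rfl, Finsupp.mapDomain_id]
  rfl

/-- the image of `(N.red K).red K` in `N[K][K]` -/
theorem cechsl_ι_ex (N : SAb.{u}) (K : SSt.{u}) (n : ℕ) (z : ((N.fs K).fs K).obj n) :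
    (∃ x, (cechsl_ι N K).app n x = z) ↔
      (SAb.fsMap (N.aug K) (𝟙 K)).app n z = 0 ∧ ((N.fs K).aug K).app n z = 0 := by
  constructor
  · rintro ⟨x, rfl⟩
    constructor
    · refine cechsl_co_ext fun k => ?_
      rw [cechsl_fs_id]
      change (N.aug K).app n (cechsl_co ((SAb.fsMap (SAb.kerι (N.aug K)) (𝟙 K)).app n x.1) k) = 0
      rw [cechsl_fs_id]
      exact (cechsl_co x.1 k).2
    · have e := congrArg (fun e : (N.red K).fs K ⟶ N.fs K => e.app n x.1)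
        (cechsl_fs_aug (SAb.kerι (N.aug K)) K)
      refine e.trans ?_
      exact (congrArg ((SAb.kerι (N.aug K)).app n)
        (show ((N.red K).aug K).app n x.1 = 0 from x.2)).trans (map_zero _)
  · rintro ⟨h1, h2⟩
    have h3 : ∀ k : K.obj n, (N.aug K).app n (cechsl_co z k) = 0 := by
      intro k
      rw [← cechsl_fs_id, h1]
      rfl
    classical
    let v : K.obj n →₀ (N.red K).obj n :=
      Finsupp.onFinset (cechsl_co z).support
        (fun k => (⟨cechsl_co z k, h3 k⟩ : (N.red K).obj n)) fun k hk => by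
        rw [Finsupp.mem_support_iff]
        intro h
        exact hk (Subtype.ext h)
    have hv : (SAb.fsMap (SAb.kerι (N.aug K)) (𝟙 K)).app n v = z := by
      refine cechsl_co_ext fun k => ?_
      rw [cechsl_fs_id]
      rfl
    have h4 : ((N.red K).aug K).app n v = 0 := by
      have e := congrArg (fun e : (N.red K).fs K ⟶ N.fs K => e.app n v)
        (cechsl_fs_aug (SAb.kerι (N.aug K)) K)
      change ((N.fs K).aug K).app n ((SAb.fsMap (SAb.kerι (N.aug K)) (𝟙 K)).app n v) =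
        (SAb.kerι (N.aug K)).app n (((N.red K).aug K).app n v) at e
      rw [hv, h2] at e
      exact Subtype.ext e.symm
    exact ⟨⟨v, h4⟩, hv⟩

/-! ### coordinates on the Čech nerve -/

section

variable {G P : SGp.{u}} (f : G ⟶ P) (p : ℕ)

/-- `(y, k) ↦ (y_0 k, y_0, .., y_p)` -/
def cechsl_b1 : (cechS f p).prod (SGp.ker f).und ⟶ cechS f (p + 1) where
  app n x := ⟨Fin.cons (x.1.1 0 * x.2.1) x.1.1, by
    have h : ∀ i, f.app n ((Fin.cons (x.1.1 0 * x.2.1) x.1.1 : Fin (p + 2) → G.obj n) i) =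
        f.app n (x.1.1 0) := by
      intro i
      refine Fin.cases ?_ (fun i => ?_) i
      · rw [Fin.cons_zero, map_mul, show f.app n x.2.1 = 1 from x.2.2, mul_one]
      · rw [Fin.cons_succ]
        exact x.1.2 _ _
    intro i j
    rw [h, h]⟩
  nat {m n} θ x := Subtype.ext (funext fun i => by
    refine Fin.cases ?_ (fun i => ?_) i
    · exact (map_mul (G.map θ) _ _).symm
    · rfl)

/-- `x ↦ ((x_1, ..), x_1⁻¹ x_0)` -/
def cechsl_a1 : cechS f (p + 1) ⟶ (cechS f p).prod (SGp.ker f).und where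
  app n x := (⟨fun i => x.1 i.succ, fun i j => x.2 _ _⟩, ⟨(x.1 1)⁻¹ * x.1 0, by
    rw [MonoidHom.mem_ker, map_mul, map_inv, x.2 1 0, inv_mul_cancel]⟩)
  nat {m n} θ x := Prod.ext rfl (Subtype.ext (by
    change (G.map θ (x.1 1))⁻¹ * G.map θ (x.1 0) = G.map θ ((x.1 1)⁻¹ * x.1 0)
    rw [map_mul, map_inv]))

theorem cechsl_ab1 : cechsl_a1 f p ≫ cechsl_b1 f p = 𝟙 _ :=
  SSt.hom_ext fun n x => Subtype.ext (funext fun i => by
    refine Fin.cases ?_ (fun i => ?_) i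
    · exact mul_inv_cancel_left (x.1 1) (x.1 0)
    · rfl)

theorem cechsl_ba1 : cechsl_b1 f p ≫ cechsl_a1 f p = 𝟙 _ :=
  SSt.hom_ext fun n x => Prod.ext rfl (Subtype.ext (by
    exact inv_mul_cancel_left (x.1.1 0) x.2.1))

/-- `(y, k_0, k_1) ↦ (y_0 k_0, y_0 k_1, y_0, .., y_p)` -/
def cechsl_b2 : (cechS f p).prod ((SGp.ker f).und.prod (SGp.ker f).und) ⟶ cechS f (p + 2) where
  app n x := ⟨Fin.cons (x.1.1 0 * x.2.1.1) (Fin.cons (x.1.1 0 * x.2.2.1) x.1.1 :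
      Fin (p + 2) → G.obj n), by
    have h : ∀ i, f.app n ((Fin.cons (x.1.1 0 * x.2.1.1) (Fin.cons (x.1.1 0 * x.2.2.1) x.1.1 :
        Fin (p + 2) → G.obj n) : Fin (p + 3) → G.obj n) i) = f.app n (x.1.1 0) := by
      intro i
      refine Fin.cases ?_ (fun i => ?_) i
      · rw [Fin.cons_zero, map_mul, show f.app n x.2.1.1 = 1 from x.2.1.2, mul_one]
      · rw [Fin.cons_succ]
        refine Fin.cases ?_ (fun i => ?_) i
        · rw [Fin.cons_zero, map_mul, show f.app n x.2.2.1 = 1 from x.2.2.2, mul_one]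
        · rw [Fin.cons_succ]
          exact x.1.2 _ _
    intro i j
    rw [h, h]⟩
  nat {m n} θ x := Subtype.ext (funext fun i => by
    refine Fin.cases ?_ (fun i => ?_) i
    · exact (map_mul (G.map θ) _ _).symm
    · refine Fin.cases ?_ (fun i => ?_) i
      · exact (map_mul (G.map θ) _ _).symm
      · rfl)

/-- `x ↦ ((x_2, ..), x_2⁻¹ x_0, x_2⁻¹ x_1)` -/
def cechsl_a2 : cechS f (p + 2) ⟶ (cechS f p).prod ((SGp.ker f).und.prod (SGp.ker f).und) where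
  app n x := (⟨fun i => x.1 i.succ.succ, fun i j => x.2 _ _⟩,
    (⟨(x.1 (Fin.succ (Fin.succ 0)))⁻¹ * x.1 0, by
      rw [MonoidHom.mem_ker, map_mul, map_inv, x.2 (Fin.succ (Fin.succ 0)) 0, inv_mul_cancel]⟩,
     ⟨(x.1 (Fin.succ (Fin.succ 0)))⁻¹ * x.1 (Fin.succ 0), by
      rw [MonoidHom.mem_ker, map_mul, map_inv, x.2 (Fin.succ (Fin.succ 0)) (Fin.succ 0),
        inv_mul_cancel]⟩))
  nat {m n} θ x := Prod.ext rfl (Prod.ext (Subtype.ext (by
    change (G.map θ (x.1 (Fin.succ (Fin.succ 0))))⁻¹ * G.map θ (x.1 0) =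
      G.map θ ((x.1 (Fin.succ (Fin.succ 0)))⁻¹ * x.1 0)
    rw [map_mul, map_inv])) (Subtype.ext (by
    change (G.map θ (x.1 (Fin.succ (Fin.succ 0))))⁻¹ * G.map θ (x.1 (Fin.succ 0)) =
      G.map θ ((x.1 (Fin.succ (Fin.succ 0)))⁻¹ * x.1 (Fin.succ 0))
    rw [map_mul, map_inv])))

theorem cechsl_ab2 : cechsl_a2 f p ≫ cechsl_b2 f p = 𝟙 _ :=
  SSt.hom_ext fun n x => Subtype.ext (funext fun i => by
    refine Fin.cases ?_ (fun i => ?_) i
    · exact mul_inv_cancel_left (x.1 (Fin.succ (Fin.succ 0))) (x.1 0)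
    · refine Fin.cases ?_ (fun i => ?_) i
      · exact mul_inv_cancel_left (x.1 (Fin.succ (Fin.succ 0))) (x.1 (Fin.succ 0))
      · rfl)

theorem cechsl_ba2 : cechsl_b2 f p ≫ cechsl_a2 f p = 𝟙 _ :=
  SSt.hom_ext fun n x => Prod.ext rfl (Prod.ext (Subtype.ext (by
    exact inv_mul_cancel_left (x.1.1 0) x.2.1.1)) (Subtype.ext (by
    exact inv_mul_cancel_left (x.1.1 0) x.2.2.1)))

theorem cechsl_d0 (n : ℕ) (y : (cechS f p).obj n) (k0 k1 : (SGp.ker f).und.obj n) :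
    ((cech f).map (dl 0) : cechS f (p + 2) ⟶ cechS f (p + 1)).app n
      ((cechsl_b2 f p).app n (y, (k0, k1))) = (cechsl_b1 f p).app n (y, k1) :=
  Subtype.ext (funext fun i => rfl)

theorem cechsl_d1 (n : ℕ) (y : (cechS f p).obj n) (k0 k1 : (SGp.ker f).und.obj n) :
    ((cech f).map (Mo.bot (dl 0)) : cechS f (p + 2) ⟶ cechS f (p + 1)).app n
      ((cechsl_b2 f p).app n (y, (k0, k1))) = (cechsl_b1 f p).app n (y, k0) :=
  Subtype.ext (funext fun i => by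
    refine Fin.cases ?_ (fun i => ?_) i <;> rfl)

end

theorem cechsl_ext3 {M : SAb.{u}} {Y K L : SSt.{u}} {X : SAb.{u}}
    {f g : ((M.fs Y).fs K).fs L ⟶ X} (h : ∀ n y k l a,
      f.app n (Finsupp.single l (Finsupp.single k (Finsupp.single y a :
        Y.obj n →₀ M.obj n) : K.obj n →₀ (M.fs Y).obj n) : L.obj n →₀ ((M.fs Y).fs K).obj n) =
      g.app n (Finsupp.single l (Finsupp.single k (Finsupp.single y a :
        Y.obj n →₀ M.obj n) : K.obj n →₀ (M.fs Y).obj n) : L.obj n →₀ ((M.fs Y).fs K).obj n)) :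
    f = g := by
  refine cechsl_ext fun n l b => ?_
  have h1 : (f.app n).comp (Finsupp.singleAddHom l : (K.obj n →₀ (M.fs Y).obj n) →+
      (L.obj n →₀ (K.obj n →₀ (M.fs Y).obj n))) =
      (g.app n).comp (Finsupp.singleAddHom l : (K.obj n →₀ (M.fs Y).obj n) →+
      (L.obj n →₀ (K.obj n →₀ (M.fs Y).obj n))) := by
    refine Finsupp.addHom_ext fun k c => ?_
    have h2 : ((f.app n).comp (Finsupp.singleAddHom l : (K.obj n →₀ (Y.obj n →₀ M.obj n)) →+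
        (L.obj n →₀ (K.obj n →₀ (Y.obj n →₀ M.obj n))))).comp (Finsupp.singleAddHom k) =
        ((g.app n).comp (Finsupp.singleAddHom l : (K.obj n →₀ (Y.obj n →₀ M.obj n)) →+
        (L.obj n →₀ (K.obj n →₀ (Y.obj n →₀ M.obj n))))).comp (Finsupp.singleAddHom k) :=
      Finsupp.addHom_ext fun y a => h n y k l a
    exact DFunLike.congr_fun h2 c
  exact DFunLike.congr_fun h1 b


/-! ### the rows of the second kernel -/

theorem cechsl_psi (hP : St_fsProd.{u}) (M : SAb.{u}) {G P : SGp.{u}} (f : G ⟶ P) (p : ℕ) :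
    ∃ (ψ1 : (M.fs (cechS f p)).fs (SGp.ker f).und ⟶ M.fs (cechS f (p + 1)))
      (ψ2 : ((M.fs (cechS f p)).fs (SGp.ker f).und).fs (SGp.ker f).und ⟶
        M.fs (cechS f (p + 2))),
      (∀ n, Bijective (ψ1.app n)) ∧ (∀ n, Bijective (ψ2.app n)) ∧
      ψ2 ≫ SAb.fsMap (𝟙 M) ((cech f).map (dl 0) : cechS f (p + 2) ⟶ cechS f (p + 1)) =
        SAb.fsMap ((M.fs (cechS f p)).aug (SGp.ker f).und) (𝟙 (SGp.ker f).und) ≫ ψ1 ∧
      ψ2 ≫ SAb.fsMap (𝟙 M)
          ((cech f).map (Mo.bot (dl 0)) : cechS f (p + 2) ⟶ cechS f (p + 1)) =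
        ((M.fs (cechS f p)).fs (SGp.ker f).und).aug (SGp.ker f).und ≫ ψ1 := by
  obtain ⟨φ, hφ, hφ', -, -⟩ := hP M (cechS f p) (SGp.ker f).und
  obtain ⟨φa, hφa, hφa', -, -⟩ := hP (M.fs (cechS f p)) (SGp.ker f).und (SGp.ker f).und
  obtain ⟨φb, hφb, hφb', -, -⟩ := hP M (cechS f p) ((SGp.ker f).und.prod (SGp.ker f).und)
  have hb1 := cechsl_fsMap_bij (M := M) (cechsl_b1 f p) (cechsl_a1 f p) (cechsl_ba1 f p)
    (cechsl_ab1 f p)
  have hb2 := cechsl_fsMap_bij (M := M) (cechsl_b2 f p) (cechsl_a2 f p) (cechsl_ba2 f p)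
    (cechsl_ab2 f p)
  have l1 : ∀ (n : ℕ) (y : (cechS f p).obj n) (k l : (SGp.ker f).und.obj n) (a : M.obj n),
      (φa ≫ φb ≫ SAb.fsMap (𝟙 M) (cechsl_b2 f p)).app n (Finsupp.single l (Finsupp.single k
        (Finsupp.single y a : (cechS f p).obj n →₀ M.obj n) :
          (SGp.ker f).und.obj n →₀ (M.fs (cechS f p)).obj n) :
            (SGp.ker f).und.obj n →₀ ((M.fs (cechS f p)).fs (SGp.ker f).und).obj n) =
      (Finsupp.single ((cechsl_b2 f p).app n (y, (k, l))) a :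
        (cechS f (p + 2)).obj n →₀ M.obj n) := by
    intro n y k l a
    refine Eq.trans (congrArg (fun e => (SAb.fsMap (𝟙 M) (cechsl_b2 f p)).app n (φb.app n e))
      (hφa' n k l (Finsupp.single y a : (cechS f p).obj n →₀ M.obj n))) ?_
    refine Eq.trans (congrArg (fun e => (SAb.fsMap (𝟙 M) (cechsl_b2 f p)).app n e)
      (hφb' n y (k, l) a)) ?_
    exact cechsl_single (𝟙 M) (cechsl_b2 f p) n (y, (k, l)) a
  have l2 : ∀ (n : ℕ) (y : (cechS f p).obj n) (k : (SGp.ker f).und.obj n) (a : M.obj n),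
      (φ ≫ SAb.fsMap (𝟙 M) (cechsl_b1 f p)).app n (Finsupp.single k
        (Finsupp.single y a : (cechS f p).obj n →₀ M.obj n) :
          (SGp.ker f).und.obj n →₀ (M.fs (cechS f p)).obj n) =
      (Finsupp.single ((cechsl_b1 f p).app n (y, k)) a :
        (cechS f (p + 1)).obj n →₀ M.obj n) := by
    intro n y k a
    refine Eq.trans (congrArg (fun e => (SAb.fsMap (𝟙 M) (cechsl_b1 f p)).app n e)
      (hφ' n y k a)) ?_
    exact cechsl_single (𝟙 M) (cechsl_b1 f p) n (y, k) a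
  refine ⟨φ ≫ SAb.fsMap (𝟙 M) (cechsl_b1 f p), φa ≫ φb ≫ SAb.fsMap (𝟙 M) (cechsl_b2 f p),
    fun n => (hb1 n).comp (hφ n), fun n => ((hb2 n).comp (hφb n)).comp (hφa n), ?_, ?_⟩
  · refine cechsl_ext3 fun n y k l a => ?_
    refine Eq.trans (congrArg (fun e => (SAb.fsMap (𝟙 M) ((cech f).map (dl 0) :
      cechS f (p + 2) ⟶ cechS f (p + 1))).app n e) (l1 n y k l a)) ?_
    refine (cechsl_single (𝟙 M) ((cech f).map (dl 0) : cechS f (p + 2) ⟶ cechS f (p + 1)) n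
      _ a).trans ?_
    refine Eq.trans ?_ (congrArg (fun e => (φ ≫ SAb.fsMap (𝟙 M) (cechsl_b1 f p)).app n e)
      (cechsl_single ((M.fs (cechS f p)).aug (SGp.ker f).und) (𝟙 (SGp.ker f).und) n l
        (Finsupp.single k (Finsupp.single y a : (cechS f p).obj n →₀ M.obj n) :
          (SGp.ker f).und.obj n →₀ (M.fs (cechS f p)).obj n))).symm
    refine Eq.trans ?_ (congrArg (fun e => (φ ≫ SAb.fsMap (𝟙 M) (cechsl_b1 f p)).app n
      (Finsupp.single l e : (SGp.ker f).und.obj n →₀ (M.fs (cechS f p)).obj n))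
      (cechsl_aug (M.fs (cechS f p)) (SGp.ker f).und n k
        (Finsupp.single y a : (cechS f p).obj n →₀ M.obj n))).symm
    refine Eq.trans ?_ (l2 n y l a).symm
    exact congrArg (fun e => (Finsupp.single e a : (cechS f (p + 1)).obj n →₀ M.obj n))
      (cechsl_d0 f p n y k l)
  · refine cechsl_ext3 fun n y k l a => ?_
    refine Eq.trans (congrArg (fun e => (SAb.fsMap (𝟙 M) ((cech f).map (Mo.bot (dl 0)) :
      cechS f (p + 2) ⟶ cechS f (p + 1))).app n e) (l1 n y k l a)) ?_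
    refine (cechsl_single (𝟙 M) ((cech f).map (Mo.bot (dl 0)) :
      cechS f (p + 2) ⟶ cechS f (p + 1)) n _ a).trans ?_
    refine Eq.trans ?_ (congrArg (fun e => (φ ≫ SAb.fsMap (𝟙 M) (cechsl_b1 f p)).app n e)
      (cechsl_aug ((M.fs (cechS f p)).fs (SGp.ker f).und) (SGp.ker f).und n l
        (Finsupp.single k (Finsupp.single y a : (cechS f p).obj n →₀ M.obj n) :
          (SGp.ker f).und.obj n →₀ (M.fs (cechS f p)).obj n))).symm
    refine Eq.trans ?_ (l2 n y k a).symm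
    exact congrArg (fun e => (Finsupp.single e a : (cechS f (p + 1)).obj n →₀ M.obj n))
      (cechsl_d1 f p n y k l)

/-- a homomorphism to a kernel -/
def cechsl_lift {X Y Z : SAb.{u}} (g : X ⟶ Y) (d : Y ⟶ Z)
    (h : ∀ n x, d.app n (g.app n x) = 0) : X ⟶ SAb.ker d :=
  ⟨fun n => (g.app n).codRestrict _ (h n), fun θ x => Subtype.ext (g.nat θ x)⟩

theorem cechsl_image (N : SAb.{u}) (K : SSt.{u}) {B1 B2 : SAb.{u}} (ψ1 : N.fs K ⟶ B1)
    (ψ2 : (N.fs K).fs K ⟶ B2) (d0 d1 : B2 ⟶ B1) (h1 : ∀ n, Bijective (ψ1.app n))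
    (h2 : ∀ n, Bijective (ψ2.app n)) (e0 : ψ2 ≫ d0 = SAb.fsMap (N.aug K) (𝟙 K) ≫ ψ1)
    (e1 : ψ2 ≫ d1 = (N.fs K).aug K ≫ ψ1) :
    ∃ θ : (N.red K).red K ⟶ B2, (∀ n, Injective (θ.app n)) ∧
      ∀ n z, (∃ x, θ.app n x = z) ↔ d0.app n z = 0 ∧ d1.app n z = 0 := by
  have e0' : ∀ n w, d0.app n (ψ2.app n w) = ψ1.app n ((SAb.fsMap (N.aug K) (𝟙 K)).app n w) :=
    fun n w => congrArg (fun e : (N.fs K).fs K ⟶ B1 => e.app n w) e0
  have e1' : ∀ n w, d1.app n (ψ2.app n w) = ψ1.app n (((N.fs K).aug K).app n w) :=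
    fun n w => congrArg (fun e : (N.fs K).fs K ⟶ B1 => e.app n w) e1
  refine ⟨cechsl_ι N K ≫ ψ2, fun n => (h2 n).1.comp (cechsl_ι_inj N K n), fun n z => ?_⟩
  obtain ⟨w, rfl⟩ := (h2 n).2 z
  rw [e0', e1', ← map_zero (ψ1.app n), (h1 n).1.eq_iff, (h1 n).1.eq_iff, ← cechsl_ι_ex]
  exact ⟨fun ⟨x, hx⟩ => ⟨x, (h2 n).1 hx⟩, fun ⟨x, hx⟩ => ⟨x, congrArg (ψ2.app n) hx⟩⟩

theorem cechsl_rows (hP : St_fsProd.{u}) (hR : St_redTriv.{u}) (hE : St_AbEx.{u}) (M : SAb.{u})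
    {G P : SGp.{u}} (f : G ⟶ P) (n' : ℕ) (hK : HTriv n' (SGp.ker f).und) (p : ℕ) :
    SAb.Triv (0 + n' + n') ((kerBA (kerBA (cechsl_A M f).decπ).decπ).obj p) := by
  obtain ⟨ψ1, ψ2, h1, h2, e0, e1⟩ := cechsl_psi hP M f p
  obtain ⟨θ, hθ, hθ'⟩ := cechsl_image _ _ ψ1 ψ2 _ _ h1 h2 e0 e1
  let η : ((M.fs (cechS f p)).red (SGp.ker f).und).red (SGp.ker f).und ⟶
      (kerBA (kerBA (cechsl_A M f).decπ).decπ).obj p :=
    cechsl_lift (cechsl_lift θ ((cechsl_A M f).decπ.app (p + 1))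
      fun n x => ((hθ' n _).1 ⟨x, rfl⟩).1) ((kerBA (cechsl_A M f).decπ).decπ.app p)
      fun n x => Subtype.ext ((hθ' n _).1 ⟨x, rfl⟩).2
  have hη : ∀ n, Bijective (η.app n) := by
    intro n
    constructor
    · intro x y h
      exact hθ n (congrArg (fun e => e.1.1) h)
    · rintro ⟨⟨z, hz⟩, hz'⟩
      obtain ⟨x, hx⟩ := (hθ' n z).2 ⟨hz, congrArg Subtype.val hz'⟩
      exact ⟨x, Subtype.ext (Subtype.ext hx)⟩
  refine cechsl_triv η (cechsl_iso hE η hη) _ ?_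
  exact hR _ _ _ _ (hR 0 n' _ _ (fun j hj => absurd hj (Nat.not_lt_zero j)) hK) hK

/-! ### the constant simplicial abelian group `ℤ` -/

theorem cechsl_int (hS : St_Sl.{u}) (j : ℕ) : (SAb.const (ULift.{u} ℤ)).SlAt j := by
  have h0 : Sl (Multiplicative (ULift.{u} ℤ)) := by
    intro H
    obtain ⟨H', rfl⟩ := (AddSubgroup.toSubgroup (A := ULift.{u} ℤ)).surjective H
    rw [← AddSubgroup.fg_iff_mul_fg]
    have : IsNoetherian ℤ (ULift.{u} ℤ) :=
      isNoetherian_of_linearEquiv (ULift.moduleEquiv (R := ℤ) (M := ℤ)).symm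
    exact (Submodule.fg_iff_addSubgroup_fg _).1
      (IsNoetherian.noetherian (AddSubgroup.toIntSubmodule H'))
  have h1 : Sl ((SAb.gp.obj (SAb.const (ULift.{u} ℤ))).Z j) :=
    hS.1 ((SAb.gp.obj (SAb.const (ULift.{u} ℤ))).Z j).subtype Subtype.val_injective h0
  exact hS.2.1 ((SAb.gp.obj (SAb.const (ULift.{u} ℤ))).cls j) (SGp.cls_surj _ j) h1

/-! ### the diagonal -/

/-- `diag A → ℤ[diag (cech f)]` -/
noncomputable def cechsl_dg (M : SAb.{u}) {G P : SGp.{u}} (f : G ⟶ P) :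
    SAb.diag (cechsl_A M f) ⟶ M.fs (SSt.diag (cech f)) :=
  ⟨fun n => AddMonoidHom.id (M.fs (cechS f n) |>.obj n), fun {m n} θ x => by
    have h : (SAb.diag (cechsl_A M f)).map θ = (M.fs (SSt.diag (cech f))).map θ := by
      refine Finsupp.addHom_ext fun y a => ?_
      change Finsupp.mapDomain _ (Finsupp.mapRange _ (map_zero _) (Finsupp.mapDomain _
        (Finsupp.mapRange _ (map_zero _) (Finsupp.single y a)))) =
          Finsupp.mapDomain _ (Finsupp.mapRange _ (map_zero _) (Finsupp.single y a))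
      rw [Finsupp.mapRange_single, Finsupp.mapDomain_single, Finsupp.mapRange_single,
        Finsupp.mapDomain_single, Finsupp.mapRange_single, Finsupp.mapDomain_single]
      rfl
    exact DFunLike.congr_fun h x⟩

/-- `cechS f 0 → G` -/
def cechsl_g {G P : SGp.{u}} (f : G ⟶ P) : cechS f 0 ⟶ G.und :=
  ⟨fun n x => x.1 0, fun _ _ => rfl⟩

/-- `G → cechS f 0` -/
def cechsl_g' {G P : SGp.{u}} (f : G ⟶ P) : G.und ⟶ cechS f 0 :=
  ⟨fun n x => ⟨fun _ => x, fun _ _ => rfl⟩, fun _ _ => rfl⟩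

theorem cechsl_gg {G P : SGp.{u}} (f : G ⟶ P) : cechsl_g f ≫ cechsl_g' f = 𝟙 _ :=
  SSt.hom_ext fun n x => Subtype.ext (funext fun i => by
    rw [show i = 0 from Fin.ext (by omega)]
    rfl)

theorem cechsl_gg' {G P : SGp.{u}} (f : G ⟶ P) : cechsl_g' f ≫ cechsl_g f = 𝟙 _ :=
  SSt.hom_ext fun n x => rfl

/-! ### the retract -/

/-- `M → M[Y]` for a point of `Y` -/
noncomputable def cechsl_pt (M : SAb.{u}) {Y : SSt.{u}} (e : ∀ n, Y.obj n)
    (he : ∀ {m n : ℕ} (θ : Mo m n), Y.map θ (e n) = e m) : M ⟶ M.fs Y :=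
  ⟨fun n => (Finsupp.singleAddHom (e n) : M.obj n →+ (Y.obj n →₀ M.obj n)), fun {m n} θ x => by
    change (Finsupp.single (e m) (M.map θ x) : Y.obj m →₀ M.obj m) =
      Finsupp.mapDomain _ (Finsupp.mapRange _ (map_zero _) (Finsupp.single (e n) x))
    rw [Finsupp.mapRange_single, Finsupp.mapDomain_single, he]⟩

theorem cechsl_retract (hS : St_Sl.{u}) (M : SAb.{u}) (Y K : SSt.{u}) (e : ∀ n, Y.obj n)
    (he : ∀ {m n : ℕ} (θ : Mo m n), Y.map θ (e n) = e m) (j : ℕ)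
    (h : ((M.fs Y).red K).SlAt j) : (M.red K).SlAt j := by
  let a : M.red K ⟶ (M.fs Y).red K :=
    SAb.kerMap (SAb.fsMap (cechsl_pt M e he) (𝟙 K)) (cechsl_pt M e he)
      (cechsl_fs_aug (cechsl_pt M e he) K).symm
  let b : (M.fs Y).red K ⟶ M.red K :=
    SAb.kerMap (SAb.fsMap (M.aug Y) (𝟙 K)) (M.aug Y) (cechsl_fs_aug (M.aug Y) K).symm
  have hab : a ≫ b = 𝟙 _ := by
    refine SAb.hom_ext fun n x => Subtype.ext ?_
    refine cechsl_co_ext (M := M) (Y := K) fun k => ?_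
    change cechsl_co ((SAb.fsMap (M.aug Y) (𝟙 K)).app n
      ((SAb.fsMap (cechsl_pt M e he) (𝟙 K)).app n x.1)) k = cechsl_co x.1 k
    rw [cechsl_fs_id, cechsl_fs_id]
    exact cechsl_aug M Y n (e n) _
  refine hS.2.1 (SGp.PiMap (SAb.gp.map b) j) (fun y => ⟨SGp.PiMap (SAb.gp.map a) j y, ?_⟩) h
  rw [← SGp.PiMap_comp, ← Functor.map_comp, hab]
  exact SGp.PiMap_id _ _ _

/-! ### the theorem -/

theorem thm_CechSl (hS : St_Sl.{u}) (hC : St_Cech.{u}) (hCZ : St_CechZ.{u})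
    (hF : St_fsStrong.{u}) (hP : St_fsProd.{u}) (hR : St_redTriv.{u}) (hE : St_AbEx.{u})
    (hA : St_AbReal.{u}) : St_CechSl.{u} := by
  intro G P f n' R hf hK hRn hG hPj j hj
  let M : SAb.{u} := SAb.const (ULift.{u} ℤ)
  let A : SOb SAb.{u} := cechsl_A M f
  obtain ⟨-, -, -, hA4, -, -, hA7, hA8⟩ := hA
  -- (i)
  have hdA : ∀ i ≤ R, (SAb.diag A).SlAt i := fun i hi =>
    cechsl_slX hS (cechsl_dg M f) (cechsl_iso hE _ fun n => bijective_id) i
      (cechsl_slX hS (SAb.fsMap (𝟙 M) (cechAug f)) (hF M (cechAug f) (hC f hf)) i (hPj i hi))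
  have hA0 : (A.obj 0).SlAt j :=
    cechsl_slX hS (SAb.fsMap (𝟙 M) (cechsl_g f)) (cechsl_iso hE _
      (cechsl_fsMap_bij (cechsl_g f) (cechsl_g' f) (cechsl_gg f) (cechsl_gg' f))) j (hG j hj)
  have hdec : (SAb.diag A.dec).SlAt j := cechsl_slX hS (decAugA A) (hA7 A) j hA0
  have hΩ : (SAb.diag (kerBA A.decπ)).SlAt j :=
    (hE _ _ (hA8 A) 0).2.2.2.2.2.2.2.2.1 j hdec (hdA (j + 1) hj)
  -- (ii)
  have hΩ' : (SAb.diag (kerBA (kerBA A.decπ).decπ)).SlAt j :=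
    cechsl_sl_triv _ (0 + n' + n') (hA4 _ _ (cechsl_rows hP hR hE M f n' hK)) j (by omega)
  have hΩdec : (SAb.diag (kerBA A.decπ).dec).SlAt j :=
    (hE _ _ (hA8 (kerBA A.decπ)) 0).2.2.2.2.2.2.2.1 j hΩ' hΩ
  have hΩ0 : ((kerBA A.decπ).obj 0).SlAt j :=
    cechsl_slY hS (decAugA (kerBA A.decπ)) (hA7 _) j hΩdec
  -- (iii)
  obtain ⟨φ, hφ⟩ := (hCZ f 0).2 M
  have h1 : ((M.fs (cechS f 0)).red (SGp.ker f).und).SlAt j :=
    cechsl_slX hS φ (cechsl_iso hE φ hφ) j hΩ0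
  have h2 : (M.red (SGp.ker f).und).SlAt j :=
    cechsl_retract hS M (cechS f 0) (SGp.ker f).und (fun n => ⟨fun _ => 1, fun _ _ => rfl⟩)
      (fun {m n} θ => Subtype.ext (funext fun i => map_one (G.map θ))) j h1
  exact (hE _ _ (cechsl_kerSES (M.aug (SGp.ker f).und) fun n a =>
    ⟨(Finsupp.single (1 : (SGp.ker f).obj n) a : (SGp.ker f).obj n →₀ M.obj n),
      cechsl_aug M (SGp.ker f).und n (1 : (SGp.ker f).obj n) a⟩) 0).2.2.2.2.2.2.2.1 j h2 (cechsl_int hS j)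

end Pool.Agent.FGK
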