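import Pool.Agent.FGK.StA

/-!
# FGK CechZ: the Cech nerve in the direction of the vertex `0`
-/

set_option autoImplicit false
set_option linter.unusedVariables false

namespace Pool.Agent.FGK

open CategoryTheory Function Pool.Agent.KQ

universe u

theorem cechz_fsMap_comp (M : SAb.{u}) {X Y Z : SSt.{u}} (g : X ⟶ Y) (h : Y ⟶ Z) :
    SAb.fsMap (𝟙 M) g ≫ SAb.fsMap (𝟙 M) h = SAb.fsMap (𝟙 M) (g ≫ h) := by
  refine SAb.hom_ext fun n x => ?_
  change Finsupp.mapDomain (h.app n) (Finsupp.mapRange (SAb.Hom.app (𝟙 M) n) (map_zero _)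
      (Finsupp.mapDomain (g.app n) (Finsupp.mapRange (SAb.Hom.app (𝟙 M) n) (map_zero _) x))) =
      Finsupp.mapDomain ((g ≫ h).app n) (Finsupp.mapRange (SAb.Hom.app (𝟙 M) n) (map_zero _) x)
  induction x using Finsupp.induction_linear with
  | zero => simp
  | add a b ha hb =>
    rw [Finsupp.mapRange_add (map_add _), Finsupp.mapDomain_add, Finsupp.mapRange_add (map_add _),
      Finsupp.mapDomain_add, ha, hb, Finsupp.mapDomain_add]
  | single a b =>
    rw [Finsupp.mapRange_single, Finsupp.mapDomain_single, Finsupp.mapRange_single,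
      Finsupp.mapDomain_single, Finsupp.mapDomain_single]
    rfl

theorem cechz_fsMap_id (M : SAb.{u}) (X : SSt.{u}) :
    SAb.fsMap (𝟙 M) (𝟙 X) = 𝟙 (M.fs X) := by
  refine SAb.hom_ext fun n x => ?_
  change Finsupp.mapDomain (SSt.Hom.app (𝟙 X) n) (Finsupp.mapRange (SAb.Hom.app (𝟙 M) n)
      (map_zero _) x) = x
  induction x using Finsupp.induction_linear with
  | zero => simp
  | add a b ha hb =>
    rw [Finsupp.mapRange_add (map_add _), Finsupp.mapDomain_add, ha, hb]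
  | single a b =>
    rw [Finsupp.mapRange_single, Finsupp.mapDomain_single]
    rfl

theorem cechz_fsMap_bij (M : SAb.{u}) {X Y : SSt.{u}} (g : X ⟶ Y) (h : Y ⟶ X)
    (h1 : g ≫ h = 𝟙 X) (h2 : h ≫ g = 𝟙 Y) (n : ℕ) : Bijective ((SAb.fsMap (𝟙 M) g).app n) := by
  refine Function.bijective_iff_has_inverse.2 ⟨(SAb.fsMap (𝟙 M) h).app n, fun x => ?_, fun x => ?_⟩
  · have := congrArg (fun e : M.fs X ⟶ M.fs X => e.app n x) (cechz_fsMap_comp M g h)
    rw [h1, cechz_fsMap_id] at this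
    exact this
  · have := congrArg (fun e : M.fs Y ⟶ M.fs Y => e.app n x) (cechz_fsMap_comp M h g)
    rw [h2, cechz_fsMap_id] at this
    exact this

section

variable {G H : SGp.{u}} (f : G ⟶ H) (p : ℕ)

/-- `x ↦ ((x_1, .., x_(p+1)), x_1⁻¹ x_0)` -/
def cechz_a : cechS f (p + 1) ⟶ (cechS f p).prod (SGp.ker f).und where
  app n x := (((cech f).map (dl 0)).app n x, ⟨(x.1 1)⁻¹ * x.1 0, by
    change f.app n _ = 1
    rw [map_mul, map_inv, x.2 1 0, inv_mul_cancel]⟩)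
  nat {m n} θ x := by
    refine Prod.ext rfl (Subtype.ext ?_)
    change (G.map θ (x.1 1))⁻¹ * G.map θ (x.1 0) = G.map θ ((x.1 1)⁻¹ * x.1 0)
    rw [map_mul, map_inv]

/-- `(y, k) ↦ (y_0 k, y_0, .., y_p)` -/
def cechz_b : (cechS f p).prod (SGp.ker f).und ⟶ cechS f (p + 1) where
  app n y := ⟨Fin.cons (y.1.1 0 * y.2.1) y.1.1, by
    have h0 : f.app n (y.1.1 0 * y.2.1) = f.app n (y.1.1 0) := by
      rw [map_mul, show f.app n y.2.1 = 1 from y.2.2, mul_one]
    intro i j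
    refine Fin.cases ?_ (fun i => ?_) i <;> refine Fin.cases ?_ (fun j => ?_) j
    · rfl
    · rw [Fin.cons_zero, Fin.cons_succ, h0]
      exact y.1.2 _ _
    · rw [Fin.cons_zero, Fin.cons_succ, h0]
      exact y.1.2 _ _
    · rw [Fin.cons_succ, Fin.cons_succ]
      exact y.1.2 _ _⟩
  nat {m n} θ y := by
    refine Subtype.ext (funext fun i => ?_)
    refine Fin.cases ?_ (fun i => ?_) i
    · change G.map θ (y.1.1 0) * G.map θ y.2.1 = G.map θ (y.1.1 0 * y.2.1)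
      rw [map_mul]
    · rfl

/-- the operator which omits `x_0` -/
def cechz_d : cechS f (p + 1) ⟶ cechS f p := (cech f).map (dl 0)

theorem cechz_bd : cechz_b f p ≫ cechz_d f p =
    (⟨fun _ x => x.1, fun _ _ => rfl⟩ : (cechS f p).prod (SGp.ker f).und ⟶ cechS f p) :=
  SSt.hom_ext fun n y => Subtype.ext (funext fun i => rfl)

theorem cechz_ab : cechz_a f p ≫ cechz_b f p = 𝟙 _ := by
  refine SSt.hom_ext fun n x => Subtype.ext (funext fun i => ?_)
  refine Fin.cases ?_ (fun i => ?_) i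
  · change x.1 ((dl 0 : Mo p (p + 1)) 0) * ((x.1 1)⁻¹ * x.1 0) = x.1 0
    rw [show (dl 0 : Mo p (p + 1)) 0 = 1 from rfl, mul_inv_cancel_left]
  · rfl

theorem cechz_ba : cechz_b f p ≫ cechz_a f p = 𝟙 _ := by
  refine SSt.hom_ext fun n y => Prod.ext (Subtype.ext (funext fun i => rfl)) (Subtype.ext ?_)
  change (y.1.1 0)⁻¹ * (y.1.1 0 * y.2.1) = y.2.1
  rw [inv_mul_cancel_left]

end

theorem thm_CechZ (hP : St_fsProd.{u}) : St_CechZ.{u} := by
  intro G H f p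
  refine ⟨⟨cechz_a f p, cechz_b f p, cechz_ab f p, cechz_ba f p, fun _ _ => rfl, fun _ _ => rfl⟩,
    fun M => ?_⟩
  obtain ⟨ψ, hψ, -, hfst, -⟩ := hP M (cechS f p) (SGp.ker f).und
  have e2 : (M.fs (cechS f p)).aug (SGp.ker f).und ≫ 𝟙 _ =
      (ψ ≫ SAb.fsMap (𝟙 M) (cechz_b f p)) ≫ SAb.fsMap (𝟙 M) (cechz_d f p) := by
    rw [Category.assoc, cechz_fsMap_comp, cechz_bd, hfst, Category.comp_id]
  have hΨ : ∀ n, Bijective ((ψ ≫ SAb.fsMap (𝟙 M) (cechz_b f p)).app n) := fun n =>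
    (cechz_fsMap_bij M _ _ (cechz_ba f p) (cechz_ab f p) n).comp (hψ n)
  refine ⟨SAb.kerMap (ψ ≫ SAb.fsMap (𝟙 M) (cechz_b f p)) (𝟙 _) e2, fun n => ⟨?_, ?_⟩⟩
  · intro x y hxy
    exact Subtype.ext ((hΨ n).1 (congrArg Subtype.val hxy))
  · rintro ⟨y, hy⟩
    obtain ⟨x, rfl⟩ := (hΨ n).2 y
    refine ⟨⟨x, ?_⟩, rfl⟩
    have := congrArg (fun e : (M.fs (cechS f p)).fs (SGp.ker f).und ⟶ M.fs (cechS f p) =>
      e.app n x) e2
    exact this.trans hy

end Pool.Agent.FGK
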