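import Pool.Agent.FGK.StB
import Pool.Agent.KQ.SR

/-!
# FGK: the circle `B ℤ` has homology of finite type
-/

set_option autoImplicit false
set_option linter.unusedVariables false

namespace Pool.Agent.FGK

open CategoryTheory Function Pool.Agent.KQ

universe u

/-! ### equality on homotopy groups -/

theorem circle_refl {X Y : SSt.{u}} {f g : X ⟶ Y} (h : f = g) : SSt.StrEq f g := by
  subst h
  exact fun _ _ => rfl

theorem circle_trans {X Y : SSt.{u}} {f g h : X ⟶ Y} (h1 : SSt.StrEq f g)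
    (h2 : SSt.StrEq g h) : SSt.StrEq f h := fun Φ n => (h1 Φ n).trans (h2 Φ n)

theorem circle_symm {X Y : SSt.{u}} {f g : X ⟶ Y} (h1 : SSt.StrEq f g) : SSt.StrEq g f :=
  fun Φ n => (h1 Φ n).symm

theorem circle_pre {W X Y : SSt.{u}} (e : W ⟶ X) {f g : X ⟶ Y} (h : SSt.StrEq f g) :
    SSt.StrEq (e ≫ f) (e ≫ g) := by
  intro Φ n
  ext x
  rw [Φ.ap.map_comp, Φ.ap.map_comp, SGp.PiMap_comp, SGp.PiMap_comp, h Φ n]

theorem circle_id (X : SSt.{u}) : SSt.Strong (𝟙 X) := sr_strong_inv _ (𝟙 X) rfl rfl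

/-! ### Cech nerves -/

/-- the fibre product of `p + 1` copies of `Y` over `Z` -/
def circleN {Y Z : SSt.{u}} (f : Y ⟶ Z) (p : ℕ) : SSt.{u} where
  obj n := {x : Fin (p + 1) → Y.obj n // ∀ i j, f.app n (x i) = f.app n (x j)}
  map θ x := ⟨fun i => Y.map θ (x.1 i), fun i j => by rw [f.nat, f.nat, x.2 i j]⟩
  map_id n x := Subtype.ext (funext fun _ => Y.map_id _ _)
  map_comp θ η x := Subtype.ext (funext fun _ => Y.map_comp _ _ _)

/-- the Cech nerve -/
def circleNN {Y Z : SSt.{u}} (f : Y ⟶ Z) : SOb SSt.{u} where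
  obj := circleN f
  map θ := ⟨fun _ x => ⟨fun i => x.1 (θ i), fun i j => x.2 _ _⟩, fun _ _ => rfl⟩
  map_id _ := rfl
  map_comp _ _ := rfl

/-- the augmentation -/
def circleAug {Y Z : SSt.{u}} (f : Y ⟶ Z) : circleNN f ⟶ SOb.const Z :=
  ⟨fun p => ⟨fun n x => f.app n (x.1 0), fun θ x => f.nat θ _⟩,
    fun {m n} θ => SSt.hom_ext fun k x => x.2 (θ 0) 0⟩

theorem circle_aug (hc : St_StrCol.{u}) (hh : St_StrHt.{u}) {Y Z : SSt.{u}} (f : Y ⟶ Z)
    (hf : ∀ n, Surjective (f.app n)) : SSt.Strong (SSt.diagF.map (circleAug f)) := by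
  refine hc _ fun n => ?_
  choose s hs using hf n
  let g : SSt.col (SOb.const Z) n ⟶ SSt.col (circleNN f) n :=
    ⟨fun p (z : Z.obj n) => ⟨fun _ => s z, fun _ _ => rfl⟩, fun θ z => rfl⟩
  refine hh.2.1 _ g ?_ ?_
  · refine hh.1 _ _ ⟨⟨fun p α x => ⟨fun i => if α i then x.1 i else s (f.app n (x.1 0)), ?_⟩,
      ?_, ?_, ?_⟩⟩
    · intro i j
      have h : ∀ i, f.app n (if α i then x.1 i else s (f.app n (x.1 0))) = f.app n (x.1 0) := by
        intro i
        split_ifs
        · exact x.2 i 0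
        · exact hs _
      rw [h i, h j]
    · intro p q θ α x
      refine Subtype.ext (funext fun i => ?_)
      change (if α (θ i) then x.1 (θ i) else s (f.app n (x.1 (θ 0)))) =
        if α (θ i) then x.1 (θ i) else s (f.app n (x.1 0))
      rw [x.2 (θ 0) 0]
    · intro p α x h
      refine Subtype.ext (funext fun i => ?_)
      change (if α i then x.1 i else s (f.app n (x.1 0))) = s (f.app n (x.1 0))
      rw [if_neg (by rw [h i]; exact Bool.false_ne_true)]
    · intro p α x h
      refine Subtype.ext (funext fun i => ?_)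
      change (if α i then x.1 i else s (f.app n (x.1 0))) = x.1 i
      rw [if_pos (h i)]
  · refine circle_refl (SSt.hom_ext fun p (z : Z.obj n) => hs z)

/-! ### the line and the circle -/

/-- the contractible simplicial set of the sequences of integers -/
def circleE : SSt.{u} where
  obj m := ULift.{u} (Fin (m + 1) → ℤ)
  map θ x := ⟨fun i => x.down (θ i)⟩
  map_id _ _ := rfl
  map_comp _ _ _ := rfl

/-- the monotone sequences with at most one step -/
def circleR : SubS circleE.{u} where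
  s m := {x | Monotone x.down ∧ x.down (Fin.last m) ≤ x.down 0 + 1}
  map_mem {m n} θ x h := by
    refine ⟨fun i j hij => h.1 (θ.monotone hij), ?_⟩
    change x.down (θ (Fin.last m)) ≤ x.down (θ 0) + 1
    have h1 := h.1 (Fin.le_last (θ (Fin.last m)))
    have h2 := h.1 (Fin.zero_le (θ 0))
    have h3 := h.2
    omega

/-- everything -/
def circleT : SubS circleE.{u} where
  s m := Set.univ
  map_mem θ x h := trivial

/-- the classifying space -/
def circleB : SSt.{u} := (BG (ULift.{u} ℤ)).gpo.und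

/-- the projection -/
def circleq : circleE.{u} ⟶ circleB.{u} :=
  ⟨fun n x => (⟨fun i j => ⟨x.down j - x.down i⟩, fun i j k => ULift.ext _ _ (by
    change x.down j - x.down i + (x.down k - x.down j) = x.down k - x.down i
    omega)⟩ : BGs (ULift.{u} ℤ) n), fun θ x => rfl⟩

theorem circle_q {n : ℕ} {x y : circleE.{u}.obj n} (h : circleq.app n x = circleq.app n y)
    (i j : Fin (n + 1)) : x.down j - x.down i = y.down j - y.down i := by
  have h1 := congrArg (fun c : BGs (ULift.{u} ℤ) n => (c.1 i j).down) h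
  exact h1

theorem circle_q' {n : ℕ} {x y : circleE.{u}.obj n}
    (h : ∀ i j, x.down j - x.down i = y.down j - y.down i) : circleq.app n x = circleq.app n y := by
  refine Subtype.ext (funext fun i => funext fun j => ULift.ext _ _ ?_)
  exact h i j

/-- the image -/
def circleQ (A : SubS circleE.{u}) : SubS circleB.{u} :=
  ⟨fun n => {c | ∃ x ∈ A.s n, circleq.app n x = c}, fun {m n} θ c => by
    rintro ⟨x, hx, rfl⟩
    exact ⟨_, A.map_mem θ x hx, circleq.nat θ x⟩⟩

/-- the projection to the image -/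
def circleqA (A : SubS circleE.{u}) : A.S ⟶ (circleQ A).S :=
  SubS.mapS circleq A (circleQ A) fun n x hx => ⟨x, hx, rfl⟩

theorem circle_surj (A : SubS circleE.{u}) (n : ℕ) : Surjective ((circleqA A).app n) := by
  rintro ⟨c, x, hx, rfl⟩
  exact ⟨⟨x, hx⟩, rfl⟩

/-- the inclusion of the images -/
def circlej {A A' : SubS circleE.{u}} (h : ∀ n, A.s n ⊆ A'.s n) :
    (circleQ A).S ⟶ (circleQ A').S :=
  SubS.mapS (𝟙 _) (circleQ A) (circleQ A') fun n c => by
    rintro ⟨x, hx, rfl⟩
    exact ⟨x, h n hx, rfl⟩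

/-- the inclusion of the Cech nerves -/
def circleNm {A A' : SubS circleE.{u}} (h : ∀ n, A.s n ⊆ A'.s n) :
    circleNN (circleqA A) ⟶ circleNN (circleqA A') :=
  ⟨fun p => ⟨fun n x => ⟨fun i => ⟨(x.1 i).1, h n (x.1 i).2⟩, fun i j =>
    Subtype.ext (show circleq.app n (x.1 i).1 = circleq.app n (x.1 j).1 from
      congrArg Subtype.val (x.2 i j))⟩, fun θ x => rfl⟩, fun θ => rfl⟩

/-! ### the rows -/

/-- translations -/
def circleTr (A : SubS circleE.{u}) : Prop :=
  ∀ (n : ℕ) (x : circleE.{u}.obj n) (k : ℤ), x ∈ A.s n →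
    (⟨fun i => x.down i + k⟩ : circleE.{u}.obj n) ∈ A.s n

/-- the integral vectors -/
def circleW (p : ℕ) : SSt.{u} := SSt.const (ULift.{u} (Fin p → ℤ))

theorem circle_row {A : SubS circleE.{u}} {p n : ℕ} (x : (circleN (circleqA A) p).obj n)
    (i j : Fin (p + 1)) (k l : Fin (n + 1)) :
    (x.1 i).1.down k - (x.1 j).1.down k = (x.1 i).1.down l - (x.1 j).1.down l := by
  have h := circle_q (congrArg Subtype.val (x.2 i j)) k l
  omega

/-- the comparison of the rows with products -/
def circlea (A : SubS circleE.{u}) (p : ℕ) :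
    circleN (circleqA A) p ⟶ A.S.prod (circleW p) :=
  ⟨fun n x => (x.1 0, ⟨fun i => (x.1 i.succ).1.down 0 - (x.1 0).1.down 0⟩), fun {m n} θ x =>
    Prod.ext rfl (ULift.ext _ _ (funext fun i => circle_row x i.succ 0 (θ 0) 0))⟩

/-- its inverse -/
def circleb {A : SubS circleE.{u}} (hA : circleTr A) (p : ℕ) :
    A.S.prod (circleW p) ⟶ circleN (circleqA A) p :=
  ⟨fun n y => ⟨fun i => ⟨⟨fun k => y.1.1.down k + (Fin.cons 0 y.2.down : Fin (p + 1) → ℤ) i⟩,
    hA n y.1.1 _ y.1.2⟩, fun i j => Subtype.ext (circle_q' fun k l => by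
      change y.1.1.down l + _ - (y.1.1.down k + _) = y.1.1.down l + _ - (y.1.1.down k + _)
      omega)⟩, fun θ y => rfl⟩

theorem circle_ab {A : SubS circleE.{u}} (hA : circleTr A) (p : ℕ) :
    circlea A p ≫ circleb hA p = 𝟙 _ := by
  refine SSt.hom_ext fun n x => Subtype.ext (funext fun i => Subtype.ext (ULift.ext _ _
    (funext fun k => ?_)))
  refine Fin.cases ?_ (fun i => ?_) i
  · change (x.1 0).1.down k + (0 : ℤ) = (x.1 0).1.down k
    omega
  · change (x.1 0).1.down k + ((x.1 i.succ).1.down 0 - (x.1 0).1.down 0) = (x.1 i.succ).1.down k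
    have h := circle_row x i.succ 0 0 k
    omega

theorem circle_ba {A : SubS circleE.{u}} (hA : circleTr A) (p : ℕ) :
    circleb hA p ≫ circlea A p = 𝟙 _ := by
  refine SSt.hom_ext fun n y => Prod.ext (Subtype.ext (ULift.ext _ _ (funext fun k => ?_)))
    (ULift.ext _ _ (funext fun i => ?_))
  · change y.1.1.down k + (0 : ℤ) = y.1.1.down k
    omega
  · change y.1.1.down 0 + y.2.down i - (y.1.1.down 0 + (0 : ℤ)) = y.2.down i
    omega

/-- the projection of the rows -/
def circleδ (A : SubS circleE.{u}) (p : ℕ) : circleN (circleqA A) p ⟶ circleW p :=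
  (circlea A p ≫ SSt.prodMap A.S.toPt (𝟙 (circleW p))) ≫
    (⟨fun _ x => x.2, fun _ _ => rfl⟩ : (SSt.const PUnit.{u + 1}).prod (circleW p) ⟶ circleW p)

theorem circle_δ (hp : St_StrProd.{u}) {A : SubS circleE.{u}} (hA : circleTr A)
    (h : SSt.Contr A.S) (p : ℕ) : SSt.Strong (circleδ A p) := by
  refine sr_strong_comp _ _ (sr_strong_comp _ _ ?_ ?_) ?_
  · exact sr_strong_inv _ (circleb hA p) (circle_ab hA p) (circle_ba hA p)
  · exact hp _ _ h (circle_id _)
  · exact sr_strong_inv _ (⟨fun _ x => (PUnit.unit, x), fun _ _ => rfl⟩ :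
      circleW p ⟶ (SSt.const PUnit.{u + 1}).prod (circleW p)) rfl rfl

/-! ### contractibility -/

/-- the constant sequences -/
def circlex : SSt.const PUnit.{u + 1} ⟶ circleT.{u}.S :=
  ⟨fun n _ => ⟨⟨fun _ => 0⟩, trivial⟩, fun _ _ => rfl⟩

theorem circle_contrT (hh : St_StrHt.{u}) : SSt.Contr circleT.{u}.S := by
  refine hh.2.2 _ circlex (hh.1 _ _ ⟨⟨fun n α x =>
    ⟨⟨fun i => if α i then x.1.down i else 0⟩, trivial⟩, ?_, ?_, ?_⟩⟩)
  · intro m n θ α x
    rfl
  · intro n α x h
    refine Subtype.ext (ULift.ext _ _ (funext fun i => ?_))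
    change (if α i then x.1.down i else 0) = 0
    rw [if_neg (by rw [h i]; exact Bool.false_ne_true)]
  · intro n α x h
    refine Subtype.ext (ULift.ext _ _ (funext fun i => ?_))
    change (if α i then x.1.down i else 0) = x.1.down i
    rw [if_pos (h i)]

/-- the constants -/
def circlec (k : ℤ) : SSt.const PUnit.{u + 1} ⟶ circleR.{u}.S :=
  ⟨fun n _ => ⟨⟨fun _ => k⟩, fun _ _ _ => le_rfl, by change k ≤ k + 1; omega⟩, fun _ _ => rfl⟩

/-- the truncations -/
def circlet (b : ℤ) : circleR.{u}.S ⟶ circleR.{u}.S :=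
  ⟨fun n x => ⟨⟨fun i => min (x.1.down i) b⟩, fun i j hij => min_le_min (x.2.1 hij) le_rfl, by
    change min (x.1.down (Fin.last n)) b ≤ min (x.1.down 0) b + 1
    have h := x.2.2
    omega⟩, fun _ _ => rfl⟩

theorem circle_step_c (hh : St_StrHt.{u}) (k : ℤ) :
    SSt.StrEq (circleR.{u}.S.toPt ≫ circlec k) (circleR.{u}.S.toPt ≫ circlec (k + 1)) := by
  refine hh.1 _ _ ⟨⟨fun n α x => ⟨⟨fun i => if α i then k + 1 else k⟩, ?_, ?_⟩, ?_, ?_, ?_⟩⟩
  · intro i j hij
    have h := α.monotone hij
    change (if α i then k + 1 else k) ≤ if α j then k + 1 else k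
    split_ifs with h1 h2 h2
    · exact le_rfl
    · rw [h1] at h
      exact absurd (top_le_iff.1 h) h2
    · omega
    · exact le_rfl
  · change (if α (Fin.last n) then k + 1 else k) ≤ (if α 0 then k + 1 else k) + 1
    split_ifs <;> omega
  · intro m n θ α x
    rfl
  · intro n α x h
    refine Subtype.ext (ULift.ext _ _ (funext fun i => ?_))
    change (if α i then k + 1 else k) = k
    rw [if_neg (by rw [h i]; exact Bool.false_ne_true)]
  · intro n α x h
    refine Subtype.ext (ULift.ext _ _ (funext fun i => ?_))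
    change (if α i then k + 1 else k) = k + 1
    rw [if_pos (h i)]

theorem circle_step_t (hh : St_StrHt.{u}) (b : ℤ) :
    SSt.StrEq (circlet.{u} b) (circlet.{u} (b + 1)) := by
  refine hh.1 _ _ ⟨⟨fun n α x => ⟨⟨fun i => if α i then min (x.1.down i) (b + 1)
    else min (x.1.down i) b⟩, ?_, ?_⟩, ?_, ?_, ?_⟩⟩
  · intro i j hij
    have h := α.monotone hij
    have h3 := x.2.1 hij
    change (if α i then min (x.1.down i) (b + 1) else min (x.1.down i) b) ≤
      if α j then min (x.1.down j) (b + 1) else min (x.1.down j) b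
    split_ifs with h1 h2 h2
    · omega
    · rw [h1] at h
      exact absurd (top_le_iff.1 h) h2
    · omega
    · omega
  · change (if α (Fin.last n) then min (x.1.down (Fin.last n)) (b + 1)
      else min (x.1.down (Fin.last n)) b) ≤
      (if α 0 then min (x.1.down 0) (b + 1) else min (x.1.down 0) b) + 1
    have h3 := x.2.2
    split_ifs <;> omega
  · intro m n θ α x
    rfl
  · intro n α x h
    refine Subtype.ext (ULift.ext _ _ (funext fun i => ?_))
    change (if α i then min (x.1.down i) (b + 1) else min (x.1.down i) b) = min (x.1.down i) b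
    rw [if_neg (by rw [h i]; exact Bool.false_ne_true)]
  · intro n α x h
    refine Subtype.ext (ULift.ext _ _ (funext fun i => ?_))
    change (if α i then min (x.1.down i) (b + 1) else min (x.1.down i) b) =
      min (x.1.down i) (b + 1)
    rw [if_pos (h i)]

/-- a relation between neighbours holds everywhere -/
theorem circle_chain {X Y : SSt.{u}} (F : ℤ → (X ⟶ Y))
    (h : ∀ k, SSt.StrEq (F k) (F (k + 1))) (k : ℤ) (n : ℕ) : SSt.StrEq (F k) (F (k + n)) := by
  induction n with
  | zero => exact circle_refl (by congr 1; simp)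
  | succ n ih =>
    refine circle_trans ih ?_
    have h1 := h (k + n)
    rwa [add_assoc] at h1

/-- the bounded sequences -/
def circleA (N : ULift.{u} ℕ) : SubS circleR.{u}.S where
  s n := {x | ∀ i, -(N.down : ℤ) ≤ x.1.down i ∧ x.1.down i ≤ N.down}
  map_mem θ x h i := h (θ i)

theorem circle_contrR (hh : St_StrHt.{u}) (hu : St_StrUnion.{u}) :
    SSt.Contr circleR.{u}.S := by
  refine hh.2.2 _ (circlec 0) ?_
  refine hu.1 circleA ?_ ?_ _ _ ?_
  · intro i j
    refine ⟨⟨max i.down j.down⟩, fun n x h k => ?_⟩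
    rcases h with h | h
    · have h1 := h k
      constructor
      · change -((max i.down j.down : ℕ) : ℤ) ≤ _
        omega
      · change _ ≤ ((max i.down j.down : ℕ) : ℤ)
        omega
    · have h1 := h k
      constructor
      · change -((max i.down j.down : ℕ) : ℤ) ≤ _
        omega
      · change _ ≤ ((max i.down j.down : ℕ) : ℤ)
        omega
  · intro n x
    refine ⟨⟨(x.1.down 0).natAbs + 1⟩, fun i => ?_⟩
    have h1 := x.2.1 (Fin.zero_le i)
    have h2 := x.2.1 (Fin.le_last i)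
    have h3 := x.2.2
    constructor
    · change -(((x.1.down 0).natAbs + 1 : ℕ) : ℤ) ≤ _
      omega
    · change _ ≤ (((x.1.down 0).natAbs + 1 : ℕ) : ℤ)
      omega
  · intro N
    have h1 : SSt.StrEq (circlet.{u} (-(N.down : ℤ)))
        (circlet.{u} (-(N.down : ℤ) + (2 * N.down : ℕ))) :=
      circle_chain circlet (circle_step_t hh) _ _
    have h2 : SSt.StrEq (circleR.{u}.S.toPt ≫ circlec (-(N.down : ℤ)))
        (circleR.{u}.S.toPt ≫ circlec (-(N.down : ℤ) + (N.down : ℕ))) :=
      circle_chain (fun k => circleR.{u}.S.toPt ≫ circlec k) (circle_step_c hh) _ _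
    have e1 : -(N.down : ℤ) + (2 * N.down : ℕ) = N.down := by omega
    have e2 : -(N.down : ℤ) + (N.down : ℕ) = 0 := by omega
    rw [e1] at h1
    rw [e2] at h2
    have h3 := circle_pre (circleA N).ι h1
    have h4 := circle_pre (circleA N).ι h2
    refine circle_trans (circle_symm h4) ?_
    refine circle_trans (circle_trans (circle_refl ?_) h3) (circle_refl ?_)
    · refine SSt.hom_ext fun n x => Subtype.ext (ULift.ext _ _ (funext fun i => ?_))
      change -(N.down : ℤ) = min (x.1.1.down i) (-(N.down : ℤ))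
      have h5 := x.2 i
      omega
    · refine SSt.hom_ext fun n x => Subtype.ext (ULift.ext _ _ (funext fun i => ?_))
      change min (x.1.1.down i) (N.down : ℤ) = x.1.1.down i
      have h5 := x.2 i
      omega

/-! ### the circle -/

theorem circle_sub (n : ℕ) : circleR.{u}.s n ⊆ circleT.{u}.s n := fun _ _ => trivial

theorem circle_trR : circleTr circleR.{u} := by
  intro n x k h
  refine ⟨fun i j hij => ?_, ?_⟩
  · change x.down i + k ≤ x.down j + k
    have := h.1 hij
    omega
  · change x.down (Fin.last n) + k ≤ x.down 0 + k + 1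
    have := h.2
    omega

theorem circle_trT : circleTr circleT.{u} := fun _ _ _ _ => trivial

theorem circle_rows (h23 : St_Str23.{u}) (hh : St_StrHt.{u}) (hu : St_StrUnion.{u})
    (hp : St_StrProd.{u}) (p : ℕ) :
    SSt.Strong ((circleNm.{u} circle_sub).app p) := by
  refine h23.2.2.1 _ (circleδ circleT p) (circle_δ hp circle_trT (circle_contrT hh) p) ?_
  exact circle_δ hp circle_trR (circle_contrR hh hu) p

theorem circle_j (h23 : St_Str23.{u}) (hh : St_StrHt.{u}) (hu : St_StrUnion.{u})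
    (hp : St_StrProd.{u}) (hr : St_StrRow.{u}) (hc : St_StrCol.{u}) :
    SSt.Strong (circlej.{u} circle_sub) := by
  have h1 : SSt.Strong (SSt.diagF.map (circleNm.{u} circle_sub)) :=
    hr _ (circle_rows h23 hh hu hp)
  have h2 := circle_aug hc hh (circleqA circleR.{u}) (circle_surj _)
  have h3 := circle_aug hc hh (circleqA circleT.{u}) (circle_surj _)
  have h4 := sr_strong_comp _ _ h1 h3
  have h5 : SSt.Strong (SSt.diagF.map (SOb.constF.map (circlej.{u} circle_sub))) := by
    refine h23.2.1 _ _ h2 ?_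
    exact h4
  exact h5

theorem circle_ιT : SSt.Strong (circleQ circleT.{u}).ι := by
  refine sr_strong_inv _ (⟨fun n c => ⟨c, ?_⟩, fun _ _ => rfl⟩ :
    circleB.{u} ⟶ (circleQ circleT.{u}).S) rfl rfl
  refine ⟨⟨fun i => ((c : BGs (ULift.{u} ℤ) n).1 0 i).down⟩, trivial, ?_⟩
  refine Subtype.ext (funext fun i => funext fun j => ULift.ext _ _ ?_)
  have h := congrArg ULift.down ((c : BGs (ULift.{u} ℤ) n).2 0 i j)
  change ((c : BGs (ULift.{u} ℤ) n).1 0 i).down + ((c : BGs (ULift.{u} ℤ) n).1 i j).down =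
    ((c : BGs (ULift.{u} ℤ) n).1 0 j).down at h
  change ((c : BGs (ULift.{u} ℤ) n).1 0 j).down - ((c : BGs (ULift.{u} ℤ) n).1 0 i).down =
    ((c : BGs (ULift.{u} ℤ) n).1 i j).down
  omega

theorem circle_jι : circlej.{u} circle_sub ≫ (circleQ circleT.{u}).ι =
    (circleQ circleR.{u}).ι := SSt.hom_ext fun _ _ => rfl

theorem circle_ι (h23 : St_Str23.{u}) (hh : St_StrHt.{u}) (hu : St_StrUnion.{u})
    (hp : St_StrProd.{u}) (hr : St_StrRow.{u}) (hc : St_StrCol.{u}) :
    SSt.Strong (circleQ circleR.{u}).ι := by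
  rw [← circle_jι]
  exact sr_strong_comp _ _ (circle_j h23 hh hu hp hr hc) circle_ιT

theorem circle_fin (n : ℕ) : Finite ((circleQ circleR.{u}).S.obj n) := by
  have h : ∀ c : (circleQ circleR.{u}).S.obj n, ∀ i j,
      ((c.1 : BGs (ULift.{u} ℤ) n).1 i j).down ∈ Set.Icc (-1 : ℤ) 1 := by
    rintro ⟨c, x, hx, rfl⟩ i j
    change x.down j - x.down i ∈ Set.Icc (-1 : ℤ) 1
    have h1 := hx.1 (Fin.zero_le i)
    have h2 := hx.1 (Fin.le_last i)
    have h3 := hx.1 (Fin.zero_le j)
    have h4 := hx.1 (Fin.le_last j)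
    have h5 := hx.2
    rw [Set.mem_Icc]
    omega
  refine Finite.of_injective (fun c i j =>
    (⟨((c.1 : BGs (ULift.{u} ℤ) n).1 i j).down, h c i j⟩ : Set.Icc (-1 : ℤ) 1)) ?_
  intro c d hcd
  refine Subtype.ext (Subtype.ext (funext fun i => funext fun j => ULift.ext _ _ ?_))
  exact congrArg Subtype.val (congrFun (congrFun hcd i) j)

theorem thm_Circle (hf : St_fsStrong.{u}) (h23 : St_Str23.{u}) (hh : St_StrHt.{u})
    (hu : St_StrUnion.{u}) (hp : St_StrProd.{u}) (hr : St_StrRow.{u}) (hc : St_StrCol.{u}) :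
    St_Circle.{u} := by
  intro c
  have h1 : SAb.Weq (ZSmap (circleQ circleR.{u}).ι) :=
    hf _ _ (circle_ι h23 hh hu hp hr hc)
  exact ⟨_, (circleQ circleR.{u}).ι, circle_fin, fun j _ => h1 j, (h1 c).2⟩

end Pool.Agent.FGK
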