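import Pool.Agent.FGK.StB
import Pool.Agent.KQ.SS

/-!
# FGK: Eilenberg-MacLane groups have slender homology
-/

set_option autoImplicit false
set_option linter.unusedVariables false

namespace Pool.Agent.FGK

open CategoryTheory Function Pool.Agent.KQ

universe u

/-! ### `ℤ[Y]` -/

theorem kan_ZS_map (Y : SSt.{u}) {m n : ℕ} (θ : Mo m n) (x : Y.obj n →₀ ULift.{u} ℤ) :
    (ZS Y).map θ x = Finsupp.mapDomain (Y.map θ) x := by
  change Finsupp.mapDomain (Y.map θ) (Finsupp.mapRange (fun a => a) rfl x) = _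
  congr 1
  ext y
  rfl

theorem kan_ZSmap_app {Y Y' : SSt.{u}} (g : Y ⟶ Y') (n : ℕ) (x : Y.obj n →₀ ULift.{u} ℤ) :
    (ZSmap g).app n x = Finsupp.mapDomain (g.app n) x := by
  change Finsupp.mapDomain (g.app n) (Finsupp.mapRange (fun a => a) rfl x) = _
  congr 1
  ext y
  rfl

theorem kan_ZSmap_id (Y : SSt.{u}) : ZSmap (𝟙 Y) = 𝟙 (ZS Y) :=
  SAb.hom_ext fun n x => (kan_ZSmap_app (𝟙 Y) n x).trans Finsupp.mapDomain_id

theorem kan_ZSmap_comp {X Y Z : SSt.{u}} (f : X ⟶ Y) (g : Y ⟶ Z) :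
    ZSmap (f ≫ g) = ZSmap f ≫ ZSmap g :=
  SAb.hom_ext fun n x => by
    refine (kan_ZSmap_app (f ≫ g) n x).trans ?_
    have h1 : ((ZSmap g).app n ((ZSmap f).app n x) : Z.obj n →₀ ULift.{u} ℤ) =
        Finsupp.mapDomain (g.app n) (Finsupp.mapDomain (f.app n)
          (x : X.obj n →₀ ULift.{u} ℤ)) :=
      (kan_ZSmap_app g n ((ZSmap f).app n x)).trans
        (congrArg (Finsupp.mapDomain (g.app n)) (kan_ZSmap_app f n x))
    have h2 : Finsupp.mapDomain ((f ≫ g).app n) (x : X.obj n →₀ ULift.{u} ℤ) =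
        Finsupp.mapDomain (g.app n) (Finsupp.mapDomain (f.app n) x) :=
      Finsupp.mapDomain_comp (f := f.app n) (g := g.app n)
    exact h2.trans h1.symm

/-- `ℤ[ ]` of a bisimplicial set -/
noncomputable def kan_Z (X : SOb SSt.{u}) : SOb SAb.{u} where
  obj p := ZS (X.obj p)
  map θ := ZSmap (X.map θ)
  map_id n := by rw [X.map_id, kan_ZSmap_id]
  map_comp f g := by rw [X.map_comp, kan_ZSmap_comp]

theorem kan_diag_map (X : SOb SSt.{u}) {m n : ℕ} (θ : Mo m n)
    (x : (X.obj n).obj n →₀ ULift.{u} ℤ) :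
    ((SAb.diag (kan_Z X)).map θ x : (X.obj m).obj m →₀ ULift.{u} ℤ) =
      (ZS (SSt.diag X)).map θ x := by
  refine Eq.trans ?_ (kan_ZS_map (SSt.diag X) θ x).symm
  have h1 : ((SAb.diag (kan_Z X)).map θ x : (X.obj m).obj m →₀ ULift.{u} ℤ) =
      (ZS (X.obj m)).map θ ((ZSmap (X.map θ)).app n x) := rfl
  refine h1.trans ((kan_ZS_map (X.obj m) θ _).trans ?_)
  refine (congrArg (Finsupp.mapDomain ((X.obj m).map θ)) (kan_ZSmap_app (X.map θ) n x)).trans ?_
  exact Finsupp.mapDomain_comp.symm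

/-- the diagonal of `ℤ[X]` is `ℤ[diag X]` -/
noncomputable def kan_dg (X : SOb SSt.{u}) : SAb.diag (kan_Z X) ⟶ ZS (SSt.diag X) :=
  ⟨fun _ => AddMonoidHom.id _, fun θ x => kan_diag_map X θ x⟩

/-- the inverse -/
noncomputable def kan_gd (X : SOb SSt.{u}) : ZS (SSt.diag X) ⟶ SAb.diag (kan_Z X) :=
  ⟨fun _ => AddMonoidHom.id _, fun θ x => (kan_diag_map X θ x).symm⟩

theorem kan_dg_weq (X : SOb SSt.{u}) : SAb.Weq (kan_dg X) := by
  intro j
  have h1 : ∀ x, SGp.PiMap (SAb.gp.map (kan_gd X)) j (SGp.PiMap (SAb.gp.map (kan_dg X)) j x) = x := by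
    intro x
    rw [← SGp.PiMap_comp]
    exact SGp.PiMap_id _ j x
  have h2 : ∀ x, SGp.PiMap (SAb.gp.map (kan_dg X)) j (SGp.PiMap (SAb.gp.map (kan_gd X)) j x) = x := by
    intro x
    rw [← SGp.PiMap_comp]
    exact SGp.PiMap_id _ j x
  exact ⟨LeftInverse.injective h1, RightInverse.surjective h2⟩

/-! ### slender homology and strong maps -/

theorem kan_sl (hSl : St_Sl.{u}) {X Y : SAb.{u}} (f : X ⟶ Y) (hf : SAb.Weq f) (j : ℕ) :
    X.SlAt j ↔ Y.SlAt j :=
  ⟨hSl.2.1 (SGp.PiMap (SAb.gp.map f) j) (hf j).2, hSl.1 (SGp.PiMap (SAb.gp.map f) j) (hf j).1⟩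

theorem kan_hsl (hSl : St_Sl.{u}) (hfs : St_fsStrong.{u}) {X Y : SSt.{u}} (f : X ⟶ Y)
    (hf : SSt.Strong f) (j : ℕ) : HSl X j ↔ HSl Y j :=
  kan_sl hSl (ZSmap f) (hfs _ f hf) j

/-- the projection to a factor if the other one is contractible -/
theorem kan_proj (hSl : St_Sl.{u}) (hfs : St_fsStrong.{u}) (hProd : St_StrProd.{u})
    (X Y : SSt.{u}) (hX : SSt.Contr X) (j : ℕ) : HSl (X.prod Y) j ↔ HSl Y j := by
  have h1 := hProd X.toPt (𝟙 Y) hX (SS_bij (𝟙 Y) fun n => bijective_id)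
  have h2 : SSt.Strong (⟨fun _ x => x.2, fun _ _ => rfl⟩ :
      (SSt.const PUnit.{u + 1}).prod Y ⟶ Y) := by
    refine SS_bij _ fun n => ⟨?_, fun y => ⟨(PUnit.unit, y), rfl⟩⟩
    rintro ⟨a, b⟩ ⟨a', b'⟩ h
    exact Prod.ext rfl h
  exact (kan_hsl hSl hfs _ h1 j).trans (kan_hsl hSl hfs _ h2 j)

/-! ### powers of the loop group -/

/-- the loops, written additively -/
def kan_L (P : SAb.{u}) (m : ℕ) : AddSubgroup (P.obj (m + 1)) :=
  (P.map (v0 (m + 1))).ker ⊓ (P.map (dl 0)).ker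

theorem kan_L_map (P : SAb.{u}) {m n : ℕ} (θ : Mo m n) {x : P.obj (n + 1)}
    (hx : x ∈ kan_L P n) : P.map θ.bot x ∈ kan_L P m := by
  refine ⟨?_, ?_⟩
  · change P.map (v0 (m + 1)) (P.map θ.bot x) = 0
    rw [← P.map_comp]
    exact hx.1
  · change P.map (dl 0) (P.map θ.bot x) = 0
    have h1 : P.map (dl 0) (P.map θ.bot x) = P.map θ (P.map (dl 0) x) := by
      rw [← P.map_comp, ← P.map_comp]
      rfl
    rw [h1, show P.map (dl 0) x = 0 from hx.2, map_zero]

theorem kan_bot_id (n : ℕ) : Mo.bot (OrderHom.id : Mo n n) = OrderHom.id := by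
  ext i
  refine Fin.cases ?_ (fun i => ?_) i <;> rfl

theorem kan_bot_comp {l m n : ℕ} (f : Mo l m) (g : Mo m n) :
    Mo.bot (g.comp f) = g.bot.comp f.bot := by
  ext i
  refine Fin.cases ?_ (fun i => ?_) i <;> rfl

/-- the power of the loops, as a simplicial abelian group -/
def kan_LP (P : SAb.{u}) (p : ℕ) : SAb.{u} where
  obj m := Fin p → kan_L P m
  map {m n} θ :=
    { toFun := fun x i => ⟨P.map θ.bot (x i).1, kan_L_map P θ (x i).2⟩
      map_zero' := funext fun i => Subtype.ext (map_zero (P.map θ.bot))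
      map_add' := fun x y => funext fun i => Subtype.ext (map_add (P.map θ.bot) (x i).1 (y i).1) }
  map_id n x := funext fun i => Subtype.ext (by
    change P.map (Mo.bot OrderHom.id) (x i).1 = (x i).1
    rw [kan_bot_id, P.map_id])
  map_comp f g x := funext fun i => Subtype.ext (by
    change P.map (Mo.bot (g.comp f)) (x i).1 = P.map f.bot (P.map g.bot (x i).1)
    rw [kan_bot_comp, P.map_comp])

/-- an element of the loop group -/
def kan_e (P : SAb.{u}) {m : ℕ} (x : kan_L P m) : (loopG P.gpo).obj m :=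
  ⟨⟨Multiplicative.ofAdd x.1, x.2.1⟩, x.2.2⟩

/-- the inverse -/
def kan_i (P : SAb.{u}) {m : ℕ} (x : (loopG P.gpo).obj m) : kan_L P m :=
  ⟨Multiplicative.toAdd x.1.1, x.1.2, x.2⟩

theorem kan_e_i (P : SAb.{u}) {m : ℕ} (x : (loopG P.gpo).obj m) : kan_e P (kan_i P x) = x := rfl

/-- the coordinates -/
def kan_pr (P : SAb.{u}) (p : ℕ) (i : Fin p) : (kan_LP P p).gpo ⟶ loopG P.gpo :=
  ⟨fun m =>
    { toFun := fun x => kan_e P (x i)
      map_one' := rfl
      map_mul' := fun _ _ => rfl }, fun _ _ => rfl⟩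

theorem kan_pow_triv (P : SAb.{u}) (p j : ℕ) (h : ∀ x : (loopG P.gpo).Pi j, x = 1) :
    ∀ x : (kan_LP P p).gpo.Pi j, x = 1 := by
  intro x
  obtain ⟨⟨x, hx⟩, rfl⟩ := SGp.cls_surj _ _ x
  rw [SGp.cls_eq_one]
  have h1 : ∀ i : Fin p, ∃ y : (loopG P.gpo).obj (j + 1),
      (∀ k : Fin (j + 1), (loopG P.gpo).map (dl k.succ) y = 1) ∧
        (loopG P.gpo).map (dl 0) y = kan_e P (x i) := by
    intro i
    have h2 : kan_e P (x i) ∈ (loopG P.gpo).Z j := SGp.app_mem_Z (kan_pr P p i) hx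
    have h3 := h ((loopG P.gpo).cls j ⟨_, h2⟩)
    rw [SGp.cls_eq_one, SGp.mem_B] at h3
    exact h3
  choose y hy1 hy2 using h1
  rw [SGp.mem_B]
  refine ⟨(fun i => kan_i P (y i) : Fin p → kan_L P (j + 1)), fun k => ?_, ?_⟩
  · refine funext fun i => ?_
    exact congrArg (kan_i P) (hy1 i k)
  · refine funext fun i => ?_
    exact congrArg (kan_i P) (hy2 i)

/-! ### the rows of the nerve -/

/-- the product -/
def kan_m (P : SAb.{u}) {m : ℕ} (y : (pathG P.gpo).obj m) (l : kan_L P m) :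
    (pathG P.gpo).obj m := y * (kan_e P l).1

theorem kan_m_π (P : SAb.{u}) {m : ℕ} (y : (pathG P.gpo).obj m) (l : kan_L P m) :
    (pathπ P.gpo).app m (kan_m P y l) = (pathπ P.gpo).app m y := by
  unfold kan_m
  rw [map_mul, show (pathπ P.gpo).app m (kan_e P l).1 = 1 from (kan_e P l).2, mul_one]

theorem kan_m_map (P : SAb.{u}) {m n : ℕ} (θ : Mo m n) (y : (pathG P.gpo).obj n)
    (l : kan_L P n) : (pathG P.gpo).map θ (kan_m P y l) =
      kan_m P ((pathG P.gpo).map θ y) ⟨P.map θ.bot l.1, kan_L_map P θ l.2⟩ :=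
  map_mul ((pathG P.gpo).map θ) y (kan_e P l).1

/-- `cechS f p = pathG G × L^p` -/
def kan_c (P : SAb.{u}) (p : ℕ) :
    (pathG P.gpo).und.prod (kan_LP P p).gpo.und ⟶ cechS (pathπ P.gpo) p :=
  ⟨fun m x => ⟨fun i => Fin.cases (motive := fun _ => (pathG P.gpo).obj m) x.1
      (fun i => kan_m P x.1 (x.2 i)) i, by
      have h1 : ∀ i : Fin (p + 1), (pathπ P.gpo).app m
          (Fin.cases (motive := fun _ => (pathG P.gpo).obj m) x.1
            (fun i => kan_m P x.1 (x.2 i)) i) = (pathπ P.gpo).app m x.1 := by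
        intro i
        exact Fin.cases rfl (fun i => kan_m_π P x.1 (x.2 i)) i
      intro i j
      exact (h1 i).trans (h1 j).symm⟩, fun {m n} θ x => Subtype.ext (funext fun i => by
      refine Fin.cases rfl (fun i => ?_) i
      exact (kan_m_map P θ x.1 (x.2 i)).symm)⟩

theorem kan_c_zero (P : SAb.{u}) (p m : ℕ) (x : (pathG P.gpo).obj m × (Fin p → kan_L P m)) :
    ((kan_c P p).app m x).1 0 = x.1 := rfl

theorem kan_c_succ (P : SAb.{u}) (p m : ℕ) (x : (pathG P.gpo).obj m × (Fin p → kan_L P m))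
    (i : Fin p) : ((kan_c P p).app m x).1 i.succ = kan_m P x.1 (x.2 i) := rfl

theorem kan_c_bij (P : SAb.{u}) (p m : ℕ) : Bijective ((kan_c P p).app m) := by
  constructor
  · rintro ⟨y, l⟩ ⟨y', l'⟩ h
    have h0 : y = y' := congrFun (congrArg Subtype.val h) 0
    subst h0
    have h1 : l = l' := by
      funext i
      have h2 : kan_m P y (l i) = kan_m P y (l' i) :=
        congrFun (congrArg Subtype.val h) i.succ
      have h3 := mul_left_cancel h2
      have h4 : kan_e P (l i) = kan_e P (l' i) := Subtype.ext h3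
      exact congrArg (kan_i P) h4
    rw [h1]
  · rintro ⟨x, hx⟩
    have h1 : ∀ i : Fin p, (x 0)⁻¹ * x i.succ ∈ ((pathπ P.gpo).app m).ker := by
      intro i
      rw [MonoidHom.mem_ker, map_mul, map_inv, hx i.succ 0, inv_mul_cancel]
    refine ⟨(x 0, fun i => kan_i P ⟨(x 0)⁻¹ * x i.succ, h1 i⟩), Subtype.ext (funext fun i => ?_)⟩
    refine Fin.cases rfl (fun i => ?_) i
    exact mul_inv_cancel_left (x 0) (x i.succ)

/-! ### finite generation -/

theorem kan_fg (P : SAb.{u}) (hfg : ∀ m, AddGroup.FG (P.obj m)) (p m : ℕ) :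
    AddGroup.FG ((kan_LP P p).obj m) := by
  have h1 : Module.Finite ℤ (P.obj (m + 1)) := Module.Finite.iff_addGroup_fg.2 (hfg (m + 1))
  have h2 : IsNoetherian ℤ (P.obj (m + 1)) := isNoetherian_of_isNoetherianRing_of_finite ℤ _
  have h3 : Module.Finite ℤ (AddSubgroup.toIntSubmodule (kan_L P m)) := inferInstance
  have h4 : Module.Finite ℤ (kan_L P m) := h3
  have h5 : Module.Finite ℤ (Fin p → kan_L P m) := inferInstance
  exact Module.Finite.iff_addGroup_fg.1 h5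

/-- **F6.** Eilenberg-MacLane groups have slender homology. -/
theorem thm_KAn (hSl : St_Sl.{u}) (hKA1 : St_KA1.{u}) (hPath : St_Path.{u}) (hCech : St_Cech.{u})
    (hfs : St_fsStrong.{u}) (hReal : St_AbReal.{u}) (hProd : St_StrProd.{u}) : St_KAn.{u} := by
  intro n
  induction n with
  | zero =>
    intro P h
    omega
  | succ n ih =>
    intro P _ h0 hfg hpi j
    rcases Nat.eq_zero_or_pos n with rfl | hn
    · exact hKA1 P (h0 0 (by omega)) hfg (fun j hj => hpi j hj) j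
    have hT : SGp.Triv 1 P.gpo := fun j hj => hpi j (by omega)
    obtain ⟨hs, hc, hp, hδ⟩ := hPath P.gpo hT
    have hL : ∀ j, j ≠ n → ∀ x : (loopG P.gpo).Pi j, x = 1 := by
      intro j hj x
      obtain ⟨δ, hδ⟩ := hδ j
      obtain ⟨y, rfl⟩ := hδ.2 x
      rw [hpi (j + 1) (by omega) y, map_one]
    have hrow : ∀ p q : ℕ, HSl (cechS (pathπ P.gpo) p) q := by
      intro p q
      have h1 : HSl (kan_LP P p).gpo.und q := by
        refine ih (kan_LP P p) hn (fun m hm x => ?_) (kan_fg P hfg p)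
          (fun j hj => kan_pow_triv P p j (hL j hj)) q
        funext i
        exact Subtype.ext (h0 (m + 1) (by omega) (x i).1)
      have h2 := (kan_proj hSl hfs hProd (pathG P.gpo).und (kan_LP P p).gpo.und hc q).2 h1
      exact (kan_hsl hSl hfs (kan_c P p) (SS_bij _ (kan_c_bij P p)) q).1 h2
    have h3 : (SAb.diag (kan_Z (cech (pathπ P.gpo)))).SlAt j :=
      hReal.2.2.2.2.2.1 (kan_Z (cech (pathπ P.gpo))) j (fun m q _ => hrow m q) j le_rfl
    have h4 : HSl (SSt.diag (cech (pathπ P.gpo))) j :=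
      (kan_sl hSl _ (kan_dg_weq (cech (pathπ P.gpo))) j).1 h3
    exact (kan_hsl hSl hfs _ (hCech (pathπ P.gpo) hs) j).1 h4

end Pool.Agent.FGK
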