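import Pool.Agent.FGK.StD
import Pool.Agent.FGK.KAn
import Pool.Agent.KQ.SPR2

/-!
# FGK, ClK: the `κ`-fold construction and its powers have slender homology (helper13)
-/

set_option autoImplicit false
set_option linter.unusedVariables false

noncomputable section

namespace Pool.Agent.FGK

open CategoryTheory Function Pool.Agent.KQ

universe u

/-- the power functor -/
def clk_powF (p : ℕ) : SSt.{u} ⥤ SSt.{u} where
  obj X := X.pow p
  map f := SSt.powMap f p

/-- the rows: `m ↦ (ob S^κ (S_m E))^p` -/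
def clk_W (κ p : ℕ) (E : ExCat.{u}) : SOb SSt.{u + 1} :=
  (SOb.mapF (itS Sd κ ⋙ obS ⋙ clk_powF p)).obj (Sd.obj E)

/-- the diagonal of the rows -/
def clk_diag (κ p : ℕ) (E : ExCat.{u}) :
    SSt.diag (clk_W κ p E) ⟶ (obS.obj ((itS Sd (κ + 1)).obj E)).pow p :=
  ⟨fun _ x => x, fun _ _ => rfl⟩

/-- the first step -/
def clk_one (E : ExCat.{u}) (p : ℕ) :
    (obS.obj ((itS Sd 1).obj E)).pow p ⟶ (obS.obj (Sd.obj E)).pow p :=
  ⟨fun _ x => x, fun _ _ => rfl⟩

/-- powers of powers -/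
def clk_pp (X : SSt.{u}) (m p : ℕ) : (X.pow m).pow p ⟶ X.pow (p * m) :=
  ⟨fun n x i => x (finProdFinEquiv.symm i).1 (finProdFinEquiv.symm i).2, fun _ _ => rfl⟩

theorem clk_pp_strong (X : SSt.{u}) (m p : ℕ) : SSt.Strong (clk_pp X m p) :=
  SP_bij _ fun n => by
    refine ⟨fun x y h => ?_, fun y => ⟨fun a b => y (finProdFinEquiv (a, b)), ?_⟩⟩
    · funext a b
      have h1 := congrFun h (finProdFinEquiv (a, b))
      change x (finProdFinEquiv.symm (finProdFinEquiv (a, b))).1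
        (finProdFinEquiv.symm (finProdFinEquiv (a, b))).2 =
        y (finProdFinEquiv.symm (finProdFinEquiv (a, b))).1
        (finProdFinEquiv.symm (finProdFinEquiv (a, b))).2 at h1
      rw [Equiv.symm_apply_apply] at h1
      exact h1
    · funext i
      change y (finProdFinEquiv ((finProdFinEquiv.symm i).1, (finProdFinEquiv.symm i).2)) = y i
      rw [Prod.mk.eta, Equiv.apply_symm_apply]

/-- the step of the induction -/
theorem clk_step (hSl : St_Sl.{u + 1}) (hfs : St_fsStrong.{u + 1}) (hR : St_AbReal.{u + 1})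
    (hSp : St_SpK.{u}) (κ : ℕ) (hκ : 1 ≤ κ) (E : ExCat.{u})
    (ih : ∀ p j, HSl ((obS.obj ((itS Sd κ).obj E)).pow p) j) (p j : ℕ) :
    HSl ((obS.obj ((itS Sd (κ + 1)).obj E)).pow p) j := by
  refine (kan_hsl hSl hfs (clk_diag κ p E) (SP_bij _ fun n => bijective_id) j).1 ?_
  refine (kan_sl hSl (kan_dg (clk_W κ p E)) (kan_dg_weq _) j).1 ?_
  refine hR.2.2.2.2.2.1 (kan_Z (clk_W κ p E)) j (fun m q _ => ?_) j le_rfl
  change HSl ((obS.obj ((itS Sd κ).obj (E.S (Fin (m + 1))))).pow p) q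
  refine (kan_hsl hSl hfs (SSt.powMap (spK κ E m) p)
    (SPR2.pow_strong _ (hSp κ hκ E m) p) q).2 ?_
  exact (kan_hsl hSl hfs (clk_pp _ m p) (clk_pp_strong _ m p) q).2 (ih (p * m) q)

/-- **ClK.** -/
theorem thm_ClK (hFT : St_FTyX) (hSp : St_SpK.{0}) (hPr : St_Prods.{1}) (hSF : St_SlFin.{1})
    (hR : St_AbReal.{1}) (hfs : St_fsStrong.{1}) (hSl : St_Sl.{1}) : St_ClK := by
  intro k _ _ κ hκ
  induction κ, hκ using Nat.le_induction with
  | base =>
    intro p j
    refine (kan_hsl hSl hfs (clk_one (KQG.MA k) p) (SP_bij _ fun n => bijective_id) j).2 ?_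
    exact hSF.2.2 _ (hPr.2.2.2.2.1 (XS k) p (hFT k)) j
  | succ κ hκ ih => exact clk_step hSl hfs hR hSp κ hκ (KQG.MA k) ih

end Pool.Agent.FGK
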