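import Pool.Agent.FGK.StA

/-!
# FGK, module B1 (Eil): the Eilenberg subgroup (helper66)
-/

set_option autoImplicit false

namespace Pool.Agent.FGK

open CategoryTheory Function Pool.Agent.KQ

universe u

/-- operators which omit the vertex `i` factor through `dl i` -/
theorem eil_factor {l n : ℕ} (f : Mo l (n + 1)) (i : Fin (n + 2)) (h : ∀ a, f a ≠ i) :
    ∃ g : Mo l n, f = (dl i).comp g := by
  have h1 : ∀ a, ∃ y, i.succAbove y = f a := fun a => Fin.exists_succAbove_eq (h a)
  choose g hg using h1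
  refine ⟨⟨g, fun a b hab => ?_⟩, ?_⟩
  · have h2 := f.monotone hab
    rw [← hg a, ← hg b] at h2
    exact (Fin.strictMono_succAbove i).le_iff_le.1 h2
  · ext a
    change (f a : ℕ) = (i.succAbove (g a) : ℕ)
    rw [hg a]

theorem eil_map_one {G : SGp.{u}} {l n : ℕ} {x : G.obj (n + 1)} (f : Mo l (n + 1))
    (i : Fin (n + 2)) (h : ∀ a, f a ≠ i) (hx : G.map (dl i) x = 1) : G.map f x = 1 := by
  obtain ⟨g, rfl⟩ := eil_factor f i h
  rw [G.map_comp, hx, map_one]

/-- cycles are in the Eilenberg subgroup -/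
theorem eil_Z {G : SGp.{u}} {c j : ℕ} (hcj : c ≤ j) {x : G.obj j} (hx : x ∈ G.Z j) :
    x ∈ eilS G c j := by
  intro l hl f
  cases j with
  | zero => omega
  | succ n =>
    rw [SGp.mem_Z_succ] at hx
    have h1 : ∃ i, ∀ a, f a ≠ i := by
      by_contra hno
      push Not at hno
      have h2 : Function.Surjective f := hno
      have h3 := Fintype.card_le_of_surjective f h2
      simp only [Fintype.card_fin] at h3
      omega
    obtain ⟨i, hi⟩ := h1
    exact eil_map_one f i hi (hx i)

/-- the elements of the Moore complex are in the Eilenberg subgroup -/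
theorem eil_N {G : SGp.{u}} {c j : ℕ} (hcj : c ≤ j) {y : G.obj (j + 1)} (hy : y ∈ G.N (j + 1)) :
    y ∈ eilS G c (j + 1) := by
  intro l hl f
  rw [SGp.mem_N_succ] at hy
  have h1 : ∃ i : Fin (j + 1), ∀ a, f a ≠ i.succ := by
    by_contra hno
    push Not at hno
    choose g hg using hno
    have h2 : Function.Injective g := by
      intro i i' h
      apply Fin.succ_injective
      rw [← hg i, ← hg i', h]
    have h3 := Fintype.card_le_of_injective g h2
    simp only [Fintype.card_fin] at h3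
    omega
  obtain ⟨i, hi⟩ := h1
  exact eil_map_one f i.succ hi (hy i)

/-- [B1] the Eilenberg subgroup -/
theorem thm_Eil : St_Eil.{u} := by
  intro G c
  have hone : ∀ n < c, ∀ x : (eil G c).obj n, x = 1 := by
    intro n hn x
    apply Subtype.ext
    have h1 := x.2 n hn OrderHom.id
    rw [G.map_id] at h1
    exact h1
  refine ⟨hone, fun j hj => ⟨?_, ?_⟩, fun j hj x => ?_, fun n => ⟨fun x hx g l hl f => ?_⟩⟩
  · rw [injective_iff_map_eq_one]
    intro a ha
    obtain ⟨x, rfl⟩ := (eil G c).cls_surj j a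
    rw [SGp.PiMap_cls, SGp.cls_eq_one] at ha
    rw [SGp.cls_eq_one]
    obtain ⟨y, hy, hyx⟩ := ha
    refine ⟨(⟨y, eil_N hj hy⟩ : eilS G c (j + 1)), ?_, Subtype.ext hyx⟩
    have hy' := (SGp.mem_N_succ G).1 hy
    exact (SGp.mem_N_succ (eil G c)).2 fun i => Subtype.ext (hy' i)
  · intro a
    obtain ⟨z, rfl⟩ := G.cls_surj j a
    have hz : (⟨z.1, eil_Z hj z.2⟩ : eilS G c j) ∈ (eil G c).Z j := by
      cases j with
      | zero => trivial
      | succ n =>
        have hz' := (SGp.mem_Z_succ G).1 z.2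
        exact (SGp.mem_Z_succ (eil G c)).2 fun i => Subtype.ext (hz' i)
    exact ⟨(eil G c).cls j ⟨_, hz⟩, rfl⟩
  · obtain ⟨z, rfl⟩ := (eil G c).cls_surj j x
    have h1 : z = 1 := Subtype.ext (hone j hj z.1)
    rw [h1, map_one]
  · change G.map f (g * x * g⁻¹) = 1
    rw [map_mul, map_mul, hx l hl f, mul_one, map_inv, mul_inv_cancel]

end Pool.Agent.FGK
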