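import Pool.Agent.FGK.AbEx

/-!
# FGK, module EilH (D6): homology of the Eilenberg subgroup

`thm_EilH (hEil : St_Eil) (hWInj : St_WInj) (hBd : KQ.St_Bd) (hBd0 : KQ.St_Bd0) : St_EilH`.
-/

set_option autoImplicit false
set_option linter.unusedVariables false

namespace Pool.Agent.FGK

open CategoryTheory Function Pool.Agent.KQ

universe u

/-- the Eilenberg subgroups are normal -/
instance eilh_normal (G : SGp.{u}) (c n : ℕ) : (eilS G c n).Normal where
  conj_mem x hx g l hl f := by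
    rw [map_mul, map_mul, hx l hl f, mul_one, ← map_mul, mul_inv_cancel, map_one]

/-- operators preserve the Eilenberg subgroups -/
theorem eilh_map_mem (G : SGp.{u}) (c : ℕ) {m n : ℕ} (θ : Mo m n) {x : G.obj n}
    (hx : x ∈ eilS G c n) : G.map θ x ∈ eilS G c m := by
  intro l hl f
  rw [← G.map_comp]
  exact hx l hl _

/-- the quotient by the Eilenberg subgroup -/
def eilh_Q (G : SGp.{u}) (c : ℕ) : SGp.{u} where
  obj n := G.obj n ⧸ eilS G c n
  map {m n} θ := QuotientGroup.map (eilS G c n) (eilS G c m) (G.map θ)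
    fun _ hx => eilh_map_mem G c θ hx
  map_id n x := by
    induction x using QuotientGroup.induction_on with
    | H x => exact congrArg _ (G.map_id n x)
  map_comp f g x := by
    induction x using QuotientGroup.induction_on with
    | H x => exact congrArg _ (G.map_comp f g x)

/-- the projection to the quotient by the Eilenberg subgroup -/
def eilh_π (G : SGp.{u}) (c : ℕ) : G ⟶ eilh_Q G c :=
  ⟨fun n => QuotientGroup.mk' (eilS G c n), fun _ _ => rfl⟩

/-- the Eilenberg subgroup as the kernel of the projection -/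
def eilh_φ (G : SGp.{u}) (c : ℕ) : eil G c ⟶ SGp.ker (eilh_π G c) :=
  ⟨fun n => ((eilS G c n).subtype.codRestrict ((eilh_π G c).app n).ker fun x =>
    (QuotientGroup.eq_one_iff (N := eilS G c n) x.1).2 x.2 :
      eilS G c n →* ((eilh_π G c).app n).ker), fun θ x => Subtype.ext rfl⟩

theorem eilh_φ_bij (G : SGp.{u}) (c n : ℕ) : Bijective ((eilh_φ G c).app n) := by
  refine ⟨fun x y hxy => Subtype.ext (congrArg (Subtype.val :
    ((eilh_π G c).app n).ker → G.obj n) hxy), fun y => ?_⟩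
  exact ⟨⟨y.1, (QuotientGroup.eq_one_iff (N := eilS G c n) y.1).1 y.2⟩, Subtype.ext rfl⟩

theorem eilh_φ_comp (G : SGp.{u}) (c : ℕ) : eilh_φ G c ≫ SGp.kerι (eilh_π G c) = eilι G c := rfl

/-- bijective maps of simplicial sets are isomorphisms on homology -/
theorem eilh_ZS_bij {Y Y' : SSt.{u}} (g : Y ⟶ Y') (h : ∀ n, Bijective (g.app n)) :
    SAb.Weq (ZSmap g) := by
  refine abex_iso _ fun n => ?_
  change Bijective (fun x : Y.obj n →₀ ULift.{u} ℤ =>
    Finsupp.mapDomain (g.app n) (Finsupp.mapRange (fun a => a) rfl x))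
  have e1 : (fun x : Y.obj n →₀ ULift.{u} ℤ =>
      Finsupp.mapDomain (g.app n) (Finsupp.mapRange (fun a => a) rfl x)) =
      fun x => Finsupp.mapDomain (g.app n) x := by
    funext x
    congr 1
    ext y
    rfl
  rw [e1]
  exact ⟨Finsupp.mapDomain_injective (h n).1, Finsupp.mapDomain_surjective (h n).2⟩

theorem eilh_ZS_comp {Y Y' Y'' : SSt.{u}} (g : Y ⟶ Y') (g' : Y' ⟶ Y'') :
    ZSmap (g ≫ g') = ZSmap g ≫ ZSmap g' := by
  have e1 : ∀ {S : Type u} (x : S →₀ ULift.{u} ℤ),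
      Finsupp.mapRange (fun a => a) rfl x = x := fun x => by
    ext y
    rfl
  have e2 : ∀ {S S' S'' : Type u} (a : S → S') (b : S' → S'') (x : S →₀ ULift.{u} ℤ),
      Finsupp.mapDomain (fun y => b (a y)) (Finsupp.mapRange (fun a => a) rfl x) =
      Finsupp.mapDomain b (Finsupp.mapRange (fun a => a) rfl
        (Finsupp.mapDomain a (Finsupp.mapRange (fun a => a) rfl x))) := fun a b x => by
    rw [e1, e1]
    exact Finsupp.mapDomain_comp
  exact SAb.hom_ext fun n x => e2 (g.app n) (g'.app n) x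

/-- the quotient by the Eilenberg subgroup has trivial homotopy groups -/
theorem eilh_Q_triv (hEil : St_Eil.{u}) (hBd : KQ.St_Bd.{u}) (hBd0 : KQ.St_Bd0.{u}) (n : ℕ)
    (G : SGp.{u}) (hn : 1 ≤ n) (hG : SGp.Triv n G) (j : ℕ) (y : (eilh_Q G n).Pi j) : y = 1 := by
  obtain ⟨-, h2, h3, -⟩ := hEil G n
  have hs : ∀ m, Surjective ((eilh_π G n).app m) := fun m => QuotientGroup.mk'_surjective _
  have hφ := abex_iso (eilh_φ G n) (eilh_φ_bij G n)
  have hι : ∀ (i : ℕ) (z : (eil G n).Pi i), SGp.PiMap (eilι G n) i z =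
      SGp.PiMap (SGp.kerι (eilh_π G n)) i (SGp.PiMap (eilh_φ G n) i z) := fun i z =>
    SGp.PiMap_comp (eilh_φ G n) (SGp.kerι (eilh_π G n)) i z
  -- the image of `π_j (G)` in `π_j (H)` is trivial
  have him : ∀ (i : ℕ) (x : G.Pi i), SGp.PiMap (eilh_π G n) i x = 1 := by
    intro i x
    rcases lt_or_ge i n with hi | hi
    · rw [hG i hi x, map_one]
    · obtain ⟨z, rfl⟩ := (h2 i hi).2 x
      exact ((hBd0 (eilh_π G n) hs).1 i _).2 ⟨_, (hι i z).symm⟩
  cases j with
  | zero =>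
    obtain ⟨x, rfl⟩ := (hBd0 (eilh_π G n) hs).2 y
    exact him 0 x
  | succ j =>
    obtain ⟨δ, -, hδ1, hδ2⟩ := hBd (eilh_π G n) hs j
    have hδ : δ y = 1 := by
      obtain ⟨z, hz⟩ := (hφ j).2 (δ y)
      have e1 : SGp.PiMap (eilι G n) j z = 1 := by
        rw [hι, hz]
        exact (hδ2 _).2 ⟨y, rfl⟩
      have e2 : z = 1 := by
        rcases lt_or_ge j n with hj | hj
        · exact h3 j hj z
        · exact (injective_iff_map_eq_one _).1 (h2 j hj).1 _ e1
      rw [← hz, e2, map_one]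
    obtain ⟨x, rfl⟩ := (hδ1 y).1 hδ
    exact him (j + 1) x

/-- D6. -/
theorem thm_EilH (hEil : St_Eil.{u}) (hWInj : St_WInj.{u}) (hBd : KQ.St_Bd.{u})
    (hBd0 : KQ.St_Bd0.{u}) : St_EilH.{u} := by
  intro n G hn hG j
  have hφ := abex_iso (eilh_φ G n) (eilh_φ_bij G n)
  have hK : SGp.Triv 1 (SGp.ker (eilh_π G n)) := by
    intro i hi y
    obtain ⟨z, rfl⟩ := (hφ i).2 y
    rw [(hEil G n).2.2.1 i (lt_of_lt_of_le hi hn) z, map_one]
  have h1 : SAb.Weq (ZSmap (SGp.undMap (SGp.kerι (eilh_π G n)))) :=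
    hWInj (eilh_π G n) (fun m => QuotientGroup.mk'_surjective _)
      (fun c i _ y => eilh_Q_triv hEil hBd hBd0 n G hn hG i y) hK
  have h2 : SAb.Weq (ZSmap (SGp.undMap (eilh_φ G n))) :=
    eilh_ZS_bij _ fun m => eilh_φ_bij G n m
  have h3 : SAb.gp.map (ZSmap (SGp.undMap (eilι G n))) =
      SAb.gp.map (ZSmap (SGp.undMap (eilh_φ G n))) ≫
        SAb.gp.map (ZSmap (SGp.undMap (SGp.kerι (eilh_π G n)))) := by
    rw [← SAb.gp.map_comp, ← eilh_ZS_comp]
    rfl
  have h4 : SGp.PiMap (SAb.gp.map (ZSmap (SGp.undMap (eilι G n)))) j =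
      fun x => SGp.PiMap (SAb.gp.map (ZSmap (SGp.undMap (SGp.kerι (eilh_π G n))))) j
        (SGp.PiMap (SAb.gp.map (ZSmap (SGp.undMap (eilh_φ G n)))) j x) := by
    funext x
    rw [h3]
    exact SGp.PiMap_comp _ _ j x
  rw [h4]
  exact (h1 j).comp (h2 j)

end Pool.Agent.FGK
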