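import Pool.Agent.FGK.StB

/-!
# FGK, module FG2 (F7): the finiteness theorem

`thm_FG2 (hSl : St_Sl) (hEil : St_Eil) (hEilH : St_EilH) (hHur : St_Hur) (hPost : St_Post)
  (hKAn : St_KAn) (hGp : St_GpHTriv) (hC : St_CechSl) : St_FG2`.
-/

set_option autoImplicit false
set_option linter.unusedVariables false

namespace Pool.Agent.FGK

open CategoryTheory Function Pool.Agent.KQ

universe u

/-- trivial groups are slender -/
theorem fg2_triv {G : Type u} [Group G] (h : ∀ x : G, x = 1) : Sl G := by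
  intro H
  have e1 : H = ⊥ := (Subgroup.eq_bot_iff_forall H).2 fun x _ => h x
  rw [e1]
  exact ⟨∅, by simp⟩

/-- the downward induction: `n = R - i` -/
theorem fg2_step (hSl : St_Sl.{u}) (hEil : St_Eil.{u}) (hEilH : St_EilH.{u}) (hHur : St_Hur.{u})
    (hPost : St_Post.{u}) (hKAn : St_KAn.{u}) (hGp : St_GpHTriv.{u}) (hC : St_CechSl.{u})
    (k R : ℕ) (hk : 1 ≤ k) (hR : R ≤ 2 * k) (i : ℕ) :
    ∀ (n : ℕ), k ≤ n → R ≤ n + i → ∀ G : SGp.{u}, SGp.Triv n G → (∀ j < R, HSl G.und j) →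
      ∀ j < R, Sl (G.Pi j) := by
  induction i with
  | zero =>
    intro n _ hn G hG _ j hj
    exact fg2_triv (hG j (by omega))
  | succ i ih =>
    intro n hkn hn G hG hH j hj
    rcases Nat.lt_or_ge n R with hnR | hnR
    swap
    · exact fg2_triv (hG j (by omega))
    have hn1 : 1 ≤ n := le_trans hk hkn
    obtain ⟨e1, e2, e3, -⟩ := hEil G n
    -- homology of the Eilenberg subgroup
    have hE : ∀ j < R, HSl (eil G n).und j := fun j hj =>
      hSl.1 (SGp.PiMap (SAb.gp.map (ZSmap (SGp.undMap (eilι G n)))) j)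
        (hEilH n G hn1 hG j).1 (hH j hj)
    have hn2 : Sl ((eil G n).Pi n) := hHur n (eil G n) hn1 e1 (hE n hnR)
    -- enough for the Eilenberg subgroup
    suffices hs : n ≤ j → Sl ((eil G n).Pi j) by
      rcases Nat.lt_or_ge j n with hjn | hjn
      · exact fg2_triv (hG j hjn)
      · exact hSl.2.1 (SGp.PiMap (eilι G n) j) (e2 j hjn).2 (hs hjn)
    intro hjn
    rcases hjn.eq_or_lt with rfl | hjn
    · exact hn2
    obtain ⟨P, f, p1, p2, p3, p4, p5, p6⟩ := hPost n (eil G n) hn1 e1 hn2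
    have hP : ∀ j, HSl P.gpo.und j := hKAn n P hn1 p2 p3 p4
    have hK : ∀ j < R, HSl (SGp.ker f).und j :=
      hC f (n + 1) R p1 (hGp (n + 1) _ p5) (by omega) hE (fun j _ => hP j)
    have hK2 : Sl ((SGp.ker f).Pi j) := ih (n + 1) (by omega) (by omega) (SGp.ker f) p5 hK j hj
    exact hSl.2.1 (SGp.PiMap (SGp.kerι f) j) (p6 j hjn).2 hK2

/-- F7. -/
theorem thm_FG2 (hSl : St_Sl.{u}) (hEil : St_Eil.{u}) (hEilH : St_EilH.{u}) (hHur : St_Hur.{u})
    (hPost : St_Post.{u}) (hKAn : St_KAn.{u}) (hGp : St_GpHTriv.{u}) (hC : St_CechSl.{u}) :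
    St_FG2.{u} := by
  intro k R G hk hG hR hH
  exact fg2_step hSl hEil hEilH hHur hPost hKAn hGp hC k R hk hR R k le_rfl (by omega) G hG hH

end Pool.Agent.FGK
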