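import Pool.Agent.FGK.StA

/-!
# FGK: products and powers
-/

set_option autoImplicit false

namespace Pool.Agent.FGK

open CategoryTheory Function Pool.Agent.KQ

universe u

/-! ### functoriality of `M[Y]` -/

/-- the element `a [y]` -/
noncomputable def prods_sg (M : SAb.{u}) (Y : SSt.{u}) {n : ℕ} (y : Y.obj n) (a : M.obj n) :
    (M.fs Y).obj n := (Finsupp.single y a : Y.obj n →₀ M.obj n)

theorem prods_sg_zero (M : SAb.{u}) (Y : SSt.{u}) {n : ℕ} (y : Y.obj n) :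
    prods_sg M Y y 0 = 0 := Finsupp.single_zero y

theorem prods_sg_add (M : SAb.{u}) (Y : SSt.{u}) {n : ℕ} (y : Y.obj n) (a b : M.obj n) :
    prods_sg M Y y (a + b) = prods_sg M Y y a + prods_sg M Y y b := Finsupp.single_add y a b

theorem prods_ind {M : SAb.{u}} {Y : SSt.{u}} {n : ℕ} {p : (M.fs Y).obj n → Prop}
    (z : (M.fs Y).obj n) (h0 : p 0) (hadd : ∀ a b, p a → p b → p (a + b))
    (hs : ∀ y a, p (prods_sg M Y y a)) : p z := Finsupp.induction_linear z h0 hadd hs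

theorem prods_single {M M' : SAb.{u}} {Y Y' : SSt.{u}} (f : M ⟶ M') (g : Y ⟶ Y') (n : ℕ)
    (y : Y.obj n) (a : M.obj n) :
    (SAb.fsMap f g).app n (prods_sg M Y y a) = prods_sg M' Y' (g.app n y) (f.app n a) := by
  change Finsupp.mapDomain (g.app n) (Finsupp.mapRange (f.app n) (map_zero _)
    (Finsupp.single y a)) = Finsupp.single (g.app n y) (f.app n a)
  rw [Finsupp.mapRange_single, Finsupp.mapDomain_single]

theorem prods_aug_single (M : SAb.{u}) (Y : SSt.{u}) (n : ℕ) (y : Y.obj n) (a : M.obj n) :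
    (M.aug Y).app n (prods_sg M Y y a) = a := by
  change Finsupp.liftAddHom (fun _ => AddMonoidHom.id (M.obj n)) (Finsupp.single y a) = _
  rw [Finsupp.liftAddHom_apply_single]
  rfl

theorem prods_ext {M N : SAb.{u}} {Y : SSt.{u}} {F G : M.fs Y ⟶ N}
    (h : ∀ (n : ℕ) (y : Y.obj n) (a : M.obj n),
      F.app n (prods_sg M Y y a) = G.app n (prods_sg M Y y a)) : F = G := by
  refine SAb.hom_ext fun n x => ?_
  refine prods_ind (p := fun x => F.app n x = G.app n x) x ?_ (fun a b ha hb => ?_) (h n)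
  · rw [map_zero, map_zero]
  · rw [map_add, map_add, ha, hb]

theorem prods_ext2 {M N : SAb.{u}} {Y X : SSt.{u}} {F G : (M.fs Y).fs X ⟶ N}
    (h : ∀ (n : ℕ) (x : X.obj n) (y : Y.obj n) (a : M.obj n),
      F.app n (prods_sg (M.fs Y) X x (prods_sg M Y y a)) =
        G.app n (prods_sg (M.fs Y) X x (prods_sg M Y y a))) : F = G := by
  refine prods_ext fun n x z => ?_
  refine prods_ind (p := fun z => F.app n (prods_sg (M.fs Y) X x z) =
    G.app n (prods_sg (M.fs Y) X x z)) z ?_ (fun a b ha hb => ?_) (h n x)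
  · rw [prods_sg_zero, map_zero, map_zero]
  · rw [prods_sg_add, map_add, map_add, ha, hb]

theorem prods_fsMap_comp {M M' M'' : SAb.{u}} {Y Y' Y'' : SSt.{u}} (f : M ⟶ M') (f' : M' ⟶ M'')
    (g : Y ⟶ Y') (g' : Y' ⟶ Y'') :
    SAb.fsMap f g ≫ SAb.fsMap f' g' = SAb.fsMap (f ≫ f') (g ≫ g') := by
  refine prods_ext fun n y a => ?_
  rw [SAb.comp_app, prods_single, prods_single, prods_single]
  rfl

theorem prods_fsMap_id (M : SAb.{u}) (Y : SSt.{u}) : SAb.fsMap (𝟙 M) (𝟙 Y) = 𝟙 (M.fs Y) := by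
  refine prods_ext fun n y a => ?_
  rw [prods_single]
  rfl

/-- `M[Y]` of a map -/
noncomputable def prods_m (M : SAb.{u}) {Y Y' : SSt.{u}} (g : Y ⟶ Y') : M.fs Y ⟶ M.fs Y' :=
  SAb.fsMap (𝟙 M) g

theorem prods_m_single (M : SAb.{u}) {Y Y' : SSt.{u}} (g : Y ⟶ Y') (n : ℕ)
    (y : Y.obj n) (a : M.obj n) :
    (prods_m M g).app n (prods_sg M Y y a) = prods_sg M Y' (g.app n y) a :=
  prods_single (𝟙 M) g n y a

theorem prods_m_comp (M : SAb.{u}) {Y Y' Y'' : SSt.{u}} (g : Y ⟶ Y') (g' : Y' ⟶ Y'') :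
    prods_m M (g ≫ g') = prods_m M g ≫ prods_m M g' := (prods_fsMap_comp (𝟙 _) (𝟙 _) g g').symm

theorem prods_m_id (M : SAb.{u}) (Y : SSt.{u}) : prods_m M (𝟙 Y) = 𝟙 (M.fs Y) :=
  prods_fsMap_id M Y

theorem prods_aug_nat (M : SAb.{u}) {Y Y' : SSt.{u}} (g : Y ⟶ Y') :
    prods_m M g ≫ M.aug Y' = M.aug Y := by
  refine prods_ext fun n y a => ?_
  rw [SAb.comp_app, prods_m_single, prods_aug_single, prods_aug_single]

theorem prods_ZSmap_comp {Y Y' Y'' : SSt.{u}} (g : Y ⟶ Y') (g' : Y' ⟶ Y'') :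
    ZSmap (g ≫ g') = ZSmap g ≫ ZSmap g' := (prods_fsMap_comp (𝟙 _) (𝟙 _) g g').symm

theorem prods_ZSmap_id (Y : SSt.{u}) : ZSmap (𝟙 Y) = 𝟙 (ZS Y) := prods_fsMap_id _ Y

/-- the functoriality of `M.red Y` -/
noncomputable def prods_red (M : SAb.{u}) {Y Y' : SSt.{u}} (g : Y ⟶ Y') : M.red Y ⟶ M.red Y' :=
  SAb.kerMap (prods_m M g) (𝟙 M) (prods_aug_nat M g).symm

/-! ### homotopy groups -/

theorem prods_PiMap_comp {X Y Z : SAb.{u}} (f : X ⟶ Y) (g : Y ⟶ Z) (n : ℕ)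
    (x : (SAb.gp.obj X).Pi n) : SGp.PiMap (SAb.gp.map (f ≫ g)) n x =
      SGp.PiMap (SAb.gp.map g) n (SGp.PiMap (SAb.gp.map f) n x) := by
  rw [SAb.gp.map_comp]
  exact SGp.PiMap_comp _ _ n x

theorem prods_PiMap_id (X : SAb.{u}) (n : ℕ) (x : (SAb.gp.obj X).Pi n) :
    SGp.PiMap (SAb.gp.map (𝟙 X)) n x = x := by
  rw [SAb.gp.map_id]
  exact SGp.PiMap_id _ n x

theorem prods_conn_comp {c : ℕ} {X Y Z : SAb.{u}} {f : X ⟶ Y} {g : Y ⟶ Z} (hf : SAb.Conn c f)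
    (hg : SAb.Conn c g) : SAb.Conn c (f ≫ g) := by
  refine ⟨fun j hj => ?_, ?_⟩
  · rw [show (SGp.PiMap (SAb.gp.map (f ≫ g)) j : _ → _) =
      SGp.PiMap (SAb.gp.map g) j ∘ SGp.PiMap (SAb.gp.map f) j from
      funext (prods_PiMap_comp f g j)]
    exact (hg.1 j hj).comp (hf.1 j hj)
  · rw [show (SGp.PiMap (SAb.gp.map (f ≫ g)) c : _ → _) =
      SGp.PiMap (SAb.gp.map g) c ∘ SGp.PiMap (SAb.gp.map f) c from
      funext (prods_PiMap_comp f g c)]
    exact hg.2.comp hf.2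

theorem prods_weq_conn (c : ℕ) {X Y : SAb.{u}} {f : X ⟶ Y} (hf : SAb.Weq f) : SAb.Conn c f :=
  ⟨fun j _ => hf j, (hf c).2⟩

theorem prods_iso_weq {X Y : SAb.{u}} (f : X ⟶ Y) (g : Y ⟶ X) (h : f ≫ g = 𝟙 X)
    (h' : g ≫ f = 𝟙 Y) : SAb.Weq f := by
  intro j
  refine Function.bijective_iff_has_inverse.2 ⟨SGp.PiMap (SAb.gp.map g) j, fun x => ?_, fun x => ?_⟩
  · rw [← prods_PiMap_comp, h, prods_PiMap_id]
  · rw [← prods_PiMap_comp, h', prods_PiMap_id]

theorem prods_inv {X Y : SAb.{u}} (f : X ⟶ Y) (h : ∀ n, Bijective (f.app n)) :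
    ∃ g : Y ⟶ X, f ≫ g = 𝟙 X ∧ g ≫ f = 𝟙 Y := by
  let e : ∀ n, X.obj n ≃+ Y.obj n := fun n => AddEquiv.ofBijective (f.app n) (h n)
  refine ⟨⟨fun n => (e n).symm, fun {m n} θ y => ?_⟩, ?_, ?_⟩
  · apply (h m).1
    have h1 : ∀ (n : ℕ) (y : Y.obj n), f.app n ((e n).symm y) = y := fun n y =>
      (e n).apply_symm_apply y
    change f.app m ((e m).symm (Y.map θ y)) = f.app m (X.map θ ((e n).symm y))
    rw [h1, f.nat, h1]
  · exact SAb.hom_ext fun n x => (e n).symm_apply_apply x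
  · exact SAb.hom_ext fun n x => (e n).apply_symm_apply x

theorem prods_triv_retract {c : ℕ} {X Y : SAb.{u}} (f : X ⟶ Y) (g : Y ⟶ X) (h : f ≫ g = 𝟙 X)
    (hY : SAb.Triv c Y) : SAb.Triv c X := by
  intro j hj x
  have h1 := prods_PiMap_comp f g j x
  rw [h, prods_PiMap_id, hY j hj (SGp.PiMap (SAb.gp.map f) j x), map_one] at h1
  exact h1

theorem prods_triv_zero {c : ℕ} {X : SAb.{u}} (h : ∀ n, Subsingleton (X.obj n)) :
    SAb.Triv c X := by
  intro j _ x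
  obtain ⟨x, rfl⟩ := SGp.cls_surj _ j x
  have h1 : x = 1 := Subtype.ext ((h j).elim _ _)
  rw [h1, map_one]

/-! ### `HTriv` -/

theorem prods_HTriv_retract {d : ℕ} {Y Y' : SSt.{u}} (a : Y ⟶ Y') (b : Y' ⟶ Y) (h : a ≫ b = 𝟙 Y)
    (hY : HTriv d Y') : HTriv d Y := by
  intro A _
  refine prods_triv_retract (prods_red _ a) (prods_red _ b) ?_ (hY A)
  refine SAb.hom_ext fun n x => Subtype.ext ?_
  change (prods_m _ b).app n ((prods_m _ a).app n x.1) = x.1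
  rw [← SAb.comp_app, ← prods_m_comp, h, prods_m_id]
  rfl

theorem prods_nonempty (Y : SSt.{u}) (h : Nonempty (Y.obj 0)) (n : ℕ) : Nonempty (Y.obj n) :=
  ⟨Y.map ⟨fun _ => 0, fun _ _ _ => le_rfl⟩ h.some⟩

theorem prods_empty (Y : SSt.{u}) (h : ¬ Nonempty (Y.obj 0)) (n : ℕ) : IsEmpty (Y.obj n) :=
  ⟨fun y => h ⟨Y.map ⟨fun _ => 0, fun _ _ _ => le_rfl⟩ y⟩⟩

theorem prods_sub (M : SAb.{u}) (Y : SSt.{u}) (n : ℕ) (h : IsEmpty (Y.obj n)) :
    Subsingleton ((M.fs Y).obj n) := inferInstanceAs (Subsingleton (Y.obj n →₀ M.obj n))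

/-- the projection -/
def prods_fst (Y Y' : SSt.{u}) : Y.prod Y' ⟶ Y := ⟨fun _ x => x.1, fun _ _ => rfl⟩

/-- a section of the projection -/
def prods_sec (Y Y' : SSt.{u}) (y : Y'.obj 0) : Y ⟶ Y.prod Y' :=
  ⟨fun _ x => (x, Y'.map ⟨fun _ => 0, fun _ _ _ => le_rfl⟩ y), fun θ _ => Prod.ext rfl
    (Y'.map_comp θ ⟨fun _ => 0, fun _ _ _ => le_rfl⟩ y)⟩

theorem prods_HTriv (h1 : St_redTriv.{u}) (h2 : St_AbEx.{u}) (h4 : St_fsProd.{u}) (d : ℕ)
    (Y Y' : SSt.{u}) (hY : HTriv d Y) (hY' : HTriv d Y') : HTriv d (Y.prod Y') := by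
  intro A _
  by_cases hne : Nonempty (Y'.obj 0)
  · obtain ⟨φ, hφ, hs, hp, ha⟩ := h4 (SAb.const A) Y Y'
    have hp' : ∀ n x, (prods_m (SAb.const A) (prods_fst Y Y')).app n (φ.app n x) =
        (((SAb.const A).fs Y).aug Y').app n x := fun n x =>
      congrArg (fun e : ((SAb.const A).fs Y).fs Y' ⟶ (SAb.const A).fs Y => e.app n x) hp
    have ha' : ∀ n x, ((SAb.const A).aug (Y.prod Y')).app n (φ.app n x) =
        ((SAb.const A).aug Y).app n ((((SAb.const A).fs Y).aug Y').app n x) := fun n x =>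
      congrArg (fun e : ((SAb.const A).fs Y).fs Y' ⟶ SAb.const A => e.app n x) ha
    let F : ((SAb.const A).fs Y).red Y' ⟶ (SAb.const A).red (Y.prod Y') :=
      ⟨fun n => ((φ.app n).comp (((((SAb.const A).fs Y).aug Y').app n).ker.subtype)).codRestrict _
        fun x => by
          change ((SAb.const A).aug (Y.prod Y')).app n (φ.app n x.1) = 0
          have hx : (((SAb.const A).fs Y).aug Y').app n x.1 = 0 := x.2
          rw [ha', hx, map_zero], fun θ x => Subtype.ext (φ.nat θ x.1)⟩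
    have hses : SAb.SES F (prods_red (SAb.const A) (prods_fst Y Y')) := by
      refine ⟨fun n x y hxy => ?_, fun n z => ⟨fun hz => ?_, ?_⟩, fun n y => ?_⟩
      · exact Subtype.ext ((hφ n).1 (congrArg Subtype.val hxy))
      · obtain ⟨w, hw⟩ := (hφ n).2 z.1
        have hz' : (prods_m (SAb.const A) (prods_fst Y Y')).app n z.1 = 0 :=
          congrArg Subtype.val hz
        rw [← hw, hp'] at hz'
        exact ⟨⟨w, hz'⟩, Subtype.ext hw⟩
      · rintro ⟨x, rfl⟩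
        apply Subtype.ext
        change (prods_m (SAb.const A) (prods_fst Y Y')).app n (φ.app n x.1) = 0
        rw [hp']
        exact x.2
      · obtain ⟨y0⟩ := hne
        refine ⟨(prods_red (SAb.const A) (prods_sec Y Y' y0)).app n y, Subtype.ext ?_⟩
        change (prods_m (SAb.const A) (prods_fst Y Y')).app n
          ((prods_m (SAb.const A) (prods_sec Y Y' y0)).app n y.1) = y.1
        rw [← SAb.comp_app, ← prods_m_comp]
        have h5 : prods_sec Y Y' y0 ≫ prods_fst Y Y' = 𝟙 Y := rfl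
        rw [h5, prods_m_id]
        rfl
    have := (h2 F _ hses d).1
    refine this ?_ (hY A)
    have h5 := h1 0 d ((SAb.const A).fs Y) Y' (fun j hj => absurd hj (Nat.not_lt_zero j)) hY'
    rwa [zero_add] at h5
  · refine prods_triv_zero fun n => ⟨fun x y => Subtype.ext ?_⟩
    refine (prods_sub (SAb.const A) (Y.prod Y') n ⟨fun z => ?_⟩).elim _ _
    exact (prods_empty Y' hne n).false z.2

/-! ### powers -/

/-- the power `p + 1` as a product -/
def prods_powTo (Y : SSt.{u}) (p : ℕ) : Y.pow (p + 1) ⟶ Y.prod (Y.pow p) :=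
  ⟨fun _ x => (x 0, fun i => x i.succ), fun _ _ => rfl⟩

/-- the power `p + 1` as a product -/
def prods_powFrom (Y : SSt.{u}) (p : ℕ) : Y.prod (Y.pow p) ⟶ Y.pow (p + 1) :=
  ⟨fun n x => (Fin.cons x.1 x.2 : Fin (p + 1) → Y.obj n), fun {m n} θ x => by
    funext i
    change (Fin.cons (Y.map θ x.1) (fun i => Y.map θ (x.2 i)) : Fin (p + 1) → Y.obj m) i =
      Y.map θ ((Fin.cons x.1 x.2 : Fin (p + 1) → Y.obj n) i)
    refine Fin.cases ?_ (fun i => ?_) i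
    · rfl
    · rfl⟩

theorem prods_pow1 (Y : SSt.{u}) (p : ℕ) : prods_powTo Y p ≫ prods_powFrom Y p = 𝟙 _ := by
  refine SSt.hom_ext fun n x => ?_
  change (Fin.cons (x 0) (fun i => x i.succ) : Fin (p + 1) → Y.obj n) = x
  funext i
  refine Fin.cases ?_ (fun i => ?_) i
  · rfl
  · rfl

theorem prods_pow2 (Y : SSt.{u}) (p : ℕ) : prods_powFrom Y p ≫ prods_powTo Y p = 𝟙 _ := by
  refine SSt.hom_ext fun n x => ?_
  rfl

theorem prods_HTriv_pow (h1 : St_redTriv.{u}) (h2 : St_AbEx.{u}) (h4 : St_fsProd.{u}) (d : ℕ)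
    (Y : SSt.{u}) (hY : HTriv d Y) (p : ℕ) : HTriv d (Y.pow p) := by
  induction p with
  | zero =>
    intro A _
    refine prods_triv_zero fun n => ⟨fun x y => Subtype.ext ?_⟩
    let e : (Y.pow 0).obj n := fun i => i.elim0
    have hu : ∀ z : ((SAb.const A).fs (Y.pow 0)).obj n,
        z = prods_sg _ _ e (((SAb.const A).aug (Y.pow 0)).app n z) := by
      intro z
      refine prods_ind (p := fun z => z = prods_sg _ _ e
        (((SAb.const A).aug (Y.pow 0)).app n z)) z ?_ (fun a b ha hb => ?_) fun y a => ?_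
      · rw [map_zero, prods_sg_zero]
      · rw [map_add, prods_sg_add, ← ha, ← hb]
      · rw [prods_aug_single]
        have h5 : y = e := funext fun i => i.elim0
        rw [h5]
    have hx : ((SAb.const A).aug (Y.pow 0)).app n x.1 = 0 := x.2
    have hy : ((SAb.const A).aug (Y.pow 0)).app n y.1 = 0 := y.2
    rw [hu x.1, hu y.1, hx, hy]
  | succ p ih =>
    exact prods_HTriv_retract (prods_powTo Y p) (prods_powFrom Y p) (prods_pow1 Y p)
      (prods_HTriv h1 h2 h4 d Y (Y.pow p) hY ih)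

/-! ### maps of products -/

theorem prods_conn_m (h3 : St_fsConn.{u}) (h4 : St_fsProd.{u}) (c : ℕ) (M : SAb.{u})
    {Y Y' : SSt.{u}} (g : Y ⟶ Y') (X : SSt.{u}) (hg : SAb.Conn c (prods_m M g)) :
    SAb.Conn c (prods_m M (SSt.prodMap g (𝟙 X))) := by
  obtain ⟨φ, hφ, hs, -, -⟩ := h4 M Y X
  obtain ⟨φ', hφ', hs', -, -⟩ := h4 M Y' X
  obtain ⟨ψ, hψ1, hψ2⟩ := prods_inv φ hφ
  obtain ⟨ψ', hψ1', hψ2'⟩ := prods_inv φ' hφ'
  have t : ∀ (n : ℕ) (y : Y.obj n) (x : X.obj n) (a : M.obj n),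
      φ.app n (prods_sg (M.fs Y) X x (prods_sg M Y y a)) =
        prods_sg M (Y.prod X) (show (Y.prod X).obj n from (y, x)) a := hs
  have t' : ∀ (n : ℕ) (y : Y'.obj n) (x : X.obj n) (a : M.obj n),
      φ'.app n (prods_sg (M.fs Y') X x (prods_sg M Y' y a)) =
        prods_sg M (Y'.prod X) (show (Y'.prod X).obj n from (y, x)) a := hs'
  have hsq : φ ≫ prods_m M (SSt.prodMap g (𝟙 X)) = SAb.fsMap (prods_m M g) (𝟙 X) ≫ φ' := by
    refine prods_ext2 fun n x y a => ?_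
    rw [SAb.comp_app, SAb.comp_app, t, prods_m_single, prods_single, prods_m_single]
    exact (t' n (g.app n y) x a).symm
  have h5 : prods_m M (SSt.prodMap g (𝟙 X)) = ψ ≫ SAb.fsMap (prods_m M g) (𝟙 X) ≫ φ' := by
    rw [← hsq, ← Category.assoc, hψ2, Category.id_comp]
  rw [h5]
  exact prods_conn_comp (prods_weq_conn c (prods_iso_weq ψ φ hψ2 hψ1))
    (prods_conn_comp (h3.1 c (prods_m M g) X hg) (prods_weq_conn c
      (prods_iso_weq φ' ψ' hψ1' hψ2')))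

theorem prods_conn_left (h3 : St_fsConn.{u}) (h4 : St_fsProd.{u}) (c : ℕ) {Y Y' : SSt.{u}}
    (g : Y ⟶ Y') (X : SSt.{u}) (hg : SAb.Conn c (ZSmap g)) :
    SAb.Conn c (ZSmap (SSt.prodMap g (𝟙 X))) := prods_conn_m h3 h4 c _ g X hg

/-- the transposition -/
def prods_swap (Y Y' : SSt.{u}) : Y.prod Y' ⟶ Y'.prod Y := ⟨fun _ x => (x.2, x.1), fun _ _ => rfl⟩

theorem prods_conn_right (h3 : St_fsConn.{u}) (h4 : St_fsProd.{u}) (c : ℕ) {X X' : SSt.{u}}
    (h : X ⟶ X') (Y : SSt.{u}) (hg : SAb.Conn c (ZSmap h)) :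
    SAb.Conn c (ZSmap (SSt.prodMap (𝟙 Y) h)) := by
  have h5 : SSt.prodMap (𝟙 Y) h = prods_swap Y X ≫ SSt.prodMap h (𝟙 Y) ≫ prods_swap X' Y := rfl
  have h6 : ∀ Z Z' : SSt.{u}, SAb.Weq (ZSmap (prods_swap Z Z')) := by
    intro Z Z'
    refine prods_iso_weq _ (ZSmap (prods_swap Z' Z)) ?_ ?_
    · rw [← prods_ZSmap_comp, ← prods_ZSmap_id]
      rfl
    · rw [← prods_ZSmap_comp, ← prods_ZSmap_id]
      rfl
  rw [h5, prods_ZSmap_comp, prods_ZSmap_comp]
  exact prods_conn_comp (prods_weq_conn c (h6 _ _)) (prods_conn_comp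
    (prods_conn_left h3 h4 c h Y hg) (prods_weq_conn c (h6 _ _)))

theorem prods_conn (h3 : St_fsConn.{u}) (h4 : St_fsProd.{u}) (c : ℕ) {Y Y' X X' : SSt.{u}}
    (g : Y ⟶ Y') (h : X ⟶ X') (hg : SAb.Conn c (ZSmap g)) (hh : SAb.Conn c (ZSmap h)) :
    SAb.Conn c (ZSmap (SSt.prodMap g h)) := by
  have h5 : SSt.prodMap g h = SSt.prodMap g (𝟙 X) ≫ SSt.prodMap (𝟙 Y') h := rfl
  rw [h5, prods_ZSmap_comp]
  exact prods_conn_comp (prods_conn_left h3 h4 c g X hg) (prods_conn_right h3 h4 c h Y' hh)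

/-! ### finite type -/

theorem prods_FTy (h3 : St_fsConn.{u}) (h4 : St_fsProd.{u}) (Y Y' : SSt.{u}) (hY : FTy Y)
    (hY' : FTy Y') : FTy (Y.prod Y') := by
  intro c
  obtain ⟨Z, g, hZ, hg⟩ := hY c
  obtain ⟨Z', g', hZ', hg'⟩ := hY' c
  refine ⟨Z.prod Z', SSt.prodMap g g', fun n => ?_, prods_conn h3 h4 c g g' hg hg'⟩
  have := hZ n
  have := hZ' n
  change Finite (Z.obj n × Z'.obj n)
  infer_instance

theorem prods_FTy_weq {Y Y' : SSt.{u}} (g : Y ⟶ Y') (hg : SAb.Weq (ZSmap g)) (hY : FTy Y) :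
    FTy Y' := by
  intro c
  obtain ⟨Z, f, hZ, hf⟩ := hY c
  refine ⟨Z, f ≫ g, hZ, ?_⟩
  rw [prods_ZSmap_comp]
  exact prods_conn_comp hf (prods_weq_conn c hg)

theorem prods_FTy_pow (h3 : St_fsConn.{u}) (h4 : St_fsProd.{u}) (Y : SSt.{u}) (hY : FTy Y)
    (p : ℕ) : FTy (Y.pow p) := by
  induction p with
  | zero =>
    intro c
    refine ⟨Y.pow 0, 𝟙 _, fun n => ?_, ?_⟩
    · change Finite (Fin 0 → Y.obj n)
      exact Finite.of_subsingleton
    · rw [prods_ZSmap_id]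
      exact prods_weq_conn c (prods_iso_weq _ (𝟙 _) (Category.comp_id _) (Category.comp_id _))
  | succ p ih =>
    refine prods_FTy_weq (prods_powFrom Y p) ?_ (prods_FTy h3 h4 Y (Y.pow p) hY ih)
    refine prods_iso_weq _ (ZSmap (prods_powTo Y p)) ?_ ?_
    · rw [← prods_ZSmap_comp, prods_pow2, prods_ZSmap_id]
    · rw [← prods_ZSmap_comp, prods_pow1, prods_ZSmap_id]

theorem thm_Prods (h1 : St_redTriv.{u}) (h2 : St_AbEx.{u}) (h3 : St_fsConn.{u})
    (h4 : St_fsProd.{u}) : St_Prods.{u} :=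
  ⟨prods_HTriv h1 h2 h4, fun d Y p hY => prods_HTriv_pow h1 h2 h4 d Y hY p,
    fun c _ _ _ _ g h => prods_conn h3 h4 c g h, prods_FTy h3 h4,
    fun Y p hY => prods_FTy_pow h3 h4 Y hY p, fun g => prods_FTy_weq g⟩

end Pool.Agent.FGK
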