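import Pool.Agent.FGK.StD
import Pool.Agent.FGK.Prods

/-!
# FGK FTyX: `ob S.V` has homology of finite type
-/

set_option autoImplicit false
set_option linter.unusedVariables false

noncomputable section

namespace Pool.Agent.FGK

open CategoryTheory CategoryTheory.Limits Function Pool.Agent.KQ

theorem ftyx_conn {X Y : SAb.{1}} (f : X ⟶ Y) (h : SAb.Weq f) (c : ℕ) : SAb.Conn c f :=
  ⟨fun j _ => h j, (h c).2⟩

theorem thm_FTyX (hFM : St_FinMod) (hS : St_fsStrong.{1}) (hR : St_RkConn) : St_FTyX := by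
  intro k _ _ c
  obtain ⟨Y, g, hY, hg⟩ := hFM k c
  refine ⟨Y, g ≫ (rkS k c).ι, hY, ?_⟩
  rw [prods_ZSmap_comp]
  exact prods_conn_comp (ftyx_conn _ (hS _ g hg) c) (hR k c)

end Pool.Agent.FGK
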