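import Pool.Agent.FGK.StD
import Pool.Agent.KQ.Core

/-!
# FGK [FinMod]: finite models of the rank filtration
-/

set_option autoImplicit false
set_option linter.unusedVariables false

noncomputable section

namespace Pool.Agent.FGK

open CategoryTheory CategoryTheory.Limits Function Pool.Agent.KQ

universe u

/-! ### change of the entries of a diagram -/

/-- change of the objects of a diagram along isomorphisms -/
def finmod_cp {J C : Type*} [Category J] [Category C] (F : J ⥤ C)
    (q : ∀ x, Σ M : C, (F.obj x ≅ M)) : J ⥤ C where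
  obj x := (q x).1
  map f := (q _).2.inv ≫ F.map f ≫ (q _).2.hom
  map_id x := by simp
  map_comp f g := by simp

/-- the new diagram is isomorphic to the old one -/
def finmod_cpIso {J C : Type*} [Category J] [Category C] (F : J ⥤ C)
    (q : ∀ x, Σ M : C, (F.obj x ≅ M)) : F ≅ finmod_cp F q :=
  NatIso.ofComponents (fun x => (q x).2) fun f => by simp [finmod_cp]

theorem finmod_cp_id {J C : Type*} [Category J] [Category C] (F : J ⥤ C) :
    finmod_cp F (fun x => ⟨F.obj x, Iso.refl _⟩) = F := by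
  refine CategoryTheory.Functor.ext (fun x => rfl) fun x y f => ?_
  simp [finmod_cp]

variable {k : Type} [Field k]

/-- the standard vector space of the dimension of `M` -/
def finmod_s (M : ModuleCat.{0} k) : ModuleCat.{0} k :=
  ModuleCat.of k (Fin (Module.finrank k M) → k)

/-- an isomorphism with the standard vector space -/
def finmod_e (M : ModuleCat.{0} k) (h : Module.Finite k M) : M ≅ finmod_s M :=
  (Module.finBasis k M).equivFun.toModuleIso

/-- `M` or its standard model -/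
def finmod_pick (M : ModuleCat.{0} k) (h : Module.Finite k M) :
    Bool → Σ M' : ModuleCat.{0} k, (M ≅ M')
  | false => ⟨M, Iso.refl _⟩
  | true => ⟨finmod_s M, finmod_e M h⟩

/-- the homotopy on the S-diagrams -/
def finmod_h {n : ℕ} (α : Fin (n + 1) →o Bool) (D : (XS k).obj n) : (XS k).obj n :=
  ⟨finmod_cp D.obj fun x => finmod_pick (D.obj.obj x) (D.property.1 x) (α x.1.2),
    ((KQG.MA k).SP (Fin (n + 1))).iso (finmod_cpIso D.obj _) D.property⟩

theorem finmod_h_nat {m n : ℕ} (θ : Mo m n) (α : Fin (n + 1) →o Bool) (D : (XS k).obj n) :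
    finmod_h (α.comp θ) ((XS k).map θ D) = (XS k).map θ (finmod_h α D) := rfl

theorem finmod_h0 {n : ℕ} (α : Fin (n + 1) →o Bool) (D : (XS k).obj n)
    (hα : ∀ i, α i = false) : finmod_h α D = D := by
  refine ObjectProperty.FullSubcategory.ext ?_
  change finmod_cp D.obj _ = D.obj
  rw [show (fun x => finmod_pick (D.obj.obj x) (D.property.1 x) (α x.1.2)) =
    fun x => ⟨D.obj.obj x, Iso.refl _⟩ from funext fun x => by rw [hα]; rfl]
  exact finmod_cp_id D.obj

theorem finmod_h1 {n : ℕ} (α β : Fin (n + 1) →o Bool) (D : (XS k).obj n)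
    (hα : ∀ i, α i = true) (hβ : ∀ i, β i = true) : finmod_h α D = finmod_h β D := by
  rw [show α = β from OrderHom.ext _ _ (funext fun i => by rw [hα, hβ])]

theorem finmod_rk {r n : ℕ} (α : Fin (n + 1) →o Bool) (D : (XS k).obj n)
    (hD : D ∈ (rkS k r).s n) : finmod_h α D ∈ (rkS k r).s n := by
  have e : D.obj.obj (ar 0 (Fin.last n) (Fin.zero_le _)) ≅
    (finmod_h α D).obj.obj (ar 0 (Fin.last n) (Fin.zero_le _)) :=
      (finmod_cpIso D.obj fun x => finmod_pick (D.obj.obj x) (D.property.1 x) (α x.1.2)).app _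
  have h := LinearEquiv.finrank_eq e.toLinearEquiv
  exact h.symm.le.trans hD

/-! ### the standard diagrams -/

/-- the diagrams with standard entries -/
def finmod_Y (k : Type) [Field k] (r : ℕ) : SubS (rkS k r).S where
  s n := {D | ∀ x, ∃ d : ℕ, D.1.obj.obj x = ModuleCat.of k (Fin d → k)}
  map_mem {m n} θ D h x := h (Ar.map θ x)

theorem finmod_h_Y {n : ℕ} (α : Fin (n + 1) →o Bool) (D : (XS k).obj n)
    (h : ∀ x, α x.1.2 = true ∨ ∃ d : ℕ, D.obj.obj x = ModuleCat.of k (Fin d → k)) (x) :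
    ∃ d : ℕ, (finmod_h α D).obj.obj x = ModuleCat.of k (Fin d → k) := by
  change ∃ d : ℕ, (finmod_pick (D.obj.obj x) (D.property.1 x) (α x.1.2)).1 = _
  rcases h x with h | h
  · rw [h]
    exact ⟨_, rfl⟩
  · cases α x.1.2 with
    | false => exact h
    | true => exact ⟨_, rfl⟩

/-- the constant map `true` -/
def finmod_tt (n : ℕ) : Fin (n + 1) →o Bool := ⟨fun _ => true, fun _ _ _ => le_rfl⟩

/-- the map to the standard diagrams -/
def finmod_ρ (k : Type) [Field k] (r : ℕ) : (rkS k r).S ⟶ (finmod_Y k r).S :=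
  ⟨fun n D => ⟨⟨finmod_h (finmod_tt n) D.1, finmod_rk _ D.1 D.2⟩,
    finmod_h_Y _ D.1 fun _ => Or.inl rfl⟩, fun {m n} θ D => rfl⟩

/-- the homotopy on the rank filtration -/
def finmod_H (k : Type) [Field k] (r : ℕ) :
    SSt.Htpy (𝟙 (rkS k r).S) (finmod_ρ k r ≫ (finmod_Y k r).ι) where
  h n α D := ⟨finmod_h α D.1, finmod_rk α D.1 D.2⟩
  nat θ α D := rfl
  h0 n α D hα := Subtype.ext (finmod_h0 α D.1 hα)
  h1 n α D hα := Subtype.ext (finmod_h1 α (finmod_tt n) D.1 hα fun _ => rfl)

/-- the homotopy on the standard diagrams -/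
def finmod_H' (k : Type) [Field k] (r : ℕ) :
    SSt.Htpy (𝟙 (finmod_Y k r).S) ((finmod_Y k r).ι ≫ finmod_ρ k r) where
  h n α D := ⟨⟨finmod_h α D.1.1, finmod_rk α D.1.1 D.1.2⟩,
    finmod_h_Y α D.1.1 fun x => Or.inr (D.2 x)⟩
  nat θ α D := rfl
  h0 n α D hα := Subtype.ext (Subtype.ext (finmod_h0 α D.1.1 hα))
  h1 n α D hα := Subtype.ext (Subtype.ext
    (finmod_h1 α (finmod_tt n) D.1.1 hα fun _ => rfl))

theorem finmod_strong (hH : St_StrHt.{1}) (k : Type) [Field k] (r : ℕ) :
    SSt.Strong (finmod_Y k r).ι :=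
  hH.2.1 _ (finmod_ρ k r) (fun Φ n => (hH.1 _ _ ⟨finmod_H' k r⟩ Φ n).symm)
    fun Φ n => (hH.1 _ _ ⟨finmod_H k r⟩ Φ n).symm

/-! ### finiteness -/

theorem finmod_dim {r n : ℕ} (D : (XS k).obj n) (hD : D ∈ (rkS k r).s n)
    (x : Ar (Fin (n + 1))) : Module.finrank k (ent D x) ≤ r := by
  obtain ⟨⟨i, j⟩, hij⟩ := x
  have h1 := ent_ses D 0 j (Fin.last n) (Fin.zero_le _) (Fin.le_last _)
  have h2 := ent_ses D 0 i j (Fin.zero_le _) hij
  have := ent_finite D (ar 0 (Fin.last n) (Fin.zero_le _))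
  have := ent_finite D (ar 0 j (Fin.zero_le _))
  have e1 := LinearMap.finrank_le_finrank_of_injective h1.1
  have e2 := LinearMap.finrank_le_finrank_of_surjective h2.2.2
  exact (e2.trans e1).trans hD

/-- the functors with standard entries of dimension `≤ r` -/
theorem finmod_fin (k : Type) [Field k] [Finite k] (r : ℕ) (J : Type) [Preorder J] [Finite J] :
    {F : J ⥤ ModuleCat.{0} k | ∀ x, ∃ d : Fin (r + 1),
      F.obj x = ModuleCat.of k (Fin d → k)}.Finite := by
  classical
  let T : Type := Σ d : J → Fin (r + 1),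
    ∀ x y : J, x ≤ y → ((Fin (d x) → k) →ₗ[k] (Fin (d y) → k))
  have h1 : ∀ d : J → Fin (r + 1),
      Finite (∀ x y : J, x ≤ y → ((Fin (d x) → k) →ₗ[k] (Fin (d y) → k))) := by
    intro d
    have : ∀ x y : J, Finite ((Fin (d x) → k) →ₗ[k] (Fin (d y) → k)) := fun x y =>
      DFunLike.finite _
    infer_instance
  have hT : Finite T := inferInstance
  let G : T → Set (J ⥤ ModuleCat.{0} k) := fun t =>
    {F | ∃ h : F.obj = fun x => ModuleCat.of k (Fin (t.1 x) → k), ∀ x y (hxy : x ≤ y),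
      F.map (homOfLE hxy) = eqToHom (congrFun h x) ≫ ModuleCat.ofHom (t.2 x y hxy) ≫
        eqToHom (congrFun h y).symm}
  have hG : ∀ t, (G t).Subsingleton := by
    rintro t F ⟨h, h'⟩ F' ⟨g, g'⟩
    refine CategoryTheory.Functor.ext (fun x => congrFun (h.trans g.symm) x) fun x y f => ?_
    rw [show f = homOfLE (leOfHom f) from Subsingleton.elim _ _, h', g']
    simp
  refine (Set.finite_iUnion fun t : T => (hG t).finite).subset fun F hF => ?_
  choose d hd using hF
  rw [Set.mem_iUnion]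
  refine ⟨⟨d, fun x y hxy => (eqToHom (hd x).symm ≫ F.map (homOfLE hxy) ≫
    eqToHom (hd y)).hom⟩, funext hd, fun x y hxy => ?_⟩
  simp

/-- **FinMod** -/
theorem thm_FinMod : St_FinMod := by
  intro k _ _ r
  refine ⟨(finmod_Y k r).S, (finmod_Y k r).ι, fun n => ?_, finmod_strong all_StrHt k r⟩
  have h1 : Finite (Ar (Fin (n + 1))) :=
    inferInstanceAs (Finite {p : Fin (n + 1) × Fin (n + 1) // p.1 ≤ p.2})
  have h2 := (finmod_fin k r (Ar (Fin (n + 1)))).to_subtype
  refine Finite.of_injective (β := {F : Ar (Fin (n + 1)) ⥤ ModuleCat.{0} k |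
    ∀ x, ∃ d : Fin (r + 1), F.obj x = ModuleCat.of k (Fin d → k)})
    (fun D => ⟨D.1.1.obj, fun x => ?_⟩) fun D D' h => ?_
  · obtain ⟨d, hd⟩ := D.2 x
    have h3 := finmod_dim D.1.1 D.1.2 x
    have h4 : Module.finrank k (ent D.1.1 x) = d := by
      have e : ent D.1.1 x ≅ ModuleCat.of k (Fin d → k) := eqToIso hd
      exact (LinearEquiv.finrank_eq e.toLinearEquiv).trans (Module.finrank_fin_fun k)
    exact ⟨⟨d, by omega⟩, hd⟩
  · refine Subtype.ext (Subtype.ext (ObjectProperty.FullSubcategory.ext ?_))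
    exact congrArg Subtype.val h

end Pool.Agent.FGK
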