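import Pool.Agent.FGK.StB

/-!
# FGK: E1, Fox calculus
-/

set_option autoImplicit false
set_option linter.unusedVariables false

namespace Pool.Agent.FGK

open CategoryTheory Function Pool.Agent.KQ

universe u

section fox

variable (X : Pointed.{u})

/-- the multiples of the base point -/
noncomputable def fox_S : AddSubgroup (X.X →₀ ULift.{u} ℤ) :=
  AddSubgroup.closure {z | ∃ x ∈ ({x | x = X.point} : Set X.X), ∃ c, z = Finsupp.single x c}

/-- `ℤ[X] / ℤ[*]` -/
abbrev fox_Q : Type u := (X.X →₀ ULift.{u} ℤ) ⧸ fox_S X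

/-- `[x] ↦ [g x] - [g]` -/
noncomputable def fox_a (g : Fr X) : (X.X →₀ ULift.{u} ℤ) →+ (Fr X →₀ ULift.{u} ℤ) :=
  Finsupp.liftAddHom fun x => Finsupp.singleAddHom (g * Fr.of X x) - Finsupp.singleAddHom g

theorem fox_a_single (g : Fr X) (x : X.X) (c : ULift.{u} ℤ) :
    fox_a X g (Finsupp.single x c) = Finsupp.single (g * Fr.of X x) c - Finsupp.single g c := by
  rw [fox_a, Finsupp.liftAddHom_apply_single]
  rfl

/-- `[x] ↦ [g x] - [g]` on the quotient -/
noncomputable def fox_b (g : Fr X) : fox_Q X →+ (Fr X →₀ ULift.{u} ℤ) :=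
  QuotientAddGroup.lift (fox_S X) (fox_a X g) (by
    intro z hz
    have h : fox_S X ≤ (fox_a X g).ker := by
      refine (AddSubgroup.closure_le _).2 ?_
      rintro _ ⟨x, hx, c, rfl⟩
      have hx' : x = X.point := hx
      rw [hx']
      change fox_a X g (Finsupp.single X.point c) = 0
      rw [fox_a_single, Fr.of_point, mul_one, sub_self]
    exact h hz)

theorem fox_b_mk (g : Fr X) (x : X.X) (c : ULift.{u} ℤ) :
    fox_b X g (QuotientAddGroup.mk (Finsupp.single x c)) =
      Finsupp.single (g * Fr.of X x) c - Finsupp.single g c := by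
  rw [← fox_a_single]
  rfl

/-- the map `φ` before the restriction to the kernel of the augmentation -/
noncomputable def fox_c : (Fr X →₀ fox_Q X) →+ (Fr X →₀ ULift.{u} ℤ) :=
  Finsupp.liftAddHom (fox_b X)

theorem fox_c_single (g : Fr X) (x : X.X) (c : ULift.{u} ℤ) :
    fox_c X (Finsupp.single g (QuotientAddGroup.mk (Finsupp.single x c))) =
      Finsupp.single (g * Fr.of X x) c - Finsupp.single g c := by
  rw [fox_c, Finsupp.liftAddHom_apply_single, fox_b_mk]

/-- homomorphisms on `F →₀ Q` are determined on generators -/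
theorem fox_ext {M : Type u} [AddCommGroup M] {f g : (Fr X →₀ fox_Q X) →+ M}
    (h : ∀ a x c, f (Finsupp.single a (QuotientAddGroup.mk (Finsupp.single x c))) =
      g (Finsupp.single a (QuotientAddGroup.mk (Finsupp.single x c)))) : f = g := by
  refine AddMonoidHom.ext fun m => ?_
  refine @Finsupp.induction_linear (Fr X) (fox_Q X) _ (fun m => f m = g m) m ?_ ?_ ?_
  · exact (map_zero f).trans (map_zero g).symm
  · intro m m' hm hm'
    exact (map_add f m m').trans ((congrArg₂ (· + ·) hm hm').trans (map_add g m m').symm)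
  · intro a q
    induction q using QuotientAddGroup.induction_on with
    | H z =>
      induction z using Finsupp.induction_linear with
      | zero =>
        change f (Finsupp.single a 0) = g (Finsupp.single a 0)
        rw [Finsupp.single_zero, map_zero, map_zero]
      | add z w hz hw =>
        have e : (Finsupp.single a ((QuotientAddGroup.mk z : fox_Q X) + QuotientAddGroup.mk w) :
            Fr X →₀ fox_Q X) = Finsupp.single a (QuotientAddGroup.mk z) +
              Finsupp.single a (QuotientAddGroup.mk w) :=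
          @Finsupp.single_add (Fr X) (fox_Q X) _ a (QuotientAddGroup.mk z) (QuotientAddGroup.mk w)
        exact (congrArg f e).trans ((map_add f _ _).trans ((congrArg₂ (· + ·) hz hw).trans
          ((map_add g _ _).symm.trans (congrArg g e).symm)))
      | single x c => exact h a x c

/-- translations -/
noncomputable def fox_L (M : Type u) [AddCommGroup M] (g : Fr X) :
    (Fr X →₀ M) →+ (Fr X →₀ M) := Finsupp.mapDomain.addMonoidHom (g * ·)

theorem fox_L_single (M : Type u) [AddCommGroup M] (g h : Fr X) (c : M) :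
    fox_L X M g (Finsupp.single h c) = Finsupp.single (g * h) c :=
  Finsupp.mapDomain_single

theorem fox_L_one (M : Type u) [AddCommGroup M] (m : Fr X →₀ M) : fox_L X M 1 m = m := by
  change Finsupp.mapDomain (fun h => 1 * h) m = m
  have h1 : (fun h : Fr X => 1 * h) = id := funext fun h => one_mul h
  rw [h1, Finsupp.mapDomain_id]

theorem fox_L_mul (M : Type u) [AddCommGroup M] (g h : Fr X) (m : Fr X →₀ M) :
    fox_L X M (g * h) m = fox_L X M g (fox_L X M h m) := by
  change Finsupp.mapDomain (fun a => g * h * a) m =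
    Finsupp.mapDomain (fun a => g * a) (Finsupp.mapDomain (fun a => h * a) m)
  rw [← Finsupp.mapDomain_comp]
  congr 1
  exact funext fun a => mul_assoc g h a

theorem fox_c_L (g : Fr X) (m : Fr X →₀ fox_Q X) :
    fox_c X (fox_L X _ g m) = fox_L X _ g (fox_c X m) := by
  have h1 : (fox_c X).comp (fox_L X (fox_Q X) g) = (fox_L X (ULift.{u} ℤ) g).comp (fox_c X) := by
    apply fox_ext
    intro a x c
    rw [AddMonoidHom.comp_apply, AddMonoidHom.comp_apply, fox_L_single, fox_c_single,
      fox_c_single, map_sub, fox_L_single, fox_L_single, mul_assoc]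
  exact DFunLike.congr_fun h1 m

/-- affine bijections -/
noncomputable def fox_e (g : Fr X) (s : Fr X →₀ fox_Q X) : Equiv.Perm (Fr X →₀ fox_Q X) where
  toFun m := fox_L X (fox_Q X) g m + s
  invFun m := fox_L X (fox_Q X) g⁻¹ (m - s)
  left_inv m := by
    change fox_L X (fox_Q X) g⁻¹ (fox_L X (fox_Q X) g m + s - s) = m
    rw [add_sub_cancel_right, ← fox_L_mul, inv_mul_cancel, fox_L_one]
  right_inv m := by
    change fox_L X (fox_Q X) g (fox_L X (fox_Q X) g⁻¹ (m - s)) + s = m
    rw [← fox_L_mul, mul_inv_cancel, fox_L_one, sub_add_cancel]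

/-- the class of a generator -/
noncomputable def fox_s (x : X.X) : Fr X →₀ fox_Q X :=
  Finsupp.single 1 (QuotientAddGroup.mk (Finsupp.single x ⟨1⟩))

theorem fox_s_point : fox_s X X.point = 0 := by
  rw [fox_s]
  have h1 : (QuotientAddGroup.mk (Finsupp.single X.point ⟨1⟩) : fox_Q X) = 0 :=
    (QuotientAddGroup.eq_zero_iff _).2 (AddSubgroup.subset_closure ⟨X.point, rfl, ⟨1⟩, rfl⟩)
  rw [h1, Finsupp.single_zero]

/-- the action of the free group by affine bijections -/
noncomputable def fox_T : Fr X →* Equiv.Perm (Fr X →₀ fox_Q X) :=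
  QuotientGroup.lift _ (FreeGroup.lift fun x => fox_e X (Fr.of X x) (fox_s X x)) fun w hw => by
    have : Subgroup.normalClosure {FreeGroup.of X.point} ≤
        (FreeGroup.lift fun x => fox_e X (Fr.of X x) (fox_s X x)).ker := by
      refine Subgroup.normalClosure_le_normal ?_
      rintro _ rfl
      change FreeGroup.lift _ (FreeGroup.of X.point) = 1
      rw [FreeGroup.lift_apply_of]
      apply Equiv.ext
      intro m
      change fox_L X (fox_Q X) (Fr.of X X.point) m + fox_s X X.point = m
      rw [Fr.of_point, fox_L_one, fox_s_point, add_zero]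
    exact this hw

theorem fox_T_of (x : X.X) (m : Fr X →₀ fox_Q X) :
    fox_T X (Fr.of X x) m = fox_L X (fox_Q X) (Fr.of X x) m + fox_s X x := by
  change (FreeGroup.lift fun x => fox_e X (Fr.of X x) (fox_s X x)) (FreeGroup.of x) m = _
  rw [FreeGroup.lift_apply_of]
  rfl

/-- induction on the free group -/
theorem fox_ind (S : Subgroup (Fr X)) (h : ∀ x, Fr.of X x ∈ S) (g : Fr X) : g ∈ S := by
  induction g using QuotientGroup.induction_on with
  | H w =>
    induction w using FreeGroup.induction_on with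
    | C1 => exact S.one_mem
    | of x => exact h x
    | inv_of x _ => exact S.inv_mem (h x)
    | mul a b ha hb => exact S.mul_mem ha hb

/-- the derivation -/
noncomputable def fox_D (g : Fr X) : Fr X →₀ fox_Q X := fox_T X g 0

theorem fox_T_eq (g : Fr X) : ∀ m, fox_T X g m = fox_L X (fox_Q X) g m + fox_D X g := by
  have h0 : ∀ a b : Fr X, (∀ m, fox_T X a m = fox_L X (fox_Q X) a m + fox_D X a) →
      (∀ m, fox_T X b m = fox_L X (fox_Q X) b m + fox_D X b) →
      ∀ m, fox_T X (a * b) m = fox_L X (fox_Q X) (a * b) m + fox_D X (a * b) := by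
    intro a b ha hb m
    have h1 : ∀ m, fox_T X (a * b) m = fox_T X a (fox_T X b m) := fun m => by
      rw [map_mul]; rfl
    rw [fox_D, h1, h1, ha, ha, hb, hb]
    simp only [map_add, map_zero, fox_L_mul, zero_add]
    abel
  let S : Subgroup (Fr X) :=
    { carrier := {g | ∀ m, fox_T X g m = fox_L X (fox_Q X) g m + fox_D X g}
      mul_mem' := fun {a b} ha hb => h0 a b ha hb
      one_mem' := fun m => by
        rw [fox_D, map_one, fox_L_one]
        change m = m + 0
        rw [add_zero]
      inv_mem' := fun {a} ha m => by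
        have h1 : ∀ m, fox_T X a⁻¹ m = fox_L X (fox_Q X) a⁻¹ (m - fox_D X a) := fun m => by
          rw [map_inv, Equiv.Perm.inv_def, Equiv.symm_apply_eq, ha, ← fox_L_mul, mul_inv_cancel,
            fox_L_one, sub_add_cancel]
        rw [fox_D, h1, h1, map_sub, map_sub, map_zero, zero_sub, sub_eq_add_neg] }
  refine fox_ind X S (fun x m => ?_) g
  rw [fox_D, fox_T_of, fox_T_of, map_zero, zero_add]

theorem fox_D_mul (g h : Fr X) : fox_D X (g * h) = fox_D X g + fox_L X (fox_Q X) g (fox_D X h) := by
  have h1 : fox_D X (g * h) = fox_T X g (fox_D X h) := by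
    rw [fox_D, map_mul]; rfl
  rw [h1, fox_T_eq, add_comm]

theorem fox_D_one : fox_D X 1 = 0 := by
  rw [fox_D, map_one]; rfl

theorem fox_D_of (x : X.X) : fox_D X (Fr.of X x) = fox_s X x := by
  rw [fox_D, fox_T_of, map_zero, zero_add]

theorem fox_c_D (g : Fr X) :
    fox_c X (fox_D X g) = Finsupp.single g ⟨1⟩ - Finsupp.single 1 ⟨1⟩ := by
  let S : Subgroup (Fr X) :=
    { carrier := {g | fox_c X (fox_D X g) = Finsupp.single g ⟨1⟩ - Finsupp.single 1 ⟨1⟩}
      mul_mem' := fun {a b} ha hb => by
        change fox_c X (fox_D X (a * b)) = _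
        rw [fox_D_mul, map_add, fox_c_L, show fox_c X (fox_D X a) = _ from ha,
          show fox_c X (fox_D X b) = _ from hb, map_sub, fox_L_single, fox_L_single, mul_one]
        abel
      one_mem' := by
        change fox_c X (fox_D X 1) = _
        rw [fox_D_one, map_zero, sub_self]
      inv_mem' := fun {a} ha => by
        change fox_c X (fox_D X a⁻¹) = _
        have h1 : fox_D X a⁻¹ = - fox_L X (fox_Q X) a⁻¹ (fox_D X a) := by
          rw [eq_neg_iff_add_eq_zero, ← fox_D_mul, inv_mul_cancel, fox_D_one]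
        rw [h1, map_neg, fox_c_L, show fox_c X (fox_D X a) = _ from ha, map_sub, fox_L_single,
          fox_L_single, inv_mul_cancel, mul_one, neg_sub] }
  refine fox_ind X S (fun x => ?_) g
  change fox_c X (fox_D X (Fr.of X x)) = _
  rw [fox_D_of, fox_s, fox_c_single, one_mul]

/-- the inverse map -/
noncomputable def fox_r : (Fr X →₀ ULift.{u} ℤ) →+ (Fr X →₀ fox_Q X) :=
  Finsupp.liftAddHom fun g =>
    ((zmultiplesHom (Fr X →₀ fox_Q X)) (fox_D X g)).comp AddEquiv.ulift.toAddMonoidHom

theorem fox_r_single (g : Fr X) (c : ULift.{u} ℤ) :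
    fox_r X (Finsupp.single g c) = c.down • fox_D X g := by
  rw [fox_r, Finsupp.liftAddHom_apply_single]
  rfl

theorem fox_r_c (m : Fr X →₀ fox_Q X) : fox_r X (fox_c X m) = m := by
  have h1 : (fox_r X).comp (fox_c X) = AddMonoidHom.id _ := by
    apply fox_ext
    intro a x c
    rw [AddMonoidHom.comp_apply, fox_c_single, map_sub, fox_r_single, fox_r_single, ← smul_sub,
      fox_D_mul, add_sub_cancel_left, fox_D_of, fox_s, fox_L_single, mul_one,
      AddMonoidHom.id_apply]
    change c.down • (Finsupp.singleAddHom a) ((QuotientAddGroup.mk' (fox_S X))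
      (Finsupp.singleAddHom x ⟨1⟩)) = (Finsupp.singleAddHom a) ((QuotientAddGroup.mk' (fox_S X))
      (Finsupp.singleAddHom x c))
    rw [← map_zsmul, show c.down • (QuotientAddGroup.mk' (fox_S X)) (Finsupp.singleAddHom x ⟨1⟩) =
      (QuotientAddGroup.mk' (fox_S X)) (c.down • Finsupp.singleAddHom x ⟨1⟩) from
      (map_zsmul (QuotientAddGroup.mk' (fox_S X)) c.down _).symm, ← map_zsmul]
    congr 3
    apply ULift.ext
    change c.down • (1 : ℤ) = c.down
    rw [smul_eq_mul, mul_one]
  exact DFunLike.congr_fun h1 m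

theorem fox_c_r (z : Fr X →₀ ULift.{u} ℤ) :
    fox_c X (fox_r X z) = z - Finsupp.single 1
      (Finsupp.liftAddHom (fun _ => AddMonoidHom.id (ULift.{u} ℤ)) z) := by
  have h1 : (fox_c X).comp (fox_r X) = AddMonoidHom.id _ - (Finsupp.singleAddHom 1).comp
      (Finsupp.liftAddHom (fun _ => AddMonoidHom.id (ULift.{u} ℤ))) := by
    refine Finsupp.addHom_ext fun g c => ?_
    rw [AddMonoidHom.comp_apply, fox_r_single, map_zsmul, fox_c_D, AddMonoidHom.sub_apply,
      AddMonoidHom.id_apply, AddMonoidHom.comp_apply, Finsupp.liftAddHom_apply_single, smul_sub,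
      AddMonoidHom.id_apply]
    have h2 : ∀ a : Fr X, c.down • Finsupp.single a (⟨1⟩ : ULift.{u} ℤ) = Finsupp.single a c := by
      intro a
      change c.down • (Finsupp.singleAddHom a) (⟨1⟩ : ULift.{u} ℤ) = _
      rw [← map_zsmul]
      change Finsupp.single a _ = _
      congr 1
      apply ULift.ext
      change c.down • (1 : ℤ) = c.down
      rw [smul_eq_mul, mul_one]
    rw [h2, h2]
    rfl
  exact DFunLike.congr_fun h1 z

theorem fox_sur (z : Fr X →₀ ULift.{u} ℤ)
    (hz : Finsupp.liftAddHom (fun _ => AddMonoidHom.id (ULift.{u} ℤ)) z = 0) :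
    fox_c X (fox_r X z) = z := by
  rw [fox_c_r, hz, Finsupp.single_zero, sub_zero]

theorem fox_aug (m : Fr X →₀ fox_Q X) :
    Finsupp.liftAddHom (fun _ => AddMonoidHom.id (ULift.{u} ℤ)) (fox_c X m) = 0 := by
  have h1 : (Finsupp.liftAddHom (fun _ : Fr X => AddMonoidHom.id (ULift.{u} ℤ))).comp
      (fox_c X) = 0 := by
    apply fox_ext
    intro a x c
    rw [AddMonoidHom.comp_apply, fox_c_single, map_sub, Finsupp.liftAddHom_apply_single,
      Finsupp.liftAddHom_apply_single, sub_self, AddMonoidHom.zero_apply]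
  exact DFunLike.congr_fun h1 m

end fox

/-- naturality -/
theorem fox_nat {X Y : Pointed.{u}} (f : X ⟶ Y) (F : (Fr X →₀ fox_Q X) →+ (Fr Y →₀ fox_Q Y))
    (hF : ∀ a x c, F (Finsupp.single a (QuotientAddGroup.mk (Finsupp.single x c))) =
      Finsupp.single (Fr.map f a) (QuotientAddGroup.mk (Finsupp.single (f.toFun x) c)))
    (G : (Fr X →₀ ULift.{u} ℤ) →+ (Fr Y →₀ ULift.{u} ℤ))
    (hG : ∀ a c, G (Finsupp.single a c) = Finsupp.single (Fr.map f a) c)
    (m : Fr X →₀ fox_Q X) : fox_c Y (F m) = G (fox_c X m) := by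
  have h1 : (fox_c Y).comp F = G.comp (fox_c X) := by
    apply fox_ext
    intro a x c
    rw [AddMonoidHom.comp_apply, AddMonoidHom.comp_apply, hF, fox_c_single, fox_c_single, map_sub,
      hG, hG, map_mul, Fr.map_of]
  exact DFunLike.congr_fun h1 m

theorem fox_F {X Y : Pointed.{u}} (f : X ⟶ Y) (q : fox_Q X →+ fox_Q Y)
    (hq : ∀ x c, q (QuotientAddGroup.mk (Finsupp.single x c)) =
      QuotientAddGroup.mk (Finsupp.single (f.toFun x) c)) (a : Fr X) (x : X.X)
    (c : ULift.{u} ℤ) :
    Finsupp.mapDomain (Fr.map f) (Finsupp.mapRange q (map_zero q)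
      (Finsupp.single a (QuotientAddGroup.mk (Finsupp.single x c)))) =
      Finsupp.single (Fr.map f a) (QuotientAddGroup.mk (Finsupp.single (f.toFun x) c)) := by
  rw [Finsupp.mapRange_single, Finsupp.mapDomain_single, hq]

theorem fox_G {A B : Type u} (f : A → B) (a : A) (c : ULift.{u} ℤ) :
    Finsupp.mapDomain f (Finsupp.mapRange (AddMonoidHom.id (ULift.{u} ℤ)) (map_zero _)
      (Finsupp.single a c)) = Finsupp.single (f a) c := by
  rw [Finsupp.mapRange_single, Finsupp.mapDomain_single, AddMonoidHom.id_apply]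

theorem thm_Fox : St_Fox.{u} := by
  intro X
  refine ⟨⟨fun n => (fox_c (X.obj n)).codRestrict _ fun m => fox_aug (X.obj n) m, ?_⟩, ?_⟩
  · intro m n θ x
    apply Subtype.ext
    exact fox_nat (X.map θ) (((ZP X).fs (frS X).und).map θ)
      (fox_F (X.map θ) ((ZP X).map θ) fun x c =>
        congrArg QuotientAddGroup.mk (fox_G (X.map θ).toFun x c))
      (((SAb.const (ULift.{u} ℤ)).fs (frS X).und).map θ)
      (fox_G (Fr.map (X.map θ))) x
  · intro n
    constructor
    · intro a b hab
      have h1 : fox_c (X.obj n) a = fox_c (X.obj n) b := congrArg Subtype.val hab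
      rw [← fox_r_c (X.obj n) a, ← fox_r_c (X.obj n) b, h1]
    · intro z
      exact ⟨fox_r (X.obj n) z.1, Subtype.ext (fox_sur (X.obj n) z.1 z.2)⟩

end Pool.Agent.FGK
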