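import Pool.Agent.FGK.StB

/-!
# FGK, E2: homology of `F(X)` in the stable range (helper13)
-/

set_option autoImplicit false
set_option linter.unusedVariables false

namespace Pool.Agent.FGK

open CategoryTheory Function Pool.Agent.KQ

universe u

/-- `c`-trivial simplicial abelian groups are slender below `c` -/
theorem foxsl_triv (X : SAb.{u}) (c : ℕ) (h : SAb.Triv c X) {j : ℕ} (hj : j < c) : X.SlAt j := by
  intro H
  have h1 : H = ⊥ := by
    rw [eq_bot_iff]
    intro x hx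
    rw [Subgroup.mem_bot]
    exact h j hj x
  rw [h1]
  exact ⟨∅, by simp⟩

/-- all elements zero -/
theorem foxsl_zero (G : SAb.{u}) (h : ∀ (n : ℕ) (x : G.obj n), x = 0) (c : ℕ) :
    SAb.Triv c G := by
  intro j hj x
  obtain ⟨y, rfl⟩ := SGp.cls_surj _ j x
  have h1 : y = 1 := Subtype.ext (h j y.1)
  rw [h1, map_one]

/-- the kernel of a degreewise surjection -/
theorem foxsl_kerses {X Y : SAb.{u}} (f : X ⟶ Y) (h : ∀ n, Surjective (f.app n)) :
    SAb.SES (SAb.kerι f) f :=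
  { inj := fun n => Subtype.val_injective
    ex := fun n y => ⟨fun h => ⟨⟨y, h⟩, rfl⟩, fun ⟨x, hx⟩ => hx ▸ x.2⟩
    surj := h }

/-- the augmentation sequence -/
theorem foxsl_augses (M : SAb.{u}) (Y : SSt.{u}) (hne : ∀ n, Nonempty (Y.obj n)) :
    SAb.SES (SAb.kerι (M.aug Y)) (M.aug Y) :=
  foxsl_kerses _ fun n a => by
    obtain ⟨y⟩ := hne n
    refine ⟨Finsupp.single y a, ?_⟩
    change Finsupp.liftAddHom (fun _ => AddMonoidHom.id (M.obj n)) (Finsupp.single y a) = a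
    rw [Finsupp.liftAddHom_apply_single]
    rfl

/-- a degreewise bijective map is bijective on homotopy groups -/
theorem foxsl_weq (hC0 : St_AbEx.{u}) {X Y : SAb.{u}} (f : X ⟶ Y)
    (h : ∀ n, Bijective (f.app n)) : SAb.Weq f := by
  have hs := foxsl_kerses f fun n => (h n).2
  refine ((hC0 _ _ hs 0).2.2.2.2.2.2.2.2.2.2.2.1).1 fun d => foxsl_zero _ (fun n x => ?_) d
  apply Subtype.ext
  apply (h n).1
  change f.app n x.1 = f.app n 0
  rw [show f.app n x.1 = 0 from x.2, map_zero]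

/-- the integers are slender -/
theorem foxsl_int : Sl (Multiplicative (ULift.{u} ℤ)) := by
  intro H
  have h1 : (Subgroup.toAddSubgroup' H).FG := by
    have : IsNoetherian ℤ (ULift.{u} ℤ) :=
      isNoetherian_of_linearEquiv (ULift.moduleEquiv (R := ℤ) (M := ℤ)).symm
    have h2 := IsNoetherian.noetherian (AddSubgroup.toIntSubmodule (Subgroup.toAddSubgroup' H))
    rw [Submodule.fg_iff_addSubgroup_fg] at h2
    exact h2
  exact (AddSubgroup.fg_iff_mul_fg _).1 h1

/-- the constant simplicial abelian group of the integers -/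
theorem foxsl_const (hSl : St_Sl.{u}) (j : ℕ) : (SAb.const (ULift.{u} ℤ)).SlAt j := by
  have h1 : Sl ((SAb.gp.obj (SAb.const (ULift.{u} ℤ))).Z j) :=
    hSl.1 ((SAb.gp.obj (SAb.const (ULift.{u} ℤ))).Z j).subtype Subtype.val_injective foxsl_int
  exact hSl.2.1 (SGp.cls _ j) (SGp.cls_surj _ j) h1

/-- **E2.** -/
theorem thm_FoxSl (hFox : St_Fox.{u}) (hD3 : St_GpHTriv.{u}) (hC5 : St_redTriv.{u})
    (hC0 : St_AbEx.{u}) (hSl : St_Sl.{u}) : St_FoxSl.{u} := by
  intro k X hF hZ j hj hjs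
  have hne : ∀ n, Nonempty ((frS X).und.obj n) := fun n => ⟨(1 : (frS X).obj n)⟩
  have h1 : SAb.Triv (k + k) ((ZP X).red (frS X).und) := hC5 k k (ZP X) _ hZ (hD3 k _ hF)
  have h2 : ((ZP X).red (frS X).und).SlAt j := foxsl_triv _ _ h1 (by omega)
  have h3 : ((ZP X).fs (frS X).und).SlAt j :=
    (hC0 _ _ (foxsl_augses (ZP X) _ hne) 0).2.2.2.2.2.2.2.1 j h2 hjs
  obtain ⟨φ, hφ⟩ := hFox X
  have h4 : ((SAb.const (ULift.{u} ℤ)).red (frS X).und).SlAt j :=
    hSl.2.1 _ (foxsl_weq hC0 φ hφ j).2 h3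
  exact (hC0 _ _ (foxsl_augses (SAb.const (ULift.{u} ℤ)) _ hne) 0).2.2.2.2.2.2.2.1 j h4
    (foxsl_const hSl j)

end Pool.Agent.FGK
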