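import Pool.Agent.FGK.StD
import Pool.Agent.FGK.FoxSl

/-!
# FGK, FoxTriv: `ℤ~[X]` is as connected as `F(X)` (helper14)

`thm_FoxTriv (hFox : St_Fox) (hGp : St_GpHTriv) (hEx : St_AbEx) : St_FoxTriv`.
-/

set_option autoImplicit false
set_option linter.unusedVariables false

noncomputable section

namespace Pool.Agent.FGK

open CategoryTheory Function Pool.Agent.KQ

universe u

/-- the unit element of `G_n` -/
def foxtriv_one (G : SGp.{u}) (n : ℕ) : G.und.obj n := (1 : G.obj n)

/-- the section `y ↦ single 1 y` of the augmentation of `M[G]` -/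
def foxtriv_sec (M : SAb.{u}) (G : SGp.{u}) : M ⟶ M.fs G.und where
  app n := Finsupp.singleAddHom (foxtriv_one G n)
  nat {m n} θ x := by
    change Finsupp.single (foxtriv_one G m) (M.map θ x) =
      Finsupp.mapDomain (G.und.map θ) (Finsupp.mapRange (M.map θ) (map_zero _)
        (Finsupp.single (foxtriv_one G n) x))
    rw [Finsupp.mapRange_single, Finsupp.mapDomain_single]
    have h : G.und.map θ (foxtriv_one G n) = foxtriv_one G m := (G.map θ).map_one
    rw [h]

theorem foxtriv_sec_aug (M : SAb.{u}) (G : SGp.{u}) :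
    foxtriv_sec M G ≫ M.aug G.und = 𝟙 M := by
  apply SAb.hom_ext
  intro n x
  change Finsupp.liftAddHom (fun _ => AddMonoidHom.id (M.obj n))
    (Finsupp.single (foxtriv_one G n) x) = x
  rw [Finsupp.liftAddHom_apply_single]
  rfl

/-- **FoxTriv.** -/
theorem thm_FoxTriv (hFox : St_Fox.{u}) (hGp : St_GpHTriv.{u}) (hEx : St_AbEx.{u}) :
    St_FoxTriv.{u} := by
  intro κ X hF
  have h1 : SAb.Triv κ ((SAb.const (ULift.{u} ℤ)).red (frS X).und) := hGp κ _ hF _
  obtain ⟨φ, hφ⟩ := hFox X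
  have hw : SAb.Weq φ := foxsl_weq hEx φ hφ
  have h2 : SAb.Triv κ ((ZP X).fs (frS X).und) := by
    intro j hj x
    apply (hw j).1
    rw [map_one]
    exact h1 j hj _
  intro j hj x
  have h3 : SAb.gp.map (foxtriv_sec (ZP X) (frS X)) ≫ SAb.gp.map ((ZP X).aug (frS X).und) =
      𝟙 (SAb.gp.obj (ZP X)) := by
    rw [← SAb.gp.map_comp, foxtriv_sec_aug, SAb.gp.map_id]
  have h4 := SGp.PiMap_id (SAb.gp.obj (ZP X)) j x
  rw [← h3, SGp.PiMap_comp, h2 j hj (SGp.PiMap _ j x), map_one] at h4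
  exact h4.symm

end Pool.Agent.FGK
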