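import Pool.Agent.FGK.StB
import Pool.Agent.KQ.BD
import Pool.Agent.KQ.CM

/-!
# FGK [Hur]: the first nontrivial homotopy group is a quotient of the homology
-/

set_option autoImplicit false
set_option linter.unusedVariables false

namespace Pool.Agent.FGK

open CategoryTheory Function Pool.Agent.KQ

universe u

section

variable {G : SGp.{u}} {k : ℕ} {A : Type u} [CommGroup A] (q : G.obj (k + 1) →* A)

/-- the alternating sum of the faces -/
def hur_psi (y : G.obj (k + 2)) : Additive A :=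
  ∑ j : Fin (k + 3), ((-1 : ℤ) ^ (j : ℕ)) • Additive.ofMul (q (G.map (dl j) y))

theorem hur_psi_mul (x y : G.obj (k + 2)) : hur_psi q (x * y) = hur_psi q x + hur_psi q y := by
  simp only [hur_psi, map_mul, ofMul_mul, smul_add, Finset.sum_add_distrib]

theorem hur_psi_one : hur_psi q (1 : G.obj (k + 2)) = 0 := by
  simp only [hur_psi, map_one, ofMul_one, smul_zero, Finset.sum_const_zero]

theorem hur_psi_inv (x : G.obj (k + 2)) : hur_psi q x⁻¹ = -hur_psi q x := by
  have h := hur_psi_mul q x⁻¹ x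
  rw [inv_mul_cancel, hur_psi_one] at h
  exact (neg_eq_of_add_eq_zero_left h.symm).symm

/-- the alternating sum vanishes for degenerate elements -/
theorem hur_psi_sg (hZ : ∀ x : G.obj (k + 1), x ∈ G.Z (k + 1)) (i : Fin (k + 2))
    (x : G.obj (k + 1)) : hur_psi q (G.map (sg i) x) = 0 := by
  unfold hur_psi
  rw [Finset.sum_eq_add i.castSucc i.succ (by
      intro h
      have := congrArg Fin.val h
      rw [Fin.val_castSucc, Fin.val_succ] at this
      omega)]
  · rw [CM_face0, CM_face1, Fin.val_castSucc, Fin.val_succ, pow_succ, mul_neg_one, neg_smul,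
      add_neg_cancel]
  · intro j _ hj
    rw [CM_face i j hj.1 hj.2 (hZ x), map_one, ofMul_one, smul_zero]
  · intro h
    exact absurd (Finset.mem_univ _) h
  · intro h
    exact absurd (Finset.mem_univ _) h

/-- the alternating sum vanishes -/
theorem hur_psi_zero (hZ : ∀ x : G.obj (k + 1), x ∈ G.Z (k + 1))
    (hB : ∀ y ∈ G.N (k + 2), q (G.map (dl 0) y) = 1) (y : G.obj (k + 2)) :
    hur_psi q y = 0 := by
  have key : ∀ r ≤ k + 2, ∃ x : G.obj (k + 2), hur_psi q x = hur_psi q y ∧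
      ∀ i : Fin (k + 2), k + 2 - r ≤ (i : ℕ) → G.map (dl i.succ) x = 1 := by
    intro r
    induction r with
    | zero =>
      intro _
      exact ⟨y, rfl, fun i hi => absurd i.2 (by omega)⟩
    | succ r ih =>
      intro hr
      obtain ⟨x, hx, hd⟩ := ih (by omega)
      obtain ⟨j, hj⟩ : ∃ j : Fin (k + 2), (j : ℕ) = k + 1 - r := ⟨⟨k + 1 - r, by omega⟩, rfl⟩
      refine ⟨x * (G.map (sg j) (G.map (dl j.succ) x))⁻¹, ?_, fun i hi => ?_⟩
      · rw [hur_psi_mul, hur_psi_inv, hur_psi_sg q hZ, neg_zero, add_zero, hx]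
      · rw [map_mul, map_inv, ← G.map_comp, ← G.map_comp]
        rcases eq_or_ne i j with rfl | hij
        · have h1 : (dl i.succ).comp ((sg i).comp (dl i.succ)) = dl i.succ :=
            BD_fac _ i fun k => Fin.succAbove_ne _ _
          rw [h1, mul_inv_cancel]
        · have hlt : (j : ℕ) < i := by
            have h2 : (i : ℕ) ≠ j := fun h => hij (Fin.ext h)
            omega
          rw [hd i (by omega), one_mul, inv_eq_one]
          refine BD_one G _ i (fun k => ?_) (hd i (by omega))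
          change dl j.succ (sg j (dl i.succ k)) ≠ i.succ
          rcases eq_or_ne (dl i.succ k) j.succ with h2 | h2
          · rw [h2, BD_e_self]
            intro h3
            have h4 := congrArg Fin.val h3
            rw [Fin.val_castSucc, Fin.val_succ] at h4
            omega
          · rw [BD_e_of_ne j h2]
            exact Fin.succAbove_ne _ _
  obtain ⟨x, hx, hd⟩ := key (k + 2) le_rfl
  have hN : x ∈ G.N (k + 2) := (SGp.mem_N_succ G).2 fun i => hd i (by omega)
  rw [← hx]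
  unfold hur_psi
  rw [Fin.sum_univ_succ, hB x hN, ofMul_one, smul_zero, zero_add]
  refine Finset.sum_eq_zero fun i _ => ?_
  rw [hd i (by omega), map_one, ofMul_one, smul_zero]

/-- the homomorphism `[x] ↦ q x` -/
noncomputable def hur_phi : (G.obj (k + 1) →₀ ULift.{u} ℤ) →+ Additive A :=
  Finsupp.liftAddHom fun x => ((zmultiplesHom (Additive A)) (Additive.ofMul (q x))).comp
    (AddEquiv.ulift (α := ℤ)).toAddMonoidHom

theorem hur_phi_single (x : G.obj (k + 1)) (c : ULift.{u} ℤ) :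
    hur_phi q (Finsupp.single x c) = c.down • Additive.ofMul (q x) := by
  unfold hur_phi
  rw [Finsupp.liftAddHom_apply_single]
  rfl

/-- the operators on chains -/
noncomputable def hur_d {m n : ℕ} (θ : Mo m n) :
    (G.obj n →₀ ULift.{u} ℤ) →+ (G.obj m →₀ ULift.{u} ℤ) :=
  Finsupp.mapDomain.addMonoidHom (G.map θ)

theorem hur_d_single {m n : ℕ} (θ : Mo m n) (y : G.obj n) (c : ULift.{u} ℤ) :
    hur_d (G := G) θ (Finsupp.single y c) = Finsupp.single (G.map θ y) c :=
  Finsupp.mapDomain_single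

theorem hur_d_eq {m n : ℕ} (θ : Mo m n) (z : G.obj n →₀ ULift.{u} ℤ) :
    (ZS G.und).map θ z = (hur_d (G := G) θ z : G.obj m →₀ ULift.{u} ℤ) := by
  have h : Finsupp.mapRange (AddMonoidHom.id (ULift.{u} ℤ))
      (map_zero (AddMonoidHom.id (ULift.{u} ℤ))) z = z := by
    ext y
    rfl
  exact congrArg (Finsupp.mapDomain (G.map θ)) h

theorem hur_faces (h0 : ∀ y : G.obj (k + 2), hur_psi q y = 0)
    (z : G.obj (k + 2) →₀ ULift.{u} ℤ) :
    ∑ j : Fin (k + 3), ((-1 : ℤ) ^ (j : ℕ)) • hur_phi q (hur_d (dl j) z) = 0 := by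
  induction z using Finsupp.induction_linear with
  | zero =>
    refine Finset.sum_eq_zero fun j _ => ?_
    rw [map_zero, map_zero, smul_zero]
  | add a b ha hb =>
    have h1 : ∀ j : Fin (k + 3), ((-1 : ℤ) ^ (j : ℕ)) • hur_phi q (hur_d (dl j) (a + b)) =
        ((-1 : ℤ) ^ (j : ℕ)) • hur_phi q (hur_d (dl j) a) +
        ((-1 : ℤ) ^ (j : ℕ)) • hur_phi q (hur_d (dl j) b) := by
      intro j
      rw [map_add, map_add, smul_add]
    rw [Finset.sum_congr rfl fun j _ => h1 j, Finset.sum_add_distrib, ha, hb, add_zero]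
  | single y c =>
    have h1 : ∀ j : Fin (k + 3), ((-1 : ℤ) ^ (j : ℕ)) • hur_phi q (hur_d (dl j)
        (Finsupp.single y c)) =
        c.down • (((-1 : ℤ) ^ (j : ℕ)) • Additive.ofMul (q (G.map (dl j) y))) := by
      intro j
      rw [hur_d_single, hur_phi_single, smul_comm]
    rw [Finset.sum_congr rfl fun j _ => h1 j, ← Finset.smul_sum]
    have h2 := h0 y
    unfold hur_psi at h2
    rw [h2, smul_zero]

theorem hur_kill (h0 : ∀ y : G.obj (k + 2), hur_psi q y = 0)
    (y : G.obj (k + 2) →₀ ULift.{u} ℤ)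
    (hy : ∀ i : Fin (k + 2), hur_d (G := G) (dl i.succ) y = 0) :
    hur_phi q (hur_d (dl 0) y) = 0 := by
  have h1 := hur_faces q h0 y
  rw [Fin.sum_univ_succ] at h1
  have h2 : ∀ i : Fin (k + 2), ((-1 : ℤ) ^ ((i.succ : Fin (k + 3)) : ℕ)) •
      hur_phi q (hur_d (dl i.succ) y) = 0 := by
    intro i
    rw [hy, map_zero, smul_zero]
  rw [Finset.sum_eq_zero fun i _ => h2 i, add_zero, Fin.val_zero, pow_zero, one_smul] at h1
  exact h1

/-- the homomorphism on chains, multiplicatively -/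
noncomputable def hur_F0 : Multiplicative (G.obj (k + 1) →₀ ULift.{u} ℤ) →* A where
  toFun z := Additive.toMul (hur_phi q (Multiplicative.toAdd z))
  map_one' := congrArg Additive.toMul (map_zero (hur_phi q))
  map_mul' a b := congrArg Additive.toMul (map_add (hur_phi q) (Multiplicative.toAdd a)
    (Multiplicative.toAdd b))

/-- the homomorphism on chains, multiplicatively -/
noncomputable def hur_F : (ZS G.und).gpo.obj (k + 1) →* A := hur_F0 q

/-- the quotient of the homology -/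
theorem hur_main (hSl : St_Sl.{u}) (hG : ∀ x : G.obj k, x = 1) (hq : Surjective q)
    (hB : ∀ y ∈ G.N (k + 2), q (G.map (dl 0) y) = 1) (h : HSl G.und (k + 1)) : Sl A := by
  have hZ : ∀ x : G.obj (k + 1), x ∈ G.Z (k + 1) := fun x =>
    (SGp.mem_Z_succ G).2 fun i => hG _
  have h0 := hur_psi_zero q hZ hB
  have hF : ∀ z : (ZS G.und).gpo.Z (k + 1), z ∈ ((ZS G.und).gpo.B (k + 1)).subgroupOf
      ((ZS G.und).gpo.Z (k + 1)) → ((hur_F q).comp ((ZS G.und).gpo.Z (k + 1)).subtype) z = 1 := by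
    rintro ⟨z, hz⟩ hzB
    obtain ⟨y, hy, hyz⟩ := (SGp.mem_B (ZS G.und).gpo).1 (Subgroup.mem_subgroupOf.1 hzB)
    have e1 : hur_d (G := G) (dl 0) (Multiplicative.toAdd y) = Multiplicative.toAdd z :=
      (hur_d_eq (dl 0) (Multiplicative.toAdd y)).symm.trans hyz
    have e2 := hur_kill q h0 (Multiplicative.toAdd y) fun i =>
      (hur_d_eq (dl i.succ) (Multiplicative.toAdd y)).symm.trans (hy i)
    have e3 : hur_phi q (Multiplicative.toAdd z) = 0 := (congrArg (hur_phi q) e1).symm.trans e2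
    exact congrArg Additive.toMul e3
  refine hSl.2.1 (G := (ZS G.und).gpo.Pi (k + 1)) (H := A)
    (QuotientGroup.lift _ ((hur_F q).comp ((ZS G.und).gpo.Z (k + 1)).subtype) hF) ?_ h
  intro a
  obtain ⟨g, rfl⟩ := hq a
  have hsub : ∀ x y : G.obj k, x = y := fun x y => (hG x).trans (hG y).symm
  -- the cycle `[g] - [1]`
  let z : G.obj (k + 1) →₀ ULift.{u} ℤ := Finsupp.single g ⟨1⟩ + Finsupp.single 1 ⟨-1⟩
  have hz0 : ∀ i : Fin (k + 2), hur_d (G := G) (dl i) z = 0 := by
    intro i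
    change hur_d (dl i) (Finsupp.single g ⟨1⟩ + Finsupp.single 1 ⟨-1⟩) = 0
    rw [map_add, hur_d_single, hur_d_single, hsub (G.map (dl i) g) (G.map (dl i) 1),
      ← Finsupp.single_add]
    have h3 : (⟨1⟩ + ⟨-1⟩ : ULift.{u} ℤ) = 0 := rfl
    rw [h3, Finsupp.single_zero]
  have hz : (Multiplicative.ofAdd z : Multiplicative (G.obj (k + 1) →₀ ULift.{u} ℤ)) ∈
      (ZS G.und).gpo.Z (k + 1) :=
    (SGp.mem_Z_succ (ZS G.und).gpo).2 fun i => (hur_d_eq (dl i) z).trans (hz0 i)
  refine ⟨(ZS G.und).gpo.cls (k + 1) ⟨Multiplicative.ofAdd z, hz⟩, ?_⟩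
  have h5 : hur_phi q z = Additive.ofMul (q g) := by
    change hur_phi q (Finsupp.single g ⟨1⟩ + Finsupp.single 1 ⟨-1⟩) = _
    rw [map_add, hur_phi_single, hur_phi_single, map_one, ofMul_one, smul_zero, add_zero]
    exact one_smul ℤ _
  exact congrArg Additive.toMul h5

end

/-- **F2.**  Hypotheses: `St_Sl`, `KQ.St_Comm`. -/
theorem thm_Hur (hSl : St_Sl.{u}) (hC : Pool.Agent.KQ.St_Comm.{u}) : St_Hur.{u} := by
  intro n G hn hG h
  obtain ⟨k, rfl⟩ : ∃ k, n = k + 1 := ⟨n - 1, by omega⟩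
  have hZ : ∀ x : G.obj (k + 1), x ∈ G.Z (k + 1) := fun x =>
    (SGp.mem_Z_succ G).2 fun i => hG k (by omega) _
  let inst : CommGroup (G.Pi (k + 1)) :=
    { (inferInstance : Group (G.Pi (k + 1))) with mul_comm := hC G k }
  let q : G.obj (k + 1) →* G.Pi (k + 1) :=
    { toFun := fun x => G.cls (k + 1) ⟨x, hZ x⟩
      map_one' := map_one (G.cls (k + 1))
      map_mul' := fun x y => map_mul (G.cls (k + 1)) ⟨x, hZ x⟩ ⟨y, hZ y⟩ }
  refine hur_main q hSl (hG k (by omega)) (fun a => ?_) (fun y hy => ?_) h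
  · obtain ⟨x, rfl⟩ := G.cls_surj (k + 1) a
    exact ⟨x.1, rfl⟩
  · exact (SGp.cls_eq_one G).2 ⟨y, hy, rfl⟩

end Pool.Agent.FGK
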