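import Pool.Agent.FGK.StB

/-!
# FGK, module KA1 (F5): Eilenberg-MacLane groups of degree one

`thm_KA1 (hBG : St_BG) (hW : St_WSurj) (hSF : St_SlFin) (hEx : St_AbEx) (hSl : St_Sl) : St_KA1`.
-/

set_option autoImplicit false

namespace Pool.Agent.FGK

open CategoryTheory Function Pool.Agent.KQ

universe u

/-! ### operators -/

/-- the edge with the vertices `p ≤ q` -/
def ka1_e {m : ℕ} (p q : Fin (m + 1)) (h : p ≤ q) : Mo 1 m where
  toFun i := if i = 0 then p else q
  monotone' := by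
    intro i j hij
    by_cases hi : i = 0
    · by_cases hj : j = 0
      · simp [hi, hj]
      · simp [hi, hj, h]
    · have hj : j ≠ 0 := by
        rintro rfl
        exact hi (le_antisymm hij (Fin.zero_le i))
      simp [hi, hj]

/-- the triangle with the vertices `p ≤ q ≤ r` -/
def ka1_t {m : ℕ} (p q r : Fin (m + 1)) (h1 : p ≤ q) (h2 : q ≤ r) : Mo 2 m where
  toFun i := if i = 0 then p else if i = 1 then q else r
  monotone' := by
    intro i j hij
    fin_cases i <;> fin_cases j <;> simp_all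
    exact h1.trans h2

theorem ka1_t0 {m : ℕ} (p q r : Fin (m + 1)) (h1 : p ≤ q) (h2 : q ≤ r) :
    (ka1_t p q r h1 h2).comp (dl 0) = ka1_e q r h2 := by
  apply OrderHom.ext
  funext i
  fin_cases i <;> rfl

theorem ka1_t1 {m : ℕ} (p q r : Fin (m + 1)) (h1 : p ≤ q) (h2 : q ≤ r) :
    (ka1_t p q r h1 h2).comp (dl 1) = ka1_e p r (h1.trans h2) := by
  apply OrderHom.ext
  funext i
  fin_cases i <;> rfl

theorem ka1_t2 {m : ℕ} (p q r : Fin (m + 1)) (h1 : p ≤ q) (h2 : q ≤ r) :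
    (ka1_t p q r h1 h2).comp (dl 2) = ka1_e p q h1 := by
  apply OrderHom.ext
  funext i
  fin_cases i <;> rfl

theorem ka1_comp {m n : ℕ} (θ : Mo m n) (p q : Fin (m + 1)) (h : p ≤ q) :
    θ.comp (ka1_e p q h) = ka1_e (θ p) (θ q) (θ.monotone h) := by
  apply OrderHom.ext
  funext i
  fin_cases i <;> rfl

/-- the constant operator -/
def ka1_c {m n : ℕ} (p : Fin (n + 1)) : Mo m n := ⟨fun _ => p, fun _ _ _ => le_rfl⟩

theorem ka1_e_self {m : ℕ} (p : Fin (m + 1)) : ka1_e p p le_rfl = ka1_c p := by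
  apply OrderHom.ext
  funext i
  fin_cases i <;> rfl

theorem ka1_e01 : ka1_e (0 : Fin 2) 1 (by simp) = (OrderHom.id : Mo 1 1) := by
  apply OrderHom.ext
  funext i
  fin_cases i <;> rfl

variable (P : SAb.{u})

theorem ka1_map_c (h0 : ∀ x : P.obj 0, x = 0) {m n : ℕ} (p : Fin (n + 1)) (x : P.obj n) :
    P.map (ka1_c p : Mo m n) x = 0 := by
  have h1 : (ka1_c p : Mo m n) = (ka1_c p : Mo 0 n).comp (ka1_c 0 : Mo m 0) := rfl
  rw [h1, P.map_comp, h0 (P.map (ka1_c p : Mo 0 n) x), map_zero]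

/-! ### the group `A` -/

/-- the boundaries in degree one -/
def ka1_B : AddSubgroup (P.obj 1) where
  carrier := {x | ∃ y : P.obj 2, (∀ i : Fin 2, P.map (dl i.succ) y = 0) ∧ P.map (dl 0) y = x}
  add_mem' := by
    rintro a b ⟨y, hy, rfl⟩ ⟨z, hz, rfl⟩
    exact ⟨y + z, fun i => by rw [map_add, hy, hz, add_zero], map_add _ _ _⟩
  zero_mem' := ⟨0, fun i => map_zero _, map_zero _⟩
  neg_mem' := by
    rintro a ⟨y, hy, rfl⟩
    exact ⟨-y, fun i => by rw [map_neg, hy, neg_zero], map_neg _ _⟩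

theorem ka1_mem_B (x : P.gpo.obj 1) (h : (show P.obj 1 from x) ∈ ka1_B P) : x ∈ P.gpo.B 1 := by
  rw [SGp.mem_B]
  exact h

theorem ka1_tri (h0 : ∀ x : P.obj 0, x = 0) (y : P.obj 2) :
    P.map (dl 0) y - P.map (dl 1) y + P.map (dl 2) y ∈ ka1_B P := by
  have e10 : (sg (1 : Fin 2)).comp (dl (0 : Fin 3)) = (ka1_c 1 : Mo 1 1) := by
    apply OrderHom.ext
    funext i
    fin_cases i <;> rfl
  have e11 : (sg (1 : Fin 2)).comp (dl (1 : Fin 3)) = (OrderHom.id : Mo 1 1) := by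
    apply OrderHom.ext
    funext i
    fin_cases i <;> rfl
  have e12 : (sg (1 : Fin 2)).comp (dl (2 : Fin 3)) = (OrderHom.id : Mo 1 1) := by
    apply OrderHom.ext
    funext i
    fin_cases i <;> rfl
  have e00 : (sg (0 : Fin 2)).comp (dl (0 : Fin 3)) = (OrderHom.id : Mo 1 1) := by
    apply OrderHom.ext
    funext i
    fin_cases i <;> rfl
  have e01 : (sg (0 : Fin 2)).comp (dl (1 : Fin 3)) = (OrderHom.id : Mo 1 1) := by
    apply OrderHom.ext
    funext i
    fin_cases i <;> rfl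
  have e02 : (sg (0 : Fin 2)).comp (dl (2 : Fin 3)) = (ka1_c 0 : Mo 1 1) := by
    apply OrderHom.ext
    funext i
    fin_cases i <;> rfl
  have h10 : ∀ x : P.obj 1, P.map (dl 0) (P.map (sg 1) x) = 0 := fun x => by
    rw [← P.map_comp, e10, ka1_map_c P h0]
  have h11 : ∀ x : P.obj 1, P.map (dl 1) (P.map (sg 1) x) = x := fun x => by
    rw [← P.map_comp, e11, P.map_id]
  have h12 : ∀ x : P.obj 1, P.map (dl 2) (P.map (sg 1) x) = x := fun x => by
    rw [← P.map_comp, e12, P.map_id]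
  have h00 : ∀ x : P.obj 1, P.map (dl 0) (P.map (sg 0) x) = x := fun x => by
    rw [← P.map_comp, e00, P.map_id]
  have h01 : ∀ x : P.obj 1, P.map (dl 1) (P.map (sg 0) x) = x := fun x => by
    rw [← P.map_comp, e01, P.map_id]
  have h02 : ∀ x : P.obj 1, P.map (dl 2) (P.map (sg 0) x) = 0 := fun x => by
    rw [← P.map_comp, e02, ka1_map_c P h0]
  set w : P.obj 2 := y - P.map (sg 1) (P.map (dl 2) y) with hw
  have w0 : P.map (dl 0) w = P.map (dl 0) y := by rw [hw, map_sub, h10, sub_zero]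
  have w1 : P.map (dl 1) w = P.map (dl 1) y - P.map (dl 2) y := by rw [hw, map_sub, h11]
  have w2 : P.map (dl 2) w = 0 := by rw [hw, map_sub, h12, sub_self]
  refine ⟨w - P.map (sg 0) (P.map (dl 1) w), fun i => ?_, ?_⟩
  · fin_cases i
    · change P.map (dl 1) _ = 0
      rw [map_sub, h01, sub_self]
    · change P.map (dl 2) _ = 0
      rw [map_sub, w2, h02, sub_zero]
  · rw [map_sub, h00, w0, w1]
    abel

/-- the first homotopy group, additive -/
abbrev ka1_A : Type u := P.obj 1 ⧸ ka1_B P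

/-- the class of an edge -/
def ka1_a {m : ℕ} (x : P.obj m) (p q : Fin (m + 1)) (h : p ≤ q) : ka1_A P :=
  QuotientAddGroup.mk (P.map (ka1_e p q h) x)

theorem ka1_a_add {m : ℕ} (x y : P.obj m) (p q : Fin (m + 1)) (h : p ≤ q) :
    ka1_a P (x + y) p q h = ka1_a P x p q h + ka1_a P y p q h := by
  rw [ka1_a, map_add]
  rfl

theorem ka1_a_zero {m : ℕ} (p q : Fin (m + 1)) (h : p ≤ q) :
    ka1_a P (0 : P.obj m) p q h = 0 := by
  rw [ka1_a, map_zero]
  rfl

theorem ka1_a_self (h0 : ∀ x : P.obj 0, x = 0) {m : ℕ} (x : P.obj m) (p : Fin (m + 1)) :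
    ka1_a P x p p le_rfl = 0 := by
  rw [ka1_a, ka1_e_self, ka1_map_c P h0]
  rfl

theorem ka1_a_tri (h0 : ∀ x : P.obj 0, x = 0) {m : ℕ} (x : P.obj m) (p q r : Fin (m + 1))
    (h1 : p ≤ q) (h2 : q ≤ r) :
    ka1_a P x q r h2 = ka1_a P x p r (h1.trans h2) - ka1_a P x p q h1 := by
  have h3 := ka1_tri P h0 (P.map (ka1_t p q r h1 h2) x)
  rw [← P.map_comp, ← P.map_comp, ← P.map_comp, ka1_t0, ka1_t1, ka1_t2] at h3
  have h4 := (QuotientAddGroup.eq_zero_iff _).2 h3
  have h5 : ka1_a P x q r h2 - ka1_a P x p r (h1.trans h2) + ka1_a P x p q h1 = 0 := h4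
  rw [eq_sub_iff_add_eq, ← sub_eq_zero, ← h5]
  abel

/-! ### the homomorphism to `B A` -/

/-- the homomorphism `P → B A` -/
def ka1_φ (h0 : ∀ x : P.obj 0, x = 0) : P ⟶ BG (ka1_A P) where
  app m :=
    { toFun := fun x => ⟨fun i j => ka1_a P x 0 j (Fin.zero_le j) - ka1_a P x 0 i (Fin.zero_le i),
        fun i j k => by
          change (ka1_a P x 0 j _ - ka1_a P x 0 i _) + (ka1_a P x 0 k _ - ka1_a P x 0 j _) =
            ka1_a P x 0 k _ - ka1_a P x 0 i _
          rw [add_comm]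
          exact sub_add_sub_cancel _ _ _⟩
      map_zero' := by
        apply Subtype.ext
        funext i j
        change ka1_a P (0 : P.obj m) 0 j _ - ka1_a P (0 : P.obj m) 0 i _ = 0
        rw [ka1_a_zero, ka1_a_zero, sub_zero]
      map_add' := fun x y => by
        apply Subtype.ext
        funext i j
        change ka1_a P (x + y) 0 j _ - ka1_a P (x + y) 0 i _ =
          (ka1_a P x 0 j _ - ka1_a P x 0 i _) + (ka1_a P y 0 j _ - ka1_a P y 0 i _)
        rw [ka1_a_add, ka1_a_add]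
        abel }
  nat {m n} θ x := by
    apply Subtype.ext
    funext i j
    change ka1_a P (P.map θ x) 0 j _ - ka1_a P (P.map θ x) 0 i _ =
      ka1_a P x 0 (θ j) _ - ka1_a P x 0 (θ i) _
    have key : ∀ j : Fin (m + 1), ka1_a P (P.map θ x) 0 j (Fin.zero_le j) =
        ka1_a P x 0 (θ j) (Fin.zero_le _) - ka1_a P x 0 (θ 0) (Fin.zero_le _) := by
      intro j
      rw [← ka1_a_tri P h0 x 0 (θ 0) (θ j) (Fin.zero_le _) (θ.monotone (Fin.zero_le j))]
      rw [ka1_a, ← P.map_comp, ka1_comp]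
      rfl
    rw [key, key]
    abel

theorem ka1_φ_apply (h0 : ∀ x : P.obj 0, x = 0) {m : ℕ} (x : P.obj m) (i j : Fin (m + 1)) :
    ((ka1_φ P h0).app m x).1 i j =
      ka1_a P x 0 j (Fin.zero_le j) - ka1_a P x 0 i (Fin.zero_le i) := rfl

/-- the operator `[m] → [1]` which is `1` after `i` -/
def ka1_s {m : ℕ} (i : Fin m) : Mo m 1 where
  toFun j := if i.castSucc < j then 1 else 0
  monotone' := by
    intro j k hjk
    by_cases h : i.castSucc < j
    · simp [h, h.trans_le hjk]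
    · simp only [h, if_false]
      exact Fin.zero_le _

theorem ka1_s_e {m : ℕ} (i : Fin m) (j : Fin (m + 1)) :
    (ka1_s i).comp (ka1_e 0 j (Fin.zero_le j)) =
      if i.castSucc < j then (OrderHom.id : Mo 1 1) else ka1_c 0 := by
  have h0 : ka1_s i 0 = 0 := by
    change (if i.castSucc < 0 then (1 : Fin 2) else 0) = 0
    rw [if_neg (by simp)]
  rw [ka1_comp]
  split_ifs with h
  · have h1 : ka1_s i j = 1 := if_pos h
    apply OrderHom.ext
    funext k
    fin_cases k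
    · exact h0
    · exact h1
  · have h1 : ka1_s i j = 0 := if_neg h
    apply OrderHom.ext
    funext k
    fin_cases k
    · exact h0
    · exact h1

theorem ka1_surj (h0 : ∀ x : P.obj 0, x = 0) (m : ℕ) : Surjective ((ka1_φ P h0).app m) := by
  intro c
  have hc : ∀ i j k, c.1 i j + c.1 j k = c.1 i k := c.2
  have hex : ∀ i : Fin m, ∃ x : P.obj 1, (QuotientAddGroup.mk x : ka1_A P) =
      c.1 i.castSucc i.succ := fun i => QuotientAddGroup.mk_surjective _
  choose a ha using hex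
  have hsum : ∀ k : ℕ, ∀ hk : k < m + 1, (∑ i : Fin m, if (i : ℕ) < k then
      c.1 i.castSucc i.succ else 0) = c.1 0 ⟨k, hk⟩ := by
    intro k
    induction k with
    | zero =>
      intro hk
      have h1 : c.1 0 ⟨0, hk⟩ = 0 := by
        have h2 := hc 0 0 0
        exact add_eq_left.1 h2
      rw [h1]
      exact Finset.sum_eq_zero fun i _ => if_neg (by omega)
    | succ k ih =>
      intro hk
      have hk' : k < m := by omega
      have h1 : (∑ i : Fin m, if (i : ℕ) < k + 1 then c.1 i.castSucc i.succ else 0) =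
          (∑ i : Fin m, if (i : ℕ) < k then c.1 i.castSucc i.succ else 0) +
            ∑ i : Fin m, if i = ⟨k, hk'⟩ then c.1 i.castSucc i.succ else 0 := by
        rw [← Finset.sum_add_distrib]
        refine Finset.sum_congr rfl fun i _ => ?_
        by_cases h2 : (i : ℕ) < k
        · have h3 : i ≠ ⟨k, hk'⟩ := by
            rintro rfl
            exact lt_irrefl _ h2
          rw [if_pos (by omega), if_pos h2, if_neg h3, add_zero]
        · by_cases h3 : i = ⟨k, hk'⟩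
          · rw [if_pos (by rw [h3]; exact Nat.lt_succ_self k), if_neg h2, if_pos h3, zero_add]
          · have h4 : (i : ℕ) ≠ k := fun h => h3 (Fin.ext h)
            rw [if_neg (by omega), if_neg h2, if_neg h3, add_zero]
      rw [h1, ih (by omega), Finset.sum_ite_eq' Finset.univ (⟨k, hk'⟩ : Fin m)
        (fun i => c.1 i.castSucc i.succ), if_pos (Finset.mem_univ _)]
      exact hc _ _ _
  refine ⟨∑ i : Fin m, P.map (ka1_s i) (a i), ?_⟩
  have key : ∀ j : Fin (m + 1), ka1_a P (∑ i : Fin m, P.map (ka1_s i) (a i)) 0 j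
      (Fin.zero_le j) = c.1 0 j := by
    intro j
    rw [ka1_a, map_sum]
    have h1 : ∀ i : Fin m, (QuotientAddGroup.mk (P.map (ka1_e 0 j (Fin.zero_le j))
        (P.map (ka1_s i) (a i))) : ka1_A P) =
        if (i : ℕ) < (j : ℕ) then c.1 i.castSucc i.succ else 0 := by
      intro i
      rw [← P.map_comp, ka1_s_e]
      by_cases h : i.castSucc < j
      · have h2 : (i : ℕ) < (j : ℕ) := h
        rw [if_pos h, if_pos h2, P.map_id, ha]
      · have h2 : ¬ (i : ℕ) < (j : ℕ) := h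
        rw [if_neg h, if_neg h2, ka1_map_c P h0]
        rfl
    have h3 := hsum j j.2
    rw [← h3]
    change (QuotientAddGroup.mk' (ka1_B P)) (∑ i : Fin m, _) = _
    rw [map_sum]
    exact Finset.sum_congr rfl fun i _ => h1 i
  apply Subtype.ext
  funext i j
  rw [ka1_φ_apply, key, key]
  exact sub_eq_iff_eq_add'.2 (hc 0 i j).symm

/-! ### the homotopy groups of `B A` -/

theorem ka1_BG_ext {A : Type u} [AddCommGroup A] {m : ℕ} {c c' : (BG A).obj m}
    (h : ∀ i j, c.1 i j = c'.1 i j) : c = c' :=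
  Subtype.ext (funext fun i => funext fun j => h i j)

theorem ka1_BG_diag {A : Type u} [AddCommGroup A] {m : ℕ} (c : (BG A).obj m) (i : Fin (m + 1)) :
    c.1 i i = 0 := add_eq_left.1 (c.2 i i i)

theorem ka1_BG_Pi0 {A : Type u} [AddCommGroup A] (x : (BG A).gpo.Pi 0) : x = 1 := by
  obtain ⟨x, rfl⟩ := SGp.cls_surj _ 0 x
  have h1 : x = 1 := by
    apply Subtype.ext
    refine ka1_BG_ext (c := (show (BG A).obj 0 from x.1)) (c' := 0) ?_
    intro i j
    have h2 : i = j := Subsingleton.elim (α := Fin 1) _ _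
    rw [h2]
    exact ka1_BG_diag _ j
  rw [h1, map_one]

theorem ka1_BG_Pi2 {A : Type u} [AddCommGroup A] (n : ℕ) (x : (BG A).gpo.Pi (n + 2)) :
    x = 1 := by
  obtain ⟨x, rfl⟩ := SGp.cls_surj _ _ x
  have h1 : x = 1 := by
    apply Subtype.ext
    have hx := SGp.mem_Z_succ _ |>.1 x.2
    refine ka1_BG_ext (c := (show (BG A).obj (n + 2) from x.1)) (c' := 0) ?_
    intro i j
    obtain ⟨k, hki, hkj⟩ : ∃ k : Fin (n + 3), k ≠ i ∧ k ≠ j := by
      have h2 : ({i, j} : Finset (Fin (n + 3))).card < Fintype.card (Fin (n + 3)) := by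
        rw [Fintype.card_fin]
        exact lt_of_le_of_lt Finset.card_le_two (by omega)
      obtain ⟨k, hk⟩ := Finset.exists_mem_notMem_of_card_lt_card
        (s := ({i, j} : Finset (Fin (n + 3)))) (t := Finset.univ) (by rwa [Finset.card_univ])
      refine ⟨k, ?_, ?_⟩
      · rintro rfl
        exact hk.2 (by simp)
      · rintro rfl
        exact hk.2 (by simp)
    obtain ⟨i', hi'⟩ := Fin.exists_succAbove_eq hki.symm
    obtain ⟨j', hj'⟩ := Fin.exists_succAbove_eq hkj.symm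
    have h3 : ((BG A).map (dl k) (show (BG A).obj (n + 2) from x.1)).1 i' j' = 0 := by
      have h4 : (BG A).map (dl k) (show (BG A).obj (n + 2) from x.1) = 0 := hx k
      rw [h4]
      rfl
    have h5 : (show (BG A).obj (n + 2) from x.1).1 (k.succAbove i') (k.succAbove j') = 0 := h3
    rw [hi', hj'] at h5
    exact h5
  rw [h1, map_one]

theorem ka1_BG_B0 {A : Type u} [AddCommGroup A] (y : (BG A).obj 2)
    (hy : ∀ i : Fin 2, (BG A).map (dl i.succ) y = 0) : (BG A).map (dl 0) y = 0 := by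
  have h1 : ((BG A).map (dl 1) y) = 0 := hy 0
  have h2 : ((BG A).map (dl 2) y) = 0 := hy 1
  have h3 : y.1 0 2 = 0 := by
    have h := congrArg (fun c : (BG A).obj 1 => c.1 0 1) h1
    exact h
  have h4 : y.1 0 1 = 0 := by
    have h := congrArg (fun c : (BG A).obj 1 => c.1 0 1) h2
    exact h
  have h5 : y.1 1 2 = 0 := by
    have h : y.1 0 1 + y.1 1 2 = y.1 0 2 := y.2 0 1 2
    rw [h3, h4, zero_add] at h
    exact h
  have h6 : y.1 2 1 = 0 := by
    have h : y.1 1 2 + y.1 2 1 = y.1 1 1 := y.2 1 2 1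
    rw [h5, zero_add, ka1_BG_diag] at h
    exact h
  apply ka1_BG_ext
  intro i j
  change y.1 ((0 : Fin 3).succAbove i) ((0 : Fin 3).succAbove j) = 0
  fin_cases i <;> fin_cases j
  · exact ka1_BG_diag _ _
  · exact h5
  · exact h6
  · exact ka1_BG_diag _ _

theorem ka1_BG_B {A : Type u} [AddCommGroup A] (x : (BG A).gpo.obj 1) (hx : x ∈ (BG A).gpo.B 1) :
    (show (BG A).obj 1 from x) = 0 := by
  rw [SGp.mem_B] at hx
  obtain ⟨y, hy, hx⟩ := hx
  have h := ka1_BG_B0 (show (BG A).obj 2 from y) hy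
  exact hx.symm.trans h

/-! ### the theorem -/

theorem ka1_weq (h0 : ∀ x : P.obj 0, x = 0) (hP : ∀ j, j ≠ 1 → ∀ x : P.gpo.Pi j, x = 1) :
    SAb.Weq (ka1_φ P h0) := by
  intro j
  rcases j with _ | _ | j
  · refine ⟨fun x y _ => ?_, fun y => ⟨1, ?_⟩⟩
    · rw [hP 0 (by simp) x, hP 0 (by simp) y]
    · rw [map_one]
      exact (ka1_BG_Pi0 y).symm
  · constructor
    · rw [injective_iff_map_eq_one]
      intro x hx
      obtain ⟨x, rfl⟩ := SGp.cls_surj _ 1 x
      rw [SGp.PiMap_cls, SGp.cls_eq_one] at hx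
      rw [SGp.cls_eq_one]
      have h1 := ka1_BG_B _ hx
      have h2 : ((ka1_φ P h0).app 1 (x.1 : P.obj 1)).1 0 1 = 0 := by
        have h := congrArg (fun c : (BG (ka1_A P)).obj 1 => c.1 0 1) h1
        exact h
      rw [ka1_φ_apply, ka1_a_self P h0, sub_zero, ka1_a, ka1_e01, P.map_id] at h2
      exact ka1_mem_B P _ ((QuotientAddGroup.eq_zero_iff _).1 h2)
    · intro y
      obtain ⟨y, rfl⟩ := SGp.cls_surj _ 1 y
      obtain ⟨x, hx⟩ := ka1_surj P h0 1 (show (BG (ka1_A P)).obj 1 from y.1)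
      have hxZ : (show P.gpo.obj 1 from x) ∈ P.gpo.Z 1 :=
        (SGp.mem_Z_succ P.gpo).2 fun i => h0 _
      refine ⟨P.gpo.cls 1 ⟨_, hxZ⟩, ?_⟩
      exact (SGp.PiMap_cls (SAb.gp.map (ka1_φ P h0)) 1 ⟨_, hxZ⟩).trans
        (congrArg _ (Subtype.ext hx))
  · refine ⟨fun x y _ => ?_, fun y => ⟨1, ?_⟩⟩
    · rw [hP (j + 2) (by omega) x, hP (j + 2) (by omega) y]
    · rw [map_one]
      exact (ka1_BG_Pi2 j y).symm

/-- F5. -/
theorem thm_KA1 (hBG : St_BG.{u}) (hW : St_WSurj.{u}) (hSF : St_SlFin.{u}) (hEx : St_AbEx.{u})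
    (hSl : St_Sl.{u}) : St_KA1.{u} := by
  intro P h0 hfg hP j
  have hFG : AddGroup.FG (ka1_A P) := by
    have := hfg 1
    exact AddGroup.fg_of_surjective (f := QuotientAddGroup.mk' (ka1_B P))
      (QuotientAddGroup.mk'_surjective _)
  have hB : HSl (BG (ka1_A P)).gpo.und j := hSF.2.2 _ (hBG (ka1_A P) hFG) j
  have hses : SAb.SES (SAb.kerι (ka1_φ P h0)) (ka1_φ P h0) :=
    ⟨fun n => Subtype.val_injective, fun n y => ⟨fun h => ⟨⟨y, h⟩, rfl⟩, by
      rintro ⟨x, rfl⟩
      exact x.2⟩, ka1_surj P h0⟩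
  have htriv : ∀ d, SAb.Triv d (SAb.ker (ka1_φ P h0)) :=
    (hEx _ _ hses 0).2.2.2.2.2.2.2.2.2.2.2.1.2 (ka1_weq P h0 hP)
  have hker : ∀ c, SGp.Triv c (SGp.ker (SAb.gp.map (ka1_φ P h0))) := htriv
  have hweq := hW (SAb.gp.map (ka1_φ P h0)) (ka1_surj P h0) hker
  exact hSl.1 _ (hweq j).1 hB

end Pool.Agent.FGK
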