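import Pool.Agent.FGK.StD
import Pool.Agent.FGK.Prods
import Pool.Agent.KQ.Core

/-!
# FGK KFG: the K-groups of finite fields are finitely generated
-/

set_option autoImplicit false
set_option linter.unusedVariables false

noncomputable section

namespace Pool.Agent.FGK

open CategoryTheory CategoryTheory.Limits Function Pool.Agent.KQ

universe u

theorem kfg_zclass : ZClass Sd.{u} ZcE where
  zero E X := by
    refine (isZero_functor _).2 fun x => ?_
    have hs : Subsingleton (Fin (0 + 1)) := inferInstanceAs (Subsingleton (Fin 1))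
    have hx : x = ar 0 0 le_rfl := Subtype.ext (Prod.ext (Subsingleton.elim _ _)
      (Subsingleton.elim _ _))
    rw [hx]
    exact X.property.2.1 0
  stab E n h X := by
    refine (isZero_functor _).2 fun x => ?_
    exact h ⟨X.obj.obj x, X.property.1 x⟩

theorem kfg_triv0 (E : ExCat.{u}) (hE : ZcE E) (n : ℕ) (x : ((obF ⋙ cF).obj E).obj n) : x = 1 := by
  have h1 : ∀ a : (obF.obj E).X, a = (obF.obj E).point := by
    intro a
    induction a using Quot.ind with
    | mk X => exact Quot.sound ⟨hE X, isZero_zero _⟩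
  have h2 : MonoidHom.id (Fr (obF.obj E)) = 1 := Fr.hom_ext fun a => by
    rw [h1 a]
    exact Fr.of_point _
  exact DFunLike.congr_fun h2 x

theorem kfg_triv {c : ℕ} {G H : SGp.{u}} (e : G ≅ H) (h : SGp.Triv c G) : SGp.Triv c H := by
  intro j hj x
  have h1 := h j hj ((SGp.PiEquiv e j).symm x)
  rw [← (SGp.PiEquiv e j).apply_symm_apply x, h1, map_one]

theorem kfg_hsl (hSl : St_Sl.{u}) {Y Y' : SSt.{u}} (g : Y ⟶ Y') (hg : SAb.Weq (ZSmap g)) (j : ℕ)
    (h : HSl Y j) : HSl Y' j :=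
  hSl.2.1 (SGp.PiMap (SAb.gp.map (ZSmap g)) j) (hg j).2 h

theorem thm_KFG (hSl : St_Sl.{1}) (hStr : St_fsStrong.{1}) (hCl : St_ClK) (hZQ : St_ZQK.{0})
    (hZP : St_ZPSl.{1}) (hFT : St_FoxTriv.{1}) (hFS : St_FoxSl.{1}) (hFG : St_FG2.{1}) :
    St_KFG := by
  intro k _ _ n
  let κ := n + 3
  let V := KQG.MA k
  let X : SOb Pointed.{1} := (SOb.mapF obF).obj ((itS Sd κ).obj V)
  have e : (DK κ).obj V ≅ frS X := (dIso Sd obF κ).app V
  have hT : SGp.Triv κ (frS X) :=
    kfg_triv e ((all_Low Sd ZcE kfg_zclass (obF ⋙ cF) kfg_triv0 κ V).2)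
  have hX : ∀ j, HSl (undS X) j := by
    intro j
    have h1 := hCl k κ (by omega) 1 j
    let Y : SSt.{1} := obS.obj ((itS Sd κ).obj V)
    let p : Y.pow 1 ⟶ Y := ⟨fun n x => x 0, fun _ _ => rfl⟩
    let q : Y ⟶ Y.pow 1 := ⟨fun n x _ => x, fun _ _ => rfl⟩
    have hp : SAb.Weq (ZSmap p) := by
      refine prods_iso_weq (ZSmap p) (ZSmap q) ?_ ?_
      · rw [← prods_ZSmap_comp, show p ≫ q = 𝟙 _ from ?_, prods_ZSmap_id]
        apply SSt.hom_ext
        intro n x
        funext i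
        rw [Subsingleton.elim i 0]
        rfl
      · rw [← prods_ZSmap_comp, show q ≫ p = 𝟙 _ from rfl, prods_ZSmap_id]
    have h2 : HSl Y j := kfg_hsl hSl p hp j h1
    exact kfg_hsl hSl (zq ((itS Sd κ).obj V)) (hStr _ _ (hZQ κ (by omega) V)) j h2
  have h1 : SAb.Triv κ (ZP X) := hFT κ X hT
  have h2 := hZP X hX
  have h3 : ∀ j < 2 * κ, HSl (frS X).und j := fun j hj => hFS κ X hT h1 j hj (h2 j)
  have h4 := hFG κ (2 * κ) (frS X) (by omega) hT le_rfl h3 (2 * n + 2 + 1) (by omega)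
  have h5 : Sl (((DK κ).obj V).Pi (2 * n + 2 + 1)) :=
    hSl.1 (SGp.PiEquiv e (2 * n + 2 + 1)).toMonoidHom (SGp.PiEquiv e (2 * n + 2 + 1)).injective h4
  have h6 : Group.FG (((DK κ).obj V).Pi (2 * n + 2 + 1)) := ⟨h5 ⊤⟩
  exact inferInstanceAs (AddGroup.FG (Additive (((DK κ).obj V).Pi (2 * n + 2 + 1))))

end Pool.Agent.FGK
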