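import Pool.Agent.FGK.StC
import Pool.Agent.KQ.HT
import Pool.Agent.KQ.BD
import Pool.Agent.KQ.RL

/-!
# FGK, R0: relative simplicial abelian groups
-/

set_option autoImplicit false
set_option linter.unusedVariables false

namespace Pool.Agent.FGK

open CategoryTheory Function Pool.Agent.KQ

universe u

/-! ### bijective homomorphisms -/

/-- the inverse of a degreewise bijective homomorphism -/
noncomputable def zr_inv {G H : SGp.{u}} (f : G ⟶ H) (h : ∀ n, Bijective (f.app n)) : H ⟶ G :=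
  ⟨fun n => ((MulEquiv.ofBijective (f.app n) (h n)).symm : H.obj n →* G.obj n), fun {m n} θ y => by
    apply (h m).1
    rw [f.nat]
    change (MulEquiv.ofBijective (f.app m) (h m))
        ((MulEquiv.ofBijective (f.app m) (h m)).symm _) =
      H.map θ ((MulEquiv.ofBijective (f.app n) (h n))
        ((MulEquiv.ofBijective (f.app n) (h n)).symm y))
    rw [MulEquiv.apply_symm_apply, MulEquiv.apply_symm_apply]⟩

theorem zr_bij {G H : SGp.{u}} (f : G ⟶ H) (h : ∀ n, Bijective (f.app n)) : SGp.Weq f := by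
  intro j
  have h1 : f ≫ zr_inv f h = 𝟙 G :=
    SGp.hom_ext fun n x => (MulEquiv.ofBijective (f.app n) (h n)).symm_apply_apply x
  have h2 : zr_inv f h ≫ f = 𝟙 H :=
    SGp.hom_ext fun n x => (MulEquiv.ofBijective (f.app n) (h n)).apply_symm_apply x
  refine bijective_iff_has_inverse.2 ⟨SGp.PiMap (zr_inv f h) j, fun x => ?_, fun x => ?_⟩
  · rw [← SGp.PiMap_comp, h1, SGp.PiMap_id]
  · rw [← SGp.PiMap_comp, h2, SGp.PiMap_id]

/-! ### the subgroups -/

/-- the subgroup generated by the elements of `A` -/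
noncomputable def zr_K {T : Type u} (A : Set T) : AddSubgroup (T →₀ ULift.{u} ℤ) :=
  AddSubgroup.closure {z | ∃ x ∈ A, ∃ c, z = (Finsupp.single x c : T →₀ ULift.{u} ℤ)}

theorem zr_mem {T : Type u} (A : Set T) (z : T →₀ ULift.{u} ℤ) :
    z ∈ zr_K A ↔ ∀ x, x ∉ A → z x = 0 := by
  classical
  constructor
  · intro hz x hx
    induction hz using AddSubgroup.closure_induction with
    | mem z hz =>
      obtain ⟨y, hy, c, rfl⟩ := hz
      rw [Finsupp.single_apply, if_neg]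
      rintro rfl
      exact hx hy
    | zero => rfl
    | add a b _ _ ha hb => rw [Finsupp.add_apply, ha, hb, add_zero]
    | neg a _ ha => rw [Finsupp.neg_apply, ha, neg_zero]
  · intro h
    rw [← Finsupp.sum_single z]
    refine AddSubgroup.sum_mem _ fun x hx => ?_
    refine AddSubgroup.subset_closure ⟨x, ?_, z x, rfl⟩
    by_contra hA
    exact (Finsupp.mem_support_iff.1 hx) (h x hA)

/-! ### the induced homomorphism -/

theorem zr_map_app {X Y : SSt.{u}} (f : X ⟶ Y) (n : ℕ) (z : X.obj n →₀ ULift.{u} ℤ) :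
    (ZSmap f).app n z = Finsupp.mapDomain (f.app n) z := by
  change Finsupp.mapDomain (f.app n) (Finsupp.mapRange _ (map_zero _) z) = _
  congr 1
  ext x
  rw [Finsupp.mapRange_apply]
  rfl

theorem zr_map_th {X : SSt.{u}} {m n : ℕ} (θ : Mo m n) (z : X.obj n →₀ ULift.{u} ℤ) :
    (ZS X).map θ z = Finsupp.mapDomain (X.map θ) z := by
  change Finsupp.mapDomain (X.map θ) (Finsupp.mapRange _ (map_zero _) z) = _
  congr 1
  ext x
  rw [Finsupp.mapRange_apply]
  rfl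

theorem zr_map_mem {S T : Type u} (f : S → T) (A : Set S) (B : Set T) (h : ∀ x ∈ A, f x ∈ B)
    (z : S →₀ ULift.{u} ℤ) (hz : z ∈ zr_K A) : Finsupp.mapDomain f z ∈ zr_K B := by
  induction hz using AddSubgroup.closure_induction with
  | mem z hz =>
    obtain ⟨x, hx, c, rfl⟩ := hz
    rw [Finsupp.mapDomain_single]
    exact AddSubgroup.subset_closure ⟨f x, h x hx, c, rfl⟩
  | zero => rw [Finsupp.mapDomain_zero]; exact zero_mem _
  | add a b _ _ ha hb => rw [Finsupp.mapDomain_add]; exact add_mem ha hb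
  | neg a _ ha =>
    have : Finsupp.mapDomain f (-a) = -Finsupp.mapDomain f a :=
      map_neg (Finsupp.mapDomain.addMonoidHom f) a
    rw [this]
    exact neg_mem ha

/-- the homomorphism of quotients, in one degree -/
noncomputable def zr_q {S T : Type u} (f : S → T) (A : Set S) (B : Set T) (h : ∀ x ∈ A, f x ∈ B) :
    ((S →₀ ULift.{u} ℤ) ⧸ zr_K A) →+ ((T →₀ ULift.{u} ℤ) ⧸ zr_K B) :=
  QuotientAddGroup.map (zr_K A) (zr_K B) (Finsupp.mapDomain.addMonoidHom f)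
    fun z hz => zr_map_mem f A B h z hz

theorem zr_q_mk {S T : Type u} (f : S → T) (A : Set S) (B : Set T) (h : ∀ x ∈ A, f x ∈ B)
    (z : S →₀ ULift.{u} ℤ) : zr_q f A B h (QuotientAddGroup.mk z) =
      QuotientAddGroup.mk (Finsupp.mapDomain f z) := rfl

theorem zr_q_comp {S T U : Type u} (f : S → T) (g : T → U) (A : Set S) (B : Set T) (C : Set U)
    (hf : ∀ x ∈ A, f x ∈ B) (hg : ∀ x ∈ B, g x ∈ C) (k : S → U) (hk : ∀ x ∈ A, k x ∈ C)
    (e : ∀ x, k x = g (f x)) (x : (S →₀ ULift.{u} ℤ) ⧸ zr_K A) :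
    zr_q g B C hg (zr_q f A B hf x) = zr_q k A C hk x := by
  obtain ⟨z, rfl⟩ := QuotientAddGroup.mk_surjective x
  rw [zr_q_mk, zr_q_mk, zr_q_mk, ← Finsupp.mapDomain_comp]
  congr 2
  exact (funext e).symm

theorem zr_q_id {S : Type u} (k : S → S) (A : Set S) (hk : ∀ x ∈ A, k x ∈ A) (h : ∀ x, k x = x)
    (x : (S →₀ ULift.{u} ℤ) ⧸ zr_K A) : zr_q k A A hk x = x := by
  obtain ⟨z, rfl⟩ := QuotientAddGroup.mk_surjective x
  have hk1 : k = id := funext h
  subst hk1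
  rw [zr_q_mk, Finsupp.mapDomain_id]

theorem zr_q_zero {S T : Type u} (k : S → T) (A : Set S) (B : Set T) (hk : ∀ x ∈ A, k x ∈ B)
    (h : ∀ x, k x ∈ B) (x : (S →₀ ULift.{u} ℤ) ⧸ zr_K A) : zr_q k A B hk x = 0 := by
  obtain ⟨z, rfl⟩ := QuotientAddGroup.mk_surjective x
  rw [zr_q_mk, QuotientAddGroup.eq_zero_iff, zr_mem]
  intro y hy
  refine Finsupp.mapDomain_of_notMem_range _ _ ?_
  rintro ⟨w, rfl⟩
  exact hy (h w)

theorem zr_th {X : SSt.{u}} (A : SubS X) {m n : ℕ} (θ : Mo m n)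
    (x : (X.obj n →₀ ULift.{u} ℤ) ⧸ zr_K (A.s n)) :
    (ZR X A).map θ x = zr_q (X.map θ) (A.s n) (A.s m) (A.map_mem θ) x := by
  obtain ⟨z, rfl⟩ := QuotientAddGroup.mk_surjective x
  exact congrArg (QuotientAddGroup.mk : _ → (X.obj m →₀ ULift.{u} ℤ) ⧸ zr_K (A.s m))
    (zr_map_th θ z)

/-- the homomorphism of relative simplicial abelian groups -/
noncomputable def zr_M {X Y : SSt.{u}} (A : SubS X) (B : SubS Y) (f : X ⟶ Y)
    (h : ∀ n x, x ∈ A.s n → f.app n x ∈ B.s n) : ZR X A ⟶ ZR Y B :=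
  ⟨fun n => zr_q (f.app n) (A.s n) (B.s n) (h n), fun {m n} θ x => by
    refine (congrArg (zr_q (f.app m) (A.s m) (B.s m) (h m)) (zr_th A θ x)).trans ?_
    refine Eq.trans ?_ (zr_th B θ (zr_q (f.app n) (A.s n) (B.s n) (h n) x)).symm
    have hk : ∀ x ∈ A.s n, f.app m (X.map θ x) ∈ B.s m := fun x hx => h m _ (A.map_mem θ x hx)
    refine (zr_q_comp (X.map θ) (f.app m) (A.s n) (A.s m) (B.s m) (A.map_mem θ) (h m)
      (fun x => f.app m (X.map θ x)) hk (fun _ => rfl) x).trans ?_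
    exact (zr_q_comp (f.app n) (Y.map θ) (A.s n) (B.s n) (B.s m) (h n) (B.map_mem θ)
      (fun x => f.app m (X.map θ x)) hk (f.nat θ) x).symm⟩

/-- the projection, in one degree -/
noncomputable def zr_p {T : Type u} (A : Set T) :
    (T →₀ ULift.{u} ℤ) →+ ((T →₀ ULift.{u} ℤ) ⧸ zr_K A) := QuotientAddGroup.mk' (zr_K A)

/-- the projection -/
noncomputable def zr_P (X : SSt.{u}) (A : SubS X) : ZS X ⟶ ZR X A :=
  ⟨fun n => zr_p (A.s n), fun _ _ => rfl⟩

/-! ### the exact sequences -/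

theorem zr_sub {T : Type u} (B : Set T) (y : T →₀ ULift.{u} ℤ) : ∃ z : B →₀ ULift.{u} ℤ,
    (∀ x ∈ B, Finsupp.mapDomain (Subtype.val : B → T) z x = y x) ∧
    ∀ x, x ∉ B → Finsupp.mapDomain (Subtype.val : B → T) z x = 0 := by
  classical
  refine ⟨y.comapDomain Subtype.val Subtype.val_injective.injOn, fun x hx => ?_, fun x hx => ?_⟩
  · have := Finsupp.mapDomain_apply Subtype.val_injective
      (y.comapDomain (Subtype.val : B → T) Subtype.val_injective.injOn) ⟨x, hx⟩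
    rw [this]
    rfl
  · refine Finsupp.mapDomain_of_notMem_range _ _ ?_
    rintro ⟨w, rfl⟩
    exact hx w.2

theorem zr_inj {T : Type u} (A B : Set T) (C : Set B) (hC : ∀ x : B, x ∈ C ↔ x.1 ∈ A)
    (h : ∀ x ∈ C, (Subtype.val : B → T) x ∈ A) : Injective (zr_q (Subtype.val : B → T) C A h) := by
  rw [injective_iff_map_eq_zero]
  intro z hz
  obtain ⟨z, rfl⟩ := QuotientAddGroup.mk_surjective z
  rw [zr_q_mk, QuotientAddGroup.eq_zero_iff, zr_mem] at hz
  rw [QuotientAddGroup.eq_zero_iff, zr_mem]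
  intro b hb
  have h2 := hz b.1 fun h => hb ((hC b).2 h)
  rwa [Finsupp.mapDomain_apply Subtype.val_injective] at h2

theorem zr_ex {T : Type u} (A B D : Set T) (C : Set B) (hC : ∀ x : B, x ∈ C ↔ x.1 ∈ A)
    (hD : ∀ x, x ∈ D ↔ x ∈ A ∨ x ∈ B)
    (h : ∀ x ∈ C, (Subtype.val : B → T) x ∈ A) (k : T → T) (hk : ∀ x, k x = x)
    (h' : ∀ x ∈ A, k x ∈ D) (y : (T →₀ ULift.{u} ℤ) ⧸ zr_K A) :
    zr_q k A D h' y = 0 ↔ ∃ x, zr_q (Subtype.val : B → T) C A h x = y := by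
  have hk1 : k = id := funext hk
  subst hk1
  obtain ⟨y, rfl⟩ := QuotientAddGroup.mk_surjective y
  rw [zr_q_mk, Finsupp.mapDomain_id, QuotientAddGroup.eq_zero_iff, zr_mem]
  constructor
  · intro h1
    obtain ⟨z, hz1, hz2⟩ := zr_sub B y
    refine ⟨QuotientAddGroup.mk z, ?_⟩
    rw [zr_q_mk, QuotientAddGroup.eq, zr_mem]
    intro x hx
    rw [Finsupp.add_apply, Finsupp.neg_apply]
    by_cases hB : x ∈ B
    · rw [hz1 x hB, neg_add_cancel]
    · rw [hz2 x hB, neg_zero, zero_add]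
      exact h1 x fun hd => by
        rcases (hD x).1 hd with h | h
        exacts [hx h, hB h]
  · rintro ⟨z, hz⟩ x hx
    obtain ⟨z, rfl⟩ := QuotientAddGroup.mk_surjective z
    rw [zr_q_mk, QuotientAddGroup.eq, zr_mem] at hz
    have h2 := hz x fun h => hx ((hD x).2 (Or.inl h))
    rw [Finsupp.add_apply, Finsupp.neg_apply, Finsupp.mapDomain_of_notMem_range, neg_zero,
      zero_add] at h2
    · exact h2
    · rintro ⟨w, rfl⟩
      exact hx ((hD _).2 (Or.inr w.2))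

theorem zr_surj {T : Type u} (A D : Set T) (k : T → T) (hk : ∀ x, k x = x)
    (h' : ∀ x ∈ A, k x ∈ D) : Surjective (zr_q k A D h') := by
  have hk1 : k = id := funext hk
  subst hk1
  intro y
  obtain ⟨y, rfl⟩ := QuotientAddGroup.mk_surjective y
  refine ⟨QuotientAddGroup.mk y, ?_⟩
  rw [zr_q_mk, Finsupp.mapDomain_id]

theorem zr_pex {T : Type u} (A : Set T) (y : T →₀ ULift.{u} ℤ) : zr_p A y = 0 ↔
    ∃ x : A →₀ ULift.{u} ℤ, Finsupp.mapDomain (Subtype.val : A → T) x = y := by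
  change (QuotientAddGroup.mk y : (T →₀ ULift.{u} ℤ) ⧸ zr_K A) = 0 ↔ _
  rw [QuotientAddGroup.eq_zero_iff, zr_mem]
  constructor
  · intro h1
    obtain ⟨z, hz1, hz2⟩ := zr_sub A y
    refine ⟨z, Finsupp.ext fun x => ?_⟩
    by_cases hx : x ∈ A
    · exact hz1 x hx
    · exact (hz2 x hx).trans (h1 x hx).symm
  · rintro ⟨z, rfl⟩ x hx
    refine Finsupp.mapDomain_of_notMem_range _ _ ?_
    rintro ⟨w, rfl⟩
    exact hx w.2

theorem zr_1 (X : SSt.{u}) (A B : SubS X) : ∃ (i : ZR B.S (subIn A B) ⟶ ZR X A)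
    (π : ZR X A ⟶ ZR X (subUn A B)), SAb.SES i π :=
  ⟨zr_M (subIn A B) A B.ι fun n x hx => hx,
    zr_M A (subUn A B) (𝟙 X) fun n x hx => Or.inl hx,
    fun n => zr_inj (A.s n) (B.s n) ((subIn A B).s n) (fun x => Iff.rfl) (fun x hx => hx),
    fun n y => zr_ex (A.s n) (B.s n) ((subUn A B).s n) ((subIn A B).s n) (fun x => Iff.rfl)
      (fun x => Iff.rfl) (fun x hx => hx) (fun x => x) (fun x => rfl) (fun x hx => Or.inl hx) y,
    fun n => zr_surj (A.s n) ((subUn A B).s n) (fun x => x) (fun x => rfl) (fun x hx => Or.inl hx)⟩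

theorem zr_2 (X : SSt.{u}) (A : SubS X) : SAb.SES (ZSmap A.ι) (zr_P X A) := by
  refine ⟨fun n a b hab => ?_, fun n y => ?_, fun n y => QuotientAddGroup.mk'_surjective _ y⟩
  · have h1 := (zr_map_app A.ι n a).symm.trans (hab.trans (zr_map_app A.ι n b))
    exact Finsupp.mapDomain_injective Subtype.val_injective h1
  · refine (zr_pex (A.s n) y).trans ?_
    constructor
    · rintro ⟨x, hx⟩
      exact ⟨x, (zr_map_app A.ι n x).trans hx⟩
    · rintro ⟨x, hx⟩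
      exact ⟨x, (zr_map_app A.ι n x).symm.trans hx⟩

/-! ### homotopies -/

/-- the trivial homomorphism -/
def zr_one (G H : SGp.{u}) : G ⟶ H := ⟨fun _ => 1, fun _ _ => (map_one _).symm⟩

theorem zr_one_Pi (G H : SGp.{u}) (j : ℕ) (x : G.Pi j) : SGp.PiMap (zr_one G H) j x = 1 := by
  obtain ⟨x, rfl⟩ := G.cls_surj j x
  rw [SGp.PiMap_cls, SGp.cls_eq_one]
  exact one_mem _

/-- the homomorphisms of a homotopy -/
noncomputable def zr_h {X : SSt.{u}} (A : SubS X) (n : ℕ) (k : X.obj n → X.obj n)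
    (hk : ∀ x ∈ A.s n, k x ∈ A.s n) : (SAb.gp.obj (ZR X A)).obj n →* (SAb.gp.obj (ZR X A)).obj n :=
  show Multiplicative ((ZR X A).obj n) →* Multiplicative ((ZR X A).obj n) from
    AddMonoidHom.toMultiplicative (zr_q k (A.s n) (A.s n) hk : (ZR X A).obj n →+ (ZR X A).obj n)

theorem zr_h_nat {X : SSt.{u}} (A : SubS X) {m n : ℕ} (θ : Mo m n) (k : X.obj n → X.obj n)
    (hk : ∀ x ∈ A.s n, k x ∈ A.s n) (k' : X.obj m → X.obj m)
    (hk' : ∀ x ∈ A.s m, k' x ∈ A.s m) (h : ∀ x, k' (X.map θ x) = X.map θ (k x))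
    (x : (SAb.gp.obj (ZR X A)).obj n) :
    zr_h A m k' hk' ((SAb.gp.obj (ZR X A)).map θ x) =
      (SAb.gp.obj (ZR X A)).map θ (zr_h A n k hk x) := by
  refine (congrArg (zr_q k' (A.s m) (A.s m) hk') (zr_th A θ x)).trans ?_
  refine Eq.trans ?_ (zr_th A θ (zr_q k (A.s n) (A.s n) hk x)).symm
  have hc : ∀ x ∈ A.s n, k' (X.map θ x) ∈ A.s m := fun x hx => hk' _ (A.map_mem θ x hx)
  refine (zr_q_comp (X.map θ) k' (A.s n) (A.s m) (A.s m) (A.map_mem θ) hk'
    (fun x => k' (X.map θ x)) hc (fun _ => rfl) x).trans ?_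
  exact (zr_q_comp k (X.map θ) (A.s n) (A.s n) (A.s m) hk (A.map_mem θ)
    (fun x => k' (X.map θ x)) hc h x).symm

theorem zr_h_id {X : SSt.{u}} (A : SubS X) (n : ℕ) (k : X.obj n → X.obj n)
    (hk : ∀ x ∈ A.s n, k x ∈ A.s n) (h : ∀ x, k x = x) (x : (SAb.gp.obj (ZR X A)).obj n) :
    zr_h A n k hk x = x := zr_q_id k (A.s n) hk h x

theorem zr_h_one {X : SSt.{u}} (A : SubS X) (n : ℕ) (k : X.obj n → X.obj n)
    (hk : ∀ x ∈ A.s n, k x ∈ A.s n) (h : ∀ x, k x ∈ A.s n) (x : (SAb.gp.obj (ZR X A)).obj n) :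
    zr_h A n k hk x = 1 := zr_q_zero k (A.s n) (A.s n) hk h x

theorem zr_triv {G : SGp.{u}} (h : ∀ j, SGp.PiMap (𝟙 G) j = SGp.PiMap (zr_one G G) j) (c : ℕ) :
    SGp.Triv c G := by
  intro j _ x
  rw [← SGp.PiMap_id G j x, h j, zr_one_Pi]

theorem zr_3 (X : SSt.{u}) (A : SubS X) (g : X ⟶ X) (h : SSt.Htpy (𝟙 X) g)
    (h1 : ∀ n α x, x ∈ A.s n → h.h n α x ∈ A.s n) (h2 : ∀ n x, g.app n x ∈ A.s n) (c : ℕ) :
    SAb.Triv c (ZR X A) := by
  refine zr_triv (G := SAb.gp.obj (ZR X A)) (fun j => thm_Htpy _ _ ⟨?_⟩ j) c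
  refine ⟨fun n α => zr_h A n (h.h n α) (h1 n α), fun {m n} θ α x => ?_, fun n α x hα => ?_,
    fun n α x hα => ?_⟩
  · exact zr_h_nat A θ _ _ _ _ (fun x => h.nat θ α x) x
  · exact zr_h_id A n _ _ (fun x => h.h0 n α x hα) x
  · exact zr_h_one A n _ _ (fun x => by rw [h.h1 n α x hα]; exact h2 n x) x

theorem zr_4 (X : SSt.{u}) (A : SubS X) (g : X ⟶ X) (h : SSt.Htpy g (𝟙 X))
    (h1 : ∀ n α x, x ∈ A.s n → h.h n α x ∈ A.s n) (h2 : ∀ n x, g.app n x ∈ A.s n) (c : ℕ) :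
    SAb.Triv c (ZR X A) := by
  refine zr_triv (G := SAb.gp.obj (ZR X A)) (fun j => (thm_Htpy _ _ ⟨?_⟩ j).symm) c
  refine ⟨fun n α => zr_h A n (h.h n α) (h1 n α), fun {m n} θ α x => ?_, fun n α x hα => ?_,
    fun n α x hα => ?_⟩
  · exact zr_h_nat A θ _ _ _ _ (fun x => h.nat θ α x) x
  · exact zr_h_one A n _ _ (fun x => by rw [h.h0 n α x hα]; exact h2 n x) x
  · exact zr_h_id A n _ _ (fun x => h.h1 n α x hα) x

/-! ### maps of pairs -/

/-- the kernel of the projection -/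
noncomputable def zr_L (X : SSt.{u}) (A : SubS X) :
    SAb.gp.obj (ZS A.S) ⟶ SGp.ker (SAb.gp.map (zr_P X A)) :=
  ⟨fun n => ((SAb.gp.map (ZSmap A.ι)).app n).codRestrict _ fun x =>
    ((zr_2 X A).ex n _).2 ⟨x, rfl⟩, fun θ x => Subtype.ext ((SAb.gp.map (ZSmap A.ι)).nat θ x)⟩

theorem zr_L_bij (X : SSt.{u}) (A : SubS X) (n : ℕ) : Bijective ((zr_L X A).app n) := by
  constructor
  · intro a b hab
    exact (zr_2 X A).inj n (congrArg Subtype.val hab)
  · rintro ⟨y, hy⟩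
    obtain ⟨x, hx⟩ := ((zr_2 X A).ex n y).1 hy
    exact ⟨x, Subtype.ext hx⟩

theorem zr_5a {X Y : SSt.{u}} (A : SubS X) (B : SubS Y) (f : X ⟶ Y)
    (h : ∀ n x, x ∈ A.s n → f.app n x ∈ B.s n) (h1 : SAb.Weq (ZSmap f))
    (h2 : SAb.Weq (ZSmap (SubS.mapS f A B h))) : SAb.Weq (zr_M A B f h) := by
  have hsq : SAb.gp.map (zr_P X A) ≫ SAb.gp.map (zr_M A B f h) =
      SAb.gp.map (ZSmap f) ≫ SAb.gp.map (zr_P Y B) := by
    refine SGp.hom_ext fun n x => ?_
    exact congrArg (zr_p (B.s n)) (zr_map_app f n x).symm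
  have hX : ∀ n, Surjective ((SAb.gp.map (zr_P X A)).app n) := (zr_2 X A).surj
  have hY : ∀ n, Surjective ((SAb.gp.map (zr_P Y B)).app n) := (zr_2 Y B).surj
  have hk : SGp.Weq (SGp.kerMap (SAb.gp.map (ZSmap f)) (SAb.gp.map (zr_M A B f h)) hsq) := by
    have e : zr_L X A ≫ SGp.kerMap (SAb.gp.map (ZSmap f)) (SAb.gp.map (zr_M A B f h)) hsq =
        SAb.gp.map (ZSmap (SubS.mapS f A B h)) ≫ zr_L Y B := by
      refine SGp.hom_ext fun n x => Subtype.ext ?_
      have e1 : ∀ {U V W : SSt.{u}} (a : U ⟶ V) (b : V ⟶ W) (z : U.obj n →₀ ULift.{u} ℤ),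
          (ZSmap b).app n ((ZSmap a).app n z) =
            Finsupp.mapDomain (fun x => b.app n (a.app n x)) z := by
        intro U V W a b z
        refine (congrArg ((ZSmap b).app n) (zr_map_app a n z)).trans ?_
        refine (zr_map_app b n _).trans ?_
        rw [← Finsupp.mapDomain_comp]
        rfl
      exact (e1 A.ι f x).trans (e1 (SubS.mapS f A B h) B.ι x).symm
    intro j
    have a1 := zr_bij (zr_L X A) (zr_L_bij X A) j
    have a2 := zr_bij (zr_L Y B) (zr_L_bij Y B) j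
    have a3 : Bijective (SGp.PiMap (zr_L X A ≫
        SGp.kerMap (SAb.gp.map (ZSmap f)) (SAb.gp.map (zr_M A B f h)) hsq) j) := by
      rw [e]
      have e2 : (SGp.PiMap (SAb.gp.map (ZSmap (SubS.mapS f A B h)) ≫ zr_L Y B) j :
          _ → _) = SGp.PiMap (zr_L Y B) j ∘ SGp.PiMap (SAb.gp.map (ZSmap (SubS.mapS f A B h))) j :=
        funext fun x => SGp.PiMap_comp _ _ j x
      rw [e2]
      exact a2.comp (h2 j)
    have e3 : (SGp.PiMap (zr_L X A ≫
        SGp.kerMap (SAb.gp.map (ZSmap f)) (SAb.gp.map (zr_M A B f h)) hsq) j : _ → _) =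
        SGp.PiMap (SGp.kerMap (SAb.gp.map (ZSmap f)) (SAb.gp.map (zr_M A B f h)) hsq) j ∘
          SGp.PiMap (zr_L X A) j := funext fun x => SGp.PiMap_comp _ _ j x
    rw [e3] at a3
    exact (Bijective.of_comp_iff _ a1).1 a3
  intro j
  have h1' : SGp.Weq (SAb.gp.map (ZSmap f)) := h1
  cases j with
  | zero =>
    exact ⟨RL_I0 _ _ hsq thm_Bd0 hX hY (h1' 0).1 (hk 0).2, RL_S0 _ _ hsq thm_Bd0 hY (h1' 0).2⟩
  | succ j =>
    exact ⟨RL_I _ _ hsq thm_Bd thm_Bd0 thm_BdNat hX hY j (h1' (j + 1)).1 (hk (j + 1)).2 (hk j).1,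
      RL_S _ _ hsq thm_Bd thm_BdNat hX hY j (h1' (j + 1)).2 (h1' j).1 (hk j).2⟩

theorem zr_qb {S T : Type u} (f : S → T) (A : Set S) (B : Set T) (h : ∀ x ∈ A, f x ∈ B)
    (h1 : ∀ y, y ∉ B → ∃! x : S, f x = y) (h2 : ∀ x : S, f x ∈ B → x ∈ A) :
    Bijective (zr_q f A B h) := by
  classical
  constructor
  · rw [injective_iff_map_eq_zero]
    intro z hz
    obtain ⟨z, rfl⟩ := QuotientAddGroup.mk_surjective z
    rw [zr_q_mk, QuotientAddGroup.eq_zero_iff, zr_mem] at hz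
    rw [QuotientAddGroup.eq_zero_iff, zr_mem]
    intro x hx
    have hfx : f x ∉ B := fun hb => hx (h2 x hb)
    have h4 := hz _ hfx
    obtain ⟨x', hx', hu⟩ := h1 _ hfx
    have h5 : x = x' := hu x rfl
    rw [Finsupp.mapDomain, Finsupp.sum_apply, Finsupp.sum, Finset.sum_eq_single x] at h4
    · rwa [Finsupp.single_eq_same] at h4
    · intro b _ hbx
      rw [Finsupp.single_apply, if_neg]
      intro hb
      exact hbx ((hu b hb).trans h5.symm)
    · intro hx0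
      rw [Finsupp.notMem_support_iff.1 hx0, Finsupp.single_zero, Finsupp.zero_apply]
  · intro y
    obtain ⟨y, rfl⟩ := QuotientAddGroup.mk_surjective y
    induction y using Finsupp.induction_linear with
    | zero => exact ⟨0, by rw [map_zero]; rfl⟩
    | add a b ha hb =>
      obtain ⟨a', ha'⟩ := ha
      obtain ⟨b', hb'⟩ := hb
      refine ⟨a' + b', ?_⟩
      rw [map_add, ha', hb']
      rfl
    | single y c =>
      by_cases hy : y ∈ B
      · refine ⟨0, ?_⟩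
        rw [map_zero]
        symm
        rw [QuotientAddGroup.eq_zero_iff]
        exact AddSubgroup.subset_closure ⟨y, hy, c, rfl⟩
      · obtain ⟨x, rfl, -⟩ := h1 y hy
        refine ⟨QuotientAddGroup.mk (Finsupp.single x c), ?_⟩
        rw [zr_q_mk, Finsupp.mapDomain_single]

theorem zr_5b {X Y : SSt.{u}} (A : SubS X) (B : SubS Y) (f : X ⟶ Y)
    (h : ∀ n x, x ∈ A.s n → f.app n x ∈ B.s n)
    (h1 : ∀ n (y : Y.obj n), y ∉ B.s n → ∃! x : X.obj n, f.app n x = y)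
    (h2 : ∀ n (x : X.obj n), f.app n x ∈ B.s n → x ∈ A.s n) (n : ℕ) :
    Bijective ((zr_M A B f h).app n) := zr_qb (f.app n) (A.s n) (B.s n) (h n) (h1 n) (h2 n)

/-- **R0.** -/
theorem thm_ZR : St_ZR.{u} := by
  refine ⟨zr_1, fun X A => ⟨zr_P X A, zr_2 X A⟩, zr_3, zr_4, fun X Y A B f h => ?_⟩
  exact ⟨zr_M A B f h, zr_5a A B f h, zr_5b A B f h⟩

end Pool.Agent.FGK
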