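import Pool.Agent.FGK.StD
import Pool.Agent.FGK.ZR

/-!
# FGK, Orb: free orbits
-/

set_option autoImplicit false
set_option linter.unusedVariables false
set_option linter.unusedSectionVars false

namespace Pool.Agent.FGK

open CategoryTheory Function Pool.Agent.KQ

universe u

/-! ### generalities -/

theorem orb_triv_of_weq {r : ℕ} {X Y : SAb.{u}} (f : X ⟶ Y) (h : SAb.Weq f)
    (hX : SAb.Triv r X) : SAb.Triv r Y := by
  intro j hj y
  obtain ⟨x, rfl⟩ := (h j).2 y
  rw [hX j hj x, map_one]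

theorem orb_triv_of_bij {r : ℕ} {X Y : SAb.{u}} (f : X ⟶ Y) (h : ∀ n, Bijective (f.app n))
    (hX : SAb.Triv r X) : SAb.Triv r Y :=
  orb_triv_of_weq f (zr_bij (SAb.gp.map f) h) hX

theorem orb_weq_comp {X Y Z : SAb.{u}} (f : X ⟶ Y) (g : Y ⟶ Z) (hf : SAb.Weq f)
    (hg : SAb.Weq g) : SAb.Weq (f ≫ g) := by
  intro j
  have : (SGp.PiMap (SAb.gp.map (f ≫ g)) j : _ → _) =
      SGp.PiMap (SAb.gp.map g) j ∘ SGp.PiMap (SAb.gp.map f) j :=
    funext fun x => SGp.PiMap_comp (SAb.gp.map f) (SAb.gp.map g) j x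
  rw [this]
  exact (hg j).comp (hf j)

theorem orb_weq_right {X Y Z : SAb.{u}} (f : X ⟶ Y) (g : Y ⟶ Z) (hf : SAb.Weq f)
    (h : SAb.Weq (f ≫ g)) : SAb.Weq g := by
  intro j
  have h1 := h j
  have : (SGp.PiMap (SAb.gp.map (f ≫ g)) j : _ → _) =
      SGp.PiMap (SAb.gp.map g) j ∘ SGp.PiMap (SAb.gp.map f) j :=
    funext fun x => SGp.PiMap_comp (SAb.gp.map f) (SAb.gp.map g) j x
  rw [this] at h1
  exact (Bijective.of_comp_iff _ (hf j)).1 h1

/-- the empty simplicial subset -/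
def orb_emp (X : SSt.{u}) : SubS X := ⟨fun _ => ∅, fun _ _ h => h.elim⟩

theorem orb_emp_bij (T : Type u) : Bijective (zr_p (∅ : Set T)) := by
  constructor
  · rw [injective_iff_map_eq_zero]
    intro z hz
    change (QuotientAddGroup.mk z : (T →₀ ULift.{u} ℤ) ⧸ zr_K _) = 0 at hz
    rw [QuotientAddGroup.eq_zero_iff, zr_mem] at hz
    exact Finsupp.ext fun x => hz x fun h => h.elim
  · exact QuotientAddGroup.mk'_surjective _

/-- `ℤ[complement] ⟶ ℤ[W] / ℤ[A]` -/
noncomputable def orb_a {W : SSt.{u}} (A A' : SubS W) : ZS A'.S ⟶ ZR W A :=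
  zr_P A'.S (orb_emp _) ≫ zr_M (orb_emp _) A A'.ι fun _ _ h => h.elim

theorem orb_a_app {W : SSt.{u}} (A A' : SubS W) (n : ℕ) (z : A'.S.obj n →₀ ULift.{u} ℤ) :
    (orb_a A A').app n z = (QuotientAddGroup.mk (Finsupp.mapDomain (A'.ι.app n) z) :
      (W.obj n →₀ ULift.{u} ℤ) ⧸ zr_K (A.s n)) := rfl

theorem orb_a_bij {W : SSt.{u}} (A A' : SubS W) (h : ∀ n x, x ∈ A'.s n ↔ x ∉ A.s n) (n : ℕ) :
    Bijective ((orb_a A A').app n) := by
  have h1 : Bijective ((zr_P A'.S (orb_emp _)).app n) := orb_emp_bij (A'.S.obj n)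
  have h2 : Bijective ((zr_M (orb_emp A'.S) A A'.ι fun _ _ h => h.elim).app n) := by
    refine zr_5b _ _ _ _ (fun n y hy => ?_) (fun n x hx => ?_) n
    · refine ⟨⟨y, (h n y).2 hy⟩, rfl, fun x hx => Subtype.ext hx⟩
    · exact ((h n x.1).1 x.2 hx).elim
  exact h2.comp h1

theorem orb_M_mk {X Y : SSt.{u}} (A : SubS X) (B : SubS Y) (f : X ⟶ Y)
    (h : ∀ n x, x ∈ A.s n → f.app n x ∈ B.s n) (n : ℕ) (z : X.obj n →₀ ULift.{u} ℤ) :
    (zr_M A B f h).app n (QuotientAddGroup.mk z : (X.obj n →₀ ULift.{u} ℤ) ⧸ zr_K (A.s n)) =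
      (QuotientAddGroup.mk (Finsupp.mapDomain (f.app n) z) :
        (Y.obj n →₀ ULift.{u} ℤ) ⧸ zr_K (B.s n)) := rfl

theorem orb_compl {W V : SSt.{u}} (A A' : SubS W) (B B' : SubS V)
    (hA : ∀ n x, x ∈ A'.s n ↔ x ∉ A.s n) (hB : ∀ n x, x ∈ B'.s n ↔ x ∉ B.s n) (p : W ⟶ V)
    (h : ∀ n x, x ∈ A.s n → p.app n x ∈ B.s n) (h' : ∀ n x, x ∈ A'.s n → p.app n x ∈ B'.s n)
    (hs : SAb.Weq (ZSmap (SubS.mapS p A' B' h'))) : SAb.Weq (zr_M A B p h) := by
  have e : orb_a A A' ≫ zr_M A B p h = ZSmap (SubS.mapS p A' B' h') ≫ orb_a B B' := by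
    have e0 : ∀ (n : ℕ) (x : A'.S.obj n →₀ ULift.{u} ℤ), (orb_a A A' ≫ zr_M A B p h).app n x =
        (ZSmap (SubS.mapS p A' B' h') ≫ orb_a B B').app n x := by
      intro n x
      refine Eq.trans ?_ (congrArg ((orb_a B B').app n) (zr_map_app (SubS.mapS p A' B' h') n x)).symm
      refine (orb_M_mk A B p h n (Finsupp.mapDomain (A'.ι.app n) x)).trans ?_
      refine Eq.trans ?_ (orb_a_app B B' n (Finsupp.mapDomain ((SubS.mapS p A' B' h').app n) x)).symm
      rw [← Finsupp.mapDomain_comp, ← Finsupp.mapDomain_comp]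
      rfl
    exact SAb.hom_ext e0
  refine orb_weq_right (orb_a A A') _ (zr_bij (SAb.gp.map (orb_a A A')) (orb_a_bij A A' hA)) ?_
  rw [e]
  exact orb_weq_comp _ _ hs (zr_bij (SAb.gp.map (orb_a B B')) (orb_a_bij B B' hB))

/-! ### products with a set -/

/-- the product of a set with a simplicial set -/
def orb_P (S : Type u) (Y : SSt.{u}) : SSt.{u} where
  obj n := S × Y.obj n
  map θ x := (x.1, Y.map θ x.2)
  map_id n x := by rw [Y.map_id]
  map_comp f g x := by rw [Y.map_comp]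

/-- the product of a set with a simplicial subset -/
def orb_PA (S : Type u) {Y : SSt.{u}} (A : SubS Y) : SubS (orb_P S Y) :=
  ⟨fun n => {x | x.2 ∈ A.s n}, fun θ x hx => A.map_mem θ x.2 hx⟩

/-- the inclusion of a slice -/
def orb_in {S : Type u} (Y : SSt.{u}) (s : S) : Y ⟶ orb_P S Y := ⟨fun _ y => (s, y), fun _ _ => rfl⟩

/-- the component, in one degree -/
noncomputable def orb_c {S T : Type u} (A : Set T) (s : S) :
    ((S × T →₀ ULift.{u} ℤ) ⧸ zr_K {x : S × T | x.2 ∈ A}) →+ ((T →₀ ULift.{u} ℤ) ⧸ zr_K A) :=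
  QuotientAddGroup.map _ _ (Finsupp.comapDomain.addMonoidHom
    (show Injective (fun t : T => (s, t)) from fun a b h => congrArg Prod.snd h)) fun z hz => by
    change _ ∈ zr_K A
    rw [zr_mem] at hz ⊢
    intro x hx
    exact hz (s, x) hx

theorem orb_c_single {S T : Type u} [DecidableEq S] (A : Set T) (s : S) (x : S × T)
    (c : ULift.{u} ℤ) :
    orb_c A s (QuotientAddGroup.mk (Finsupp.single x c)) =
      if x.1 = s then QuotientAddGroup.mk (Finsupp.single x.2 c) else 0 := by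
  classical
  have : orb_c A s (QuotientAddGroup.mk (Finsupp.single x c)) = QuotientAddGroup.mk
    ((Finsupp.single x c).comapDomain (fun t : T => (s, t))
      (show Injective (fun t : T => (s, t)) from fun a b h => congrArg Prod.snd h).injOn) := rfl
  rw [this]
  split_ifs with h
  · congr 1
    ext t
    rw [Finsupp.comapDomain_apply, Finsupp.single_apply, Finsupp.single_apply]
    subst h
    by_cases h2 : x.2 = t
    · rw [if_pos h2, if_pos (show x = (x.1, t) from Prod.ext rfl h2)]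
    · rw [if_neg h2, if_neg (show ¬ x = (x.1, t) from fun e => h2 (congrArg Prod.snd e))]
  · rw [← QuotientAddGroup.mk_zero]
    congr 1
    ext t
    rw [Finsupp.comapDomain_apply, Finsupp.single_apply, if_neg fun e => h (congrArg Prod.fst e)]
    rfl

theorem orb_hom_ext {T : Type u} (A : Set T) {M : Type*} [AddGroup M]
    (f g : ((T →₀ ULift.{u} ℤ) ⧸ zr_K A) →+ M)
    (h : ∀ x c, f (QuotientAddGroup.mk (Finsupp.single x c)) =
      g (QuotientAddGroup.mk (Finsupp.single x c))) (z : (T →₀ ULift.{u} ℤ) ⧸ zr_K A) :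
    f z = g z := by
  obtain ⟨z, rfl⟩ := QuotientAddGroup.mk_surjective z
  induction z using Finsupp.induction_linear with
  | zero => rw [QuotientAddGroup.mk_zero, map_zero, map_zero]
  | add a b ha hb => rw [QuotientAddGroup.mk_add, map_add, map_add, ha, hb]
  | single x c => exact h x c

theorem orb_c_nat {S T T' : Type u} (A : Set T) (A' : Set T') (k : T → T') (hk : ∀ x ∈ A, k x ∈ A')
    (k' : S × T → S × T') (e : ∀ x, k' x = (x.1, k x.2))
    (hk' : ∀ x ∈ {x : S × T | x.2 ∈ A}, k' x ∈ {x : S × T' | x.2 ∈ A'}) (s : S)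
    (x : (S × T →₀ ULift.{u} ℤ) ⧸ zr_K {x : S × T | x.2 ∈ A}) :
    orb_c A' s (zr_q k' _ _ hk' x) = zr_q k A A' hk (orb_c A s x) := by
  classical
  refine orb_hom_ext _ ((orb_c A' s).comp (zr_q k' _ _ hk')) ((zr_q k A A' hk).comp (orb_c A s))
    (fun x c => ?_) x
  rw [AddMonoidHom.comp_apply, AddMonoidHom.comp_apply, zr_q_mk, Finsupp.mapDomain_single,
    orb_c_single, orb_c_single, e]
  by_cases h : x.1 = s
  · rw [if_pos h, if_pos h, zr_q_mk, Finsupp.mapDomain_single]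
  · rw [if_neg h, if_neg h, map_zero]

/-- the component -/
noncomputable def orb_C (S : Type u) {Y : SSt.{u}} (A : SubS Y) (s : S) :
    ZR (orb_P S Y) (orb_PA S A) ⟶ ZR Y A where
  app n := orb_c (A.s n) s
  nat {m n} θ x := by
    refine (congrArg (orb_c (A.s m) s) (zr_th (orb_PA S A) θ x)).trans ?_
    refine Eq.trans ?_ (zr_th A θ (orb_c (A.s n) s x)).symm
    exact orb_c_nat (A.s n) (A.s m) (Y.map θ) (A.map_mem θ) ((orb_P S Y).map θ) (fun _ => rfl) _ s x

/-- the sum of the components, in one degree -/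
theorem orb_sum {S T : Type u} (A : Set T)
    (h : ∀ (s : S), ∀ x ∈ A, (s, x) ∈ {x : S × T | x.2 ∈ A})
    (z : (S × T →₀ ULift.{u} ℤ) ⧸ zr_K {x : S × T | x.2 ∈ A}) :
    ∃ F : Finset S, z = ∑ s ∈ F, zr_q (fun t : T => (s, t)) A {x : S × T | x.2 ∈ A} (h s)
      (orb_c A s z) := by
  classical
  obtain ⟨z, rfl⟩ := QuotientAddGroup.mk_surjective z
  suffices H : ∀ F : Finset S, (∀ x ∈ z.support, x.1 ∈ F) →
      (QuotientAddGroup.mk z : (S × T →₀ ULift.{u} ℤ) ⧸ zr_K {x : S × T | x.2 ∈ A}) =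
      ∑ s ∈ F, zr_q (fun t : T => (s, t)) A {x : S × T | x.2 ∈ A} (h s)
      (orb_c A s (QuotientAddGroup.mk z)) from
    ⟨z.support.image Prod.fst, H _ fun x hx => Finset.mem_image_of_mem _ hx⟩
  intro F hF
  have key : ∀ (x : S × T) (c : ULift.{u} ℤ), x.1 ∈ F →
      (QuotientAddGroup.mk (Finsupp.single x c) :
        (S × T →₀ ULift.{u} ℤ) ⧸ zr_K {x : S × T | x.2 ∈ A}) =
      ∑ s ∈ F, zr_q (fun t : T => (s, t)) A {x : S × T | x.2 ∈ A} (h s)
      (orb_c A s (QuotientAddGroup.mk (Finsupp.single x c))) := by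
    intro x c hx
    rw [Finset.sum_eq_single x.1]
    · rw [orb_c_single, if_pos rfl, zr_q_mk, Finsupp.mapDomain_single]
    · intro s _ hs
      rw [orb_c_single, if_neg (Ne.symm hs), map_zero]
    · intro h1
      exact (h1 hx).elim
  conv_lhs => rw [← Finsupp.sum_single z]
  rw [Finsupp.sum, ← QuotientAddGroup.mk'_apply, map_sum]
  have e1 : ∀ s, zr_q (fun t : T => (s, t)) A {x : S × T | x.2 ∈ A} (h s)
      (orb_c A s (QuotientAddGroup.mk z)) = ∑ x ∈ z.support,
        zr_q (fun t : T => (s, t)) A {x : S × T | x.2 ∈ A} (h s)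
        (orb_c A s (QuotientAddGroup.mk (Finsupp.single x (z x)))) := by
    intro s
    rw [← map_sum, ← map_sum]
    congr 2
    conv_lhs => rw [← Finsupp.sum_single z]
    rw [Finsupp.sum, ← QuotientAddGroup.mk'_apply, map_sum]
    rfl
  rw [Finset.sum_congr rfl fun s _ => e1 s, Finset.sum_comm]
  exact Finset.sum_congr rfl fun x hx => key x (z x) (hF x hx)

theorem orb_one (G : SGp.{u}) (n : ℕ) : (∀ x : G.Pi n, x = 1) ↔ ∀ x ∈ G.Z n, x ∈ G.B n := by
  constructor
  · intro h x hx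
    exact (SGp.cls_eq_one G).1 (h (G.cls n ⟨x, hx⟩))
  · intro h x
    obtain ⟨x, rfl⟩ := G.cls_surj n x
    exact (SGp.cls_eq_one G).2 (h x.1 x.2)

theorem orb_prod (r : ℕ) (S : Type u) {Y : SSt.{u}} (A : SubS Y) (h : SAb.Triv r (ZR Y A)) :
    SAb.Triv r (ZR (orb_P S Y) (orb_PA S A)) := by
  classical
  intro j hj
  rw [orb_one]
  intro z hz
  have h0 := (orb_one (SAb.gp.obj (ZR Y A)) j).1 (h j hj)
  have hin : ∀ (s : S), ∀ x ∈ A.s j, (s, x) ∈ {x : S × Y.obj j | x.2 ∈ A.s j} :=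
    fun s x hx => hx
  let BB : AddSubgroup ((S × Y.obj j →₀ ULift.{u} ℤ) ⧸ zr_K {x : S × Y.obj j | x.2 ∈ A.s j}) :=
    Subgroup.toAddSubgroup' (show Subgroup (Multiplicative ((S × Y.obj j →₀ ULift.{u} ℤ) ⧸
      zr_K {x : S × Y.obj j | x.2 ∈ A.s j})) from
        (SAb.gp.obj (ZR (orb_P S Y) (orb_PA S A))).B j)
  have h1 : ∀ s : S, zr_q (fun t : Y.obj j => (s, t)) (A.s j)
      {x : S × Y.obj j | x.2 ∈ A.s j} (hin s) (orb_c (A.s j) s z) ∈ BB := by
    intro s
    have h2 : (SAb.gp.map (orb_C S A s)).app j z ∈ (SAb.gp.obj (ZR Y A)).B j :=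
      h0 _ (SGp.app_mem_Z _ hz)
    exact SGp.app_mem_B (SAb.gp.map (zr_M A (orb_PA S A) (orb_in Y s) fun n x hx => hx)) h2
  obtain ⟨F, hF⟩ := orb_sum (A.s j) hin z
  have h4 : (∑ s ∈ F, zr_q (fun t : Y.obj j => (s, t)) (A.s j)
      {x : S × Y.obj j | x.2 ∈ A.s j} (hin s) (orb_c (A.s j) s z)) ∈ BB :=
    sum_mem fun s _ => h1 s
  rw [← hF] at h4
  exact h4

/-! ### the bisimplicial set of the tuples in one orbit -/

section orb

variable (G : Type) [Group G] {Y Z : SSt.{u}} (A : SubS Y) (B : SubS Z)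
  (f : Y ⟶ Z) (act : G → (Y ⟶ Y)) (h1 : act 1 = 𝟙 Y) (hm : ∀ g h, act (g * h) = act h ≫ act g)
  (hf : ∀ g, act g ≫ f = f) (hA : ∀ n y, f.app n y ∈ B.s n ↔ y ∈ A.s n)
  (hs : ∀ n z, z ∉ B.s n → ∃ y, f.app n y = z)
  (ht : ∀ n y y', y ∉ A.s n → y' ∉ A.s n → f.app n y = f.app n y' → ∃ g, (act g).app n y = y')
  (hfr : ∀ n y g, y ∉ A.s n → (act g).app n y = y → g = 1)

include hf in
theorem orb_f (n : ℕ) (g : G) (y : Y.obj n) : f.app n ((act g).app n y) = f.app n y := by
  have := congrArg (fun e : Y ⟶ Z => e.app n y) (hf g)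
  exact this

include hf hA in
theorem orb_mem (n : ℕ) (g : G) (y : Y.obj n) (hy : y ∈ A.s n) : (act g).app n y ∈ A.s n := by
  rw [← hA, orb_f G f act hf]
  exact (hA n y).2 hy

include hm in
theorem orb_mul (n : ℕ) (g h : G) (y : Y.obj n) :
    (act (g * h)).app n y = (act g).app n ((act h).app n y) := by
  rw [hm]
  rfl

include h1 in
theorem orb_act_one (n : ℕ) (y : Y.obj n) : (act 1).app n y = y := by
  rw [h1]
  rfl

include h1 hm in
theorem orb_inv (n : ℕ) (g : G) (y y' : Y.obj n) (h : (act g).app n y = y') :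
    (act g⁻¹).app n y' = y := by
  rw [← h, ← orb_mul G act hm, inv_mul_cancel, orb_act_one G act h1]

/-- the tuples in one orbit -/
def orb_T (l : ℕ) : SSt.{u} where
  obj n := {y : Fin (l + 1) → Y.obj n // ∀ i j, ∃ g, (act g).app n (y j) = y i}
  map θ y := ⟨fun i => Y.map θ (y.1 i), fun i j => by
    obtain ⟨g, hg⟩ := y.2 i j
    exact ⟨g, by rw [(act g).nat, hg]⟩⟩
  map_id n y := Subtype.ext (funext fun i => Y.map_id n _)
  map_comp θ η y := Subtype.ext (funext fun i => Y.map_comp θ η _)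

/-- the bisimplicial set of the tuples in one orbit -/
def orb_TT : SOb SSt.{u} where
  obj := orb_T G act
  map θ := ⟨fun n y => ⟨fun i => y.1 (θ i), fun i j => y.2 _ _⟩, fun _ _ => rfl⟩
  map_id _ := rfl
  map_comp _ _ := rfl

/-- the tuples of elements of `A` -/
def orb_TA (l : ℕ) : SubS ((orb_TT G act).obj l) :=
  ⟨fun n => {y | ∀ i, y.1 i ∈ A.s n}, fun θ y hy i => A.map_mem θ _ (hy i)⟩

/-- the bisimplicial abelian group -/
noncomputable def orb_R : SOb SAb.{u} where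
  obj l := ZR ((orb_TT G act).obj l) (orb_TA G A act l)
  map {l m} θ := zr_M (orb_TA G A act m) (orb_TA G A act l) ((orb_TT G act).map θ)
    fun n y hy i => hy (θ i)
  map_id l := SAb.hom_ext fun n x => zr_q_id (fun y => y) _ (fun x hx => hx) (fun _ => rfl) x
  map_comp {l m n} θ η := SAb.hom_ext fun p x =>
    (zr_q_comp (((orb_TT G act).map η).app p) (((orb_TT G act).map θ).app p)
      ((orb_TA G A act n).s p) ((orb_TA G A act m).s p) ((orb_TA G A act l).s p)
      (fun y hy i => hy (η i)) (fun y hy i => hy (θ i))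
      (((orb_TT G act).map (η.comp θ)).app p) (fun y hy i => hy _) (fun _ => rfl) x).symm

/-! #### rows -/

/-- the tuples as a product -/
noncomputable def orb_φ (l : ℕ) :
    orb_P (ULift.{u} {g : Fin (l + 1) → G // g 0 = 1}) Y ⟶ (orb_TT G act).obj l :=
  ⟨fun n x => ⟨fun i => (act (x.1.down.1 i)).app n x.2, fun i j =>
    ⟨x.1.down.1 i * (x.1.down.1 j)⁻¹, by
      rw [orb_mul G act hm, orb_inv G act h1 hm n _ _ _ rfl]⟩⟩,
    fun {m n} θ x => Subtype.ext (funext fun i => (act (x.1.down.1 i)).nat θ x.2)⟩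

include h1 hm hf hA hfr in
theorem orb_row (r l : ℕ) (h : SAb.Triv r (ZR Y A)) : SAb.Triv r ((orb_R G A act).obj l) := by
  have hφ : ∀ n x, x ∈ (orb_PA (ULift.{u} {g : Fin (l + 1) → G // g 0 = 1}) A).s n →
      (orb_φ G act h1 hm l).app n x ∈ (orb_TA G A act l).s n :=
    fun n x hx i => orb_mem G A B f act hf hA n _ _ hx
  refine orb_triv_of_bij (zr_M _ _ (orb_φ G act h1 hm l) hφ) ?_
    (orb_prod r (ULift.{u} {g : Fin (l + 1) → G // g 0 = 1}) A h)
  refine zr_5b _ _ _ _ (fun n y hy => ?_) (fun n x hx => ?_)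
  · have hy0 : y.1 0 ∉ A.s n := by
      intro h0
      refine hy fun i => ?_
      obtain ⟨g, hg⟩ := y.2 i 0
      rw [← hg]
      exact orb_mem G A B f act hf hA n _ _ h0
    choose g hg using fun i => y.2 i 0
    have hg0 : g 0 = 1 := hfr n _ _ hy0 (hg 0)
    refine ⟨(⟨⟨g, hg0⟩⟩, y.1 0), Subtype.ext (funext hg), ?_⟩
    rintro ⟨⟨⟨g', hg'⟩⟩, y'⟩ hx
    have hx1 : ∀ i, (act (g' i)).app n y' = y.1 i := fun i => congrFun (congrArg Subtype.val hx) i
    have e : y' = y.1 0 := by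
      rw [← hx1 0, hg', orb_act_one G act h1]
    subst e
    have e2 : g' = g := by
      funext i
      have e3 : (act ((g i)⁻¹ * g' i)).app n (y.1 0) = y.1 0 := by
        rw [orb_mul G act hm, hx1 i]
        exact orb_inv G act h1 hm n _ _ _ (hg i)
      exact (inv_mul_eq_one.1 (hfr n _ _ hy0 e3)).symm
    subst e2
    rfl
  · have := hx 0
    change (act (x.1.down.1 0)).app n x.2 ∈ A.s n at this
    rw [x.1.down.2, orb_act_one G act h1] at this
    exact this

/-! #### columns -/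

/-- the tuples of elements of `A` in a column -/
def orb_CA (n : ℕ) : SubS (SSt.col (orb_TT G act) n) :=
  ⟨fun l => {y | ∀ i, y.1 i ∈ A.s n}, fun θ y hy i => hy (θ i)⟩

/-- the map of columns of an operator -/
def orb_ct {m n : ℕ} (θ : Mo m n) :
    SSt.col (orb_TT G act) n ⟶ SSt.col (orb_TT G act) m :=
  ⟨fun l y => ((orb_TT G act).obj l).map θ y, fun _ _ => rfl⟩

/-- the transposed bisimplicial abelian group -/
noncomputable def orb_R' : SOb SAb.{u} where
  obj n := ZR (SSt.col (orb_TT G act) n) (orb_CA G A act n)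
  map {l m} θ := zr_M (orb_CA G A act m) (orb_CA G A act l) (orb_ct G act θ)
    fun n y hy i => A.map_mem θ _ (hy i)
  map_id l := SAb.hom_ext fun n x => zr_q_id ((orb_ct G act OrderHom.id).app n)
    ((orb_CA G A act l).s n) (fun y hy i => A.map_mem _ _ (hy i)) (fun y => Subtype.ext (funext fun i => Y.map_id _ _)) x
  map_comp {l m n} θ η := SAb.hom_ext fun p x =>
    (zr_q_comp ((orb_ct G act η).app p) ((orb_ct G act θ).app p)
      ((orb_CA G A act n).s p) ((orb_CA G A act m).s p) ((orb_CA G A act l).s p)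
      (fun y hy i => A.map_mem _ _ (hy i)) (fun y hy i => A.map_mem _ _ (hy i))
      ((orb_ct G act (η.comp θ)).app p) (fun y hy i => A.map_mem _ _ (hy i))
      (fun y => Subtype.ext (funext fun i => Y.map_comp θ η _)) x).symm

/-- exchange of the two directions -/
noncomputable def orb_ex : SAb.diag (orb_R G A act) ⟶ SAb.diag (orb_R' G A act) :=
  ⟨fun n => AddMonoidHom.id _, fun {m n} θ x => by
    have hk : ∀ y ∈ ((orb_TA G A act n).s n), (⟨fun i => Y.map θ (y.1 (θ i)), fun i j =>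
        (((orb_TT G act).obj n).map θ y).2 (θ i) (θ j)⟩ : ((orb_TT G act).obj m).obj m) ∈
          (orb_TA G A act m).s m := fun y hy i => A.map_mem _ _ (hy _)
    have e1 : (SAb.diag (orb_R G A act)).map θ x = zr_q (fun y : ((orb_TT G act).obj n).obj n =>
        (⟨fun i => Y.map θ (y.1 (θ i)), fun i j =>
        (((orb_TT G act).obj n).map θ y).2 (θ i) (θ j)⟩ : ((orb_TT G act).obj m).obj m)) _ _ hk x := by
      change ((orb_R G A act).obj m).map θ (((orb_R G A act).map θ).app n x) = _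
      refine (zr_th (orb_TA G A act m) θ _).trans ?_
      exact zr_q_comp (((orb_TT G act).map θ).app n) (((orb_TT G act).obj m).map θ)
        ((orb_TA G A act n).s n) ((orb_TA G A act m).s n) ((orb_TA G A act m).s m)
        (fun y hy i => hy (θ i)) (fun y hy i => A.map_mem _ _ (hy i)) _ hk (fun _ => rfl) x
    have e2 : (SAb.diag (orb_R' G A act)).map θ x = zr_q (fun y : ((orb_TT G act).obj n).obj n =>
        (⟨fun i => Y.map θ (y.1 (θ i)), fun i j =>
        (((orb_TT G act).obj n).map θ y).2 (θ i) (θ j)⟩ : ((orb_TT G act).obj m).obj m)) _ _ hk x := by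
      change ((orb_R' G A act).obj m).map θ (((orb_R' G A act).map θ).app n x) = _
      refine (zr_th (orb_CA G A act m) θ _).trans ?_
      exact zr_q_comp ((orb_ct G act θ).app n) ((SSt.col (orb_TT G act) m).map θ)
        ((orb_CA G A act n).s n) ((orb_CA G A act m).s n) ((orb_CA G A act m).s m)
        (fun y hy i => A.map_mem _ _ (hy i)) (fun y hy i => hy (θ i)) _ hk (fun _ => rfl) x
    exact e1.trans e2.symm⟩

/-- the constant subset -/
def orb_cB (n : ℕ) : SubS (SSt.const (Z.obj n)) := ⟨fun _ => B.s n, fun _ _ h => h⟩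

/-- the constant map -/
def orb_cm {Z : SSt.{u}} {m n : ℕ} (θ : Mo m n) : SSt.const (Z.obj n) ⟶ SSt.const (Z.obj m) :=
  ⟨fun _ => Z.map θ, fun _ _ => rfl⟩

/-- the target -/
noncomputable def orb_K : SOb SAb.{u} where
  obj n := ZR (SSt.const (Z.obj n)) (orb_cB B n)
  map {l m} θ := zr_M (orb_cB B m) (orb_cB B l) (orb_cm θ) fun n y hy => B.map_mem θ _ hy
  map_id l := SAb.hom_ext fun n x => zr_q_id (Z.map OrderHom.id) (B.s l)
    (fun y hy => B.map_mem _ _ hy) (fun y => Z.map_id _ _) x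
  map_comp {l m n} θ η := SAb.hom_ext fun p x =>
    (zr_q_comp (Z.map η) (Z.map θ) (B.s n) (B.s m) (B.s l)
      (fun y hy => B.map_mem _ _ hy) (fun y hy => B.map_mem _ _ hy)
      (Z.map (η.comp θ)) (fun y hy => B.map_mem _ _ hy) (fun y => Z.map_comp θ η _) x).symm

/-- the diagonal of the target -/
noncomputable def orb_KZ : SAb.diag (orb_K B) ⟶ ZR Z B :=
  ⟨fun n => AddMonoidHom.id _, fun {m n} θ x => by
    change ((orb_K B).obj m).map θ (((orb_K B).map θ).app n x) = (ZR Z B).map θ x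
    refine (zr_th (orb_cB B m) θ _).trans ?_
    refine Eq.trans ?_ (zr_th B θ x).symm
    exact zr_q_id (fun y => y) (B.s m) (fun _ h => h) (fun _ => rfl) _⟩

/-- the projection of a column -/
def orb_p (n : ℕ) : SSt.col (orb_TT G act) n ⟶ SSt.const (Z.obj n) :=
  ⟨fun l y => f.app n (y.1 0), fun {l m} θ y => by
    change f.app n (y.1 (θ 0)) = f.app n (y.1 0)
    obtain ⟨g, hg⟩ := y.2 (θ 0) 0
    rw [← hg, orb_f G f act hf]⟩

/-- the map to the target -/
noncomputable def orb_q : orb_R' G A act ⟶ orb_K B where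
  app n := zr_M (orb_CA G A act n) (orb_cB B n) (orb_p G f act hf n)
    fun l y hy => (hA n _).2 (hy 0)
  nat {m n} θ := SAb.hom_ext fun l x => by
    have hk : ∀ y ∈ (orb_CA G A act n).s l, f.app m (Y.map θ (y.1 0)) ∈ B.s m :=
      fun y hy => (hA m _).2 (A.map_mem _ _ (hy 0))
    refine (zr_q_comp ((orb_ct G act θ).app l) ((orb_p G f act hf m).app l)
      ((orb_CA G A act n).s l) ((orb_CA G A act m).s l) (B.s m)
      (fun y hy i => A.map_mem _ _ (hy i)) (fun y hy => (hA m _).2 (hy 0))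
      (fun y => f.app m (Y.map θ (y.1 0))) hk (fun _ => rfl) x).trans ?_
    exact (zr_q_comp ((orb_p G f act hf n).app l) (Z.map θ)
      ((orb_CA G A act n).s l) (B.s n) (B.s m)
      (fun y hy => (hA n _).2 (hy 0)) (fun y hy => B.map_mem _ _ hy)
      (fun y => f.app m (Y.map θ (y.1 0))) hk (fun y => f.nat θ _) x).symm

/-- the tuples outside `A` in a column -/
def orb_CN (n : ℕ) : SubS (SSt.col (orb_TT G act) n) :=
  ⟨fun l => {y | ∀ i, y.1 i ∉ A.s n}, fun θ y hy i => hy (θ i)⟩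

/-- the complement of the constant subset -/
def orb_cN (n : ℕ) : SubS (SSt.const (Z.obj n)) := ⟨fun _ => {z | z ∉ B.s n}, fun _ _ h => h⟩

include h1 hm hf hA hs ht in
theorem orb_col (hS : KQ.St_StrHt.{u}) (n : ℕ) :
    SSt.Strong (SubS.mapS (orb_p G f act hf n) (orb_CN G A act n) (orb_cN B n)
      fun l y hy hB => hy 0 ((hA n _).1 hB)) := by
  classical
  choose s hs using fun z : {z // z ∉ B.s n} => hs n z.1 z.2
  have hsA : ∀ z, s z ∉ A.s n := fun z hz => z.2 (by
    have := (hA n (s z)).2 hz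
    rwa [hs] at this)
  let g : (orb_cN B n).S ⟶ (orb_CN G A act n).S :=
    ⟨fun l z => ⟨⟨fun _ => s z, fun i j => ⟨1, orb_act_one G act h1 n _⟩⟩, fun _ => hsA z⟩,
      fun _ _ => rfl⟩
  have hfy : ∀ {l : ℕ} (y : (orb_CN G A act n).S.obj l) (i : Fin (l + 1)),
      f.app n (y.1.1 i) = f.app n (y.1.1 0) := by
    intro l y i
    obtain ⟨g, hg⟩ := y.1.2 i 0
    rw [← hg, orb_f G f act hf]
  have hy0 : ∀ {l : ℕ} (y : (orb_CN G A act n).S.obj l), f.app n (y.1.1 0) ∉ B.s n :=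
    fun y hB => y.2 0 ((hA n _).1 hB)
  refine hS.2.1 _ g (hS.1 _ _ ⟨?_⟩) ?_
  · refine ⟨fun l α y => ⟨⟨fun i => if α i then y.1.1 i else s ⟨f.app n (y.1.1 0), hy0 y⟩,
      fun i j => ?_⟩, fun i => ?_⟩, fun {l m} θ α y => ?_, fun l α y hα => ?_, fun l α y hα => ?_⟩
    · refine ht n _ _ ?_ ?_ ?_
      · change (if α j then y.1.1 j else s ⟨f.app n (y.1.1 0), hy0 y⟩) ∉ A.s n
        split_ifs
        exacts [y.2 j, hsA _]
      · change (if α i then y.1.1 i else s ⟨f.app n (y.1.1 0), hy0 y⟩) ∉ A.s n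
        split_ifs
        exacts [y.2 i, hsA _]
      · have e : ∀ k, f.app n (if α k then y.1.1 k else s ⟨f.app n (y.1.1 0), hy0 y⟩) =
            f.app n (y.1.1 0) := by
          intro k
          split_ifs
          exacts [hfy y k, hs _]
        exact (e j).trans (e i).symm
    · change (if α i then y.1.1 i else s ⟨f.app n (y.1.1 0), hy0 y⟩) ∉ A.s n
      split_ifs
      exacts [y.2 i, hsA _]
    · refine Subtype.ext (Subtype.ext (funext fun i => ?_))
      change (if α (θ i) then y.1.1 (θ i) else s ⟨f.app n (y.1.1 (θ 0)), _⟩) =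
        if α (θ i) then y.1.1 (θ i) else s ⟨f.app n (y.1.1 0), hy0 y⟩
      split_ifs
      · rfl
      · exact congrArg s (Subtype.ext (hfy y (θ 0)))
    · refine Subtype.ext (Subtype.ext (funext fun i => ?_))
      change (if α i then y.1.1 i else s ⟨f.app n (y.1.1 0), hy0 y⟩) = _
      rw [hα i]
      rfl
    · refine Subtype.ext (Subtype.ext (funext fun i => ?_))
      change (if α i then y.1.1 i else s ⟨f.app n (y.1.1 0), hy0 y⟩) = _
      rw [hα i]
      rfl
  · have e : g ≫ (SubS.mapS (orb_p G f act hf n) (orb_CN G A act n) (orb_cN B n)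
        fun l y hy hB => hy 0 ((hA n _).1 hB)) = 𝟙 _ :=
      SSt.hom_ext fun l z => Subtype.ext (hs z)
    rw [e]
    exact fun Φ n => rfl

include h1 hm hf hA hs ht in
theorem orb_col_weq (hS : KQ.St_StrHt.{u}) (hF : St_fsStrong.{u}) (n : ℕ) :
    SAb.Weq ((orb_q G A B f act hf hA).app n) := by
  refine orb_compl (orb_CA G A act n) (orb_CN G A act n) (orb_cB B n) (orb_cN B n)
    (fun l y => ?_) (fun l z => Iff.rfl) (orb_p G f act hf n) _
    (fun l y hy hB => hy 0 ((hA n _).1 hB))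
    (hF (SAb.const (ULift.{u} ℤ)) _ (orb_col G A B f act h1 hm hf hA hs ht hS n))
  constructor
  · intro hy hy'
    exact hy 0 (hy' 0)
  · intro hy i hi
    refine hy fun j => ?_
    obtain ⟨g, hg⟩ := y.2 j i
    rw [← hg]
    exact orb_mem G A B f act hf hA n _ _ hi

end orb

theorem thm_Orb (hR : St_AbReal.{u}) (hF : St_fsStrong.{u}) (hS : KQ.St_StrHt.{u}) :
    St_Orb.{u} := by
  intro r G _ Y Z A B f act h1 hm hf hA hs ht hfr h
  have e1 : SAb.Triv r (SAb.diag (orb_R G A act)) :=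
    hR.2.2.2.1 r _ fun l => orb_row G A B f act h1 hm hf hA hfr r l h
  have e2 : SAb.Triv r (SAb.diag (orb_R' G A act)) :=
    orb_triv_of_bij (orb_ex G A act) (fun n => bijective_id) e1
  have e3 : SAb.Triv r (SAb.diag (orb_K B)) :=
    orb_triv_of_weq (SAb.diagF.map (orb_q G A B f act hf hA))
      (hR.2.1 _ fun n => orb_col_weq G A B f act h1 hm hf hA hs ht hS hF n) e2
  exact orb_triv_of_bij (orb_KZ B) (fun n => bijective_id) e3

end Pool.Agent.FGK
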