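import Pool.Agent.FGK.StD

/-!
# FGK, module PQ: flags with chosen quotients over the S-diagrams of rank `r + 1`, group action
-/

set_option autoImplicit false
set_option linter.unusedVariables false

noncomputable section

namespace Pool.Agent.FGK

open CategoryTheory CategoryTheory.Limits Function Pool.Agent.KQ

/-! ### maps on quotients -/

section desc

variable {k A B C : Type} [Field k] [AddCommGroup A] [Module k A] [AddCommGroup B] [Module k B]
  [AddCommGroup C] [Module k C]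

/-- the map induced on a quotient -/
def pq_desc (p : A →ₗ[k] B) (hp : Surjective p) (q : A →ₗ[k] C)
    (h : LinearMap.ker p ≤ LinearMap.ker q) : B →ₗ[k] C :=
  ((LinearMap.ker p).liftQ q h).comp (p.quotKerEquivOfSurjective hp).symm.toLinearMap

theorem pq_desc_apply (p : A →ₗ[k] B) (hp : Surjective p) (q : A →ₗ[k] C)
    (h : LinearMap.ker p ≤ LinearMap.ker q) (a : A) : pq_desc p hp q h (p a) = q a := by
  have e1 : (p.quotKerEquivOfSurjective hp).symm (p a) = Submodule.Quotient.mk a := by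
    rw [LinearEquiv.symm_apply_eq]
    rfl
  change (LinearMap.ker p).liftQ q h ((p.quotKerEquivOfSurjective hp).symm (p a)) = q a
  rw [e1]
  rfl

end desc

section

variable {k W : Type} [Field k] [AddCommGroup W] [Module k W] {n : ℕ}

/-- equality of flags with chosen quotients -/
theorem pq_ext {F F' : Fin (n + 1) →o Submodule k W} {M : Ar (Fin (n + 1)) → ModuleCat.{0} k}
    {p : ∀ x : Ar (Fin (n + 1)), F x.1.2 →ₗ[k] M x} {p' : ∀ x : Ar (Fin (n + 1)), F' x.1.2 →ₗ[k] M x}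
    (s1 : ∀ x, Surjective (p x)) (s2 : ∀ x, Surjective (p' x))
    (k1 : ∀ x, LinearMap.ker (p x) = (F x.1.1).submoduleOf (F x.1.2))
    (k2 : ∀ x, LinearMap.ker (p' x) = (F' x.1.1).submoduleOf (F' x.1.2)) (h : F = F')
    (hp : ∀ x w (hw : w ∈ F x.1.2) (hw' : w ∈ F' x.1.2), p x ⟨w, hw⟩ = p' x ⟨w, hw'⟩) :
    (⟨F, M, p, s1, k1⟩ : PO k W n) = ⟨F', M, p', s2, k2⟩ := by
  subst h
  have e1 : p = p' := funext fun x => LinearMap.ext fun w => hp x w.1 w.2 w.2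
  subst e1
  rfl

theorem pq_heq {P Q : PO k W n} (h : P = Q) (x : Ar (Fin (n + 1))) (w : W)
    (hw : w ∈ P.F x.1.2) (hw' : w ∈ Q.F x.1.2) : HEq (P.p x ⟨w, hw⟩) (Q.p x ⟨w, hw'⟩) := by
  subst h
  rfl

/-- the inclusion of flags -/
def pq_inc (P : PO k W n) {x y : Ar (Fin (n + 1))} (h : x ≤ y) : P.F x.1.2 →ₗ[k] P.F y.1.2 :=
  Submodule.inclusion (P.F.monotone h.2)

theorem pq_mem_ker (P : PO k W n) {x : Ar (Fin (n + 1))} {w : P.F x.1.2} :
    P.p x w = 0 ↔ w.1 ∈ P.F x.1.1 := by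
  rw [← LinearMap.mem_ker, P.ker]
  rfl

theorem pq_ker (P : PO k W n) {x y : Ar (Fin (n + 1))} (h : x ≤ y) :
    LinearMap.ker (P.p x) ≤ LinearMap.ker ((P.p y).comp (pq_inc P h)) := by
  intro w hw
  rw [LinearMap.mem_ker] at hw ⊢
  exact (pq_mem_ker P).2 (P.F.monotone h.1 ((pq_mem_ker P).1 hw))

/-- the maps of the diagram -/
def pq_mp (P : PO k W n) {x y : Ar (Fin (n + 1))} (h : x ≤ y) : P.M x →ₗ[k] P.M y :=
  pq_desc (P.p x) (P.surj x) ((P.p y).comp (pq_inc P h)) (pq_ker P h)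

theorem pq_mp_apply (P : PO k W n) {x y : Ar (Fin (n + 1))} (h : x ≤ y) (w : P.F x.1.2) :
    pq_mp P h (P.p x w) = P.p y ⟨w.1, P.F.monotone h.2 w.2⟩ :=
  pq_desc_apply _ _ _ _ _

theorem pq_mp_unique (P : PO k W n) {x y : Ar (Fin (n + 1))} (h : x ≤ y)
    (g : P.M x →ₗ[k] P.M y)
    (hg : ∀ w : P.F x.1.2, g (P.p x w) = P.p y ⟨w.1, P.F.monotone h.2 w.2⟩) :
    pq_mp P h = g := by
  refine LinearMap.ext fun a => ?_
  obtain ⟨w, rfl⟩ := P.surj x a
  rw [pq_mp_apply, hg]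

/-- the diagram -/
def pq_D (P : PO k W n) : Ar (Fin (n + 1)) ⥤ ModuleCat.{0} k where
  obj := P.M
  map h := ModuleCat.ofHom (pq_mp P (leOfHom h))
  map_id x := by
    rw [pq_mp_unique P (leOfHom (𝟙 x)) LinearMap.id fun w => rfl]
    rfl
  map_comp {x y z} f g := by
    rw [pq_mp_unique P (leOfHom (f ≫ g)) ((pq_mp P (leOfHom g)).comp (pq_mp P (leOfHom f)))
      fun w => by rw [LinearMap.comp_apply, pq_mp_apply, pq_mp_apply]]
    rfl

theorem pq_D_ext {P Q : PO k W n} (hM : P.M = Q.M)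
    (h : ∀ (x y : Ar (Fin (n + 1))) (hxy : x ≤ y), HEq (pq_mp P hxy) (pq_mp Q hxy)) :
    pq_D P = pq_D Q := by
  obtain ⟨F, M, p, s1, k1⟩ := P
  obtain ⟨F', M', p', s2, k2⟩ := Q
  obtain rfl : M = M' := hM
  refine CategoryTheory.Functor.hext (fun _ => rfl) fun x y f => ?_
  have := eq_of_heq (h x y (leOfHom f))
  refine heq_of_eq ?_
  exact congrArg ModuleCat.ofHom this

theorem pq_mp_heq {P Q : PO k W n} (h : pq_D P = pq_D Q) (hM : P.M = Q.M)
    (x y : Ar (Fin (n + 1))) (hxy : x ≤ y) : HEq (pq_mp P hxy) (pq_mp Q hxy) := by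
  obtain ⟨F, M, p, s1, k1⟩ := P
  obtain ⟨F', M', p', s2, k2⟩ := Q
  obtain rfl : M = M' := hM
  have h1 : ModuleCat.ofHom (pq_mp (⟨F, M, p, s1, k1⟩ : PO k W n) hxy) =
      ModuleCat.ofHom (pq_mp (⟨F', M, p', s2, k2⟩ : PO k W n) hxy) :=
    eq_of_heq (CategoryTheory.Functor.hcongr_hom h (homOfLE hxy))
  exact heq_of_eq (congrArg ModuleCat.Hom.hom h1)

/-! ### it is an S-diagram -/

theorem pq_inj (P : PO k W n) {i j l : Fin (n + 1)} (hij : i ≤ j) (hjl : j ≤ l) :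
    Injective (pq_mp P (show ar i j hij ≤ ar i l (hij.trans hjl) from ⟨le_rfl, hjl⟩)) := by
  rw [injective_iff_map_eq_zero]
  intro a ha
  obtain ⟨w, rfl⟩ := P.surj _ a
  rw [pq_mp_apply, pq_mem_ker] at ha
  exact (pq_mem_ker P).2 ha

theorem pq_SP [FiniteDimensional k W] (P : PO k W n) :
    ((KQG.MA k).SP (Fin (n + 1))).Q (pq_D P) := by
  refine ⟨fun x => ?_, fun i => ?_, fun i j l hij hjl => ?_⟩
  · exact Module.Finite.of_surjective (P.p x) (P.surj x)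
  · have : Subsingleton (P.M (ar i i le_rfl)) := by
      refine ⟨fun a b => ?_⟩
      obtain ⟨v, rfl⟩ := P.surj _ a
      obtain ⟨w, rfl⟩ := P.surj _ b
      rw [(pq_mem_ker P).2 v.2, (pq_mem_ker P).2 w.2]
    exact ModuleCat.isZero_of_subsingleton (P.M (ar i i le_rfl))
  · refine (KQG.ses_mod _ _).2 ⟨pq_inj P hij hjl, fun b => ?_, fun c => ?_⟩
    · constructor
      · intro hb
        obtain ⟨v, rfl⟩ := P.surj _ b
        have hb' : pq_mp P (show ar i l (hij.trans hjl) ≤ ar j l hjl from ⟨hij, le_rfl⟩)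
          (P.p _ v) = 0 := hb
        rw [pq_mp_apply, pq_mem_ker] at hb'
        exact ⟨P.p (ar i j hij) ⟨v.1, hb'⟩, pq_mp_apply P _ _⟩
      · rintro ⟨a, rfl⟩
        obtain ⟨w, rfl⟩ := P.surj _ a
        change pq_mp P _ (pq_mp P _ (P.p _ w)) = 0
        rw [pq_mp_apply, pq_mp_apply, pq_mem_ker]
        exact w.2
    · obtain ⟨v, rfl⟩ := P.surj _ c
      exact ⟨P.p _ v, pq_mp_apply P _ _⟩

/-- the S-diagram -/
def pq_f [FiniteDimensional k W] (P : PO k W n) : (XS k).obj n := ⟨pq_D P, pq_SP P⟩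

theorem pq_rank [FiniteDimensional k W] (P : PO k W n) :
    Module.finrank k (topE (pq_f P)) + Module.finrank k (P.F 0) =
      Module.finrank k (P.F (Fin.last n)) := by
  have h1 := LinearMap.finrank_range_add_finrank_ker (P.p (ar 0 (Fin.last n) (Fin.zero_le _)))
  rw [LinearMap.range_eq_top.2 (P.surj _), finrank_top, P.ker] at h1
  have h2 : Module.finrank k ((P.F 0).submoduleOf (P.F (Fin.last n))) =
      Module.finrank k (P.F 0) :=
    (Submodule.submoduleOfEquivOfLe (P.F.monotone (Fin.zero_le _))).finrank_eq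
  rw [← h2]
  exact h1

theorem pq_rank_le [FiniteDimensional k W] (P : PO k W n) :
    Module.finrank k (topE (pq_f P)) ≤ Module.finrank k W := by
  have h1 := pq_rank P
  have h2 := Submodule.finrank_le (P.F (Fin.last n))
  omega

theorem pq_rank_iff [FiniteDimensional k W] (P : PO k W n) (r : ℕ)
    (hr : Module.finrank k W = r + 1) :
    Module.finrank k (topE (pq_f P)) ≤ r ↔ P.F 0 ≠ ⊥ ∨ P.F (Fin.last n) ≠ ⊤ := by
  have h1 := pq_rank P
  have h2 := Submodule.finrank_le (P.F (Fin.last n))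
  constructor
  · intro h
    by_contra h3
    push Not at h3
    rw [h3.1, h3.2, finrank_top, finrank_bot] at h1
    omega
  · rintro (h | h)
    · have h3 : Module.finrank k (P.F 0) ≠ 0 := fun h4 => h (Submodule.finrank_eq_zero.1 h4)
      omega
    · have h3 : Module.finrank k (P.F (Fin.last n)) < Module.finrank k W :=
        Submodule.finrank_lt h
      omega

/-- the map to the S-diagrams -/
def pq_map (k W : Type) [Field k] [AddCommGroup W] [Module k W] [FiniteDimensional k W] (r : ℕ)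
    (hr : Module.finrank k W = r + 1) : PS k W ⟶ (rkS k (r + 1)).S :=
  ⟨fun n P => ⟨pq_f P, (pq_rank_le P).trans hr.le⟩, fun {m n} θ P => rfl⟩

/-! ### the action -/

/-- the image of the flag -/
def pq_actF (g : W ≃ₗ[k] W) (F : Fin (n + 1) →o Submodule k W) :
    Fin (n + 1) →o Submodule k W :=
  ⟨fun i => (F i).map g.toLinearMap, fun i j h => Submodule.map_mono (F.monotone h)⟩

theorem pq_ker_act (g : W ≃ₗ[k] W) (A B : Submodule k W) {C : Type} [AddCommGroup C] [Module k C]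
    (p : B →ₗ[k] C) (h : LinearMap.ker p = A.submoduleOf B) :
    LinearMap.ker (p.comp (g.submoduleMap B).symm.toLinearMap) =
      (A.map g.toLinearMap).submoduleOf (B.map g.toLinearMap) := by
  ext w
  obtain ⟨w, rfl⟩ := (g.submoduleMap B).surjective w
  rw [LinearMap.mem_ker, LinearMap.comp_apply]
  change p ((g.submoduleMap B).symm (g.submoduleMap B w)) = 0 ↔ g w.1 ∈ A.map g.toLinearMap
  rw [LinearEquiv.symm_apply_apply, ← LinearMap.mem_ker, h]
  change w.1 ∈ A ↔ _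
  rw [Submodule.mem_map_equiv]
  simp

/-- the action on flags with quotients -/
def pq_actO (g : W ≃ₗ[k] W) (P : PO k W n) : PO k W n where
  F := pq_actF g P.F
  M := P.M
  p x := (P.p x).comp (g.submoduleMap (P.F x.1.2)).symm.toLinearMap
  surj x := (P.surj x).comp (g.submoduleMap (P.F x.1.2)).symm.surjective
  ker x := pq_ker_act g (P.F x.1.1) (P.F x.1.2) (P.p x) (P.ker x)

theorem pq_act_p (g : W ≃ₗ[k] W) (P : PO k W n) (x : Ar (Fin (n + 1))) (w : W)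
    (hw : w ∈ P.F x.1.2) (hw' : g w ∈ (pq_actO g P).F x.1.2) :
    (pq_actO g P).p x ⟨g w, hw'⟩ = P.p x ⟨w, hw⟩ := by
  change P.p x ((g.submoduleMap (P.F x.1.2)).symm ⟨g w, hw'⟩) = _
  congr 1
  rw [LinearEquiv.symm_apply_eq]
  rfl

theorem pq_act_p' (g : W ≃ₗ[k] W) (P : PO k W n) (x : Ar (Fin (n + 1))) (w : W)
    (hw : w ∈ (pq_actO g P).F x.1.2) (hw' : g.symm w ∈ P.F x.1.2) :
    (pq_actO g P).p x ⟨w, hw⟩ = P.p x ⟨g.symm w, hw'⟩ := by
  obtain ⟨w, rfl⟩ := g.surjective w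
  rw [pq_act_p g P x w (by simpa using hw') hw]
  congr 2
  simp

/-- the action -/
def pq_act (g : W ≃ₗ[k] W) : PS k W ⟶ PS k W := ⟨fun n P => pq_actO g P, fun {m n} θ P => rfl⟩

theorem pq_mem_act (g : W ≃ₗ[k] W) (F : Fin (n + 1) →o Submodule k W) (i : Fin (n + 1)) (w : W) :
    w ∈ pq_actF g F i ↔ g.symm w ∈ F i := Submodule.mem_map_equiv _

theorem pq_act_one : pq_act (1 : W ≃ₗ[k] W) = 𝟙 (PS k W) := by
  refine SSt.hom_ext fun n P => ?_
  refine pq_ext _ _ _ _ ?_ ?_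
  · ext i w
    exact pq_mem_act _ _ _ _
  · intro x w hw hw'
    exact pq_act_p' 1 P x w hw hw'

theorem pq_act_mul (g h : W ≃ₗ[k] W) : pq_act (g * h) = pq_act h ≫ pq_act g := by
  refine SSt.hom_ext fun n P => ?_
  refine pq_ext _ _ _ _ ?_ ?_
  · ext i w
    refine (pq_mem_act _ _ _ _).trans ?_
    refine Iff.trans ?_ (pq_mem_act _ _ _ _).symm
    refine Iff.trans ?_ (pq_mem_act _ _ _ _).symm
    rfl
  · intro x w hw hw'
    have e1 : g.symm w ∈ (pq_actO h P).F x.1.2 := (pq_mem_act _ _ _ _).1 hw'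
    have e2 : h.symm (g.symm w) ∈ P.F x.1.2 := (pq_mem_act _ _ _ _).1 e1
    refine (pq_act_p' (g * h) P x w hw e2).trans ?_
    refine Eq.trans ?_ (pq_act_p' g (pq_actO h P) x w hw' e1).symm
    exact (pq_act_p' h P x _ e1 e2).symm

theorem pq_act_mp (g : W ≃ₗ[k] W) (P : PO k W n) {x y : Ar (Fin (n + 1))} (h : x ≤ y) :
    pq_mp (pq_actO g P) h = pq_mp P h := by
  refine pq_mp_unique (pq_actO g P) h (pq_mp P h) fun w => ?_
  obtain ⟨w, hw⟩ := w
  have e1 : g.symm w ∈ P.F x.1.2 := (pq_mem_act _ _ _ _).1 hw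
  refine (congrArg (pq_mp P h) (pq_act_p' g P x w hw e1)).trans ?_
  refine (pq_mp_apply P h _).trans ?_
  exact (pq_act_p' g P y w _ (P.F.monotone h.2 e1)).symm

theorem pq_act_D (g : W ≃ₗ[k] W) (P : PO k W n) : pq_D (pq_actO g P) = pq_D P :=
  pq_D_ext rfl fun x y h => heq_of_eq (pq_act_mp g P h)

/-! ### surjectivity -/

section onto

variable (D : (XS k).obj n) (e : W ≃ₗ[k] topE D)

theorem pq_entMap_comp {x y z : Ar (Fin (n + 1))} (h : x ≤ y) (h' : y ≤ z) (a : ent D x) :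
    entMap D h' (entMap D h a) = entMap D (h.trans h') a := by
  have h1 : D.obj.map (homOfLE (h.trans h')) = D.obj.map (homOfLE h) ≫ D.obj.map (homOfLE h') := by
    rw [← D.obj.map_comp]
    rfl
  exact (congrArg (fun t : ent D x ⟶ ent D z => ModuleCat.Hom.hom t a) h1).symm

/-- the map `D(0, i) → D(0, n)` -/
def pq_ι (i : Fin (n + 1)) : ent D (ar 0 i (Fin.zero_le _)) →ₗ[k] topE D :=
  entMap D (show ar 0 i (Fin.zero_le _) ≤ ar 0 (Fin.last n) (Fin.zero_le _) from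
    ⟨le_rfl, Fin.le_last _⟩)

theorem pq_ι_inj (i : Fin (n + 1)) : Injective (pq_ι D i) :=
  (ent_ses D 0 i (Fin.last n) (Fin.zero_le _) (Fin.le_last _)).1

/-- the flag of a diagram -/
def pq_rF : Fin (n + 1) →o Submodule k W where
  toFun i := (LinearMap.range (pq_ι D i)).comap e.toLinearMap
  monotone' i j h := Submodule.comap_mono (by
    rintro _ ⟨a, rfl⟩
    exact ⟨entMap D (show ar 0 i (Fin.zero_le _) ≤ ar 0 j (Fin.zero_le _) from ⟨le_rfl, h⟩) a,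
      pq_entMap_comp D _ _ a⟩)

/-- the map of the flag to the diagram -/
def pq_rl (j : Fin (n + 1)) : pq_rF D e j →ₗ[k] ent D (ar 0 j (Fin.zero_le _)) :=
  (LinearEquiv.ofInjective (pq_ι D j) (pq_ι_inj D j)).symm.toLinearMap.comp
    ((e.toLinearMap.comp (pq_rF D e j).subtype).codRestrict (LinearMap.range (pq_ι D j))
      fun w => w.2)

theorem pq_rl_spec (j : Fin (n + 1)) (w : pq_rF D e j) : pq_ι D j (pq_rl D e j w) = e w.1 :=
  congrArg Subtype.val ((LinearEquiv.ofInjective (pq_ι D j) (pq_ι_inj D j)).apply_symm_apply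
    (((e.toLinearMap.comp (pq_rF D e j).subtype).codRestrict (LinearMap.range (pq_ι D j))
      fun w => w.2) w))

theorem pq_rl_surj (j : Fin (n + 1)) : Surjective (pq_rl D e j) := by
  intro a
  have h1 : e.symm (pq_ι D j a) ∈ pq_rF D e j := ⟨a, (e.apply_symm_apply _).symm⟩
  refine ⟨⟨_, h1⟩, pq_ι_inj D j ?_⟩
  rw [pq_rl_spec]
  exact e.apply_symm_apply _

/-- the flag with quotients of a diagram -/
def pq_rP : PO k W n where
  F := pq_rF D e
  M := ent D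
  p x := (entMap D (show ar 0 x.1.2 (Fin.zero_le _) ≤ x from ⟨Fin.zero_le _, le_rfl⟩)).comp
    (pq_rl D e x.1.2)
  surj x := (ent_ses D 0 x.1.1 x.1.2 (Fin.zero_le _) x.2).2.2.comp (pq_rl_surj D e x.1.2)
  ker x := by
    ext w
    have h1 := (ent_ses D 0 x.1.1 x.1.2 (Fin.zero_le _) x.2).2.1 (pq_rl D e x.1.2 w)
    refine h1.trans ?_
    constructor
    · rintro ⟨b, hb⟩
      refine ⟨b, ?_⟩
      have h2 := pq_rl_spec D e x.1.2 w
      rw [← hb] at h2
      exact (pq_entMap_comp D _ _ b).symm.trans h2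
    · rintro ⟨b, hb⟩
      refine ⟨b, pq_ι_inj D _ ?_⟩
      rw [pq_rl_spec]
      exact (pq_entMap_comp D _ _ b).trans hb

theorem pq_rP_D : pq_D (pq_rP D e) = D.obj := by
  refine CategoryTheory.Functor.hext (fun _ => rfl) fun x y f => ?_
  refine heq_of_eq ?_
  have h1 : pq_mp (pq_rP D e) (leOfHom f) = entMap D (leOfHom f) := by
    refine pq_mp_unique (pq_rP D e) (leOfHom f) (entMap D (leOfHom f)) fun w => ?_
    have h2 : pq_rl D e y.1.2 ⟨w.1, (pq_rF D e).monotone (leOfHom f).2 w.2⟩ =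
        entMap D (show ar 0 x.1.2 (Fin.zero_le _) ≤ ar 0 y.1.2 (Fin.zero_le _) from
          ⟨le_rfl, (leOfHom f).2⟩) (pq_rl D e x.1.2 w) := by
      apply pq_ι_inj D y.1.2
      rw [pq_rl_spec]
      refine Eq.trans ?_ (pq_entMap_comp D _ _ _).symm
      exact (pq_rl_spec D e x.1.2 w).symm
    refine (pq_entMap_comp D _ _ _).trans ?_
    refine Eq.trans ?_ (congrArg (entMap D (show ar 0 y.1.2 (Fin.zero_le _) ≤ y from
      ⟨Fin.zero_le _, le_rfl⟩)) h2.symm)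
    exact (pq_entMap_comp D _ _ _).symm
  exact congrArg ModuleCat.ofHom h1

end onto

/-! ### orbits -/

/-- the isomorphism to the last entry -/
def pq_q (P : PO k W n) (h0 : P.F 0 = ⊥) (h1 : P.F (Fin.last n) = ⊤) :
    W ≃ₗ[k] P.M (ar 0 (Fin.last n) (Fin.zero_le _)) :=
  LinearEquiv.ofBijective ((P.p (ar 0 (Fin.last n) (Fin.zero_le _))).comp
    (LinearMap.id.codRestrict (P.F (Fin.last n)) fun w => by rw [h1]; trivial)) ⟨by
      rw [injective_iff_map_eq_zero]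
      intro w hw
      have h2 := (pq_mem_ker P).1 hw
      exact (Submodule.mem_bot k).1 (h0 ▸ h2), fun a => by
      obtain ⟨w, rfl⟩ := P.surj _ a
      exact ⟨w.1, rfl⟩⟩

theorem pq_q_apply (P : PO k W n) (h0 : P.F 0 = ⊥) (h1 : P.F (Fin.last n) = ⊤) (w : W)
    (hw : w ∈ P.F (Fin.last n)) :
    pq_q P h0 h1 w = P.p (ar 0 (Fin.last n) (Fin.zero_le _)) ⟨w, hw⟩ := rfl

theorem pq_orb1 {F F' : Fin (n + 1) →o Submodule k W} {M : Ar (Fin (n + 1)) → ModuleCat.{0} k}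
    {p : ∀ x : Ar (Fin (n + 1)), F x.1.2 →ₗ[k] M x} {p' : ∀ x : Ar (Fin (n + 1)), F' x.1.2 →ₗ[k] M x}
    (s1 : ∀ x, Surjective (p x)) (s2 : ∀ x, Surjective (p' x))
    (k1 : ∀ x, LinearMap.ker (p x) = (F x.1.1).submoduleOf (F x.1.2))
    (k2 : ∀ x, LinearMap.ker (p' x) = (F' x.1.1).submoduleOf (F' x.1.2))
    (h : ∀ (x y : Ar (Fin (n + 1))) (hxy : x ≤ y),
      pq_mp (⟨F, M, p, s1, k1⟩ : PO k W n) hxy = pq_mp (⟨F', M, p', s2, k2⟩ : PO k W n) hxy)
    (h0 : F 0 = ⊥) (h1 : F (Fin.last n) = ⊤) (h0' : F' 0 = ⊥) (h1' : F' (Fin.last n) = ⊤)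
    (j : Fin (n + 1)) (w : W) (hw : w ∈ F j) :
    ∃ hw' : (pq_q (⟨F', M, p', s2, k2⟩ : PO k W n) h0' h1').symm
        (pq_q (⟨F, M, p, s1, k1⟩ : PO k W n) h0 h1 w) ∈ F' j,
      p' (ar 0 j (Fin.zero_le _)) ⟨_, hw'⟩ = p (ar 0 j (Fin.zero_le _)) ⟨w, hw⟩ := by
  obtain ⟨⟨v, hv⟩, hv'⟩ := s2 (ar 0 j (Fin.zero_le _)) (p (ar 0 j (Fin.zero_le _)) ⟨w, hw⟩)
  have e0 : ar 0 j (Fin.zero_le _) ≤ ar 0 (Fin.last n) (Fin.zero_le _) :=
    ⟨le_rfl, Fin.le_last _⟩
  have e1 := pq_mp_apply (⟨F', M, p', s2, k2⟩ : PO k W n) e0 ⟨v, hv⟩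
  have e2 := pq_mp_apply (⟨F, M, p, s1, k1⟩ : PO k W n) e0 ⟨w, hw⟩
  have e3 : pq_q (⟨F', M, p', s2, k2⟩ : PO k W n) h0' h1' v =
      pq_q (⟨F, M, p, s1, k1⟩ : PO k W n) h0 h1 w := by
    refine Eq.trans e1.symm ?_
    refine Eq.trans ?_ e2
    rw [h _ _ e0]
    exact congrArg _ hv'
  have e4 : (pq_q (⟨F', M, p', s2, k2⟩ : PO k W n) h0' h1').symm
      (pq_q (⟨F, M, p, s1, k1⟩ : PO k W n) h0 h1 w) = v := by
    rw [LinearEquiv.symm_apply_eq, e3]
  refine ⟨e4 ▸ hv, ?_⟩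
  rw [← hv']
  congr 2

theorem pq_orb (P Q : PO k W n) (hP : ¬ (P.F 0 ≠ ⊥ ∨ P.F (Fin.last n) ≠ ⊤))
    (hQ : ¬ (Q.F 0 ≠ ⊥ ∨ Q.F (Fin.last n) ≠ ⊤)) (h : pq_D P = pq_D Q) :
    ∃ g : W ≃ₗ[k] W, pq_actO g P = Q := by
  push Not at hP hQ
  have hM : P.M = Q.M := congrArg CategoryTheory.Functor.obj h
  have h2 := pq_mp_heq h hM
  obtain ⟨F, M, p, s1, k1⟩ := P
  obtain ⟨F', M', p', s2, k2⟩ := Q
  obtain rfl : M = M' := hM
  have h3 : ∀ (x y : Ar (Fin (n + 1))) (hxy : x ≤ y),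
      pq_mp (⟨F, M, p, s1, k1⟩ : PO k W n) hxy = pq_mp (⟨F', M, p', s2, k2⟩ : PO k W n) hxy :=
    fun x y hxy => eq_of_heq (h2 x y hxy)
  have a1 := pq_orb1 s1 s2 k1 k2 h3 hP.1 hP.2 hQ.1 hQ.2
  have a2 := pq_orb1 s2 s1 k2 k1 (fun x y hxy => (h3 x y hxy).symm) hQ.1 hQ.2 hP.1 hP.2
  refine ⟨(pq_q (⟨F, M, p, s1, k1⟩ : PO k W n) hP.1 hP.2).trans
    (pq_q (⟨F', M, p', s2, k2⟩ : PO k W n) hQ.1 hQ.2).symm, ?_⟩
  refine pq_ext _ _ _ _ ?_ ?_
  · ext i w
    refine (pq_mem_act _ _ _ _).trans ⟨fun hw => ?_, fun hw => ?_⟩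
    · obtain ⟨h4, -⟩ := a1 i _ hw
      have h5 : (pq_q (⟨F', M, p', s2, k2⟩ : PO k W n) hQ.1 hQ.2).symm
        (pq_q (⟨F, M, p, s1, k1⟩ : PO k W n) hP.1 hP.2
          (((pq_q (⟨F, M, p, s1, k1⟩ : PO k W n) hP.1 hP.2).trans
            (pq_q (⟨F', M, p', s2, k2⟩ : PO k W n) hQ.1 hQ.2).symm).symm w)) = w :=
        ((pq_q (⟨F, M, p, s1, k1⟩ : PO k W n) hP.1 hP.2).trans
            (pq_q (⟨F', M, p', s2, k2⟩ : PO k W n) hQ.1 hQ.2).symm).apply_symm_apply w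
      exact h5 ▸ h4
    · exact (a2 i w hw).1
  · intro x w hw hw'
    obtain ⟨h4, h5⟩ := a2 x.1.2 w hw'
    refine (pq_act_p' _ _ x w hw h4).trans ?_
    have e0 : ar 0 x.1.2 (Fin.zero_le _) ≤ x := ⟨Fin.zero_le _, le_rfl⟩
    have e1 := pq_mp_apply (⟨F', M, p', s2, k2⟩ : PO k W n) e0 ⟨w, hw'⟩
    have e2 := pq_mp_apply (⟨F, M, p, s1, k1⟩ : PO k W n) e0 ⟨_, h4⟩
    refine Eq.trans e2.symm (Eq.trans ?_ e1)
    rw [h3 _ _ e0]
    exact congrArg _ h5

theorem pq_free (P : PO k W n) (hP : ¬ (P.F 0 ≠ ⊥ ∨ P.F (Fin.last n) ≠ ⊤)) (g : W ≃ₗ[k] W)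
    (h : pq_actO g P = P) : g = 1 := by
  push Not at hP
  have e1 : ∀ w, g.symm w = w := by
    intro w
    have h1 : w ∈ P.F (Fin.last n) := by
      rw [hP.2]
      trivial
    have h2 : g.symm w ∈ P.F (Fin.last n) := by
      rw [hP.2]
      trivial
    have h3 : w ∈ (pq_actO g P).F (Fin.last n) := (pq_mem_act _ _ _ _).2 h2
    have h4 := pq_heq h (ar 0 (Fin.last n) (Fin.zero_le _)) w h3 h1
    have h5 := pq_act_p' g P (ar 0 (Fin.last n) (Fin.zero_le _)) w h3 h2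
    have h6 : P.p (ar 0 (Fin.last n) (Fin.zero_le _)) ⟨g.symm w, h2⟩ =
      P.p (ar 0 (Fin.last n) (Fin.zero_le _)) ⟨w, h1⟩ := h5.symm.trans (eq_of_heq h4)
    exact (pq_q P hP.1 hP.2).injective h6
  refine LinearEquiv.ext fun w => ?_
  have h1 := e1 (g w)
  rw [LinearEquiv.symm_apply_apply] at h1
  exact h1.symm

end

/-- **PQ.** -/
theorem thm_PQ : St_PQ := by
  intro k W _ _ _ _ r hr
  refine ⟨pq_map k W r hr, pq_act, pq_act_one, pq_act_mul, fun g => ?_, fun n y => ?_,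
    fun n z hz => ?_, fun n y y' hy hy' h => ?_, fun n y g hy h => pq_free y hy g h⟩
  · refine SSt.hom_ext fun n P => ?_
    refine Subtype.ext ?_
    exact ObjectProperty.FullSubcategory.ext (pq_act_D g P)
  · exact pq_rank_iff y r hr
  · have h1 : Module.finrank k (topE z.1) ≤ r + 1 := z.2
    have h2 : ¬ Module.finrank k (topE z.1) ≤ r := hz
    have h3 : Module.finrank k W = Module.finrank k (topE z.1) := by omega
    have := ent_finite z.1 (ar 0 (Fin.last n) (Fin.zero_le _))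
    have h4 : Module.Finite k (topE z.1) := this
    refine ⟨pq_rP z.1 (LinearEquiv.ofFinrankEq W (topE z.1) h3), Subtype.ext ?_⟩
    exact ObjectProperty.FullSubcategory.ext (pq_rP_D _ _)
  · have h1 : pq_D y = pq_D y' := congrArg (fun t => t.1.obj) h
    obtain ⟨g, hg⟩ := pq_orb y y' hy hy' h1
    exact ⟨g, hg⟩

end Pool.Agent.FGK
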