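import Pool.Agent.FGK.StA

/-!
# FGK, C2: `M[Y]` for strong maps
-/

set_option autoImplicit false

namespace Pool.Agent.FGK

open CategoryTheory Function Pool.Agent.KQ

universe u

/-- the functor `X ↦ A[X]` (finitely supported functions with values in `A`) -/
noncomputable def fsstrong_F (A : Type u) [AddCommGroup A] : FGr.{u} where
  obj X := Multiplicative (X →₀ A)
  map f := AddMonoidHom.toMultiplicative (Finsupp.mapDomain.addMonoidHom f)
  map_id {X} x := by
    change Finsupp.mapDomain (fun a : X => a) (x.toAdd : X →₀ A) = x.toAdd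
    exact Finsupp.mapDomain_id
  map_comp {X Y Z} f g x := by
    change Finsupp.mapDomain (g ∘ f) (x.toAdd : X →₀ A) =
      Finsupp.mapDomain g (Finsupp.mapDomain f (x.toAdd : X →₀ A))
    exact Finsupp.mapDomain_comp
  fin {X} x := by
    classical
    refine ⟨((x.toAdd : X →₀ A).support : Set X), Finset.finite_toSet _,
      Multiplicative.ofAdd (Finsupp.comapDomain Subtype.val (x.toAdd : X →₀ A)
        Subtype.val_injective.injOn), ?_⟩
    change Finsupp.mapDomain Subtype.val (Finsupp.comapDomain Subtype.val (x.toAdd : X →₀ A)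
      Subtype.val_injective.injOn) = x.toAdd
    refine Finsupp.mapDomain_comapDomain _ Subtype.val_injective _ ?_
    rw [Subtype.range_val]

/-- the bisimplicial group with the rows `(M_m)[Y]` -/
noncomputable def fsstrong_B (M : SAb.{u}) (Y : SSt.{u}) : SOb SGp.{u} where
  obj m := (fsstrong_F (M.obj m)).ap.obj Y
  map {m n} θ := ⟨fun k => (AddMonoidHom.toMultiplicative
      (Finsupp.mapRange.addMonoidHom (M.map θ)) :
        Multiplicative (Y.obj k →₀ M.obj n) →* Multiplicative (Y.obj k →₀ M.obj m)),
    fun {k l} η x => by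
      change Finsupp.mapRange (M.map θ) (map_zero _) (Finsupp.mapDomain (Y.map η)
        (Multiplicative.toAdd x : Y.obj l →₀ M.obj n)) = Finsupp.mapDomain (Y.map η)
          (Finsupp.mapRange (M.map θ) (map_zero _) (Multiplicative.toAdd x : Y.obj l →₀ M.obj n))
      exact (Finsupp.mapDomain_mapRange _ _ _ (map_zero _) (map_add _)).symm⟩
  map_id n := SGp.hom_ext fun k x => by
    change Finsupp.mapRange (M.map (OrderHom.id : Mo n n)) (map_zero _)
      (Multiplicative.toAdd x : Y.obj k →₀ M.obj n) = Multiplicative.toAdd x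
    refine Finsupp.ext fun y => ?_
    exact M.map_id _ _
  map_comp {l m n} f g := SGp.hom_ext fun k x => by
    change Finsupp.mapRange (M.map (g.comp f)) (map_zero _)
      (Multiplicative.toAdd x : Y.obj k →₀ M.obj n) = Finsupp.mapRange (M.map f) (map_zero _)
        (Finsupp.mapRange (M.map g) (map_zero _) (Multiplicative.toAdd x : Y.obj k →₀ M.obj n))
    ext y
    rw [Finsupp.mapRange_apply, Finsupp.mapRange_apply, Finsupp.mapRange_apply, M.map_comp]

/-- functoriality in `Y` -/
noncomputable def fsstrong_Bmap (M : SAb.{u}) {Y Y' : SSt.{u}} (g : Y ⟶ Y') :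
    fsstrong_B M Y ⟶ fsstrong_B M Y' where
  app m := (fsstrong_F (M.obj m)).ap.map g
  nat {m n} θ := SGp.hom_ext fun k x => by
    change Finsupp.mapDomain (g.app k) (Finsupp.mapRange (M.map θ) (map_zero _)
      (Multiplicative.toAdd x : Y.obj k →₀ M.obj n)) = Finsupp.mapRange (M.map θ) (map_zero _)
        (Finsupp.mapDomain (g.app k) (Multiplicative.toAdd x : Y.obj k →₀ M.obj n))
    exact Finsupp.mapDomain_mapRange _ _ _ (map_zero _) (map_add _)

theorem thm_fsStrong (h : Pool.Agent.KQ.St_RealW.{u}) : St_fsStrong.{u} := by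
  intro M Y Y' g hg
  have h1 : SGp.Weq (SGp.diagF.map (fsstrong_Bmap M g)) :=
    h _ fun m => hg (fsstrong_F (M.obj m))
  have h2 : SAb.gp.map (SAb.fsMap (𝟙 M) g) = SGp.diagF.map (fsstrong_Bmap M g) :=
    SGp.hom_ext fun n x => by
      change Finsupp.mapDomain (g.app n) (Finsupp.mapRange (SAb.Hom.app (𝟙 M) n) (map_zero _)
        (Multiplicative.toAdd x : Y.obj n →₀ M.obj n)) =
          Finsupp.mapDomain (g.app n) (Multiplicative.toAdd x : Y.obj n →₀ M.obj n)
      exact congrArg _ (Finsupp.ext fun _ => rfl)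
  change SGp.Weq (SAb.gp.map (SAb.fsMap (𝟙 M) g))
  rw [h2]
  exact h1

end Pool.Agent.FGK
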