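import Pool.Agent.FGK.StD
import Pool.Agent.FGK.fsStrong
import Pool.Agent.FGK.ZR
import Pool.Agent.KQ.Core

/-!
# FGK, R2: forget the chosen quotients
-/

set_option autoImplicit false

noncomputable section

namespace Pool.Agent.FGK

open CategoryTheory Function Pool.Agent.KQ

/-! ### homotopy equivalences which preserve simplicial subsets -/

section general

variable {X Y : SSt.{1}} (g : X ⟶ Y) (s : Y ⟶ X) (H : SSt.Htpy (𝟙 X) (g ≫ s))

/-- a map with a section and a homotopy is strong -/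
theorem pstr_strong (h1 : s ≫ g = 𝟙 Y) (hH : Nonempty (SSt.Htpy (𝟙 X) (g ≫ s))) :
    SSt.Strong g := by
  refine all_StrHt.2.1 g s (fun Φ n => (all_StrHt.1 _ _ hH Φ n).symm) ?_
  intro Φ n
  rw [h1]

/-- the restriction of a homotopy -/
def pstr_restr (A : SubS X) (B : SubS Y) (hg : ∀ n x, x ∈ A.s n → g.app n x ∈ B.s n)
    (hs : ∀ n y, y ∈ B.s n → s.app n y ∈ A.s n)
    (hH : ∀ n α x, x ∈ A.s n → H.h n α x ∈ A.s n) :
    SSt.Htpy (𝟙 A.S) (SubS.mapS g A B hg ≫ SubS.mapS s B A hs) where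
  h n α x := ⟨H.h n α x.1, hH n α x.1 x.2⟩
  nat θ α x := Subtype.ext (H.nat θ α x.1)
  h0 n α x hα := Subtype.ext (H.h0 n α x.1 hα)
  h1 n α x hα := Subtype.ext (H.h1 n α x.1 hα)

/-- the relative simplicial abelian groups -/
theorem pstr_rel (h1 : s ≫ g = 𝟙 Y) (A : SubS X) (B : SubS Y)
    (hg : ∀ n x, x ∈ A.s n → g.app n x ∈ B.s n)
    (hs : ∀ n y, y ∈ B.s n → s.app n y ∈ A.s n)
    (hH : ∀ n α x, x ∈ A.s n → H.h n α x ∈ A.s n) (c : ℕ) (hB : SAb.Triv c (ZR Y B)) :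
    SAb.Triv c (ZR X A) := by
  obtain ⟨γ, hγ, -⟩ := thm_ZR.2.2.2.2 X Y A B g hg
  have k1 : SSt.Strong g := pstr_strong g s h1 ⟨H⟩
  have k2 : SSt.Strong (SubS.mapS g A B hg) := by
    refine pstr_strong _ (SubS.mapS s B A hs) ?_ ⟨pstr_restr g s H A B hg hs hH⟩
    refine SSt.hom_ext fun n y => Subtype.ext ?_
    exact congrArg (fun e : Y ⟶ Y => e.app n y.1) h1
  have k3 : SAb.Weq γ := hγ (thm_fsStrong all_RealW _ g k1) (thm_fsStrong all_RealW _ _ k2)
  intro j hj x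
  apply (k3 j).1
  rw [map_one]
  exact hB j hj _

end general

/-! ### flags with chosen quotients -/

section flags

variable {k W : Type} [Field k] [AddCommGroup W] [Module k W]

/-- flags with quotients from dependent pairs -/
def pstr_mk {n : ℕ} (F : Fin (n + 1) →o Submodule k W)
    (Q : ∀ x : Ar (Fin (n + 1)), Σ M : ModuleCat.{0} k, (F x.1.2 →ₗ[k] M))
    (hs : ∀ x, Surjective (Q x).2)
    (hk : ∀ x, LinearMap.ker (Q x).2 = (F x.1.1).submoduleOf (F x.1.2)) : PO k W n :=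
  ⟨F, fun x => (Q x).1, fun x => (Q x).2, hs, hk⟩

theorem pstr_mk_congr {n : ℕ} (F : Fin (n + 1) →o Submodule k W)
    {Q Q' : ∀ x : Ar (Fin (n + 1)), Σ M : ModuleCat.{0} k, (F x.1.2 →ₗ[k] M)} (h : Q = Q')
    (hs : ∀ x, Surjective (Q x).2)
    (hk : ∀ x, LinearMap.ker (Q x).2 = (F x.1.1).submoduleOf (F x.1.2))
    (hs' : ∀ x, Surjective (Q' x).2)
    (hk' : ∀ x, LinearMap.ker (Q' x).2 = (F x.1.1).submoduleOf (F x.1.2)) :
    pstr_mk F Q hs hk = pstr_mk F Q' hs' hk' := by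
  subst h
  rfl

/-- the standard quotients -/
def pstr_Q {n : ℕ} (F : Fin (n + 1) →o Submodule k W) (x : Ar (Fin (n + 1))) :
    Σ M : ModuleCat.{0} k, (F x.1.2 →ₗ[k] M) :=
  ⟨ModuleCat.of k (F x.1.2 ⧸ (F x.1.1).submoduleOf (F x.1.2)),
    ((F x.1.1).submoduleOf (F x.1.2)).mkQ⟩

theorem pstr_Q_surj {n : ℕ} (F : Fin (n + 1) →o Submodule k W) (x : Ar (Fin (n + 1))) :
    Surjective (pstr_Q F x).2 := Submodule.mkQ_surjective _

theorem pstr_Q_ker {n : ℕ} (F : Fin (n + 1) →o Submodule k W) (x : Ar (Fin (n + 1))) :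
    LinearMap.ker (pstr_Q F x).2 = (F x.1.1).submoduleOf (F x.1.2) := Submodule.ker_mkQ _

variable (k W)

/-- the flag -/
def pstr_g : PS k W ⟶ nvS.{1} (Submodule k W) := ⟨fun _ P => ⟨P.F⟩, fun _ _ => rfl⟩

/-- the standard quotients, as a section -/
def pstr_s : nvS.{1} (Submodule k W) ⟶ PS k W :=
  ⟨fun _ F => pstr_mk F.down (pstr_Q F.down) (pstr_Q_surj F.down) (pstr_Q_ker F.down),
    fun _ _ => rfl⟩

variable {k W}

/-- the pairs of the homotopy -/
def pstr_hQ {n : ℕ} (α : Fin (n + 1) →o Bool) (P : PO k W n) (x : Ar (Fin (n + 1))) :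
    Σ M : ModuleCat.{0} k, (P.F x.1.2 →ₗ[k] M) :=
  match α x.1.2 with
  | false => ⟨P.M x, P.p x⟩
  | true => pstr_Q P.F x

theorem pstr_hQ_false {n : ℕ} (α : Fin (n + 1) →o Bool) (P : PO k W n) (x : Ar (Fin (n + 1)))
    (h : α x.1.2 = false) : pstr_hQ α P x = ⟨P.M x, P.p x⟩ := by
  unfold pstr_hQ
  rw [h]

theorem pstr_hQ_true {n : ℕ} (α : Fin (n + 1) →o Bool) (P : PO k W n) (x : Ar (Fin (n + 1)))
    (h : α x.1.2 = true) : pstr_hQ α P x = pstr_Q P.F x := by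
  unfold pstr_hQ
  rw [h]

theorem pstr_hQ_surj {n : ℕ} (α : Fin (n + 1) →o Bool) (P : PO k W n) (x : Ar (Fin (n + 1))) :
    Surjective (pstr_hQ α P x).2 := by
  cases h : α x.1.2 with
  | false =>
    rw [pstr_hQ_false α P x h]
    exact P.surj x
  | true =>
    rw [pstr_hQ_true α P x h]
    exact pstr_Q_surj P.F x

theorem pstr_hQ_ker {n : ℕ} (α : Fin (n + 1) →o Bool) (P : PO k W n) (x : Ar (Fin (n + 1))) :
    LinearMap.ker (pstr_hQ α P x).2 = (P.F x.1.1).submoduleOf (P.F x.1.2) := by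
  cases h : α x.1.2 with
  | false =>
    rw [pstr_hQ_false α P x h]
    exact P.ker x
  | true =>
    rw [pstr_hQ_true α P x h]
    exact pstr_Q_ker P.F x

variable (k W)

/-- the homotopy -/
def pstr_H : SSt.Htpy (𝟙 (PS k W)) (pstr_g k W ≫ pstr_s k W) where
  h n α P := pstr_mk P.F (pstr_hQ α P) (pstr_hQ_surj α P) (pstr_hQ_ker α P)
  nat θ α P := rfl
  h0 n α P hα := by
    change pstr_mk P.F (pstr_hQ α P) _ _ = pstr_mk P.F (fun x => ⟨P.M x, P.p x⟩) P.surj P.ker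
    exact pstr_mk_congr _ (funext fun x => pstr_hQ_false α P x (hα _)) _ _ _ _
  h1 n α P hα := by
    change pstr_mk P.F (pstr_hQ α P) _ _ = pstr_mk P.F (pstr_Q P.F) _ _
    exact pstr_mk_congr _ (funext fun x => pstr_hQ_true α P x (hα _)) _ _ _ _

end flags

/-- **R2** -/
theorem thm_PStr : St_PStr := by
  intro k W _ _ _ c hc
  exact pstr_rel (pstr_g k W) (pstr_s k W) (pstr_H k W) rfl (badP k W) (badS (Submodule k W))
    (fun n x hx => hx) (fun n x hx => hx) (fun n α x hx => hx) c hc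

end Pool.Agent.FGK
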