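import Pool.Agent.FGK.StA
import Pool.Agent.KQ.HT
import Pool.Agent.KQ.BD
import Pool.Agent.KQ.DC
import Pool.Agent.KQ.SH

/-!
# FGK D2: the path group and the loop group of a connected simplicial group
-/

set_option autoImplicit false
set_option linter.unusedVariables false

namespace Pool.Agent.FGK

open CategoryTheory Function Pool.Agent.KQ

universe u

/-- the trivial homomorphism -/
def path_one (G : SGp.{u}) : G ⟶ G :=
  ⟨fun n => 1, fun θ x => by
    change (1 : G.obj _) = G.map θ 1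
    rw [map_one]⟩

theorem path_k_v0 {n : ℕ} (α : Fin (n + 1) →o Bool) : (DC_k α).comp (v0 (n + 1)) = v0 (n + 1) := by
  refine OrderHom.ext _ _ (funext fun i => ?_)
  rfl

theorem path_k_true {n : ℕ} (α : Fin (n + 1) →o Bool) (h : ∀ i, α i = true) :
    DC_k α = OrderHom.id := by
  refine OrderHom.ext _ _ (funext fun i => ?_)
  refine Fin.cases ?_ (fun i => ?_) i
  · rfl
  · rw [DC_k_succ, if_pos (h i)]
    rfl

theorem path_k_false {n : ℕ} (α : Fin (n + 1) →o Bool) (h : ∀ i, α i = false) :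
    DC_k α = (v0 (n + 1)).comp (DC_c (n + 1)) := by
  refine OrderHom.ext _ _ (funext fun i => ?_)
  refine Fin.cases ?_ (fun i => ?_) i
  · rfl
  · rw [DC_k_succ, if_neg (by rw [h i]; decide)]
    rfl

/-- the contraction -/
def path_h (G : SGp.{u}) (n : ℕ) (α : Fin (n + 1) →o Bool) :
    (pathG G).obj n →* (pathG G).obj n :=
  ((G.map (DC_k α)).comp (G.map (v0 (n + 1))).ker.subtype).codRestrict _ fun x => by
    change G.map (v0 (n + 1)) (G.map (DC_k α) x.1) = 1
    rw [← G.map_comp, path_k_v0]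
    exact x.2

theorem path_h_nat (G : SGp.{u}) {m n : ℕ} (θ : Mo m n) (α : Fin (n + 1) →o Bool)
    (x : (pathG G).obj n) : path_h G m (α.comp θ) ((pathG G).map θ x) =
      (pathG G).map θ (path_h G n α x) := by
  refine Subtype.ext ?_
  change G.map (DC_k (α.comp θ)) (G.map θ.bot x.1) = G.map θ.bot (G.map (DC_k α) x.1)
  rw [← G.map_comp, ← G.map_comp, DC_k_nat]

theorem path_h_false (G : SGp.{u}) (n : ℕ) (α : Fin (n + 1) →o Bool) (x : (pathG G).obj n)
    (h : ∀ i, α i = false) : path_h G n α x = 1 := by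
  refine Subtype.ext ?_
  change G.map (DC_k α) x.1 = 1
  rw [path_k_false α h, G.map_comp, show G.map (v0 (n + 1)) x.1 = 1 from x.2, map_one]

theorem path_h_true (G : SGp.{u}) (n : ℕ) (α : Fin (n + 1) →o Bool) (x : (pathG G).obj n)
    (h : ∀ i, α i = true) : path_h G n α x = x := by
  refine Subtype.ext ?_
  change G.map (DC_k α) x.1 = x.1
  rw [path_k_true α h, G.map_id]

theorem path_pi (G : SGp.{u}) (j : ℕ) (x : (pathG G).Pi j) : x = 1 := by
  have h1 := thm_Htpy (path_one (pathG G)) (𝟙 (pathG G)) ⟨⟨path_h G, path_h_nat G,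
    fun n α x h => path_h_false G n α x h, fun n α x h => path_h_true G n α x h⟩⟩ j
  have h2 := SGp.PiMap_id (pathG G) j x
  rw [← h1] at h2
  rw [← h2]
  obtain ⟨z, rfl⟩ := (pathG G).cls_surj j x
  rw [SGp.PiMap_cls]
  exact map_one ((pathG G).cls j)

theorem path_contr (G : SGp.{u}) : SSt.Contr (pathG G).und := by
  refine thm_StrHt thm_Htpy |>.2.2 (pathG G).und ⟨fun n _ => (1 : (pathG G).obj n),
    fun θ x => (map_one ((pathG G).map θ)).symm⟩ ?_
  refine (thm_StrHt thm_Htpy).1 _ _ ⟨⟨fun n α x => path_h G n α x, path_h_nat G, ?_, ?_⟩⟩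
  · intro n α x h
    exact path_h_false G n α x h
  · intro n α x h
    exact path_h_true G n α x h

/-- the map with `0 ↦ 0`, `i + 1 ↦ 1` -/
def path_e (n : ℕ) : Mo (n + 1) 1 where
  toFun := Fin.cases 0 fun _ => 1
  monotone' := by
    intro i j
    refine Fin.cases ?_ (fun i => ?_) i
    · intro _
      simp
    · refine Fin.cases ?_ (fun j => ?_) j
      · intro h
        exact absurd h (by simp)
      · intro _
        simp

theorem path_surj (G : SGp.{u}) (h : SGp.Triv 1 G) (n : ℕ) :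
    Surjective ((pathπ G).app n) := by
  intro x
  set g : G.obj 0 := G.map (v0 n) x with hg
  have h1 : g ∈ G.B 0 := by
    have h2 := h 0 one_pos (G.cls 0 ⟨g, trivial⟩)
    exact (SGp.cls_eq_one G).1 h2
  obtain ⟨y, hy1, hy0⟩ := (SGp.mem_B G).1 h1
  set w : G.obj 1 := (G.map (sg 0) g)⁻¹ * y with hw
  have w0 : G.map (dl 0) w = 1 := by
    rw [hw, map_mul, map_inv, hy0, ← G.map_comp, dl_zero_comp_sg_zero, G.map_id,
      inv_mul_cancel]
  have w1 : G.map (dl 1) w = g⁻¹ := by
    have h3 : G.map (dl (1 : Fin 2)) y = 1 := hy1 0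
    rw [hw, map_mul, map_inv, h3, ← G.map_comp, dl_one_comp_sg_zero, G.map_id, mul_one]
  have e1 : (path_e n).comp (v0 (n + 1)) = dl (1 : Fin 2) := by
    refine OrderHom.ext _ _ (funext fun i => ?_)
    change (0 : Fin 2) = (1 : Fin 2).succAbove i
    have : i = 0 := Fin.ext (by omega)
    subst this
    rfl
  have e2 : (path_e n).comp (dl 0) = (dl (0 : Fin 2)).comp (DC_c n) := by
    refine OrderHom.ext _ _ (funext fun i => ?_)
    change path_e n ((0 : Fin (n + 2)).succAbove i) = (0 : Fin 2).succAbove 0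
    rw [Fin.succAbove_zero]
    rfl
  have e3 : (sg (0 : Fin (n + 1))).comp (v0 (n + 1)) = v0 n := by
    refine OrderHom.ext _ _ (funext fun i => ?_)
    change (0 : Fin (n + 1)).predAbove 0 = 0
    simp
  refine ⟨⟨G.map (path_e n) w * G.map (sg 0) x, ?_⟩, ?_⟩
  · change G.map (v0 (n + 1)) (G.map (path_e n) w * G.map (sg 0) x) = 1
    rw [map_mul, ← G.map_comp, ← G.map_comp, e1, e3, w1, ← hg, inv_mul_cancel]
  · change G.map (dl 0) (G.map (path_e n) w * G.map (sg 0) x) = x
    rw [map_mul, ← G.map_comp, ← G.map_comp, e2, dl_zero_comp_sg_zero, G.map_comp, w0, map_one,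
      G.map_id, one_mul]

theorem thm_Path : St_Path.{u} := by
  intro G h
  refine ⟨path_surj G h, path_contr G, path_pi G, fun j => ?_⟩
  obtain ⟨δ, -, h1, h2⟩ := thm_Bd (pathπ G) (path_surj G h) j
  refine ⟨δ, (injective_iff_map_eq_one δ).2 fun y hy => ?_, fun z => ?_⟩
  · obtain ⟨x, rfl⟩ := (h1 y).1 hy
    rw [path_pi G _ x, map_one]
  · exact (h2 z).1 (path_pi G j _)

end Pool.Agent.FGK
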