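import Pool.Agent.FGK.StB

/-!
# FGK: the first stage of the Postnikov tower
-/

set_option autoImplicit false
set_option linter.unusedVariables false

namespace Pool.Agent.FGK

open CategoryTheory Function Pool.Agent.KQ

universe u

/-! ### operators which miss a vertex -/

theorem post_fac {n l : ℕ} (f : Mo n (l + 1)) (i : Fin (l + 2)) (h : ∀ x, f x ≠ i) :
    ∃ g : Mo n l, f = (dl i).comp g := by
  have h1 : ∀ x, ∃ z, i.succAbove z = f x := fun x => Fin.exists_succAbove_eq (h x)
  choose g hg using h1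
  refine ⟨⟨g, fun x y hxy => ?_⟩, ?_⟩
  · rw [← (Fin.strictMono_succAbove i).le_iff_le, hg, hg]
    exact f.monotone hxy
  · exact OrderHom.ext _ _ (funext fun x => (hg x).symm)

theorem post_miss {n l : ℕ} (f : Mo n (l + 1)) (h : n < l + 1) : ∃ i, ∀ x, f x ≠ i := by
  by_contra hc
  push Not at hc
  have h1 : Surjective f := fun i => hc i
  have h2 := Fintype.card_le_of_surjective f h1
  rw [Fintype.card_fin, Fintype.card_fin] at h2
  omega

theorem post_miss_succ {n l : ℕ} (f : Mo n (l + 1)) (h : n < l) :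
    ∃ i : Fin (l + 1), ∀ x, f x ≠ i.succ := by
  by_contra hc
  push Not at hc
  choose σ hσ using hc
  have h1 : Function.Injective σ := fun i j hij => by
    have := congrArg f hij
    rw [hσ, hσ] at this
    exact Fin.succ_injective _ this
  have h2 := Fintype.card_le_of_injective σ h1
  rw [Fintype.card_fin, Fintype.card_fin] at h2
  omega

/-! ### the Postnikov stage -/

section

variable (G : SGp.{u}) (n : ℕ) {A : Type u} [CommGroup A] (q : G.obj n →* A)

/-- the image of `x ↦ (q (G.map f x))_f` -/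
def postS (m : ℕ) : AddSubgroup (Mo n m → Additive A) where
  carrier := {w | ∃ x : G.obj m, ∀ f : Mo n m, w f = Additive.ofMul (q (G.map f x))}
  add_mem' := by
    rintro a b ⟨x, hx⟩ ⟨y, hy⟩
    exact ⟨x * y, fun f => by rw [Pi.add_apply, hx, hy, map_mul, map_mul, ofMul_mul]⟩
  zero_mem' := ⟨1, fun f => by rw [map_one, map_one]; rfl⟩
  neg_mem' := by
    rintro a ⟨x, hx⟩
    exact ⟨x⁻¹, fun f => by rw [Pi.neg_apply, hx, map_inv, map_inv, ofMul_inv]⟩

/-- the Postnikov stage -/
def postP : SAb.{u} where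
  obj m := postS G n q m
  map {m l} θ :=
    { toFun := fun w => ⟨fun f => w.1 (θ.comp f), by
        obtain ⟨x, hx⟩ := w.2
        exact ⟨G.map θ x, fun f => by
          change w.1 (θ.comp f) = _
          rw [hx, G.map_comp]⟩⟩
      map_zero' := rfl
      map_add' := fun _ _ => rfl }
  map_id _ _ := rfl
  map_comp _ _ _ := rfl

/-- the projection, in degree `m` -/
def postA (m : ℕ) : G.obj m →* Multiplicative (postS G n q m) where
  toFun x := Multiplicative.ofAdd
    (⟨fun f => Additive.ofMul (q (G.map f x)), ⟨x, fun _ => rfl⟩⟩ : postS G n q m)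
  map_one' := by
    refine congrArg Multiplicative.ofAdd (Subtype.ext (funext fun f => ?_))
    change Additive.ofMul (q (G.map f 1)) = 0
    rw [map_one, map_one]
    rfl
  map_mul' x y := by
    refine congrArg Multiplicative.ofAdd (Subtype.ext (funext fun f => ?_))
    change Additive.ofMul (q (G.map f (x * y))) =
      Additive.ofMul (q (G.map f x)) + Additive.ofMul (q (G.map f y))
    rw [map_mul, map_mul, ofMul_mul]

theorem postA_one (m : ℕ) (x : G.obj m) :
    postA G n q m x = 1 ↔ ∀ f : Mo n m, q (G.map f x) = 1 := by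
  constructor
  · intro h f
    have h1 : (⟨fun f => Additive.ofMul (q (G.map f x)), ⟨x, fun _ => rfl⟩⟩ : postS G n q m) = 0 :=
      Multiplicative.ofAdd.injective h
    have h2 := congrFun (congrArg Subtype.val h1) f
    exact Additive.ofMul.injective h2
  · intro h
    refine congrArg Multiplicative.ofAdd (Subtype.ext (funext fun f => ?_))
    change Additive.ofMul (q (G.map f x)) = 0
    rw [h f]
    rfl

/-- the projection to the Postnikov stage -/
def postF : G ⟶ (postP G n q).gpo where
  app m := postA G n q m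
  nat {m l} θ x := by
    refine congrArg Multiplicative.ofAdd (Subtype.ext (funext fun f => ?_))
    change Additive.ofMul (q (G.map f (G.map θ x))) = Additive.ofMul (q (G.map (θ.comp f) x))
    rw [G.map_comp]

theorem postF_one (m : ℕ) (x : G.obj m) :
    (postF G n q).app m x = 1 ↔ ∀ f : Mo n m, q (G.map f x) = 1 := postA_one G n q m x

theorem postF_surj (m : ℕ) : Surjective ((postF G n q).app m) := by
  intro w
  obtain ⟨x, hx⟩ := (Multiplicative.toAdd (w : Multiplicative (postS G n q m))).2
  refine ⟨x, ?_⟩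
  exact congrArg Multiplicative.ofAdd (Subtype.ext (funext fun f => (hx f).symm))

theorem postP_fg (hA : Group.FG A) (m : ℕ) : AddGroup.FG ((postP G n q).obj m) := by
  have : Finite (Mo n m) := DFunLike.finite _
  have : AddGroup.FG (Additive A) := GroupFG.iff_add_fg.1 hA
  have : Module.Finite ℤ (Additive A) := Module.Finite.iff_addGroup_fg.2 inferInstance
  have : Module.Finite ℤ (Mo n m → Additive A) := Module.Finite.pi
  have : IsNoetherian ℤ (Mo n m → Additive A) := inferInstance
  have h1 : Module.Finite ℤ (AddSubgroup.toIntSubmodule (postS G n q m)) := inferInstance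
  exact Module.Finite.iff_addGroup_fg.1 h1

theorem postP_low (h0 : ∀ m < n, ∀ x : G.obj m, x = 1) (m : ℕ) (hm : m < n)
    (x : (postP G n q).obj m) : x = 0 := by
  obtain ⟨y, hy⟩ := (x : postS G n q m).2
  refine Subtype.ext (funext fun f => ?_)
  refine (hy f).trans ?_
  rw [h0 m hm y, map_one, map_one]
  rfl

theorem postP_pi (h0 : ∀ m < n, ∀ x : G.obj m, x = 1) (j : ℕ) (hj : j ≠ n)
    (x : (postP G n q).gpo.Pi j) : x = 1 := by
  obtain ⟨z, rfl⟩ := (postP G n q).gpo.cls_surj j x
  suffices hz : z = 1 by rw [hz, map_one]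
  refine Subtype.ext ?_
  rcases lt_or_gt_of_ne hj with h | h
  · exact congrArg Multiplicative.ofAdd
      (postP_low G n q h0 j h (Multiplicative.toAdd (z.1 : Multiplicative (postS G n q j))))
  · obtain ⟨l, rfl⟩ : ∃ l, j = l + 1 := ⟨j - 1, by omega⟩
    have hz := (postP G n q).gpo.mem_Z_succ.1 z.2
    have hw : ∀ w : postS G n q (l + 1), (∀ i, (postP G n q).map (dl i) w = 0) → w = 0 := by
      intro w hw
      refine Subtype.ext (funext fun f => ?_)
      obtain ⟨i, hi⟩ := post_miss f h
      obtain ⟨g, rfl⟩ := post_fac f i hi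
      exact congrFun (congrArg Subtype.val (hw i)) g
    exact congrArg Multiplicative.ofAdd
      (hw (Multiplicative.toAdd (z.1 : Multiplicative (postS G n q (l + 1))))
        fun i => congrArg Multiplicative.toAdd (hz i))

/-- elements of the Moore complex are in the kernel -/
theorem post_N_ker {j : ℕ} (hj : n < j) (y : G.obj (j + 1))
    (hy : ∀ i : Fin (j + 1), G.map (dl i.succ) y = 1) (f : Mo n (j + 1)) : G.map f y = 1 := by
  obtain ⟨i, hi⟩ := post_miss_succ f hj
  obtain ⟨g, rfl⟩ := post_fac f i.succ hi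
  rw [G.map_comp, hy, map_one]

theorem post_main (h0 : ∀ m < n, ∀ x : G.obj m, x = 1) (hq : ∀ x, q x = 1 ↔ x ∈ G.B n) :
    SGp.Triv (n + 1) (SGp.ker (postF G n q)) ∧
      ∀ j, n < j → Bijective (SGp.PiMap (SGp.kerι (postF G n q)) j) := by
  refine ⟨?_, ?_⟩
  · intro j hj x
    obtain ⟨z, rfl⟩ := (SGp.ker (postF G n q)).cls_surj j x
    rcases lt_or_eq_of_le (Nat.lt_succ_iff.1 hj) with h | h
    · have hz : z = 1 := Subtype.ext (Subtype.ext (h0 j h z.1.1))
      rw [hz, map_one]
    · subst h
      rw [SGp.cls_eq_one, SGp.mem_B]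
      have hz1 : ∀ f : Mo j j, q (G.map f z.1.1) = 1 := (postF_one G j q j z.1.1).1 z.1.2
      have hz2 : z.1.1 ∈ G.B j := by
        rw [← hq]
        have := hz1 OrderHom.id
        rwa [G.map_id] at this
      obtain ⟨y, hy, hyz⟩ := G.mem_B.1 hz2
      have hyK : (postF G j q).app (j + 1) y = 1 := by
        rw [postF_one]
        intro f
        obtain ⟨i, hi⟩ := post_miss f (Nat.lt_succ_self j)
        obtain ⟨g, rfl⟩ := post_fac f i hi
        rw [G.map_comp]
        revert hi
        refine Fin.cases ?_ (fun i => ?_) i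
        · intro _
          rw [hyz]
          exact hz1 g
        · intro _
          rw [hy, map_one, map_one]
      exact ⟨⟨y, hyK⟩, fun i => Subtype.ext (hy i), Subtype.ext hyz⟩
  · intro j hj
    refine ⟨?_, ?_⟩
    · rw [injective_iff_map_eq_one]
      intro x hx
      obtain ⟨z, rfl⟩ := (SGp.ker (postF G n q)).cls_surj j x
      rw [SGp.PiMap_cls, SGp.cls_eq_one] at hx
      obtain ⟨y, hy, hyz⟩ := G.mem_B.1 hx
      rw [SGp.cls_eq_one, SGp.mem_B]
      have hyK : (postF G n q).app (j + 1) y = 1 := by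
        rw [postF_one]
        intro f
        rw [post_N_ker G n hj y hy f, map_one]
      exact ⟨⟨y, hyK⟩, fun i => Subtype.ext (hy i), Subtype.ext hyz⟩
    · intro x
      obtain ⟨z, rfl⟩ := G.cls_surj j x
      obtain ⟨l, rfl⟩ : ∃ l, j = l + 1 := ⟨j - 1, by omega⟩
      have hz := G.mem_Z_succ.1 z.2
      have hzK : (postF G n q).app (l + 1) z.1 = 1 := by
        rw [postF_one]
        intro f
        obtain ⟨i, hi⟩ := post_miss f hj
        obtain ⟨g, rfl⟩ := post_fac f i hi
        rw [G.map_comp, hz, map_one, map_one]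
      have hzZ : (⟨z.1, hzK⟩ : (SGp.ker (postF G n q)).obj (l + 1)) ∈
          (SGp.ker (postF G n q)).Z (l + 1) :=
        (SGp.ker (postF G n q)).mem_Z_succ.2 fun i => Subtype.ext (hz i)
      exact ⟨(SGp.ker (postF G n q)).cls (l + 1) ⟨_, hzZ⟩, rfl⟩

end

/-- the homotopy group, as a commutative group -/
@[reducible] def postComm (G : SGp.{u}) (n : ℕ) (hc : ∀ x y : G.Pi n, x * y = y * x) :
    CommGroup (G.Pi n) :=
  { (inferInstance : Group (G.Pi n)) with mul_comm := hc }

/-- the first stage of the Postnikov tower -/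
theorem thm_Post (hC : KQ.St_Comm.{u}) : St_Post.{u} := by
  intro n G hn h0 hSl
  obtain ⟨p, rfl⟩ : ∃ p, n = p + 1 := ⟨n - 1, by omega⟩
  have hZ : ∀ x : G.obj (p + 1), x ∈ G.Z (p + 1) := fun x => by
    rw [SGp.mem_Z_succ]
    exact fun i => h0 p (Nat.lt_succ_self p) _
  letI : CommGroup (G.Pi (p + 1)) := postComm G (p + 1) (hC G p)
  let q : G.obj (p + 1) →* G.Pi (p + 1) :=
    (G.cls (p + 1)).comp ((MonoidHom.id (G.obj (p + 1))).codRestrict (G.Z (p + 1)) hZ)
  have hq : ∀ x, q x = 1 ↔ x ∈ G.B (p + 1) := fun x =>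
    SGp.cls_eq_one G (x := (⟨x, hZ x⟩ : G.Z (p + 1)))
  have hfg : Group.FG (G.Pi (p + 1)) := ⟨hSl ⊤⟩
  obtain ⟨h1, h2⟩ := post_main G (p + 1) q h0 hq
  exact ⟨postP G (p + 1) q, postF G (p + 1) q, postF_surj G (p + 1) q,
    postP_low G (p + 1) q h0, postP_fg G (p + 1) q hfg, postP_pi G (p + 1) q h0, h1, h2⟩

end Pool.Agent.FGK
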