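import Pool.Agent.FGK.StC

/-!
# FGK, R1: the theorem of Solomon and Tits

The induction on the dimension `r` is done for families: `(U_j)` is a family of subspaces of dimension
`r`, the simplices are the pairs of an index `j` and a chain `F_0 ≤ .. ≤ F_n ≤ U_j`, and the bad simplices
are those with `F_0 ≠ ⊥` or `F_n ≠ U_j`.  The complements of the lines `L_j` in the `U_j` are the family of
the next step, so no direct sums are needed.
-/

set_option autoImplicit false
set_option linter.unusedVariables false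

namespace Pool.Agent.FGK

open CategoryTheory Function Pool.Agent.KQ

universe u

/-! ### trivial homotopy groups -/

/-- the inverse of a degreewise bijective homomorphism -/
noncomputable def rb_inv {G H : SGp.{u}} (f : G ⟶ H) (h : ∀ n, Bijective (f.app n)) : H ⟶ G :=
  ⟨fun n => ((MulEquiv.ofBijective (f.app n) (h n)).symm : H.obj n →* G.obj n), fun {m n} θ y => by
    apply (h m).1
    rw [f.nat]
    change (MulEquiv.ofBijective (f.app m) (h m))
        ((MulEquiv.ofBijective (f.app m) (h m)).symm _) =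
      H.map θ ((MulEquiv.ofBijective (f.app n) (h n))
        ((MulEquiv.ofBijective (f.app n) (h n)).symm y))
    rw [MulEquiv.apply_symm_apply, MulEquiv.apply_symm_apply]⟩

theorem rb_bij {G H : SGp.{u}} (f : G ⟶ H) (h : ∀ n, Bijective (f.app n)) : SGp.Weq f := by
  intro j
  have h1 : f ≫ rb_inv f h = 𝟙 G :=
    SGp.hom_ext fun n x => (MulEquiv.ofBijective (f.app n) (h n)).symm_apply_apply x
  have h2 : rb_inv f h ≫ f = 𝟙 H :=
    SGp.hom_ext fun n x => (MulEquiv.ofBijective (f.app n) (h n)).apply_symm_apply x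
  refine bijective_iff_has_inverse.2 ⟨SGp.PiMap (rb_inv f h) j, fun x => ?_, fun x => ?_⟩
  · rw [← SGp.PiMap_comp, h1, SGp.PiMap_id]
  · rw [← SGp.PiMap_comp, h2, SGp.PiMap_id]

theorem rb_weq {X Y : SAb.{u}} (f : X ⟶ Y) (h : ∀ n, Bijective (f.app n)) : SAb.Weq f :=
  rb_bij (SAb.gp.map f) h

theorem rb_tr {X Y : SAb.{u}} (f : X ⟶ Y) (h : ∀ n, Bijective (f.app n)) (c : ℕ)
    (hX : SAb.Triv c X) : SAb.Triv c Y := by
  intro j hj y
  obtain ⟨x, rfl⟩ := (rb_weq f h j).2 y
  rw [hX j hj x, map_one]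

theorem rb_tr' {X Y : SAb.{u}} (f : X ⟶ Y) (h : ∀ n, Bijective (f.app n)) (c : ℕ)
    (hY : SAb.Triv c Y) : SAb.Triv c X := by
  intro j hj x
  apply (rb_weq f h j).1
  rw [map_one]
  exact hY j hj _

theorem rb_up {X Y : SAb.{u}} (g : X ⟶ Y) (c : ℕ) (h : SAb.Conn c g)
    (hX : ∀ c, SAb.Triv c X) : SAb.Triv (c + 1) Y := by
  intro j hj y
  have hs : Surjective (SGp.PiMap (SAb.gp.map g) j) := by
    rcases Nat.lt_succ_iff_lt_or_eq.1 hj with h1 | h1
    · exact (h.1 j h1).2
    · rw [h1]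
      exact h.2
  obtain ⟨x, rfl⟩ := hs y
  rw [hX (j + 1) j (Nat.lt_succ_self j) x, map_one]

/-- R0 (3), the end of the homotopy is determined by the homotopy -/
theorem rb_hg (hZR : St_ZR.{u}) (Y : SSt.{u}) (A : SubS Y)
    (h : ∀ n, (Fin (n + 1) →o Bool) → Y.obj n → Y.obj n)
    (hnat : ∀ {m n : ℕ} (θ : Mo m n) (α : Fin (n + 1) →o Bool) (x : Y.obj n),
      h m (α.comp θ) (Y.map θ x) = Y.map θ (h n α x))
    (h0 : ∀ (n : ℕ) (α : Fin (n + 1) →o Bool) (x : Y.obj n), (∀ i, α i = false) → h n α x = x)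
    (hA : ∀ n α x, x ∈ A.s n → h n α x ∈ A.s n)
    (h1 : ∀ (n : ℕ) (α : Fin (n + 1) →o Bool) (x : Y.obj n), (∀ i, α i = true) →
      h n α x ∈ A.s n) (c : ℕ) : SAb.Triv c (ZR Y A) := by
  let g : Y ⟶ Y := ⟨fun n x => h n (OrderHom.const _ true) x, fun {m n} θ x =>
    hnat θ (OrderHom.const _ true) x⟩
  refine hZR.2.2.1 Y A g ⟨h, hnat, h0, fun n α x hα => ?_⟩ hA (fun n x => ?_) c
  · have : α = OrderHom.const _ true := OrderHom.ext _ _ (funext hα)
    rw [this]
  · exact h1 n _ x fun i => rfl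

/-! ### families of chains -/

/-- the chains with vertices in `p j` -/
def rb_X {J P : Type} [Preorder P] (p : J → P → Prop) : SSt.{u} where
  obj n := ULift.{u} {x : J × (Fin (n + 1) →o P) // ∀ i, p x.1 (x.2 i)}
  map θ x := ⟨⟨(x.down.1.1, x.down.1.2.comp θ), fun i => x.down.2 (θ i)⟩⟩
  map_id _ _ := rfl
  map_comp _ _ _ := rfl

/-- the chains with vertices in `q j` -/
def rb_V {J P : Type} [Preorder P] {p : J → P → Prop} (q : J → P → Prop) :
    SubS (rb_X.{u} p) where
  s n := {x | ∀ i, q x.down.1.1 (x.down.1.2 i)}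
  map_mem θ x h i := h (θ i)

/-- equality of simplices -/
theorem rb_ext {J P : Type} [Preorder P] {p : J → P → Prop} {n : ℕ} {x y : (rb_X.{u} p).obj n}
    (h1 : x.down.1.1 = y.down.1.1) (h2 : ∀ i, x.down.1.2 i = y.down.1.2 i) : x = y :=
  ULift.ext _ _ (Subtype.ext (Prod.ext h1 (OrderHom.ext _ _ (funext h2))))

/-- the chain `F_i` if `α i = false`, `φ (F_i)` if `α i = true` -/
def rb_F {P : Type} [Preorder P] {n : ℕ} (α : Fin (n + 1) →o Bool) (F : Fin (n + 1) →o P)
    (φ : P → P) (hφ : Monotone φ) (hle : ∀ i, F i ≤ φ (F i)) : Fin (n + 1) →o P where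
  toFun i := if α i = true then φ (F i) else F i
  monotone' i j hij := by
    dsimp only
    by_cases h1 : α i = true
    · have h2 : α j = true := by
        have h3 := α.monotone hij
        rw [h1] at h3
        exact top_le_iff.1 h3
      rw [if_pos h1, if_pos h2]
      exact hφ (F.monotone hij)
    · rw [if_neg h1]
      split_ifs
      · exact (F.monotone hij).trans (hle j)
      · exact F.monotone hij

/-- the bad chains -/
def rb_bad {J P : Type} [PartialOrder P] [OrderBot P] (U : J → P) :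
    SubS (rb_X.{u} fun j V => V ≤ U j) where
  s n := {x | x.down.1.2 0 ≠ ⊥ ∨ x.down.1.2 (Fin.last n) ≠ U x.down.1.1}
  map_mem {m n} θ x h := by
    rcases h with h | h
    · left
      intro h1
      exact h (le_bot_iff.1 (h1 ▸ x.down.1.2.monotone (Fin.zero_le (θ 0))))
    · right
      intro h1
      refine h (le_antisymm (x.down.2 _) ?_)
      rw [← (show x.down.1.2 (θ (Fin.last m)) = U x.down.1.1 from h1)]
      exact x.down.1.2.monotone (Fin.le_last (θ (Fin.last m)))

/-- `H` is a complement of `L j` in `U j` -/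
def rb_co {J P : Type} [Lattice P] [OrderBot P] (U L : J → P) (j : J) (H : P) : Prop :=
  H ≤ U j ∧ H ⊓ L j = ⊥ ∧ H ⊔ L j = U j

/-- (i): the chains without complements -/
theorem rb_i (hZR : St_ZR.{u}) {J P : Type} [Lattice P] [OrderBot P] (U L : J → P)
    (hL : ∀ j, L j ≤ U j) (hL0 : ∀ j, L j ≠ ⊥) (hat : ∀ j V, V ⊓ L j = ⊥ ∨ L j ≤ V) (c : ℕ) :
    SAb.Triv c (ZR (rb_V.{u} (p := fun j V => V ≤ U j) fun j V => ¬ rb_co U L j V).S
      (subIn (rb_bad.{u} U) (rb_V fun j V => ¬ rb_co U L j V))) := by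
  refine rb_hg hZR (rb_V.{u} (p := fun j V => V ≤ U j) fun j V => ¬ rb_co U L j V).S _
    (fun n α x => ⟨⟨⟨(x.1.down.1.1, rb_F α x.1.down.1.2
    (fun V => V ⊔ L x.1.down.1.1) (fun a b h => sup_le_sup_right h _) fun i => le_sup_left),
    fun i => ?_⟩⟩, fun i => ?_⟩) (fun θ α x => rfl) (fun n α x hα => ?_) (fun n α x hx => ?_)
    (fun n α x hα => ?_) c
  · change (if α i = true then x.1.down.1.2 i ⊔ L x.1.down.1.1 else x.1.down.1.2 i) ≤ _
    split_ifs
    · exact sup_le (x.1.down.2 i) (hL _)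
    · exact x.1.down.2 i
  · change ¬ rb_co U L x.1.down.1.1
      (if α i = true then x.1.down.1.2 i ⊔ L x.1.down.1.1 else x.1.down.1.2 i)
    split_ifs
    · rintro ⟨-, h2, -⟩
      rw [inf_eq_right.2 le_sup_right] at h2
      exact hL0 _ h2
    · exact x.2 i
  · refine Subtype.ext (rb_ext rfl fun i => ?_)
    change (if α i = true then x.1.down.1.2 i ⊔ L x.1.down.1.1 else x.1.down.1.2 i) = _
    rw [hα i]
    rfl
  · rcases hx with hx | hx
    · left
      change (if α 0 = true then x.1.down.1.2 0 ⊔ L x.1.down.1.1 else x.1.down.1.2 0) ≠ ⊥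
      split_ifs
      · intro h
        exact hx (le_bot_iff.1 (h ▸ le_sup_left))
      · exact hx
    · right
      change (if α (Fin.last n) = true then x.1.down.1.2 (Fin.last n) ⊔ L x.1.down.1.1
        else x.1.down.1.2 (Fin.last n)) ≠ U x.1.down.1.1
      split_ifs
      · intro h
        rcases hat x.1.down.1.1 (x.1.down.1.2 (Fin.last n)) with h1 | h1
        · exact x.2 (Fin.last n) ⟨x.1.down.2 _, h1, h⟩
        · rw [sup_eq_left.2 h1] at h
          exact hx h
      · exact hx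
  · left
    change (if α 0 = true then x.1.down.1.2 0 ⊔ L x.1.down.1.1 else x.1.down.1.2 0) ≠ ⊥
    rw [if_pos (hα 0)]
    intro h
    exact hL0 _ (le_bot_iff.1 (h ▸ le_sup_right))

/-! ### the complements as a new family -/

section step

variable {J P : Type} [Lattice P] [OrderBot P] (U L : J → P)

/-- the new index set -/
def rb_J : Type := {x : J × P // rb_co U L x.1 x.2}

/-- the new family -/
def rb_U (x : rb_J U L) : P := x.1.2

/-- the vertices of the chains through a complement -/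
def rb_p (x : rb_J U L) (V : P) : Prop := V ≤ x.1.2 ∨ V = U x.1.1

/-- the chains which do not start with `⊥` or do not contain the complement -/
def rb_A : SubS (rb_X.{u} (rb_p U L)) where
  s n := {x | x.down.1.2 0 ≠ ⊥ ∨ ∀ i, x.down.1.2 i ≠ x.down.1.1.1.2}
  map_mem {m n} θ x h := by
    rcases h with h | h
    · left
      intro h1
      exact h (le_bot_iff.1 (h1 ▸ x.down.1.2.monotone (Fin.zero_le (θ 0))))
    · right
      exact fun i => h (θ i)

/-- (iii): all chains through complements, up to the chains without the complement -/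
theorem rb_E (hZR : St_ZR.{u}) (hL : ∀ j, L j ≤ U j) (hL0 : ∀ j, L j ≠ ⊥) (c : ℕ) :
    SAb.Triv c (ZR (rb_X.{u} (rb_p U L)) (rb_A U L)) := by
  have hU : ∀ x : rb_J U L, U x.1.1 ≠ ⊥ := fun x h => hL0 x.1.1 (le_bot_iff.1 (h ▸ hL _))
  have hne : ∀ x : rb_J U L, U x.1.1 ≠ x.1.2 := fun x h => by
    have h1 := x.2.2.1
    rw [← h, inf_eq_right.2 (hL _)] at h1
    exact hL0 _ h1
  have hle : ∀ {n : ℕ} (x : (rb_X.{u} (rb_p U L)).obj n) i,
      x.down.1.2 i ≤ U x.down.1.1.1.1 := fun x i => by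
    rcases x.down.2 i with h | h
    · exact h.trans x.down.1.1.2.1
    · exact h.le
  refine rb_hg hZR (rb_X.{u} (rb_p U L)) _ (fun n α x => ⟨⟨(x.down.1.1, rb_F α x.down.1.2
    (fun V => U x.down.1.1.1.1) (fun a b h => le_rfl) fun i => hle x i),
    fun i => ?_⟩⟩) (fun θ α x => rfl) (fun n α x hα => ?_) (fun n α x hx => ?_)
    (fun n α x hα => ?_) c
  · change rb_p U L x.down.1.1 (if α i = true then U x.down.1.1.1.1 else x.down.1.2 i)
    split_ifs
    · exact Or.inr rfl
    · exact x.down.2 i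
  · refine rb_ext rfl fun i => ?_
    change (if α i = true then U x.down.1.1.1.1 else x.down.1.2 i) = _
    rw [hα i]
    rfl
  · rcases hx with hx | hx
    · left
      change (if α 0 = true then U x.down.1.1.1.1 else x.down.1.2 0) ≠ ⊥
      split_ifs
      · exact hU _
      · exact hx
    · right
      intro i
      change (if α i = true then U x.down.1.1.1.1 else x.down.1.2 i) ≠ _
      split_ifs
      · exact hne _
      · exact hx i
  · left
    change (if α 0 = true then U x.down.1.1.1.1 else x.down.1.2 0) ≠ ⊥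
    rw [if_pos (hα 0)]
    exact hU _

/-- the chains up to the complements -/
theorem rb_D' (hZR : St_ZR.{u}) (hL : ∀ j, L j ≤ U j) (hL0 : ∀ j, L j ≠ ⊥) (r : ℕ)
    (ih : SAb.Triv r (ZR (rb_X.{u} fun x V => V ≤ rb_U U L x) (rb_bad (rb_U U L)))) :
    SAb.Triv r (ZR (rb_V.{u} (p := rb_p U L) fun x V => V ≠ U x.1.1).S
      (subIn (rb_A U L) (rb_V fun x V => V ≠ U x.1.1))) := by
  have hne : ∀ (x : rb_J U L) V, V ≤ x.1.2 → V ≠ U x.1.1 := fun x V hV h => by
    have h1 := x.2.2.1
    rw [inf_eq_right.2 ((hL _).trans (h ▸ hV))] at h1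
    exact hL0 _ h1
  let φ : rb_X.{u} (fun x V => V ≤ rb_U U L x) ⟶
      (rb_V.{u} (p := rb_p U L) fun x V => V ≠ U x.1.1).S :=
    ⟨fun n x => ⟨⟨⟨x.down.1, fun i => Or.inl (x.down.2 i)⟩⟩, fun i => hne _ _ (x.down.2 i)⟩,
      fun _ _ => rfl⟩
  obtain ⟨g, -, hg⟩ := hZR.2.2.2.2 _ _ (rb_bad (rb_U U L))
    (subIn (rb_A U L) (rb_V fun x V => V ≠ U x.1.1)) φ (fun n x hx => by
      rcases hx with hx | hx
      · exact Or.inl hx
      · refine Or.inr fun i h => hx (le_antisymm (x.down.2 _) ?_)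
        change x.down.1.1.1.2 ≤ _
        rw [← (show x.down.1.2 i = x.down.1.1.1.2 from h)]
        exact x.down.1.2.monotone (Fin.le_last i))
  refine rb_tr g (hg (fun n y _ => ⟨⟨⟨y.1.down.1, fun i => ?_⟩⟩, ?_, fun x hx => ?_⟩)
    fun n x hx => ?_) r ih
  · exact (y.1.down.2 i).resolve_right (y.2 i)
  · rfl
  · exact rb_ext (congrArg (fun z => z.1.down.1.1) hx) fun i =>
      congrArg (fun z => z.1.down.1.2 i) hx
  · rcases hx with hx | hx
    · exact Or.inl hx
    · exact Or.inr (hx (Fin.last n))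

/-- (ii): the chains which contain a complement -/
theorem rb_D (hZR : St_ZR.{u}) (hAb : St_AbEx.{u}) (hL : ∀ j, L j ≤ U j) (hL0 : ∀ j, L j ≠ ⊥)
    (hco : ∀ j H V, rb_co U L j H → H ≤ V → V ≤ U j → V = H ∨ V = U j) (r : ℕ)
    (ih : SAb.Triv r (ZR (rb_X.{u} fun x V => V ≤ rb_U U L x) (rb_bad (rb_U U L)))) :
    SAb.Triv (r + 1) (ZR (rb_X.{u} fun j V => V ≤ U j)
      (subUn (rb_bad U) (rb_V fun j V => ¬ rb_co U L j V))) := by
  have hne : ∀ j H, rb_co U L j H → H ≠ U j := fun j H h h1 => by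
    have h2 := h.2.1
    rw [h1, inf_eq_right.2 (hL _)] at h2
    exact hL0 _ h2
  have h1 : SAb.Triv (r + 1) (ZR (rb_X.{u} (rb_p U L))
      (subUn (rb_A U L) (rb_V fun x V => V ≠ U x.1.1))) := by
    obtain ⟨i, π, hs⟩ := hZR.1 (rb_X.{u} (rb_p U L)) (rb_A U L) (rb_V fun x V => V ≠ U x.1.1)
    exact rb_up π r ((hAb i π hs r).2.1 (rb_D' U L hZR hL hL0 r ih)) (rb_E U L hZR hL hL0)
  let f : rb_X.{u} (rb_p U L) ⟶ rb_X.{u} fun j V => V ≤ U j :=
    ⟨fun n x => ⟨⟨(x.down.1.1.1.1, x.down.1.2), fun i => by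
      rcases x.down.2 i with h | h
      · exact h.trans x.down.1.1.2.1
      · exact h.le⟩⟩, fun _ _ => rfl⟩
  obtain ⟨g, -, hg⟩ := hZR.2.2.2.2 _ _ (subUn (rb_A U L) (rb_V fun x V => V ≠ U x.1.1))
    (subUn (rb_bad U) (rb_V fun j V => ¬ rb_co U L j V)) f (fun n x hx => by
      rcases hx with (hx | hx) | hx
      · exact Or.inl (Or.inl hx)
      · refine Or.inr fun i h => ?_
        change rb_co U L x.down.1.1.1.1 (x.down.1.2 i) at h
        rcases x.down.2 i with h1 | h1
        · rcases hco _ _ _ h h1 x.down.1.1.2.1 with h2 | h2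
          · exact hx i h2.symm
          · exact hne _ _ x.down.1.1.2 h2
        · exact hne _ _ h h1
      · exact Or.inl (Or.inr (hx (Fin.last n))))
  refine rb_tr g (hg (fun n y hy => ?_) fun n x hx => ?_) (r + 1) h1
  · have hy0 : y.down.1.2 0 = ⊥ := by
      by_contra h
      exact hy (Or.inl (Or.inl h))
    have hy1 : ∃ i, rb_co U L y.down.1.1 (y.down.1.2 i) := by
      by_contra h
      exact hy (Or.inr (not_exists.1 h))
    obtain ⟨i, hi⟩ := hy1
    refine ⟨⟨⟨(⟨(y.down.1.1, y.down.1.2 i), hi⟩, y.down.1.2), fun i' => ?_⟩⟩, rfl, fun x hx => ?_⟩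
    · rcases le_total i' i with h | h
      · exact Or.inl (y.down.1.2.monotone h)
      · rcases hco _ _ _ hi (y.down.1.2.monotone h) (y.down.2 i') with h2 | h2
        · exact Or.inl h2.le
        · exact Or.inr h2
    · have e1 : x.down.1.1.1.1 = y.down.1.1 := congrArg (fun z => z.down.1.1) hx
      have e2 : ∀ i, x.down.1.2 i = y.down.1.2 i := fun i =>
        congrArg (fun z => z.down.1.2 i) hx
      refine rb_ext (Subtype.ext (Prod.ext e1 ?_)) e2
      change x.down.1.1.1.2 = y.down.1.2 i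
      rcases x.down.2 i with h | h
      · rw [e2] at h
        have h3 := x.down.1.1.2
        rcases hco _ _ _ (e1 ▸ hi) h h3.1 with h4 | h4
        · exact h4
        · exact absurd h4 (hne _ _ h3)
      · exact absurd ((e2 i).symm.trans (h.trans (congrArg U e1))) (hne _ _ hi)
  · rcases hx with (hx | hx) | hx
    · exact Or.inl (Or.inl hx)
    · refine Or.inr fun i h => hx (le_antisymm ?_ ?_)
      · rcases x.down.2 (Fin.last n) with h1 | h1
        · exact h1.trans x.down.1.1.2.1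
        · exact h1.le
      · change U x.down.1.1.1.1 ≤ _
        rw [← (show x.down.1.2 i = U x.down.1.1.1.1 from h)]
        exact x.down.1.2.monotone (Fin.le_last i)
    · refine Or.inl (Or.inr fun i h => hx i ?_)
      change rb_co U L x.down.1.1.1.1 (x.down.1.2 i)
      rw [(show x.down.1.2 i = x.down.1.1.1.2 from h)]
      exact x.down.1.1.2

/-- the induction step -/
theorem rb_step (hZR : St_ZR.{u}) (hAb : St_AbEx.{u}) (hL : ∀ j, L j ≤ U j)
    (hL0 : ∀ j, L j ≠ ⊥) (hat : ∀ j V, V ⊓ L j = ⊥ ∨ L j ≤ V)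
    (hco : ∀ j H V, rb_co U L j H → H ≤ V → V ≤ U j → V = H ∨ V = U j) (r : ℕ)
    (ih : SAb.Triv r (ZR (rb_X.{u} fun x V => V ≤ rb_U U L x) (rb_bad (rb_U U L)))) :
    SAb.Triv (r + 1) (ZR (rb_X.{u} fun j V => V ≤ U j) (rb_bad U)) := by
  obtain ⟨i, π, hs⟩ := hZR.1 (rb_X.{u} fun j V => V ≤ U j) (rb_bad U)
    (rb_V fun j V => ¬ rb_co U L j V)
  exact (hAb i π hs (r + 1)).1 (rb_i hZR U L hL hL0 hat _) (rb_D U L hZR hAb hL hL0 hco r ih)

end step

/-! ### subspaces -/

theorem rb_main (hZR : St_ZR.{u}) (hAb : St_AbEx.{u}) (k W : Type) [Field k] [AddCommGroup W]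
    [Module k W] [FiniteDimensional k W] : ∀ (r : ℕ) (J : Type) (U : J → Submodule k W),
    (∀ j, Module.finrank k (U j) = r) →
      SAb.Triv r (ZR (rb_X.{u} fun j V => V ≤ U j) (rb_bad U)) := by
  intro r
  induction r with
  | zero => exact fun J U _ j hj => absurd hj (Nat.not_lt_zero j)
  | succ r ih =>
    intro J U hU
    have hex : ∀ j, ∃ v ∈ U j, v ≠ 0 := fun j => by
      refine Submodule.exists_mem_ne_zero_of_ne_bot fun h => ?_
      have := hU j
      rw [h, finrank_bot] at this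
      omega
    choose v hv hv0 using hex
    have hfr : ∀ j, Module.finrank k (Submodule.span k {v j}) = 1 := fun j =>
      finrank_span_singleton (hv0 j)
    have hcr : ∀ j H, rb_co U (fun j => Submodule.span k {v j}) j H →
        Module.finrank k H = r := fun j H h => by
      have h1 := Submodule.finrank_sup_add_finrank_inf_eq H (Submodule.span k {v j})
      rw [h.2.1, h.2.2, hU, hfr, finrank_bot] at h1
      omega
    refine rb_step U (fun j => Submodule.span k {v j}) hZR hAb (fun j => ?_) (fun j h => ?_)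
      (fun j V => ?_) (fun j H V hH h1 h2 => ?_) r (ih _ _ fun x => hcr _ _ x.2)
    · exact (Submodule.span_singleton_le_iff_mem _ _).2 (hv j)
    · exact hv0 j (Submodule.span_singleton_eq_bot.1 h)
    · have h1 := (nonzero_span_atom (K := k) (v j) (hv0 j)).le_iff.1
        (inf_le_right : V ⊓ Submodule.span k {v j} ≤ _)
      rcases h1 with h1 | h1
      · exact Or.inl h1
      · exact Or.inr (inf_eq_right.1 h1)
    · have h3 := Submodule.finrank_mono h1
      have h4 := Submodule.finrank_mono h2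
      have h5 := hcr j H hH
      have h6 := hU j
      rcases Nat.lt_or_ge (Module.finrank k V) (r + 1) with h7 | h7
      · left
        exact (Submodule.eq_of_le_of_finrank_eq h1 (by omega)).symm
      · right
        exact Submodule.eq_of_le_of_finrank_eq h2 (by omega)

/-- **R1.** THE THEOREM OF SOLOMON AND TITS -/
theorem thm_RB (hZR : St_ZR.{u}) (hAb : St_AbEx.{u}) : St_RB.{u} := by
  intro k W _ _ _ _
  have h1 := rb_main hZR hAb k W (Module.finrank k W) Unit (fun _ => ⊤) fun _ => finrank_top k W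
  let φ : nvS.{u} (Submodule k W) ⟶
      rb_X.{u} (J := Unit) fun j V => V ≤ (fun _ => ⊤ : Unit → Submodule k W) j :=
    ⟨fun n x => ⟨⟨((), x.down), fun i => le_top⟩⟩, fun _ _ => rfl⟩
  obtain ⟨g, -, hg⟩ := hZR.2.2.2.2 _ _ (badS.{u} (Submodule k W))
    (rb_bad (fun _ => ⊤ : Unit → Submodule k W)) φ (fun n x hx => hx)
  refine rb_tr' g (hg (fun n y _ => ⟨⟨y.down.1.2⟩, ?_, fun x hx => ?_⟩) fun n x hx => hx) _ h1
  · exact rb_ext rfl fun i => rfl
  · exact ULift.ext _ _ (congrArg (fun z => z.down.1.2) hx)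

end Pool.Agent.FGK
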