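import Pool.Agent.FGK.StA
import Pool.Agent.KQ.BD
import Pool.Agent.KQ.HT
import Pool.Agent.KQ.DC
import Pool.Agent.KQ.RL

/-!
# FGK, B3: the realisation lemma for a map which is an isomorphism on the row `0`
-/

set_option autoImplicit false

namespace Pool.Agent.FGK

open CategoryTheory Function Pool.Agent.KQ

universe u

/-- the decalage, on the diagonal: only the row `0` matters -/
theorem realup_dec {G H : SOb SGp.{u}} (f : G ⟶ H) (hf : SGp.Weq (f.app 0)) (j : ℕ) :
    Bijective (SGp.PiMap (SGp.diagF.map (RL_dec f)) j) := by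
  have hD : St_Dec.{u} := thm_Dec thm_Htpy
  have hsq : decAug G ≫ f.app 0 = SGp.diagF.map (RL_dec f) ≫ decAug H :=
    SGp.hom_ext fun n x => RL_natk f (v0 (n + 1)) n x
  have h1 : Bijective (SGp.PiMap (decAug G) j) := hD G j
  have h2 : Bijective (SGp.PiMap (decAug H) j) := hD H j
  have hs := fun x => RL_sq (SGp.diagF.map (RL_dec f)) (f.app 0) hsq j x
  constructor
  · intro x x' hx
    apply h1.1
    apply (hf j).1
    exact (hs x).trans ((congrArg _ hx).trans (hs x').symm)
  · intro y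
    obtain ⟨w, hw⟩ := (hf j).2 (SGp.PiMap (decAug H) j y)
    obtain ⟨x, rfl⟩ := h1.2 w
    exact ⟨x, h2.1 ((hs x).symm.trans hw)⟩

/-- **B3** -/
theorem thm_RealUp : St_RealUp.{u} := by
  intro d G H f hf h0
  have hReal : St_Real.{u} := thm_Real thm_Bd thm_Bd0 thm_BdNat thm_Split (thm_Dec thm_Htpy)
  have ha := realup_dec f h0
  have hk : SGp.Conn d (SGp.kerMap (SGp.diagF.map (RL_dec f)) (SGp.diagF.map f)
      (RL_square f)) := hReal d (RL_omM f) (RL_omConn thm_Split f hf)
  have hsurj : ∀ j ≤ d + 1, Surjective (SGp.PiMap (SGp.diagF.map f) j) := by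
    intro j hj
    cases j with
    | zero =>
      exact RL_S0 (SGp.diagF.map (RL_dec f)) (SGp.diagF.map f) (RL_square f) thm_Bd0
        (RL_surj H) (ha 0).2
    | succ j =>
      exact RL_S (SGp.diagF.map (RL_dec f)) (SGp.diagF.map f) (RL_square f) thm_Bd thm_BdNat
        (RL_surj G) (RL_surj H) j (ha (j + 1)).2 (ha j).1 (RL_conn_surj hk (by omega))
  have hinj : ∀ j ≤ d, Injective (SGp.PiMap (SGp.diagF.map f) j) := by
    intro j hj
    cases j with
    | zero =>
      exact RL_I0 (SGp.diagF.map (RL_dec f)) (SGp.diagF.map f) (RL_square f) thm_Bd0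
        (RL_surj G) (RL_surj H) (ha 0).1 (RL_conn_surj hk (Nat.zero_le d))
    | succ j =>
      exact RL_I (SGp.diagF.map (RL_dec f)) (SGp.diagF.map f) (RL_square f) thm_Bd thm_Bd0
        thm_BdNat (RL_surj G) (RL_surj H) j (ha (j + 1)).1 (RL_conn_surj hk hj)
        (hk.1 j (by omega)).1
  exact ⟨fun j hj => ⟨hinj j (by omega), hsurj j (by omega)⟩, hsurj (d + 1) le_rfl⟩

end Pool.Agent.FGK
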