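import Pool.Agent.FGK.StD
import Pool.Agent.FGK.Prods

/-!
# FGK RkConn: the inclusion of the rank filtration is connected on homology
-/

set_option autoImplicit false
set_option linter.unusedVariables false

noncomputable section

namespace Pool.Agent.FGK

open CategoryTheory CategoryTheory.Limits Function Pool.Agent.KQ

universe u

theorem rkconn_Z {G H : SGp.{u}} (f : G ⟶ H) (hf : ∀ m, Injective (f.app m)) {n : ℕ}
    {x : G.obj n} (h : f.app n x ∈ H.Z n) : x ∈ G.Z n := by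
  cases n with
  | zero => trivial
  | succ n =>
    rw [SGp.mem_Z_succ] at h ⊢
    intro i
    apply hf
    rw [f.nat, h, map_one]

theorem rkconn_N {G H : SGp.{u}} (f : G ⟶ H) (hf : ∀ m, Injective (f.app m)) {n : ℕ}
    {x : G.obj (n + 1)} (h : ∀ i : Fin (n + 1), H.map (dl i.succ) (f.app (n + 1) x) = 1)
    (i : Fin (n + 1)) : G.map (dl i.succ) x = 1 := by
  apply hf
  rw [f.nat, h, map_one]

/-- a map to a union -/
theorem rkconn_union {G H : SGp.{u}} (c : ℕ) (f : G ⟶ H)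
    (hyp : ∀ (n : ℕ) (y : H.obj n), ∃ (K : SGp.{u}) (a : G ⟶ K) (b : K ⟶ H), a ≫ b = f ∧
      (∀ m, Injective (b.app m)) ∧ SGp.Conn c a ∧ ∃ z, b.app n z = y) : SGp.Conn c f := by
  have hs : ∀ j ≤ c, Surjective (SGp.PiMap f j) := by
    intro j hj x
    obtain ⟨z, rfl⟩ := H.cls_surj j x
    obtain ⟨K, a, b, hab, hb, hc, w, hw⟩ := hyp j z.1
    have hwZ : w ∈ K.Z j := rkconn_Z b hb (by rw [hw]; exact z.2)
    have hsa : Surjective (SGp.PiMap a j) := by
      rcases hj.lt_or_eq with h | h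
      · exact (hc.1 j h).2
      · rw [h]
        exact hc.2
    obtain ⟨v, hv⟩ := hsa (K.cls j ⟨w, hwZ⟩)
    refine ⟨v, ?_⟩
    rw [← hab, SGp.PiMap_comp, hv, SGp.PiMap_cls]
    congr 1
    exact Subtype.ext hw
  refine ⟨fun j hj => ⟨?_, hs j hj.le⟩, hs c le_rfl⟩
  rw [injective_iff_map_eq_one]
  intro x hx
  obtain ⟨z, rfl⟩ := G.cls_surj j x
  rw [SGp.PiMap_cls, SGp.cls_eq_one, SGp.mem_B] at hx
  obtain ⟨y, hy, hy0⟩ := hx
  obtain ⟨K, a, b, hab, hb, hc, w, hw⟩ := hyp (j + 1) y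
  have hwN : ∀ i : Fin (j + 1), K.map (dl i.succ) w = 1 :=
    rkconn_N b hb (by rw [hw]; exact hy)
  apply (hc.1 j hj).1
  rw [map_one, SGp.PiMap_cls, SGp.cls_eq_one, SGp.mem_B]
  refine ⟨w, hwN, hb j ?_⟩
  rw [b.nat, hw, hy0]
  subst hab
  rfl

/-! ### increasing sequences of simplicial subsets -/

/-- the inclusion of a simplicial subset in a larger one -/
def rkconn_inc {X : SSt.{u}} (A B : SubS X) (h : ∀ n x, x ∈ A.s n → x ∈ B.s n) : A.S ⟶ B.S :=
  ⟨fun n x => ⟨x.1, h n x.1 x.2⟩, fun _ _ => rfl⟩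

theorem rkconn_mono {c d : ℕ} (h : d ≤ c) {X Y : SAb.{u}} {f : X ⟶ Y} (hf : SAb.Conn c f) :
    SAb.Conn d f := by
  refine ⟨fun j hj => hf.1 j (hj.trans_le h), ?_⟩
  rcases h.lt_or_eq with h | h
  · exact (hf.1 d h).2
  · rw [h]
    exact hf.2

/-- the value of `ZSmap g` -/
theorem rkconn_ZSmap {Y Y' : SSt.{u}} (g : Y ⟶ Y') (n : ℕ) (z : (ZS Y).obj n) :
    (ZSmap g).app n z = (Finsupp.mapDomain (g.app n) (z : Y.obj n →₀ ULift.{u} ℤ)) := by
  change Finsupp.mapDomain (g.app n) (Finsupp.mapRange (fun x : ULift.{u} ℤ => x) rfl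
    (z : Y.obj n →₀ ULift.{u} ℤ)) = _
  congr 1
  ext x
  rfl

theorem rkconn_inj {Y Y' : SSt.{u}} (g : Y ⟶ Y') (hg : ∀ n, Injective (g.app n)) (n : ℕ) :
    Injective ((ZSmap g).app n) := by
  intro a b h
  rw [rkconn_ZSmap, rkconn_ZSmap] at h
  exact Finsupp.mapDomain_injective (hg n) h

/-- the union of an increasing sequence of simplicial subsets -/
theorem rkconn_seq {X : SSt.{u}} (A : ℕ → SubS X)
    (hA : ∀ s t, s ≤ t → ∀ n x, x ∈ (A s).s n → x ∈ (A t).s n)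
    (hX : ∀ n x, ∃ s, x ∈ (A s).s n) (r : ℕ)
    (hr : ∀ t, ∀ h : r ≤ t, SAb.Conn r (ZSmap (rkconn_inc (A r) (A t) (hA r t h)))) :
    SAb.Conn r (ZSmap (A r).ι) := by
  have key : ∀ (n : ℕ) (y : (ZS X).obj n), ∃ t, ∃ _ : r ≤ t, ∃ z : (ZS (A t).S).obj n,
      (ZSmap (A t).ι).app n z = y := by
    intro n y
    have h : ∀ y : X.obj n →₀ ULift.{u} ℤ, ∃ t, ∃ _ : r ≤ t, ∃ z : (ZS (A t).S).obj n,
        (ZSmap (A t).ι).app n z = y := by
      intro y
      induction y using Finsupp.induction_linear with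
      | zero => exact ⟨r, le_rfl, 0, map_zero _⟩
      | add a b ha hb =>
        obtain ⟨t, ht, z, hz⟩ := ha
        obtain ⟨t', ht', z', hz'⟩ := hb
        have e : ∀ (s s' : ℕ) (h : s ≤ s') (w : (ZS (A s).S).obj n),
            (ZSmap (A s').ι).app n ((ZSmap (rkconn_inc (A s) (A s') (hA s s' h))).app n w) =
              (ZSmap (A s).ι).app n w := by
          intro s s' h w
          rw [← SAb.comp_app, ← prods_ZSmap_comp]
          rfl
        refine ⟨max t t', ht.trans (le_max_left _ _),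
          (ZSmap (rkconn_inc (A t) (A (max t t')) (hA _ _ (le_max_left _ _)))).app n z +
          (ZSmap (rkconn_inc (A t') (A (max t t')) (hA _ _ (le_max_right _ _)))).app n z', ?_⟩
        rw [map_add, e _ _ (le_max_left _ _), e _ _ (le_max_right _ _), hz, hz']
        rfl
      | single x c =>
        obtain ⟨s, hs⟩ := hX n x
        refine ⟨max r s, le_max_left _ _,
          (Finsupp.single ⟨x, hA s _ (le_max_right _ _) n x hs⟩ c :
            (A (max r s)).S.obj n →₀ ULift.{u} ℤ), ?_⟩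
        rw [rkconn_ZSmap]
        exact Finsupp.mapDomain_single
    exact h y
  refine rkconn_union r _ fun n y => ?_
  obtain ⟨t, ht, z, hz⟩ := key n y
  refine ⟨SAb.gp.obj (ZS (A t).S), SAb.gp.map (ZSmap (rkconn_inc (A r) (A t) (hA r t ht))),
    SAb.gp.map (ZSmap (A t).ι), ?_, ?_, hr t ht, z, hz⟩
  · rw [← SAb.gp.map_comp, ← prods_ZSmap_comp]
    rfl
  · intro m
    exact rkconn_inj (A t).ι (fun n => Subtype.val_injective) m

theorem rkconn_step {X : SSt.{u}} (A B : SubS X) (h : ∀ n x, x ∈ A.s n → x ∈ B.s n) (s : ℕ)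
    (hs : SAb.Conn s (ZSmap (subIn A B).ι)) : SAb.Conn s (ZSmap (rkconn_inc A B h)) := by
  let φ : A.S ⟶ (subIn A B).S := ⟨fun n x => ⟨⟨x.1, h n x.1 x.2⟩, x.2⟩, fun _ _ => rfl⟩
  let ψ : (subIn A B).S ⟶ A.S := ⟨fun n x => ⟨x.1.1, x.2⟩, fun _ _ => rfl⟩
  have e : rkconn_inc A B h = φ ≫ (subIn A B).ι := rfl
  rw [e, prods_ZSmap_comp]
  refine prods_conn_comp (prods_weq_conn s (prods_iso_weq (ZSmap φ) (ZSmap ψ) ?_ ?_)) hs
  · rw [← prods_ZSmap_comp, show φ ≫ ψ = 𝟙 _ from rfl, prods_ZSmap_id]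
  · rw [← prods_ZSmap_comp, show ψ ≫ φ = 𝟙 _ from rfl, prods_ZSmap_id]

theorem thm_RkConn (hZR : St_ZR.{1}) (hAb : St_AbEx.{1}) (hT : St_RkTriv) : St_RkConn := by
  intro k _ r
  have hA : ∀ s t, s ≤ t → ∀ n x, x ∈ (rkS k s).s n → x ∈ (rkS k t).s n := by
    intro s t h n x hx
    exact le_trans hx h
  have h1 : ∀ s, SAb.Conn s (ZSmap (rkconn_inc (rkS k s) (rkS k (s + 1))
      (hA s (s + 1) (Nat.le_succ s)))) := by
    intro s
    refine rkconn_step _ _ _ s ?_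
    obtain ⟨π, hπ⟩ := hZR.2.1 (rkS k (s + 1)).S (subIn (rkS k s) (rkS k (s + 1)))
    have h2 := hT k s
    have h3 := (hAb _ _ hπ (s + 1)).2.2.2.2.1 h2
    have h4 := (hAb _ _ hπ s).2.2.2.2.2.1 h2
    exact ⟨h4, h3 s (Nat.lt_succ_self s)⟩
  refine rkconn_seq (rkS k) hA (fun n x => ⟨Module.finrank k (topE x), le_refl (Module.finrank k (topE x))⟩) r ?_
  intro t ht
  induction t, ht using Nat.le_induction with
  | base =>
    have e : rkconn_inc (rkS k r) (rkS k r) (hA r r le_rfl) = 𝟙 _ := rfl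
    rw [e, prods_ZSmap_id]
    exact prods_weq_conn r (prods_iso_weq (𝟙 _) (𝟙 _) (Category.comp_id _) (Category.comp_id _))
  | succ t ht ih =>
    have e : rkconn_inc (rkS k r) (rkS k (t + 1)) (hA r (t + 1) (ht.trans (Nat.le_succ t))) =
      rkconn_inc (rkS k r) (rkS k t) (hA r t ht) ≫
      rkconn_inc (rkS k t) (rkS k (t + 1)) (hA t (t + 1) (Nat.le_succ t)) := rfl
    rw [e, prods_ZSmap_comp]
    exact prods_conn_comp ih (rkconn_mono ht (h1 t))

end Pool.Agent.FGK
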