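import Pool.Agent.FGK.StD

/-!
# FGK RkTriv: the quotients of the rank filtration
-/

set_option autoImplicit false
set_option linter.unusedVariables false

noncomputable section

namespace Pool.Agent.FGK

open CategoryTheory CategoryTheory.Limits Function Pool.Agent.KQ

theorem thm_RkTriv (hRB : St_RB.{1}) (hPS : St_PStr) (hPQ : St_PQ) (hOrb : St_Orb.{1}) : St_RkTriv := by
  intro k _ r
  have h1 := hRB k (Fin (r + 1) → k)
  have hd : Module.finrank k (Fin (r + 1) → k) = r + 1 := Module.finrank_fin_fun k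
  obtain ⟨f, act, a1, a2, a3, a4, a5, a6, a7⟩ := hPQ k (Fin (r + 1) → k) r hd
  refine hOrb (r + 1) ((Fin (r + 1) → k) ≃ₗ[k] (Fin (r + 1) → k)) (badP k (Fin (r + 1) → k))
    (subIn (rkS k r) (rkS k (r + 1))) f act a1 a2 a3 a4 a5 a6 a7 ?_
  rw [hd] at h1
  exact hPS k (Fin (r + 1) → k) (r + 1) h1

end Pool.Agent.FGK
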