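import Pool.Agent.FGK.StA

/-!
# FGK: slender groups: subgroups, quotients, extensions
-/

set_option autoImplicit false
set_option linter.unusedVariables false

namespace Pool.Agent.FGK

open CategoryTheory Function Pool.Agent.KQ

universe u

theorem sl_inj {G H : Type u} [Group G] [Group H] (f : H →* G) (hf : Injective f) (hG : Sl G) :
    Sl H := by
  intro K
  have h1 : Group.FG (K.map f) := (Group.fg_iff_subgroup_fg _).2 (hG (K.map f))
  refine (Group.fg_iff_subgroup_fg _).1 ?_
  exact Group.fg_of_surjective (f := (K.equivMapOfInjective f hf).symm.toMonoidHom)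
    (K.equivMapOfInjective f hf).symm.surjective

theorem sl_surj {G H : Type u} [Group G] [Group H] (f : G →* H) (hf : Surjective f) (hG : Sl G) :
    Sl H := by
  classical
  intro K
  obtain ⟨S, hS⟩ := hG (K.comap f)
  refine ⟨S.image f, ?_⟩
  rw [Finset.coe_image, ← MonoidHom.map_closure, hS,
    Subgroup.map_comap_eq_self_of_surjective hf]

theorem sl_ext {A B C : Type u} [Group A] [Group B] [Group C] (f : A →* B) (g : B →* C)
    (h : ∀ b, g b = 1 → ∃ a, f a = b) (hA : Sl A) (hC : Sl C) : Sl B := by
  classical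
  intro H
  obtain ⟨S, hS⟩ := hC (H.map g)
  obtain ⟨S', hS'⟩ := hA (H.comap f)
  have hc : ∀ s : C, s ∈ S → ∃ b ∈ H, g b = s := by
    intro s hs
    have h1 : s ∈ H.map g := by
      rw [← hS]
      exact Subgroup.subset_closure hs
    exact h1
  choose! σ hσ1 hσ2 using hc
  refine ⟨S.image σ ∪ S'.image f, le_antisymm ?_ ?_⟩
  · rw [Subgroup.closure_le]
    intro b hb
    rw [Finset.coe_union, Set.mem_union, Finset.mem_coe, Finset.mem_coe, Finset.mem_image,
      Finset.mem_image] at hb
    rcases hb with ⟨s, hs, rfl⟩ | ⟨a, ha, rfl⟩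
    · exact hσ1 s hs
    · have h1 : a ∈ H.comap f := by
        rw [← hS']
        exact Subgroup.subset_closure ha
      exact h1
  · intro b hb
    have h1 : (Subgroup.closure (σ '' (S : Set C))).map g = H.map g := by
      rw [MonoidHom.map_closure, ← hS]
      congr 1
      ext c
      constructor
      · rintro ⟨_, ⟨s, hs, rfl⟩, rfl⟩
        rw [hσ2 s hs]
        exact hs
      · intro hc
        exact ⟨σ c, ⟨c, hc, rfl⟩, hσ2 c hc⟩
    have h2 : g b ∈ (Subgroup.closure (σ '' (S : Set C))).map g := by
      rw [h1]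
      exact ⟨b, hb, rfl⟩
    obtain ⟨p, hp, hpb⟩ := h2
    have hpH : p ∈ H := by
      have h3 : Subgroup.closure (σ '' (S : Set C)) ≤ H := by
        rw [Subgroup.closure_le]
        rintro _ ⟨s, hs, rfl⟩
        exact hσ1 s hs
      exact h3 hp
    obtain ⟨a, ha⟩ := h (p⁻¹ * b) (by rw [map_mul, map_inv, hpb, inv_mul_cancel])
    have haH : a ∈ H.comap f := by
      rw [Subgroup.mem_comap, ha]
      exact H.mul_mem (H.inv_mem hpH) hb
    have h4 : f a ∈ Subgroup.closure (f '' (S' : Set A)) := by
      rw [← hS'] at haH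
      have h5 := Subgroup.mem_map_of_mem f haH
      rwa [MonoidHom.map_closure] at h5
    have h6 : b = p * f a := by
      rw [ha, mul_inv_cancel_left]
    rw [h6, Finset.coe_union, Finset.coe_image, Finset.coe_image]
    refine Subgroup.mul_mem _ ?_ ?_
    · exact Subgroup.closure_mono Set.subset_union_left hp
    · exact Subgroup.closure_mono Set.subset_union_right h4

theorem thm_Sl : St_Sl :=
  ⟨fun f hf hG => sl_inj f hf hG, fun f hf hG => sl_surj f hf hG,
    fun f g h hA hC => sl_ext f g h hA hC⟩

end Pool.Agent.FGK
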