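import Pool.Agent.FGK.StA
import Pool.Agent.KQ.RL

/-!
# FGK, A3: bisimplicial groups with slender homotopy groups of the rows
-/

set_option autoImplicit false

namespace Pool.Agent.FGK

open CategoryTheory Function Pool.Agent.KQ

universe u

/-- the rows of the kernel of the projection of the decalage -/
theorem sldiag_om (hSl : St_Sl.{u}) (hS : St_Split.{u}) (G : SOb SGp.{u}) (J : ℕ)
    (h : ∀ m, ∀ q ≤ J, Sl ((G.obj m).Pi q)) (m q : ℕ) (hq : q ≤ J) :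
    Sl (((RL_om G).obj m).Pi q) :=
  hSl.1 (SGp.PiMap (SGp.kerι (G.map (dl 0) : G.obj (m + 1) ⟶ G.obj m)) q)
    (hS (G.map (dl 0) : G.obj (m + 1) ⟶ G.obj m) (G.map (sg 0)) (RL_sec G m) q).1
    (h (m + 1) q hq)

/-- the diagonal of the decalage -/
theorem sldiag_dec (hSl : St_Sl.{u}) (hD : St_Dec.{u}) (G : SOb SGp.{u}) (j : ℕ)
    (h : Sl ((G.obj 0).Pi j)) : Sl ((SGp.diag G.dec).Pi j) :=
  hSl.1 (SGp.PiMap (decAug G) j) (hD G j).1 h

/-- **A3** -/
theorem thm_SlDiag (hSl : St_Sl.{u}) (hBd : KQ.St_Bd.{u}) (hBd0 : KQ.St_Bd0.{u})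
    (hS : KQ.St_Split.{u}) (hD : KQ.St_Dec.{u}) : St_SlDiag.{u} := by
  intro G J hG j
  induction j generalizing G with
  | zero =>
    intro _
    exact hSl.2.1 (SGp.PiMap (SGp.diagF.map G.decπ) 0) (hBd0 _ (RL_surj G)).2
      (sldiag_dec hSl hD G 0 (hG 0 0 (Nat.zero_le J)))
  | succ j ih =>
    intro hj
    obtain ⟨δ, -, d2, -⟩ := hBd (SGp.diagF.map G.decπ) (RL_surj G) j
    exact hSl.2.2 (SGp.PiMap (SGp.diagF.map G.decπ) (j + 1)) δ (fun b hb => (d2 b).1 hb)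
      (sldiag_dec hSl hD G (j + 1) (hG 0 (j + 1) hj))
      (ih (RL_om G) (sldiag_om hSl hS G J hG) (by omega))

end Pool.Agent.FGK
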