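import Pool.Agent.FGK.StA

/-!
# FGK: finitely generated abelian groups are slender; homology of finite simplicial sets (A2)

Hypothesis: `St_Sl` (A1).
-/

set_option autoImplicit false
set_option linter.unusedVariables false

namespace Pool.Agent.FGK

open CategoryTheory Function Pool.Agent.KQ

universe u

theorem slfin_fg (A : Type u) [AddCommGroup A] (hA : AddGroup.FG A) : Sl (Multiplicative A) := by
  intro H
  have : Module.Finite ℤ A := Module.Finite.iff_addGroup_fg.2 hA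
  have : IsNoetherian ℤ A := isNoetherian_of_isNoetherianRing_of_finite ℤ A
  have h1 : (AddSubgroup.toIntSubmodule (AddSubgroup.toSubgroup.symm H)).FG :=
    IsNoetherian.noetherian _
  have h2 := (Submodule.fg_iff_addSubgroup_fg _).1 h1
  rw [AddSubgroup.toIntSubmodule_toAddSubgroup] at h2
  have h3 := (AddSubgroup.fg_iff_mul_fg _).1 h2
  rwa [OrderIso.apply_symm_apply] at h3

theorem slfin_finsupp (X : Type u) (hX : Finite X) : AddGroup.FG (X →₀ ULift.{u} ℤ) := by
  have : Module.Finite ℤ (ULift.{u} ℤ) :=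
    Module.Finite.equiv (ULift.moduleEquiv (R := ℤ) (M := ℤ)).symm
  exact Module.Finite.iff_addGroup_fg.1 (inferInstanceAs (Module.Finite ℤ (X →₀ ULift.{u} ℤ)))

theorem slfin_fin (hSl : St_Sl.{u}) (Y : SSt.{u}) (hY : ∀ n, Finite (Y.obj n)) (j : ℕ) :
    HSl Y j := by
  have h1 : Sl (Multiplicative (Y.obj j →₀ ULift.{u} ℤ)) :=
    slfin_fg _ (slfin_finsupp _ (hY j))
  have h2 : Sl ((SAb.gp.obj (ZS Y)).Z j) :=
    hSl.1 ((SAb.gp.obj (ZS Y)).Z j).subtype Subtype.val_injective h1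
  exact hSl.2.1 ((SAb.gp.obj (ZS Y)).cls j) ((SAb.gp.obj (ZS Y)).cls_surj j) h2

theorem thm_SlFin (hSl : St_Sl.{u}) : St_SlFin.{u} := by
  refine ⟨fun A _ hA => slfin_fg A hA, slfin_fin hSl, fun Y hY j => ?_⟩
  obtain ⟨Y', g, h1, h2⟩ := hY j
  exact hSl.2.1 (SGp.PiMap (SAb.gp.map (ZSmap g)) j) h2.2 (slfin_fin hSl Y' h1 j)

end Pool.Agent.FGK
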