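import Pool.Agent.FGK.StD
import Pool.Agent.KQ.Core
import Pool.Agent.KQ.SPR2

/-!
# FGK: the k-fold construction of an S-construction (helper50)
-/

set_option autoImplicit false
set_option linter.unusedVariables false

noncomputable section

namespace Pool.Agent.FGK

open CategoryTheory CategoryTheory.Limits Function Pool.Agent.KQ

universe u

/-! ### the flip -/

theorem spk_flip_mem (E : ExCat.{u}) (I J : Type) [Preorder I] [Preorder J]
    (D : Ar I ⥤ Ar J ⥤ E.C) (h : ((E.S J).SP I).Q D) : ((E.S I).SP J).Q D.flip :=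
  ⟨fun y => ⟨fun x => (h.1 x).1 y, fun i => (isZero_functor _).1 (h.2.1 i) y,
    fun i j k hij hjk => (ses_functor _ _).1 (h.2.2 i j k hij hjk) y⟩,
    fun j => (isZero_functor _).2 fun x => (h.1 x).2.1 j,
    fun i j k hij hjk => (ses_functor _ _).2 fun x => (h.1 x).2.2 i j k hij hjk⟩

/-- the flip `S_I S_J E ⟶ S_J S_I E` -/
def spk_flip (E : ExCat.{u}) (I J : Type) [Preorder I] [Preorder J] :
    ExFun ((E.S J).S I) ((E.S I).S J) where
  F :=
    { obj := fun D => ⟨Functor.flip D.obj, spk_flip_mem E I J D.obj D.property⟩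
      map := fun {D D'} τ => ObjectProperty.homMk
        ((flipFunctor (Ar I) (Ar J) E.C).map τ.hom)
      map_id := fun _ => rfl
      map_comp := fun _ _ => rfl }
  add _ _ := rfl
  exact {X Y Z} f g hc := (ses_functor _ _).2 fun y => (ses_functor _ _).2 fun x =>
    (ses_functor _ _).1 ((ses_functor f.hom g.hom).1 hc x) y

theorem spk_flip_flip (E : ExCat.{u}) (I J : Type) [Preorder I] [Preorder J] :
    (spk_flip E I J).comp (spk_flip E J I) = ExFun.id _ := rfl

theorem spk_flip_ev (E : ExCat.{u}) (I J : Type) [Preorder I] [Preorder J] (y : Ar J) :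
    (E.ev y).S I = (spk_flip E I J).comp ((E.S I).ev y) := rfl

/-! ### bisimplicial powers -/

/-- the power of a bisimplicial set -/
def spk_pow (X : SOb SSt.{u}) (p : ℕ) : SOb SSt.{u} where
  obj m := (X.obj m).pow p
  map θ := SSt.powMap (X.map θ) p
  map_id m := by
    rw [X.map_id]
    rfl
  map_comp f g := by
    rw [X.map_comp]
    rfl

/-- a family of maps of bisimplicial sets as a map to the power -/
def spk_lift {X Y : SOb SSt.{u}} (p : ℕ) (f : Fin p → (X ⟶ Y)) : X ⟶ spk_pow Y p :=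
  ⟨fun m => ⟨fun n x i => ((f i).app m).app n x, fun θ x => funext fun i =>
    ((f i).app m).nat θ x⟩, fun {m n} θ => SSt.hom_ext fun l x => funext fun i =>
    congrArg (fun e : X.obj n ⟶ Y.obj m => e.app l x) ((f i).nat θ)⟩

/-! ### the rows -/

/-- the simplicial set of objects of the `κ`-fold construction -/
def spk_P (κ : ℕ) : ExCat.{u} ⥤ SSt.{u + 1} := itS Sd κ ⋙ obS

/-- the bisimplicial set with the rows `ob S^κ (S_m E)` -/
def spk_Rw (κ : ℕ) : ExCat.{u} ⥤ SOb SSt.{u + 1} := Sd ⋙ SOb.mapF (spk_P κ)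

/-- the evaluations -/
def spk_ev (E : ExCat.{u}) (p : ℕ) (i : Fin p) : E.S (Fin (p + 1)) ⟶ E :=
  E.ev (ar i.castSucc i.succ (Fin.castSucc_le_succ i))

/-- the flip as an isomorphism -/
theorem spk_flip_strong (κ : ℕ) (E : ExCat.{u}) (I J : Type) [Preorder I] [Preorder J] :
    SSt.Strong ((spk_P κ).map (X := (E.S J).S I) (Y := (E.S I).S J) (spk_flip E I J)) := by
  let a : (E.S J).S I ⟶ (E.S I).S J := spk_flip E I J
  let b : (E.S I).S J ⟶ (E.S J).S I := spk_flip E J I
  have h1 : (spk_P κ).map a ≫ (spk_P κ).map b = 𝟙 _ := by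
    rw [← Functor.map_comp, show a ≫ b = 𝟙 _ from rfl, CategoryTheory.Functor.map_id]
  have h2 : (spk_P κ).map b ≫ (spk_P κ).map a = 𝟙 _ := by
    rw [← Functor.map_comp, show b ≫ a = 𝟙 _ from rfl, CategoryTheory.Functor.map_id]
  refine SP_bij _ fun n => ⟨LeftInverse.injective (g := ((spk_P κ).map b).app n) fun x => ?_,
    RightInverse.surjective (g := ((spk_P κ).map b).app n) fun x => ?_⟩
  · exact congrArg (fun e => SSt.Hom.app e n x) h1
  · exact congrArg (fun e => SSt.Hom.app e n x) h2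

theorem spk_row (κ : ℕ) (E : ExCat.{u}) (p m : ℕ) :
    ((spk_lift p fun i => (spk_Rw κ).map (spk_ev E p i)).app m) =
      (spk_P κ).map (X := (E.S (Fin (p + 1))).S (Fin (m + 1)))
        (Y := (E.S (Fin (m + 1))).S (Fin (p + 1))) (spk_flip E (Fin (m + 1)) (Fin (p + 1))) ≫
      spK κ (E.S (Fin (m + 1))) p := by
  refine SSt.hom_ext fun n x => funext fun i => ?_
  exact congrArg (fun e => SSt.Hom.app e n x) ((spk_P κ).map_comp
    (X := (E.S (Fin (p + 1))).S (Fin (m + 1)))
    (Y := (E.S (Fin (m + 1))).S (Fin (p + 1))) (Z := E.S (Fin (m + 1)))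
    (spk_flip E (Fin (m + 1)) (Fin (p + 1))) (spk_ev (E.S (Fin (m + 1))) p i))

/-- the `(κ + 1)`-fold construction as a diagonal -/
theorem spk_diag (κ : ℕ) (E : ExCat.{u}) (p : ℕ) :
    SSt.diagF.map (spk_lift p fun i => (spk_Rw κ).map (spk_ev E p i)) = spK (κ + 1) E p := rfl

/-- **SpK.** `ob S^κ (S_p E) → (ob S^κ E)^p` is strong for `κ ≥ 1`. -/
theorem thm_SpK (hSp : KQ.St_Spine.{u}) : St_SpK.{u} := by
  intro κ hκ
  obtain ⟨κ, rfl⟩ : ∃ κ', κ = κ' + 1 := ⟨κ - 1, by omega⟩
  clear hκ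
  induction κ with
  | zero => exact fun E p => hSp E p
  | succ κ ih =>
    intro E p
    have h1 : SSt.Strong (SSt.diagF.map
        (spk_lift p fun i => (spk_Rw (κ + 1)).map (spk_ev E p i))) := by
      refine all_StrRow _ fun m => ?_
      rw [spk_row]
      exact thm_Str23.1 _ _ (spk_flip_strong _ _ _ _) (ih (E.S (Fin (m + 1))) p)
    exact h1

end Pool.Agent.FGK
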