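import Pool.Agent.FGK.StA

/-!
# FGK: D5, a connected normal subgroup with contractible quotient has the same homology (helper82)

`winj_Q X P` is the quotient of `ℤ[X]` by the functions with support in `P`. `winj_M f` is the
bisimplicial abelian group `M_p = ℤ[cechS f p] / ℤ[tuples in the kernel]`.
-/

set_option autoImplicit false
set_option linter.unusedVariables false

namespace Pool.Agent.FGK

open CategoryTheory Function Pool.Agent.KQ

universe u

/-! ### isomorphisms of homotopy groups -/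

theorem winj_comp {X Y Z : SAb.{u}} (a : X ⟶ Y) (b : Y ⟶ Z) (h1 : SAb.Weq a) (h2 : SAb.Weq b) :
    SAb.Weq (a ≫ b) := by
  intro j
  have e : (SGp.PiMap (SAb.gp.map (a ≫ b)) j : _ → _) =
      SGp.PiMap (SAb.gp.map b) j ∘ SGp.PiMap (SAb.gp.map a) j := by
    funext x
    rw [SAb.gp.map_comp]
    exact SGp.PiMap_comp _ _ j x
  rw [e]
  exact (h2 j).comp (h1 j)

theorem winj_left {X Y Z : SAb.{u}} (a : X ⟶ Y) (b : Y ⟶ Z) (h1 : SAb.Weq (a ≫ b))
    (h2 : SAb.Weq b) : SAb.Weq a := by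
  intro j
  have e : (SGp.PiMap (SAb.gp.map (a ≫ b)) j : _ → _) =
      SGp.PiMap (SAb.gp.map b) j ∘ SGp.PiMap (SAb.gp.map a) j := by
    funext x
    rw [SAb.gp.map_comp]
    exact SGp.PiMap_comp _ _ j x
  have h3 := h1 j
  rw [e] at h3
  exact (Bijective.of_comp_iff' (h2 j) _).1 h3

theorem winj_bij {X Y : SAb.{u}} (φ : X ⟶ Y) (h : ∀ n, Bijective (φ.app n)) : SAb.Weq φ := by
  let ψ : Y ⟶ X := ⟨fun n => (AddEquiv.ofBijective (φ.app n) (h n)).symm.toAddMonoidHom,
    fun {m n} θ y => by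
      obtain ⟨x, rfl⟩ := (h n).2 y
      change (AddEquiv.ofBijective (φ.app m) (h m)).symm (Y.map θ (φ.app n x)) =
        X.map θ ((AddEquiv.ofBijective (φ.app n) (h n)).symm (AddEquiv.ofBijective (φ.app n) (h n) x))
      rw [AddEquiv.symm_apply_apply, ← φ.nat]
      exact (AddEquiv.ofBijective (φ.app m) (h m)).symm_apply_apply (X.map θ x)⟩
  have h1 : φ ≫ ψ = 𝟙 X := SAb.hom_ext fun n x =>
    (AddEquiv.ofBijective (φ.app n) (h n)).symm_apply_apply x
  have h2 : ψ ≫ φ = 𝟙 Y := SAb.hom_ext fun n y =>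
    (AddEquiv.ofBijective (φ.app n) (h n)).apply_symm_apply y
  intro j
  refine Function.bijective_iff_has_inverse.2 ⟨SGp.PiMap (SAb.gp.map ψ) j, fun x => ?_, fun y => ?_⟩
  · rw [← SGp.PiMap_comp, ← SAb.gp.map_comp, h1, SAb.gp.map_id, SGp.PiMap_id]
  · rw [← SGp.PiMap_comp, ← SAb.gp.map_comp, h2, SAb.gp.map_id, SGp.PiMap_id]

theorem winj_triv {X Y : SAb.{u}} (φ : X ⟶ Y) (h : SAb.Weq φ) (c : ℕ) :
    SAb.Triv c X ↔ SAb.Triv c Y := by
  constructor
  · intro hX j hj y
    obtain ⟨x, rfl⟩ := (h j).2 y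
    rw [hX j hj x, map_one]
  · intro hY j hj x
    apply (h j).1
    rw [map_one]
    exact hY j hj _

/-! ### quotients of `ℤ[X]` -/

/-- the functions which are zero outside `P` -/
def winj_Z (X : Type u) (P : X → Prop) : AddSubgroup (X →₀ ULift.{u} ℤ) where
  carrier := {z | ∀ x, ¬ P x → z x = 0}
  add_mem' {a b} ha hb x hx := by rw [Finsupp.add_apply, ha x hx, hb x hx, add_zero]
  zero_mem' x _ := rfl
  neg_mem' {a} ha x hx := by rw [Finsupp.neg_apply, ha x hx, neg_zero]

/-- the quotient of `ℤ[X]` by the functions which are zero outside `P` -/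
def winj_Q (X : Type u) (P : X → Prop) : Type u := (X →₀ ULift.{u} ℤ) ⧸ winj_Z X P

noncomputable instance (X : Type u) (P : X → Prop) : AddCommGroup (winj_Q X P) :=
  inferInstanceAs (AddCommGroup ((X →₀ ULift.{u} ℤ) ⧸ winj_Z X P))

/-- the projection -/
noncomputable def winj_mk (X : Type u) (P : X → Prop) : (X →₀ ULift.{u} ℤ) →+ winj_Q X P :=
  QuotientAddGroup.mk' (winj_Z X P)

theorem winj_mk_surj (X : Type u) (P : X → Prop) : Surjective (winj_mk X P) :=
  QuotientAddGroup.mk'_surjective _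

theorem winj_mk_zero {X : Type u} {P : X → Prop} {z : X →₀ ULift.{u} ℤ} :
    winj_mk X P z = 0 ↔ ∀ x, ¬ P x → z x = 0 :=
  QuotientAddGroup.eq_zero_iff (N := winj_Z X P) z

/-- the generators -/
noncomputable def winj_of {X : Type u} (P : X → Prop) (x : X) : ULift.{u} ℤ →+ winj_Q X P :=
  (winj_mk X P).comp (Finsupp.singleAddHom x)

theorem winj_of_zero {X : Type u} {P : X → Prop} {x : X} (h : P x) (a : ULift.{u} ℤ) :
    winj_of P x a = 0 := by
  classical
  refine winj_mk_zero.2 fun y hy => ?_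
  change Finsupp.single x a y = 0
  rw [Finsupp.single_apply, if_neg]
  rintro rfl
  exact hy h

theorem winj_ext {X : Type u} {P : X → Prop} {B : Type u} [AddCommGroup B]
    {g g' : winj_Q X P →+ B} (h : ∀ x a, g (winj_of P x a) = g' (winj_of P x a)) : g = g' := by
  have h1 : g.comp (winj_mk X P) = g'.comp (winj_mk X P) := Finsupp.addHom_ext h
  refine AddMonoidHom.ext fun z => ?_
  obtain ⟨z, rfl⟩ := winj_mk_surj X P z
  exact DFunLike.congr_fun h1 z

/-- homomorphisms given by the values on the generators -/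
noncomputable def winj_lift {X : Type u} {P : X → Prop} {B : Type u} [AddCommGroup B]
    (g : X → ULift.{u} ℤ →+ B) (hg : ∀ x, P x → g x = 0) : winj_Q X P →+ B :=
  QuotientAddGroup.lift (winj_Z X P) (Finsupp.liftAddHom g) fun z hz => by
    change Finsupp.liftAddHom g z = 0
    rw [Finsupp.liftAddHom_apply, Finsupp.sum]
    refine Finset.sum_eq_zero fun x hx => ?_
    by_cases h : P x
    · rw [hg x h]
      rfl
    · exact absurd (hz x h) (Finsupp.mem_support_iff.1 hx)

theorem winj_lift_of {X : Type u} {P : X → Prop} {B : Type u} [AddCommGroup B]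
    (g : X → ULift.{u} ℤ →+ B) (hg : ∀ x, P x → g x = 0) (x : X) (a : ULift.{u} ℤ) :
    winj_lift g hg (winj_of P x a) = g x a := by
  change Finsupp.liftAddHom g (Finsupp.single x a) = g x a
  rw [Finsupp.liftAddHom_apply_single]

/-- functoriality -/
noncomputable def winj_map {X Y : Type u} {P : X → Prop} {R : Y → Prop} (φ : X → Y)
    (h : ∀ x, P x → R (φ x)) : winj_Q X P →+ winj_Q Y R :=
  winj_lift (fun x => winj_of R (φ x)) fun x hx => AddMonoidHom.ext fun a => winj_of_zero (h x hx) a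

theorem winj_map_of {X Y : Type u} {P : X → Prop} {R : Y → Prop} (φ : X → Y)
    (h : ∀ x, P x → R (φ x)) (x : X) (a : ULift.{u} ℤ) :
    winj_map (R := R) φ h (winj_of P x a) = winj_of R (φ x) a := winj_lift_of _ _ _ _

theorem winj_map_id {X : Type u} {P : X → Prop} (φ : X → X) (h : ∀ x, P x → P (φ x))
    (hφ : ∀ x, φ x = x) (z : winj_Q X P) : winj_map φ h z = z := by
  refine DFunLike.congr_fun (winj_ext (g := winj_map φ h) (g' := AddMonoidHom.id _)
    fun x a => ?_) z
  rw [winj_map_of, hφ]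
  rfl

theorem winj_map_map {X Y Y' W : Type u} {P : X → Prop} {R : Y → Prop} {R' : Y' → Prop}
    {T : W → Prop} (φ : X → Y) (h : ∀ x, P x → R (φ x)) (ψ : Y → W) (h' : ∀ x, R x → T (ψ x))
    (φ' : X → Y') (k : ∀ x, P x → R' (φ' x)) (ψ' : Y' → W) (k' : ∀ x, R' x → T (ψ' x))
    (e : ∀ x, ψ (φ x) = ψ' (φ' x)) (z : winj_Q X P) :
    winj_map (R := T) ψ h' (winj_map φ h z) = winj_map (R := T) ψ' k' (winj_map φ' k z) := by
  refine DFunLike.congr_fun (winj_ext (g := (winj_map ψ h').comp (winj_map φ h))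
    (g' := (winj_map ψ' k').comp (winj_map φ' k)) fun x a => ?_) z
  change winj_map ψ h' (winj_map φ h _) = winj_map ψ' k' (winj_map φ' k _)
  rw [winj_map_of, winj_map_of, winj_map_of, winj_map_of, e]

theorem winj_map_comp {X Y W : Type u} {P : X → Prop} {R : Y → Prop}
    {T : W → Prop} (φ : X → Y) (h : ∀ x, P x → R (φ x)) (ψ : Y → W) (h' : ∀ x, R x → T (ψ x))
    (χ : X → W) (k : ∀ x, P x → T (χ x))
    (e : ∀ x, χ x = ψ (φ x)) (z : winj_Q X P) :
    winj_map (R := T) χ k z = winj_map (R := T) ψ h' (winj_map φ h z) := by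
  refine DFunLike.congr_fun (winj_ext (g := winj_map χ k)
    (g' := (winj_map ψ h').comp (winj_map φ h)) fun x a => ?_) z
  change winj_map χ k _ = winj_map ψ h' (winj_map φ h _)
  rw [winj_map_of, winj_map_of, winj_map_of, e]

/-! ### the bisimplicial abelian group -/

section

variable {G H : SGp.{u}} (f : G ⟶ H)

/-- tuples of elements of the kernel -/
def winj_P (p n : ℕ) (x : (cechS f p).obj n) : Prop := f.app n (x.1 0) = 1

theorem winj_row_P (p : ℕ) {m n : ℕ} (θ : Mo m n) (x : (cechS f p).obj n)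
    (hx : winj_P f p n x) : winj_P f p m ((cechS f p).map θ x) := by
  change f.app m (G.map θ (x.1 0)) = 1
  rw [f.nat, show f.app n (x.1 0) = 1 from hx, map_one]

/-- the row `p` -/
noncomputable def winj_row (p : ℕ) : SAb.{u} where
  obj n := winj_Q ((cechS f p).obj n) (winj_P f p n)
  map {m n} θ := winj_map ((cechS f p).map θ) (winj_row_P f p θ)
  map_id n x := winj_map_id _ _ ((cechS f p).map_id n) x
  map_comp {l m n} θ η x := winj_map_comp _ _ _ _ _ _ ((cechS f p).map_comp θ η) x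

/-- the generators of a row -/
noncomputable def winj_g (p n : ℕ) (x : (cechS f p).obj n) (a : ULift.{u} ℤ) :
    (winj_row f p).obj n := winj_of (winj_P f p n) x a

/-- equality of homomorphisms from a row -/
theorem winj_row_ext {p n : ℕ} {B : Type u} [AddCommGroup B] {g g' : (winj_row f p).obj n →+ B}
    (h : ∀ x a, g (winj_g f p n x a) = g' (winj_g f p n x a)) : g = g' :=
  winj_ext h

theorem winj_row_of (p : ℕ) {m n : ℕ} (η : Mo m n) (x : (cechS f p).obj n) (a : ULift.{u} ℤ) :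
    (winj_row f p).map η (winj_g f p n x a) = winj_g f p m ((cechS f p).map η x) a :=
  winj_map_of ((cechS f p).map η) (winj_row_P f p η) x a

/-- the operators on tuples -/
def winj_om {p q : ℕ} (θ : Mo p q) (n : ℕ) (x : (cechS f q).obj n) : (cechS f p).obj n :=
  ⟨fun i => x.1 (θ i), fun i j => x.2 _ _⟩

theorem winj_om_nat {p q : ℕ} (θ : Mo p q) {m n : ℕ} (η : Mo m n) (x : (cechS f q).obj n) :
    winj_om f θ m ((cechS f q).map η x) = (cechS f p).map η (winj_om f θ n x) := rfl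

theorem winj_op_P {p q : ℕ} (θ : Mo p q) (n : ℕ) (x : (cechS f q).obj n) (hx : winj_P f q n x) :
    winj_P f p n (winj_om f θ n x) := by
  change f.app n (x.1 (θ 0)) = 1
  rw [x.2 (θ 0) 0]
  exact hx

/-- the operators in the direction `p`, in one degree -/
noncomputable def winj_opn {p q : ℕ} (θ : Mo p q) (n : ℕ) :
    (winj_row f q).obj n →+ (winj_row f p).obj n :=
  winj_map (winj_om f θ n) (winj_op_P f θ n)

theorem winj_opn_of {p q : ℕ} (θ : Mo p q) (n : ℕ) (x : (cechS f q).obj n) (a : ULift.{u} ℤ) :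
    winj_opn f θ n (winj_g f q n x a) = winj_g f p n (winj_om f θ n x) a :=
  winj_map_of (winj_om f θ n) (winj_op_P f θ n) x a

/-- the operators in the direction `p` -/
noncomputable def winj_op {p q : ℕ} (θ : Mo p q) : winj_row f q ⟶ winj_row f p :=
  ⟨fun n => winj_opn f θ n, fun {m n} η x => by
    refine DFunLike.congr_fun (winj_row_ext f (g := (winj_opn f θ m).comp ((winj_row f q).map η))
      (g' := ((winj_row f p).map η).comp (winj_opn f θ n)) fun y a => ?_) x
    change winj_opn f θ m ((winj_row f q).map η _) = (winj_row f p).map η (winj_opn f θ n _)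
    rw [winj_row_of, winj_opn_of, winj_opn_of, winj_row_of, winj_om_nat]⟩

theorem winj_op_of {p q : ℕ} (θ : Mo p q) (n : ℕ) (x : (cechS f q).obj n) (a : ULift.{u} ℤ) :
    (winj_op f θ).app n (winj_g f q n x a) = winj_g f p n (winj_om f θ n x) a :=
  winj_opn_of _ _ _ _ _

/-- the bisimplicial abelian group -/
noncomputable def winj_M : SOb SAb.{u} where
  obj p := winj_row f p
  map θ := winj_op f θ
  map_id p := SAb.hom_ext fun n x =>
    winj_map_id (winj_om f OrderHom.id n) (winj_op_P f OrderHom.id n) (fun y => rfl) x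
  map_comp {l m k} θ η := SAb.hom_ext fun n x => by
    change _ = (winj_op f θ).app n ((winj_op f η).app n x)
    refine DFunLike.congr_fun (winj_row_ext f (g := (winj_op f (η.comp θ)).app n)
      (g' := ((winj_op f θ).app n).comp ((winj_op f η).app n)) fun y a => ?_) x
    change (winj_op f (η.comp θ)).app n _ = (winj_op f θ).app n ((winj_op f η).app n _)
    rw [winj_op_of, winj_op_of, winj_op_of]
    rfl

/-! ### `M_{p+1} = M_p[K]` -/

/-- the tuple `(y_0 k, y_0, .., y_p)` -/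
def winj_b (p n : ℕ) (k : (SGp.ker f).und.obj n) (y : (cechS f p).obj n) : (cechS f (p + 1)).obj n :=
  ⟨Fin.cons (y.1 0 * k.1) y.1, by
    have h : ∀ i : Fin (p + 2), f.app n (Fin.cons (α := fun _ => G.obj n) (y.1 0 * k.1) y.1 i) =
        f.app n (y.1 0) := by
      intro i
      refine Fin.cases ?_ (fun i => ?_) i
      · rw [Fin.cons_zero, map_mul, show f.app n k.1 = 1 from k.2, mul_one]
      · rw [Fin.cons_succ]
        exact y.2 i 0
    intro i j
    rw [h, h]⟩

theorem winj_dl0 (p : ℕ) (i : Fin (p + 1)) : (dl (0 : Fin (p + 2)) : Mo p (p + 1)) i = i.succ :=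
  Fin.succAbove_zero_apply i

theorem winj_d0_b (p n : ℕ) (k : (SGp.ker f).und.obj n) (y : (cechS f p).obj n) :
    winj_om f (dl 0) n (winj_b f p n k y) = y := by
  apply Subtype.ext
  funext i
  change (Fin.cons (y.1 0 * k.1) y.1 : Fin (p + 2) → G.obj n) ((dl 0 : Mo p (p + 1)) i) = y.1 i
  rw [winj_dl0, Fin.cons_succ]

/-- the element `x_1⁻¹ x_0` of the kernel -/
def winj_k (p n : ℕ) (x : (cechS f (p + 1)).obj n) : (SGp.ker f).und.obj n :=
  ⟨(x.1 1)⁻¹ * x.1 0, by
    change f.app n _ = 1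
    rw [map_mul, map_inv, x.2 1 0, inv_mul_cancel]⟩

theorem winj_k_b (p n : ℕ) (k : (SGp.ker f).und.obj n) (y : (cechS f p).obj n) :
    winj_k f p n (winj_b f p n k y) = k := by
  apply Subtype.ext
  change ((Fin.cons (y.1 0 * k.1) y.1 : Fin (p + 2) → G.obj n) 1)⁻¹ *
    (Fin.cons (y.1 0 * k.1) y.1 : Fin (p + 2) → G.obj n) 0 = k.1
  rw [← Fin.succ_zero_eq_one, Fin.cons_succ, Fin.cons_zero, inv_mul_cancel_left]

theorem winj_b_k (p n : ℕ) (x : (cechS f (p + 1)).obj n) :
    winj_b f p n (winj_k f p n x) (winj_om f (dl 0) n x) = x := by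
  apply Subtype.ext
  funext i
  change (Fin.cons (x.1 ((dl 0 : Mo p (p + 1)) 0) * ((x.1 1)⁻¹ * x.1 0))
    (fun i => x.1 ((dl 0 : Mo p (p + 1)) i)) : Fin (p + 2) → G.obj n) i = x.1 i
  refine Fin.cases ?_ (fun i => ?_) i
  · rw [Fin.cons_zero, winj_dl0, Fin.succ_zero_eq_one, mul_inv_cancel_left]
  · rw [Fin.cons_succ, winj_dl0]

theorem winj_b_nat (p : ℕ) {m n : ℕ} (θ : Mo m n) (k : (SGp.ker f).und.obj n)
    (y : (cechS f p).obj n) : (cechS f (p + 1)).map θ (winj_b f p n k y) =
      winj_b f p m ((SGp.ker f).und.map θ k) ((cechS f p).map θ y) := by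
  apply Subtype.ext
  funext i
  change G.map θ ((Fin.cons (y.1 0 * k.1) y.1 : Fin (p + 2) → G.obj n) i) =
    (Fin.cons (G.map θ (y.1 0) * G.map θ k.1) (fun i => G.map θ (y.1 i)) :
      Fin (p + 2) → G.obj m) i
  refine Fin.cases ?_ (fun i => ?_) i
  · rw [Fin.cons_zero, Fin.cons_zero, map_mul]
  · rw [Fin.cons_succ, Fin.cons_succ]

theorem winj_b_P (p n : ℕ) (k : (SGp.ker f).und.obj n) (y : (cechS f p).obj n)
    (h : winj_P f p n y) : winj_P f (p + 1) n (winj_b f p n k y) := by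
  change f.app n ((Fin.cons (y.1 0 * k.1) y.1 : Fin (p + 2) → G.obj n) 0) = 1
  rw [Fin.cons_zero, map_mul, show f.app n k.1 = 1 from k.2, mul_one]
  exact h

/-- one summand -/
noncomputable def winj_bk (p n : ℕ) (k : (SGp.ker f).und.obj n) :
    (winj_row f p).obj n →+ (winj_row f (p + 1)).obj n :=
  winj_map (winj_b f p n k) (winj_b_P f p n k)

theorem winj_bk_of (p n : ℕ) (k : (SGp.ker f).und.obj n) (x : (cechS f p).obj n)
    (a : ULift.{u} ℤ) : winj_bk f p n k (winj_g f p n x a) =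
      winj_g f (p + 1) n (winj_b f p n k x) a :=
  winj_map_of (winj_b f p n k) (winj_b_P f p n k) x a

/-- the generators of `M_p[K]` -/
noncomputable def winj_s (p n : ℕ) (k : (SGp.ker f).und.obj n) (y : (winj_row f p).obj n) :
    ((winj_row f p).fs (SGp.ker f).und).obj n :=
  (Finsupp.single k y : (SGp.ker f).und.obj n →₀ (winj_row f p).obj n)

theorem winj_fs_map (p : ℕ) {m n : ℕ} (θ : Mo m n) (k : (SGp.ker f).und.obj n)
    (y : (winj_row f p).obj n) : ((winj_row f p).fs (SGp.ker f).und).map θ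
      (winj_s f p n k y) = winj_s f p m ((SGp.ker f).und.map θ k) ((winj_row f p).map θ y) := by
  change Finsupp.mapDomain _ (Finsupp.mapRange _ (map_zero _) (Finsupp.single k y)) = _
  rw [Finsupp.mapRange_single, Finsupp.mapDomain_single]
  rfl

/-- `M_p[K] → M_(p+1)` in one degree -/
noncomputable def winj_Tn (p n : ℕ) :
    ((winj_row f p).fs (SGp.ker f).und).obj n →+ (winj_row f (p + 1)).obj n :=
  Finsupp.liftAddHom (winj_bk f p n)

theorem winj_Tn_single (p n : ℕ) (k : (SGp.ker f).und.obj n) (y : (winj_row f p).obj n) :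
    winj_Tn f p n (winj_s f p n k y) = winj_bk f p n k y :=
  Finsupp.liftAddHom_apply_single _ _ _

/-- equality of homomorphisms from `M_p[K]` -/
theorem winj_fs_ext {p n : ℕ} {B : Type u} [AddCommGroup B]
    {g g' : ((winj_row f p).fs (SGp.ker f).und).obj n →+ B}
    (h : ∀ k x a, g (winj_s f p n k (winj_g f p n x a)) =
      g' (winj_s f p n k (winj_g f p n x a))) : g = g' := by
  refine Finsupp.addHom_ext fun k y => ?_
  exact DFunLike.congr_fun (winj_row_ext f (g := g.comp (Finsupp.singleAddHom k))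
    (g' := g'.comp (Finsupp.singleAddHom k)) fun x a => h k x a) y

/-- `M_p[K] → M_(p+1)` -/
noncomputable def winj_Th (p : ℕ) : (winj_row f p).fs (SGp.ker f).und ⟶ winj_row f (p + 1) :=
  ⟨fun n => winj_Tn f p n, fun {m n} θ z => by
    refine DFunLike.congr_fun (winj_fs_ext f (g := (winj_Tn f p m).comp
      (((winj_row f p).fs (SGp.ker f).und).map θ))
      (g' := ((winj_row f (p + 1)).map θ).comp (winj_Tn f p n)) fun k x a => ?_) z
    change winj_Tn f p m (((winj_row f p).fs (SGp.ker f).und).map θ _) =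
      (winj_row f (p + 1)).map θ (winj_Tn f p n _)
    rw [winj_fs_map, winj_row_of, winj_Tn_single, winj_Tn_single, winj_bk_of, winj_bk_of,
      winj_row_of, winj_b_nat]⟩

/-- the inverse in one degree -/
noncomputable def winj_Ti (p n : ℕ) :
    (winj_row f (p + 1)).obj n →+ ((winj_row f p).fs (SGp.ker f).und).obj n :=
  winj_lift (B := (SGp.ker f).und.obj n →₀ (winj_row f p).obj n)
    (fun x => (Finsupp.singleAddHom (winj_k f p n x)).comp
      (winj_of (winj_P f p n) (winj_om f (dl 0) n x))) fun x hx => AddMonoidHom.ext fun a => by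
    change Finsupp.single _ (winj_of _ _ a) = 0
    rw [winj_of_zero (winj_op_P f (dl 0) n x hx), Finsupp.single_zero]

theorem winj_Ti_of (p n : ℕ) (x : (cechS f (p + 1)).obj n) (a : ULift.{u} ℤ) :
    winj_Ti f p n (winj_g f (p + 1) n x a) =
      winj_s f p n (winj_k f p n x) (winj_g f p n (winj_om f (dl 0) n x) a) :=
  winj_lift_of _ _ _ _

theorem winj_Th_bij (p n : ℕ) : Bijective ((winj_Th f p).app n) := by
  refine Function.bijective_iff_has_inverse.2 ⟨winj_Ti f p n, fun z => ?_, fun y => ?_⟩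
  · refine DFunLike.congr_fun (winj_fs_ext f (g := (winj_Ti f p n).comp (winj_Tn f p n))
      (g' := AddMonoidHom.id _) fun k x a => ?_) z
    change winj_Ti f p n (winj_Tn f p n _) = _
    rw [winj_Tn_single, winj_bk_of, winj_Ti_of, winj_k_b, winj_d0_b]
    rfl
  · refine DFunLike.congr_fun (winj_row_ext f (g := (winj_Tn f p n).comp (winj_Ti f p n))
      (g' := AddMonoidHom.id _) fun x a => ?_) y
    change winj_Tn f p n (winj_Ti f p n _) = _
    rw [winj_Ti_of, winj_Tn_single, winj_bk_of, winj_b_k]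
    rfl

theorem winj_Th_d0 (p : ℕ) : (winj_row f p).aug (SGp.ker f).und ≫ 𝟙 _ =
    winj_Th f p ≫ winj_op f (dl 0) := by
  refine SAb.hom_ext fun n z => ?_
  refine DFunLike.congr_fun (winj_fs_ext f (g := ((winj_row f p).aug (SGp.ker f).und).app n)
      (g' := ((winj_op f (dl 0)).app n).comp (winj_Tn f p n)) fun k x a => ?_) z
  change ((winj_row f p).aug (SGp.ker f).und).app n _ = (winj_op f (dl 0)).app n (winj_Tn f p n _)
  rw [winj_Tn_single, winj_bk_of, winj_op_of, winj_d0_b]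
  exact Finsupp.liftAddHom_apply_single _ _ _

/-- `M_p ⊗ ℤ~[K] → Ω_p` -/
noncomputable def winj_Ph (p : ℕ) :
    (winj_row f p).red (SGp.ker f).und ⟶ (kerBA (winj_M f).decπ).obj p :=
  SAb.kerMap (winj_Th f p) (𝟙 _) (winj_Th_d0 f p)

theorem winj_Ph_bij (p n : ℕ) : Bijective ((winj_Ph f p).app n) := by
  constructor
  · intro x y h
    exact Subtype.ext ((winj_Th_bij f p n).1 (congrArg Subtype.val h))
  · rintro ⟨y, hy⟩
    obtain ⟨x, rfl⟩ := (winj_Th_bij f p n).2 y
    refine ⟨⟨x, ?_⟩, rfl⟩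
    change ((winj_row f p).aug (SGp.ker f).und).app n x = 0
    have e := congrArg (fun g : (winj_row f p).fs (SGp.ker f).und ⟶ winj_row f p => g.app n x)
      (winj_Th_d0 f p)
    exact e.trans hy

end

/-! ### the diagonal -/

/-- the augmentation of a simplicial group with trivial homotopy groups -/
theorem winj_augW (hEx : St_AbEx.{u}) (hGp : St_GpHTriv.{u}) (G : SGp.{u})
    (hG : ∀ c, SGp.Triv c G) : SAb.Weq ((SAb.const (ULift.{u} ℤ)).aug G.und) := by
  have h := hEx (SAb.kerι ((SAb.const (ULift.{u} ℤ)).aug G.und))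
    ((SAb.const (ULift.{u} ℤ)).aug G.und) ⟨fun n => Subtype.val_injective, fun n y =>
      ⟨fun hy => ⟨⟨y, hy⟩, rfl⟩, fun ⟨x, hx⟩ => hx ▸ x.2⟩, fun n a =>
      ⟨(Finsupp.single 1 a : G.obj n →₀ ULift.{u} ℤ), Finsupp.liftAddHom_apply_single _ _ _⟩⟩ 0
  exact h.2.2.2.2.2.2.2.2.2.2.2.1.1 fun d => hGp d G (hG d) (ULift.{u} ℤ)

theorem winj_aug_nat {X Y : SSt.{u}} (g : X ⟶ Y) :
    ZSmap g ≫ (SAb.const (ULift.{u} ℤ)).aug Y = (SAb.const (ULift.{u} ℤ)).aug X := by
  refine SAb.hom_ext fun n z => ?_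
  refine DFunLike.congr_fun (Finsupp.addHom_ext
    (f := (((SAb.const (ULift.{u} ℤ)).aug Y).app n).comp ((ZSmap g).app n))
    (g := ((SAb.const (ULift.{u} ℤ)).aug X).app n) fun x a => ?_) z
  change Finsupp.liftAddHom (fun _ => AddMonoidHom.id _) (Finsupp.mapDomain _ (Finsupp.mapRange _
    (map_zero _) (Finsupp.single x a))) = Finsupp.liftAddHom (fun _ => AddMonoidHom.id _)
      (Finsupp.single x a)
  rw [Finsupp.mapRange_single, Finsupp.mapDomain_single, Finsupp.liftAddHom_apply_single,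
    Finsupp.liftAddHom_apply_single]
  rfl

/-- exactness for the quotient -/
theorem winj_exact {A X : Type u} (i : A → X) (hi : Injective i) (P : X → Prop)
    (hP : ∀ x, P x ↔ ∃ a, i a = x) (y : X →₀ ULift.{u} ℤ) :
    winj_mk X P y = 0 ↔ ∃ x : A →₀ ULift.{u} ℤ, Finsupp.mapDomain i x = y := by
  rw [winj_mk_zero]
  constructor
  · intro h
    refine ⟨Finsupp.comapDomain i y hi.injOn, Finsupp.mapDomain_comapDomain i hi y fun x hx => ?_⟩
    by_contra h1
    exact Finsupp.mem_support_iff.1 hx (h x fun h2 => h1 ((hP x).1 h2))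
  · rintro ⟨z, rfl⟩ x hx
    exact Finsupp.mapDomain_of_notMem_range z x fun ⟨a, ha⟩ => hx ((hP x).2 ⟨a, ha⟩)

/-- `ℤ[Y]` of a map in one degree -/
theorem winj_ZSmap {X Y : SSt.{u}} (g : X ⟶ Y) (n : ℕ) (z : X.obj n →₀ ULift.{u} ℤ) :
    (ZSmap g).app n z = (Finsupp.mapDomain (g.app n) z : Y.obj n →₀ ULift.{u} ℤ) := by
  change Finsupp.mapDomain _ (Finsupp.mapRange _ (map_zero _) z) = _
  congr 1
  exact Finsupp.mapRange_id z

theorem winj_ZS_map (Y : SSt.{u}) {m n : ℕ} (θ : Mo m n) (x : Y.obj n) (a : ULift.{u} ℤ) :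
    (ZS Y).map θ (Finsupp.single x a : Y.obj n →₀ ULift.{u} ℤ) =
      (Finsupp.single (Y.map θ x) a : Y.obj m →₀ ULift.{u} ℤ) := by
  change Finsupp.mapDomain _ (Finsupp.mapRange _ (map_zero _) (Finsupp.single x a)) = _
  rw [Finsupp.mapRange_single, Finsupp.mapDomain_single]
  rfl

section

variable {G H : SGp.{u}} (f : G ⟶ H)

/-- the map of the kernel to the point -/
def winj_pt : SGp.ker f ⟶ SGp.const PUnit.{u + 1} := ⟨fun _ => 1, fun _ _ => rfl⟩

/-- the inclusion of the tuples in the kernel -/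
def winj_in : SSt.diag (cech (winj_pt f)) ⟶ SSt.diag (cech f) :=
  ⟨fun n x => ⟨fun i => (x.1 i).1, fun i j =>
    (show f.app n (x.1 i).1 = 1 from (x.1 i).2).trans
      (show f.app n (x.1 j).1 = 1 from (x.1 j).2).symm⟩, fun _ _ => rfl⟩

theorem winj_in_inj (n : ℕ) : Injective ((winj_in f).app n) := by
  intro x y h
  refine Subtype.ext (funext fun i => Subtype.ext ?_)
  exact congrFun (congrArg Subtype.val h) i

theorem winj_in_P (n : ℕ) (x : (cechS f n).obj n) :
    winj_P f n n x ↔ ∃ a, (winj_in f).app n a = x := by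
  constructor
  · intro h
    refine ⟨⟨fun i => ⟨x.1 i, ?_⟩, fun i j => rfl⟩, rfl⟩
    change f.app n (x.1 i) = 1
    rw [x.2 i 0]
    exact h
  · rintro ⟨a, rfl⟩
    exact (a.1 0).2

/-- the projection to the diagonal of the quotient -/
noncomputable def winj_pr : ZS (SSt.diag (cech f)) ⟶ SAb.diag (winj_M f) :=
  ⟨fun n => winj_mk ((cechS f n).obj n) (winj_P f n n), fun {m n} θ z => by
    refine DFunLike.congr_fun (Finsupp.addHom_ext
      (f := (winj_mk ((cechS f m).obj m) (winj_P f m m)).comp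
        ((ZS (SSt.diag (cech f))).map θ))
      (g := ((SAb.diag (winj_M f)).map θ).comp (winj_mk ((cechS f n).obj n) (winj_P f n n)))
      fun x a => ?_) z
    exact (congrArg (winj_mk ((cechS f m).obj m) (winj_P f m m))
      (winj_ZS_map (SSt.diag (cech f)) θ x a)).trans
      ((congrArg ((winj_row f m).map θ) (winj_op_of f θ n x a)).trans
        (winj_row_of f m θ (winj_om f θ n x) a)).symm⟩

theorem winj_pr_ses : SAb.SES (ZSmap (winj_in f)) (winj_pr f) := by
  refine ⟨fun n x y h => ?_, fun n y => ?_, fun n => winj_mk_surj _ _⟩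
  · exact Finsupp.mapDomain_injective (winj_in_inj f n)
      ((winj_ZSmap (winj_in f) n x).symm.trans (h.trans (winj_ZSmap (winj_in f) n y)))
  · refine (winj_exact _ (winj_in_inj f n) _ (winj_in_P f n) y).trans (exists_congr fun x => ?_)
    rw [winj_ZSmap]
    exact Iff.rfl

theorem winj_diag (hEx : St_AbEx.{u}) (hstr : St_fsStrong.{u}) (hGp : St_GpHTriv.{u})
    (hC : St_Cech.{u}) (hf : ∀ n, Surjective (f.app n)) (hH : ∀ c, SGp.Triv c H) (d : ℕ) :
    SAb.Triv d (SAb.diag (winj_M f)) := by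
  have h1 : SAb.Weq (ZSmap (cechAug f) ≫ (SAb.const (ULift.{u} ℤ)).aug H.und) :=
    winj_comp _ _ (hstr _ _ (hC f hf)) (winj_augW hEx hGp H hH)
  have h2 : SAb.Weq (ZSmap (cechAug (winj_pt f)) ≫
      (SAb.const (ULift.{u} ℤ)).aug (SGp.const PUnit.{u + 1}).und) :=
    winj_comp _ _ (hstr _ _ (hC (winj_pt f) fun n y => ⟨1, rfl⟩))
      (winj_augW hEx hGp _ fun c j hj x => by
        obtain ⟨z, rfl⟩ := SGp.cls_surj _ _ x
        rw [show z = 1 from Subtype.ext rfl, map_one])
  rw [winj_aug_nat] at h1 h2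
  have h3 : SAb.Weq (ZSmap (winj_in f)) := by
    refine winj_left _ _ ?_ h1
    rw [winj_aug_nat]
    exact h2
  exact (hEx _ _ (winj_pr_ses f) 0).2.2.2.2.2.2.2.2.2.2.2.2.2 h3 d

/-! ### the row `0` -/

theorem winj_row_triv (hfs : St_fsConn.{u}) (c : ℕ) (h : SAb.Triv c (winj_row f 0)) (p : ℕ) :
    SAb.Triv c (winj_row f p) := by
  induction p with
  | zero => exact h
  | succ p ih =>
    exact (winj_triv (winj_Th f p) (winj_bij _ (winj_Th_bij f p)) c).1
      (hfs.2.2 c _ (SGp.ker f).und ih)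

theorem winj_all (hEx : St_AbEx.{u}) (hReal : St_AbReal.{u})
    (hfs : St_fsConn.{u}) (hstr : St_fsStrong.{u}) (hred : St_redTriv.{u})
    (hGp : St_GpHTriv.{u}) (hC : St_Cech.{u}) (hf : ∀ n, Surjective (f.app n))
    (hH : ∀ c, SGp.Triv c H) (hK : SGp.Triv 1 (SGp.ker f)) (c : ℕ) :
    SAb.Triv c (winj_row f 0) := by
  induction c with
  | zero => exact fun j hj => absurd hj (Nat.not_lt_zero j)
  | succ c ih =>
    have h1 : ∀ p, SAb.Triv (c + 1) ((kerBA (winj_M f).decπ).obj p) := fun p =>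
      (winj_triv (winj_Ph f p) (winj_bij _ (winj_Ph_bij f p)) (c + 1)).1
        (hred c 1 _ _ (winj_row_triv f hfs c ih p) (hGp 1 _ hK))
    have h2 := hReal.2.2.2.1 (c + 1) _ h1
    have h3 := (hEx _ _ (hReal.2.2.2.2.2.2.2 (winj_M f)) (c + 1)).1 h2
      (winj_diag f hEx hstr hGp hC hf hH (c + 1))
    exact (winj_triv _ (hReal.2.2.2.2.2.2.1 (winj_M f)) (c + 1)).1 h3

/-- the constant tuple -/
def winj_c (n : ℕ) (x : G.und.obj n) : (cechS f 0).obj n := ⟨fun _ => x, fun _ _ => rfl⟩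

theorem winj_c_bij (n : ℕ) : Bijective (winj_c f n) := by
  constructor
  · intro x y h
    exact congrFun (congrArg Subtype.val h) 0
  · intro x
    refine ⟨x.1 0, Subtype.ext (funext fun i => ?_)⟩
    change x.1 0 = x.1 i
    rw [Fin.fin_one_eq_zero i]

/-- the projection of `ℤ[G]` to the row `0` -/
noncomputable def winj_p0 : ZS G.und ⟶ winj_row f 0 :=
  ⟨fun n => (winj_mk ((cechS f 0).obj n) (winj_P f 0 n)).comp
      (Finsupp.mapDomain.addMonoidHom (winj_c f n)), fun {m n} θ z => by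
    refine DFunLike.congr_fun (Finsupp.addHom_ext
      (f := ((winj_mk ((cechS f 0).obj m) (winj_P f 0 m)).comp
        (Finsupp.mapDomain.addMonoidHom (winj_c f m))).comp ((ZS G.und).map θ))
      (g := ((winj_row f 0).map θ).comp ((winj_mk ((cechS f 0).obj n) (winj_P f 0 n)).comp
        (Finsupp.mapDomain.addMonoidHom (winj_c f n)))) fun x a => ?_) z
    refine (congrArg (fun z : G.und.obj m →₀ ULift.{u} ℤ =>
      winj_mk ((cechS f 0).obj m) (winj_P f 0 m) (Finsupp.mapDomain (winj_c f m) z))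
      (winj_ZS_map G.und θ x a)).trans (Eq.trans ?_ (congrArg (fun z =>
        (winj_row f 0).map θ (winj_mk ((cechS f 0).obj n) (winj_P f 0 n) z))
        (Finsupp.mapDomain_single (f := winj_c f n) (a := x) (b := a))).symm)
    refine Eq.trans ?_ (winj_row_of f 0 θ (winj_c f n x) a).symm
    exact congrArg (winj_mk ((cechS f 0).obj m) (winj_P f 0 m))
      (Finsupp.mapDomain_single (f := winj_c f m) (a := G.und.map θ x) (b := a))⟩

theorem winj_p0_ses : SAb.SES (ZSmap (SGp.undMap (SGp.kerι f))) (winj_p0 f) := by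
  refine ⟨fun n x y h => ?_, fun n y => ?_, fun n y => ?_⟩
  · exact Finsupp.mapDomain_injective (f := (SGp.undMap (SGp.kerι f)).app n)
      Subtype.val_injective ((winj_ZSmap (SGp.undMap (SGp.kerι f)) n x).symm.trans
        (h.trans (winj_ZSmap (SGp.undMap (SGp.kerι f)) n y)))
  · refine (winj_exact (fun k : (SGp.ker f).und.obj n => winj_c f n k.1)
      ((winj_c_bij f n).1.comp Subtype.val_injective) (winj_P f 0 n) (fun x => ?_)
      (Finsupp.mapDomain (winj_c f n) y)).trans (exists_congr fun x => ?_)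
    · constructor
      · intro h
        refine ⟨⟨x.1 0, h⟩, ?_⟩
        obtain ⟨z, rfl⟩ := (winj_c_bij f n).2 x
        rfl
      · rintro ⟨k, rfl⟩
        exact k.2
    · rw [winj_ZSmap]
      have e : (fun k : (SGp.ker f).und.obj n => winj_c f n k.1) =
        winj_c f n ∘ (SGp.undMap (SGp.kerι f)).app n := rfl
      rw [e, Finsupp.mapDomain_comp]
      exact (Finsupp.mapDomain_injective (winj_c_bij f n).1).eq_iff
  · obtain ⟨z, rfl⟩ := winj_mk_surj _ _ y
    obtain ⟨x, rfl⟩ := Finsupp.mapDomain_surjective (winj_c_bij f n).2 z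
    exact ⟨x, rfl⟩

end

/-- **D5.** -/
theorem thm_WInj (hEx : St_AbEx.{u}) (hReal : St_AbReal.{u}) (hfs : St_fsConn.{u})
    (hstr : St_fsStrong.{u}) (hred : St_redTriv.{u}) (hGp : St_GpHTriv.{u})
    (hC : St_Cech.{u}) : St_WInj.{u} := by
  intro G H f hf hH hK
  exact (hEx _ _ (winj_p0_ses f) 0).2.2.2.2.2.2.2.2.2.2.2.2.1
    (winj_all f hEx hReal hfs hstr hred hGp hC hf hH hK)

end Pool.Agent.FGK
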