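import Pool.Agent.FGK.GpHTriv

/-!
# FGK, D4: a surjection whose kernel has trivial homotopy groups induces isomorphisms on homology

The rows of the Čech nerve: `ℤ[cechS f (p + 1)] → ℤ[cechS f p]` (omit `x_0`) is bijective on homotopy
groups, its kernel is `(ℤ[cechS f p]).red K`, `K = ker f`, which has trivial homotopy groups (D3, C5).
So the diagonal map `ℤ[G] → ℤ[cechS f p]` is bijective on homotopy groups for all `p`, and
`ℤ[G] → ℤ[diag (cech f)] → ℤ[H]` too.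
-/

set_option autoImplicit false

namespace Pool.Agent.FGK

open CategoryTheory Function Pool.Agent.KQ

universe u

/-- levelwise bijective maps and vanishing -/
theorem wsurj_triv {d : ℕ} {X Y : SAb.{u}} (a : X ⟶ Y) (ha : ∀ n, Bijective (a.app n))
    (hX : SAb.Triv d X) : SAb.Triv d Y := by
  let b : Y ⟶ X := ⟨fun n => (AddEquiv.ofBijective (a.app n) (ha n)).symm.toAddMonoidHom,
    fun {m n} θ y => by
      change (AddEquiv.ofBijective (a.app m) (ha m)).symm (Y.map θ y) =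
        X.map θ ((AddEquiv.ofBijective (a.app n) (ha n)).symm y)
      rw [AddEquiv.symm_apply_eq]
      change Y.map θ y = a.app m (X.map θ ((AddEquiv.ofBijective (a.app n) (ha n)).symm y))
      rw [a.nat]
      exact congrArg (Y.map θ) ((AddEquiv.ofBijective (a.app n) (ha n)).apply_symm_apply y).symm⟩
  refine gphtriv_retract b a ?_ hX
  refine SAb.hom_ext fun n y => ?_
  exact (AddEquiv.ofBijective (a.app n) (ha n)).apply_symm_apply y

/-- a section of a map which is bijective on homotopy groups -/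
theorem wsurj_sec {X Y : SAb.{u}} (s : X ⟶ Y) (r : Y ⟶ X) (h : s ≫ r = 𝟙 X) (hr : SAb.Weq r) :
    SAb.Weq s := by
  intro j
  have h1 : ∀ x, SGp.PiMap (SAb.gp.map r) j (SGp.PiMap (SAb.gp.map s) j x) = x := fun x => by
    rw [← gphtriv_comp, h, gphtriv_id]
  refine ⟨fun x y hxy => ?_, fun y => ⟨SGp.PiMap (SAb.gp.map r) j y, ?_⟩⟩
  · rw [← h1 x, ← h1 y, hxy]
  · exact (hr j).1 (h1 _)

/-- the last coordinate -/
def wsurj_r {G H : SGp.{u}} (f : G ⟶ H) (p : ℕ) : cechS f p ⟶ G.und :=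
  ⟨fun _ x => x.1 (Fin.last p), fun _ _ => rfl⟩

/-- the diagonal map -/
def wsurj_d {G H : SGp.{u}} (f : G ⟶ H) (p : ℕ) : G.und ⟶ cechS f p :=
  ⟨fun _ x => ⟨fun _ => x, fun _ _ => rfl⟩, fun _ _ => rfl⟩

theorem wsurj_row (hGp : St_GpHTriv.{u}) (hCechZ : St_CechZ.{u}) (hRed : St_redTriv.{u})
    (hEx : St_AbEx.{u}) {G H : SGp.{u}} (f : G ⟶ H) (hK : ∀ c, SGp.Triv c (SGp.ker f))
    (M : SAb.{u}) (p : ℕ) : SAb.Weq (SAb.fsMap (𝟙 M) (wsurj_r f p)) := by
  induction p with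
  | zero =>
    refine gphtriv_weq_iso _ (SAb.fsMap (𝟙 M) (wsurj_d f 0)) ?_ ?_
    · rw [gphtriv_fs_comp]
      rw [show wsurj_r f 0 ≫ wsurj_d f 0 = 𝟙 _ from
        SSt.hom_ext fun n x => Subtype.ext (funext fun i => by
          exact congrArg x.1 (Subsingleton.elim (α := Fin 1) (Fin.last 0) i)), gphtriv_fs_id]
    · rw [gphtriv_fs_comp]
      rw [show wsurj_d f 0 ≫ wsurj_r f 0 = 𝟙 _ from SSt.hom_ext fun n x => rfl, gphtriv_fs_id]
  | succ p ih =>
    obtain ⟨-, h2⟩ := hCechZ f p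
    obtain ⟨φ, hφ⟩ := h2 M
    let q : cechS f (p + 1) ⟶ cechS f p := (cech f).map (dl 0)
    have hT : ∀ d, SAb.Triv d (SAb.ker (SAb.fsMap (𝟙 M) q)) := fun d => by
      refine wsurj_triv φ hφ ?_
      have h3 := hRed 0 d (M.fs (cechS f p)) (SGp.ker f).und
        (fun j hj => absurd hj (Nat.not_lt_zero j)) (hGp d (SGp.ker f) (hK d))
      rwa [Nat.zero_add] at h3
    let s : cechS f p ⟶ cechS f (p + 1) := ⟨fun n x => ⟨Fin.cons (x.1 0) x.1, by
      intro i j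
      refine Fin.cases ?_ (fun i => ?_) i <;> refine Fin.cases ?_ (fun j => ?_) j
      · rfl
      · exact x.2 _ _
      · exact x.2 _ _
      · exact x.2 _ _⟩, fun {m n} θ x => Subtype.ext (funext fun i => by
        refine Fin.cases ?_ (fun i => ?_) i <;> rfl)⟩
    have hsq : s ≫ q = 𝟙 _ := SSt.hom_ext fun n x => Subtype.ext (funext fun i => rfl)
    have hses : SAb.SES (SAb.kerι (SAb.fsMap (𝟙 M) q)) (SAb.fsMap (𝟙 M) q) := by
      refine ⟨fun n x y h => Subtype.ext h, fun n y => ⟨fun h => ⟨⟨y, h⟩, rfl⟩, ?_⟩, fun n x => ?_⟩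
      · rintro ⟨x, rfl⟩
        exact x.2
      · refine ⟨(SAb.fsMap (𝟙 M) s).app n x, ?_⟩
        rw [← SAb.comp_app, gphtriv_fs_comp, hsq, gphtriv_fs_id]
        rfl
    have hq : SAb.Weq (SAb.fsMap (𝟙 M) q) :=
      (hEx _ _ hses 0).2.2.2.2.2.2.2.2.2.2.2.1.1 hT
    have h4 := gphtriv_weq_comp _ _ hq ih
    rw [gphtriv_fs_comp] at h4
    exact h4

theorem thm_WSurj (hGp : St_GpHTriv.{u}) (hCech : St_Cech.{u}) (hCechZ : St_CechZ.{u})
    (hStr : St_fsStrong.{u}) (hRed : St_redTriv.{u}) (hEx : St_AbEx.{u})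
    (hReal : St_AbReal.{u}) : St_WSurj.{u} := by
  intro G H f hf hK
  let M : SAb.{u} := SAb.const (ULift.{u} ℤ)
  let a : SOb.const G.und ⟶ cech f := ⟨fun p => wsurj_d f p, fun _ => rfl⟩
  let b := (SOb.mapF (gphtriv_F M)).map a
  have hb : SAb.Weq (SAb.diagF.map b) := by
    refine hReal.2.1 b fun p => ?_
    refine wsurj_sec (SAb.fsMap (𝟙 M) (wsurj_d f p)) (SAb.fsMap (𝟙 M) (wsurj_r f p)) ?_
      (wsurj_row hGp hCechZ hRed hEx f hK M p)
    rw [gphtriv_fs_comp, show wsurj_d f p ≫ wsurj_r f p = 𝟙 _ from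
      SSt.hom_ext fun n x => rfl, gphtriv_fs_id]
  let i : M.fs G.und ⟶ SAb.diagF.obj ((SOb.mapF (gphtriv_F M)).obj (SOb.const G.und)) :=
    ⟨fun n => AddMonoidHom.id _, fun {m n} θ x => by
      exact ((gphtriv_diag (ULift.{u} ℤ) (SOb.const G.und)).nat θ x).symm⟩
  have hi : SAb.Weq i := by
    refine gphtriv_weq_iso _ (gphtriv_diag (ULift.{u} ℤ) (SOb.const G.und)) ?_ ?_
    · exact SAb.hom_ext fun n x => rfl
    · exact SAb.hom_ext fun n x => rfl
  have h1 : SAb.Weq ((i ≫ SAb.diagF.map b) ≫ (gphtriv_diag (ULift.{u} ℤ) (cech f) ≫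
      SAb.fsMap (𝟙 M) (cechAug f))) :=
    gphtriv_weq_comp _ _ (gphtriv_weq_comp _ _ hi hb)
      (gphtriv_weq_comp _ _ (gphtriv_diag_weq _ _) (hStr M _ (hCech _ hf)))
  have h2 : (i ≫ SAb.diagF.map b) ≫ (gphtriv_diag (ULift.{u} ℤ) (cech f) ≫
      SAb.fsMap (𝟙 M) (cechAug f)) = ZSmap (SGp.undMap f) := by
    refine SAb.hom_ext fun n x => ?_
    have h3 : (SAb.fsMap (𝟙 M) (cechAug f)).app n ((SAb.fsMap (𝟙 M) (wsurj_d f n)).app n x) =
        (SAb.fsMap (𝟙 M) (SGp.undMap f)).app n x := by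
      exact gphtriv_mm (A := ULift.{u} ℤ) ((wsurj_d f n).app n) ((cechAug f).app n)
        ((SGp.undMap f).app n) (fun _ => rfl) x
    exact h3
  rw [h2] at h1
  exact h1

end Pool.Agent.FGK
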