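import Pool.Agent.FGK.StD

/-!
# FGK ZPSl: pointed and unpointed homology
-/

set_option autoImplicit false

noncomputable section

namespace Pool.Agent.FGK

open CategoryTheory Function Pool.Agent.KQ

universe u

theorem thm_ZPSl (hZR : St_ZR.{u}) (hAb : St_AbEx.{u}) (hSF : St_SlFin.{u}) : St_ZPSl.{u} := by
  intro X hX j
  obtain ⟨π, hπ⟩ := hZR.2.1 (undS X) (baseS X)
  have h1 : ∀ n, Finite ((baseS X).S.obj n) := by
    intro n
    have h2 : Subsingleton ((baseS X).S.obj n) :=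
      ⟨fun a b => Subtype.ext ((show a.1 = _ from a.2).trans (show b.1 = _ from b.2).symm)⟩
    exact Finite.of_subsingleton
  have h2 : ∀ j, (ZS (baseS X).S).SlAt j := fun j => hSF.2.1 _ h1 j
  cases j with
  | zero => exact (hAb _ _ hπ 0).2.2.2.2.2.2.2.2.2.2.1 (hX 0)
  | succ j => exact (hAb _ _ hπ 0).2.2.2.2.2.2.2.2.2.1 j (h2 j) (hX (j + 1))

end Pool.Agent.FGK
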