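import Pool.Agent.FGK.StD
import Pool.Agent.KQ.SPR2

/-!
# FGK, module ZQK: identify the zero objects in the `κ`-fold construction
-/

set_option autoImplicit false
set_option linter.unusedVariables false

noncomputable section

namespace Pool.Agent.FGK

open CategoryTheory CategoryTheory.Limits Function Pool.Agent.KQ

universe u

/-- the bisimplicial set with the rows `ob S^κ (S_m E)` -/
def zqk_row (κ : ℕ) : ExCat.{u} ⥤ SOb SSt.{u + 1} := Sd ⋙ SOb.mapF (itS Sd κ ⋙ obS)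

/-- the comparison with the diagonal -/
def zqk_diag (κ : ℕ) (E : ExCat.{u}) :
    SSt.diag ((zqk_row κ).obj E) ⟶ obS.obj ((itS Sd (κ + 1)).obj E) :=
  ⟨fun _ x => x, fun _ _ => rfl⟩

theorem zqk_diag_strong (κ : ℕ) (E : ExCat.{u}) : SSt.Strong (zqk_diag κ E) :=
  SP_bij _ fun _ => ⟨fun _ _ h => h, fun x => ⟨x, rfl⟩⟩

/-- the identification of the zero objects in the rows -/
def zqk_map (κ : ℕ) (E : ExCat.{u}) : (zqk_row κ).obj E ⟶ (SPR2.Rw κ).obj E :=
  ⟨fun m => zq ((itS Sd κ).obj (E.S (Fin (m + 1)))), fun _ => SSt.hom_ext fun _ _ => rfl⟩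

theorem zqk_succ (κ : ℕ) (E : ExCat.{u}) :
    zqk_diag κ E ≫ zq ((itS Sd (κ + 1)).obj E) =
      SSt.diagF.map (zqk_map κ E) ≫ SPR2.Ps_diag κ E := rfl

theorem thm_ZQK (hZ : St_ZQ.{u}) : St_ZQK.{u} := by
  intro κ hκ
  obtain ⟨κ, rfl⟩ : ∃ κ', κ = κ' + 1 := ⟨κ - 1, by omega⟩
  clear hκ
  induction κ with
  | zero =>
    intro E
    exact SPR2.zqE_strong hZ E
  | succ κ ih =>
    intro E
    have h1 : SSt.Strong (SSt.diagF.map (zqk_map (κ + 1) E)) :=
      all_StrRow (zqk_map (κ + 1) E) fun m => ih _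
    have h2 : SSt.Strong (SSt.diagF.map (zqk_map (κ + 1) E) ≫ SPR2.Ps_diag (κ + 1) E) :=
      thm_Str23.1 _ _ h1 (SPR2.Ps_diag_strong _ _)
    rw [← zqk_succ] at h2
    exact thm_Str23.2.1 _ _ (zqk_diag_strong _ _) h2

end Pool.Agent.FGK
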