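import Pool.Agent.FGK.StA

/-!
# FGK, C1: `M ↦ M[Y]` preserves connected maps (helper72)

`thm_fsConn (hR : St_AbReal) : St_fsConn`.
-/

set_option autoImplicit false
set_option linter.unusedVariables false

namespace Pool.Agent.FGK

open CategoryTheory Function Pool.Agent.KQ

universe u

/-! ### homotopy groups in terms of cycles and boundaries -/

theorem fsconn_surj {G H : SGp.{u}} (φ : G ⟶ H) (n : ℕ) : Surjective (SGp.PiMap φ n) ↔
    ∀ y ∈ H.Z n, ∃ x ∈ G.Z n, (φ.app n x)⁻¹ * y ∈ H.B n := by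
  constructor
  · intro h y hy
    obtain ⟨x, hx⟩ := h (H.cls n ⟨y, hy⟩)
    obtain ⟨x, rfl⟩ := G.cls_surj n x
    refine ⟨x.1, x.2, ?_⟩
    rw [SGp.PiMap_cls] at hx
    have h1 : H.cls n ((SGp.Zmap φ n x)⁻¹ * ⟨y, hy⟩) = 1 := by
      rw [map_mul, map_inv, hx, inv_mul_cancel]
    exact SGp.cls_eq_one H |>.1 h1
  · intro h y
    obtain ⟨y, rfl⟩ := H.cls_surj n y
    obtain ⟨x, hx, hxy⟩ := h y.1 y.2
    refine ⟨G.cls n ⟨x, hx⟩, ?_⟩
    rw [SGp.PiMap_cls]
    have h1 : H.cls n ((SGp.Zmap φ n ⟨x, hx⟩)⁻¹ * y) = 1 := (SGp.cls_eq_one H).2 hxy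
    rw [map_mul, map_inv] at h1
    exact inv_mul_eq_one.1 h1

theorem fsconn_inj {G H : SGp.{u}} (φ : G ⟶ H) (n : ℕ) : Injective (SGp.PiMap φ n) ↔
    ∀ x ∈ G.Z n, φ.app n x ∈ H.B n → x ∈ G.B n := by
  rw [injective_iff_map_eq_one]
  constructor
  · intro h x hx hy
    have h1 : SGp.PiMap φ n (G.cls n ⟨x, hx⟩) = 1 := by
      rw [SGp.PiMap_cls]
      exact (SGp.cls_eq_one H).2 hy
    exact (SGp.cls_eq_one G).1 (h _ h1)
  · intro h x hx
    obtain ⟨x, rfl⟩ := G.cls_surj n x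
    rw [SGp.PiMap_cls] at hx
    exact (SGp.cls_eq_one G).2 (h x.1 x.2 ((SGp.cls_eq_one H).1 hx))

theorem fsconn_one (G : SGp.{u}) (n : ℕ) : (∀ x : G.Pi n, x = 1) ↔ ∀ x ∈ G.Z n, x ∈ G.B n := by
  constructor
  · intro h x hx
    exact (SGp.cls_eq_one G).1 (h (G.cls n ⟨x, hx⟩))
  · intro h x
    obtain ⟨x, rfl⟩ := G.cls_surj n x
    exact (SGp.cls_eq_one G).2 (h x.1 x.2)

/-! ### finitely supported families -/

/-- choice of finitely supported families -/
theorem fsconn_choose {S A B : Type u} [Zero A] [Zero B] (x : S →₀ A) (P : A → B → Prop)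
    (h0 : P 0 0) (h : ∀ s, ∃ b, P (x s) b) : ∃ y : S →₀ B, ∀ s, P (x s) (y s) := by
  classical
  choose g hg using h
  refine ⟨Finsupp.onFinset x.support (fun s => if x s = 0 then 0 else g s) ?_, fun s => ?_⟩
  · intro s hs
    rw [Finsupp.mem_support_iff]
    intro h1
    exact hs (if_pos h1)
  · rw [Finsupp.onFinset_apply]
    by_cases h1 : x s = 0
    · rw [if_pos h1, h1]
      exact h0
    · rw [if_neg h1]
      exact hg s

/-- finitely supported families indexed by a set -/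
noncomputable def fsconn_row (M : SAb.{u}) (S : Type u) : SAb.{u} where
  obj n := S →₀ M.obj n
  map θ := Finsupp.mapRange.addMonoidHom (M.map θ)
  map_id n x := Finsupp.ext fun y => M.map_id n (x y)
  map_comp f g x := Finsupp.ext fun y => M.map_comp f g (x y)

/-- an element as an element of the simplicial group -/
def fsconn_e (X : SAb.{u}) (n : ℕ) (x : X.obj n) : (SAb.gp.obj X).obj n := Multiplicative.ofAdd x

/-- functoriality in `M` -/
noncomputable def fsconn_rowMap {M M' : SAb.{u}} (f : M ⟶ M') (S : Type u) :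
    fsconn_row M S ⟶ fsconn_row M' S :=
  ⟨fun n => Finsupp.mapRange.addMonoidHom (f.app n), fun {m n} θ x => by
    change (S →₀ M.obj n) at x
    refine Finsupp.ext fun y => ?_
    exact f.nat θ (x y)⟩

theorem fsconn_Z (M : SAb.{u}) (S : Type u) (n : ℕ) (x : S →₀ M.obj n) :
    fsconn_e (fsconn_row M S) n x ∈ (SAb.gp.obj (fsconn_row M S)).Z n ↔
    ∀ s, fsconn_e M n (x s) ∈ (SAb.gp.obj M).Z n := by
  cases n with
  | zero => exact ⟨fun _ _ => trivial, fun _ => trivial⟩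
  | succ n =>
    refine (SGp.mem_Z_succ _).trans ⟨fun h s => (SGp.mem_Z_succ _).2 fun i => ?_, fun h i => ?_⟩
    · have h1 : Finsupp.mapRange (M.map (dl i)) (map_zero _) x = 0 := h i
      exact congrArg (fun e : S →₀ M.obj n => e s) h1
    · have h1 : Finsupp.mapRange (M.map (dl i)) (map_zero _) x = 0 := by
        refine Finsupp.ext fun s => ?_
        exact (SGp.mem_Z_succ (SAb.gp.obj M)).1 (h s) i
      exact h1

theorem fsconn_B (M : SAb.{u}) (S : Type u) (n : ℕ) (x : S →₀ M.obj n) :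
    fsconn_e (fsconn_row M S) n x ∈ (SAb.gp.obj (fsconn_row M S)).B n ↔
    ∀ s, fsconn_e M n (x s) ∈ (SAb.gp.obj M).B n := by
  refine (SGp.mem_B _).trans ⟨?_, fun h => ?_⟩
  · rintro ⟨y, hy, hyx⟩ s
    change (S →₀ M.obj (n + 1)) at y
    refine (SGp.mem_B _).2 ⟨fsconn_e M (n + 1) (y s), fun i => ?_, ?_⟩
    · have h1 : Finsupp.mapRange (M.map (dl i.succ)) (map_zero _) y = 0 := hy i
      exact congrArg (fun e : S →₀ M.obj n => e s) h1
    · have h1 : Finsupp.mapRange (M.map (dl 0)) (map_zero _) y = x := hyx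
      exact congrArg (fun e : S →₀ M.obj n => e s) h1
  · obtain ⟨y, hy⟩ := fsconn_choose x (fun (a : M.obj n) (b : M.obj (n + 1)) =>
      (∀ i : Fin (n + 1), M.map (dl i.succ) b = 0) ∧ M.map (dl 0) b = a)
      ⟨fun i => map_zero _, map_zero _⟩ (fun s => by
        obtain ⟨b, hb, hb'⟩ := (SGp.mem_B (SAb.gp.obj M)).1 (h s)
        exact ⟨Multiplicative.toAdd b, hb, hb'⟩)
    refine ⟨fsconn_e (fsconn_row M S) (n + 1) y, fun i => ?_, ?_⟩
    · have h1 : Finsupp.mapRange (M.map (dl i.succ)) (map_zero _) y = 0 :=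
        Finsupp.ext fun s => (hy s).1 i
      exact h1
    · have h1 : Finsupp.mapRange (M.map (dl 0)) (map_zero _) y = x :=
        Finsupp.ext fun s => (hy s).2
      exact h1

theorem fsconn_row_surj {M M' : SAb.{u}} (f : M ⟶ M') (S : Type u) (n : ℕ)
    (h : Surjective (SGp.PiMap (SAb.gp.map f) n)) :
    Surjective (SGp.PiMap (SAb.gp.map (fsconn_rowMap f S)) n) := by
  rw [fsconn_surj] at h ⊢
  intro y hy
  have hy' := (fsconn_Z M' S n y).1 hy
  obtain ⟨x, hx⟩ := fsconn_choose (A := M'.obj n) (B := M.obj n) y (fun b a =>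
    fsconn_e M n a ∈ (SAb.gp.obj M).Z n ∧
    fsconn_e M' n (-(f.app n a) + b) ∈ (SAb.gp.obj M').B n)
    ⟨one_mem _, by
      rw [map_zero, neg_zero, zero_add]
      exact one_mem _⟩ (fun s => by
      obtain ⟨a, ha, hb⟩ := h _ (hy' s)
      exact ⟨Multiplicative.toAdd a, ha, hb⟩)
  exact ⟨fsconn_e (fsconn_row M S) n x, (fsconn_Z M S n x).2 fun s => (hx s).1,
    (fsconn_B M' S n (-(Finsupp.mapRange (f.app n) (map_zero _) x) +
      (show S →₀ M'.obj n from y))).2 fun s => (hx s).2⟩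

theorem fsconn_row_inj {M M' : SAb.{u}} (f : M ⟶ M') (S : Type u) (n : ℕ)
    (h : Injective (SGp.PiMap (SAb.gp.map f) n)) :
    Injective (SGp.PiMap (SAb.gp.map (fsconn_rowMap f S)) n) := by
  rw [fsconn_inj] at h ⊢
  intro x hx hy
  have hx' := (fsconn_Z M S n x).1 hx
  have hy' := (fsconn_B M' S n (Finsupp.mapRange (f.app n) (map_zero _) x)).1 hy
  exact (fsconn_B M S n x).2 fun s => h _ (hx' s) (hy' s)

theorem fsconn_row_triv (M : SAb.{u}) (S : Type u) (c : ℕ) (h : SAb.Triv c M) :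
    SAb.Triv c (fsconn_row M S) := by
  intro j hj
  rw [fsconn_one]
  intro x hx
  have hx' := (fsconn_Z M S j x).1 hx
  exact (fsconn_B M S j x).2 fun s => (fsconn_one _ j).1 (h j hj) _ (hx' s)

/-! ### the bisimplicial group -/

/-- functoriality in `S` -/
noncomputable def fsconn_re (M : SAb.{u}) {S T : Type u} (g : S → T) :
    fsconn_row M S ⟶ fsconn_row M T :=
  ⟨fun n => Finsupp.mapDomain.addMonoidHom g, fun {m n} θ x => by
    change Finsupp.mapDomain g (Finsupp.mapRange (M.map θ) (map_zero _) x) =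
      Finsupp.mapRange (M.map θ) (map_zero _) (Finsupp.mapDomain g x)
    change (S →₀ M.obj n) at x
    induction x using Finsupp.induction_linear with
    | zero => simp
    | add a b ha hb =>
      rw [Finsupp.mapRange_add (map_add _), Finsupp.mapDomain_add, ha, hb, Finsupp.mapDomain_add,
        Finsupp.mapRange_add (map_add _)]
    | single a b =>
      rw [Finsupp.mapRange_single, Finsupp.mapDomain_single, Finsupp.mapDomain_single,
        Finsupp.mapRange_single]⟩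

/-- the bisimplicial abelian group whose rows are families in `M` indexed by `Y_m` -/
noncomputable def fsconn_W (M : SAb.{u}) (Y : SSt.{u}) : SOb SAb.{u} where
  obj m := fsconn_row M (Y.obj m)
  map θ := fsconn_re M (Y.map θ)
  map_id m := by
    refine SAb.hom_ext fun n x => ?_
    change Finsupp.mapDomain (Y.map (OrderHom.id : Mo m m)) x = x
    rw [show (Y.map (OrderHom.id : Mo m m)) = id from funext (Y.map_id m)]
    exact Finsupp.mapDomain_id
  map_comp {l m k} f g := by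
    refine SAb.hom_ext fun n x => ?_
    change Finsupp.mapDomain (Y.map (g.comp f)) x =
      Finsupp.mapDomain (Y.map f) (Finsupp.mapDomain (Y.map g) x)
    rw [show (Y.map (g.comp f)) = Y.map f ∘ Y.map g from funext (Y.map_comp f g)]
    exact Finsupp.mapDomain_comp

/-- functoriality of the bisimplicial abelian group -/
noncomputable def fsconn_WMap {M M' : SAb.{u}} (f : M ⟶ M') (Y : SSt.{u}) :
    fsconn_W M Y ⟶ fsconn_W M' Y :=
  ⟨fun m => fsconn_rowMap f (Y.obj m), fun {l m} θ => by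
    refine SAb.hom_ext fun n x => ?_
    change (Y.obj m →₀ M.obj n) at x
    change Finsupp.mapRange (f.app n) (map_zero _) (Finsupp.mapDomain (Y.map θ) x) =
      Finsupp.mapDomain (Y.map θ) (Finsupp.mapRange (f.app n) (map_zero _) x)
    induction x using Finsupp.induction_linear with
    | zero => simp
    | add a b ha hb =>
      rw [Finsupp.mapDomain_add, Finsupp.mapRange_add (map_add _), ha, hb,
        Finsupp.mapRange_add (map_add _), Finsupp.mapDomain_add]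
    | single a b =>
      rw [Finsupp.mapDomain_single, Finsupp.mapRange_single, Finsupp.mapRange_single,
        Finsupp.mapDomain_single]⟩

theorem fsconn_diag_map (M : SAb.{u}) (Y : SSt.{u}) {m n : ℕ} (θ : Mo m n)
    (x : Y.obj n →₀ M.obj n) : (SAb.diag (fsconn_W M Y)).map θ x = (M.fs Y).map θ x := by
  change Finsupp.mapRange (M.map θ) (map_zero _) (Finsupp.mapDomain (Y.map θ) x) =
    Finsupp.mapDomain (Y.map θ) (Finsupp.mapRange (M.map θ) (map_zero _) x)
  exact ((fsconn_re M (Y.map θ)).nat θ x).symm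

/-- comparison -/
noncomputable def fsconn_u (M : SAb.{u}) (Y : SSt.{u}) : SAb.diag (fsconn_W M Y) ⟶ M.fs Y :=
  ⟨fun n => AddMonoidHom.id _, fun θ x => fsconn_diag_map M Y θ x⟩

/-- comparison -/
noncomputable def fsconn_v (M : SAb.{u}) (Y : SSt.{u}) : M.fs Y ⟶ SAb.diag (fsconn_W M Y) :=
  ⟨fun n => AddMonoidHom.id _, fun θ x => (fsconn_diag_map M Y θ x).symm⟩

theorem fsconn_u_bij (M : SAb.{u}) (Y : SSt.{u}) (j : ℕ) :
    Bijective (SGp.PiMap (SAb.gp.map (fsconn_u M Y)) j) := by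
  have h1 : SAb.gp.map (fsconn_u M Y) ≫ SAb.gp.map (fsconn_v M Y) = 𝟙 _ := rfl
  have h2 : SAb.gp.map (fsconn_v M Y) ≫ SAb.gp.map (fsconn_u M Y) = 𝟙 _ := rfl
  refine ⟨fun x y h => ?_, fun x => ⟨SGp.PiMap (SAb.gp.map (fsconn_v M Y)) j x, ?_⟩⟩
  · have h3 := congrArg (SGp.PiMap (SAb.gp.map (fsconn_v M Y)) j) h
    rw [← SGp.PiMap_comp, ← SGp.PiMap_comp, h1, SGp.PiMap_id, SGp.PiMap_id] at h3
    exact h3
  · rw [← SGp.PiMap_comp, h2, SGp.PiMap_id]

theorem fsconn_v_bij (M : SAb.{u}) (Y : SSt.{u}) (j : ℕ) :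
    Bijective (SGp.PiMap (SAb.gp.map (fsconn_v M Y)) j) := by
  have h1 : SAb.gp.map (fsconn_u M Y) ≫ SAb.gp.map (fsconn_v M Y) = 𝟙 _ := rfl
  have h2 : SAb.gp.map (fsconn_v M Y) ≫ SAb.gp.map (fsconn_u M Y) = 𝟙 _ := rfl
  refine ⟨fun x y h => ?_, fun x => ⟨SGp.PiMap (SAb.gp.map (fsconn_u M Y)) j x, ?_⟩⟩
  · have h3 := congrArg (SGp.PiMap (SAb.gp.map (fsconn_u M Y)) j) h
    rw [← SGp.PiMap_comp, ← SGp.PiMap_comp, h2, SGp.PiMap_id, SGp.PiMap_id] at h3
    exact h3
  · rw [← SGp.PiMap_comp, h1, SGp.PiMap_id]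

theorem fsconn_square {M M' : SAb.{u}} (f : M ⟶ M') (Y : SSt.{u}) :
    SAb.gp.map (SAb.fsMap f (𝟙 Y)) = SAb.gp.map (fsconn_v M Y) ≫
      SAb.gp.map (SAb.diagF.map (fsconn_WMap f Y)) ≫ SAb.gp.map (fsconn_u M' Y) := by
  refine SGp.hom_ext fun n x => ?_
  change (Y.obj n →₀ M.obj n) at x
  change Finsupp.mapDomain (fun y : Y.obj n => y) (Finsupp.mapRange (f.app n) (map_zero _) x) =
    Finsupp.mapRange (f.app n) (map_zero _) x
  exact Finsupp.mapDomain_id

theorem fsconn_PiMap {M M' : SAb.{u}} (f : M ⟶ M') (Y : SSt.{u}) (j : ℕ) :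
    (SGp.PiMap (SAb.gp.map (SAb.fsMap f (𝟙 Y))) j : _ → _) =
      SGp.PiMap (SAb.gp.map (fsconn_u M' Y)) j ∘
      SGp.PiMap (SAb.gp.map (SAb.diagF.map (fsconn_WMap f Y))) j ∘
      SGp.PiMap (SAb.gp.map (fsconn_v M Y)) j := by
  funext x
  rw [fsconn_square, SGp.PiMap_comp, SGp.PiMap_comp]
  rfl

theorem fsconn_bij {M M' : SAb.{u}} (f : M ⟶ M') (Y : SSt.{u}) (j : ℕ)
    (h : Bijective (SGp.PiMap (SAb.gp.map (SAb.diagF.map (fsconn_WMap f Y))) j)) :
    Bijective (SGp.PiMap (SAb.gp.map (SAb.fsMap f (𝟙 Y))) j) := by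
  rw [fsconn_PiMap]
  exact (fsconn_u_bij M' Y j).comp (h.comp (fsconn_v_bij M Y j))

theorem fsconn_sur {M M' : SAb.{u}} (f : M ⟶ M') (Y : SSt.{u}) (j : ℕ)
    (h : Surjective (SGp.PiMap (SAb.gp.map (SAb.diagF.map (fsconn_WMap f Y))) j)) :
    Surjective (SGp.PiMap (SAb.gp.map (SAb.fsMap f (𝟙 Y))) j) := by
  rw [fsconn_PiMap]
  exact (fsconn_u_bij M' Y j).2.comp (h.comp (fsconn_v_bij M Y j).2)

/-- **C1.** -/
theorem thm_fsConn (hR : St_AbReal.{u}) : St_fsConn.{u} := by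
  refine ⟨fun c {M M'} f Y h => ?_, fun {M M'} f Y h => ?_, fun c M Y h => ?_⟩
  · have h1 : SAb.Conn c (SAb.diagF.map (fsconn_WMap f Y)) := by
      refine hR.1 c (fsconn_WMap f Y) fun m => ⟨fun j hj => ?_, ?_⟩
      · exact ⟨fsconn_row_inj f (Y.obj m) j (h.1 j hj).1, fsconn_row_surj f (Y.obj m) j (h.1 j hj).2⟩
      · exact fsconn_row_surj f (Y.obj m) c h.2
    exact ⟨fun j hj => fsconn_bij f Y j (h1.1 j hj), fsconn_sur f Y c h1.2⟩
  · have h1 : SAb.Weq (SAb.diagF.map (fsconn_WMap f Y)) := by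
      refine hR.2.1 (fsconn_WMap f Y) fun m j => ?_
      exact ⟨fsconn_row_inj f (Y.obj m) j (h j).1, fsconn_row_surj f (Y.obj m) j (h j).2⟩
    exact fun j => fsconn_bij f Y j (h1 j)
  · have h1 : SAb.Triv c (SAb.diag (fsconn_W M Y)) :=
      hR.2.2.2.1 c (fsconn_W M Y) fun m => fsconn_row_triv M (Y.obj m) c h
    intro j hj x
    obtain ⟨y, rfl⟩ := (fsconn_u_bij M Y j).2 x
    rw [h1 j hj y, map_one]

end Pool.Agent.FGK
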