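import Pool.Agent.FGK.StA

/-!
# FGK, module fsEx (C3): exactness of `M[Y]` and of its reduced part

`thm_fsEx : St_fsEx`.
-/

set_option autoImplicit false

namespace Pool.Agent.FGK

open CategoryTheory Function Pool.Agent.KQ

universe u

variable {X M Z : SAb.{u}} (f : X ⟶ M) (g : M ⟶ Z) (Y : SSt.{u})

theorem fsex_app (n : ℕ) (x : Y.obj n →₀ X.obj n) :
    (SAb.fsMap f (𝟙 Y)).app n x = Finsupp.mapRange (f.app n) (map_zero _) x := by
  change Finsupp.mapDomain id (Finsupp.mapRange (f.app n) (map_zero _) x) = _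
  rw [Finsupp.mapDomain_id]

theorem fsex_app_apply (n : ℕ) (x : Y.obj n →₀ X.obj n) (y : Y.obj n) :
    (show Y.obj n →₀ M.obj n from (SAb.fsMap f (𝟙 Y)).app n x) y = f.app n (x y) := by
  have h := fsex_app f Y n x
  rw [h]
  exact Finsupp.mapRange_apply (hf := map_zero _)

theorem fsex_single (n : ℕ) (y : Y.obj n) (a : X.obj n) :
    (SAb.fsMap f (𝟙 Y)).app n (Finsupp.single y a : Y.obj n →₀ X.obj n) =
      (Finsupp.single y (f.app n a) : Y.obj n →₀ M.obj n) := by
  rw [fsex_app]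
  exact Finsupp.mapRange_single (hf := map_zero _)

theorem fsex_aug_single (n : ℕ) (y : Y.obj n) (a : X.obj n) :
    (X.aug Y).app n (Finsupp.single y a : Y.obj n →₀ X.obj n) = a := by
  change Finsupp.liftAddHom (fun _ => AddMonoidHom.id (X.obj n)) (Finsupp.single y a) = _
  rw [Finsupp.liftAddHom_apply_single]
  rfl

theorem fsex_nat : X.aug Y ≫ f = SAb.fsMap f (𝟙 Y) ≫ M.aug Y := by
  apply SAb.hom_ext
  intro n x
  change f.app n ((X.aug Y).app n x) = (M.aug Y).app n ((SAb.fsMap f (𝟙 Y)).app n x)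
  have key : (f.app n).comp ((X.aug Y).app n) =
      ((M.aug Y).app n).comp ((SAb.fsMap f (𝟙 Y)).app n) := by
    refine Finsupp.addHom_ext (M := X.obj n) fun y a => ?_
    change f.app n ((X.aug Y).app n (Finsupp.single y a : Y.obj n →₀ X.obj n)) =
      (M.aug Y).app n ((SAb.fsMap f (𝟙 Y)).app n (Finsupp.single y a : Y.obj n →₀ X.obj n))
    rw [fsex_aug_single, fsex_single, fsex_aug_single]
  exact DFunLike.congr_fun key x

theorem fsex_nat_apply (n : ℕ) (x : Y.obj n →₀ X.obj n) :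
    f.app n ((X.aug Y).app n x) = (M.aug Y).app n ((SAb.fsMap f (𝟙 Y)).app n x) :=
  congrArg (fun e : X.fs Y ⟶ M => e.app n x) (fsex_nat f Y)

theorem fsex_ses (h : SAb.SES f g) : SAb.SES (SAb.fsMap f (𝟙 Y)) (SAb.fsMap g (𝟙 Y)) := by
  obtain ⟨h1, h2, h3⟩ := h
  refine ⟨fun n x x' hx => ?_, fun n x => ⟨fun hx => ?_, ?_⟩, fun n z => ?_⟩
  · rw [fsex_app, fsex_app] at hx
    exact Finsupp.mapRange_injective (f.app n) (map_zero _) (h1 n) hx
  · have hy : ∀ y : Y.obj n, g.app n ((show Y.obj n →₀ M.obj n from x) y) = 0 := fun y => by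
      rw [← fsex_app_apply g Y n x y, hx]
      rfl
    classical
    have hs : ∀ m : M.obj n, ∃ a : X.obj n, (g.app n m = 0 → f.app n a = m) ∧ (m = 0 → a = 0) := by
      intro m
      by_cases hm : g.app n m = 0
      · obtain ⟨a, ha⟩ := (h2 n m).1 hm
        refine ⟨a, fun _ => ha, fun h0 => h1 n ?_⟩
        rw [ha, h0, map_zero]
      · exact ⟨0, fun h => absurd h hm, fun _ => rfl⟩
    choose s hs1 hs2 using hs
    refine ⟨(Finsupp.mapRange s (hs2 0 rfl) (show Y.obj n →₀ M.obj n from x) :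
      Y.obj n →₀ X.obj n), ?_⟩
    refine Finsupp.ext (M := M.obj n) fun y => ?_
    refine (fsex_app_apply f Y n _ y).trans ?_
    rw [Finsupp.mapRange_apply]
    exact hs1 _ (hy y)
  · rintro ⟨a, rfl⟩
    refine Finsupp.ext (M := Z.obj n) fun y => ?_
    refine (fsex_app_apply g Y n _ y).trans ?_
    refine (congrArg (g.app n) (fsex_app_apply f Y n a y)).trans ?_
    exact (h2 n _).2 ⟨_, rfl⟩
  · obtain ⟨m, hm⟩ := Finsupp.mapRange_surjective (g.app n) (map_zero _) (h3 n) z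
    exact ⟨m, (fsex_app g Y n m).trans hm⟩

/-- C3. -/
theorem thm_fsEx : St_fsEx.{u} := by
  intro X M Z f g h Y
  have hs := fsex_ses f g Y h
  refine ⟨hs, SAb.kerMap _ _ (fsex_nat f Y), SAb.kerMap _ _ (fsex_nat g Y), fun _ _ => rfl,
    fun _ _ => rfl, fun n x x' hx => ?_, fun n x => ⟨fun hx => ?_, ?_⟩, fun n z => ?_⟩
  · exact Subtype.ext (hs.inj n (congrArg Subtype.val hx))
  · have hx' : (SAb.fsMap g (𝟙 Y)).app n x.1 = 0 := congrArg Subtype.val hx
    obtain ⟨a, ha⟩ := (hs.ex n x.1).1 hx'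
    have h0 : (X.aug Y).app n a = 0 := by
      apply h.inj n
      rw [fsex_nat_apply, ha, map_zero]
      exact x.2
    exact ⟨⟨a, h0⟩, Subtype.ext ha⟩
  · rintro ⟨a, rfl⟩
    exact Subtype.ext ((hs.ex n _).2 ⟨a.1, rfl⟩)
  · obtain ⟨z, hz⟩ := z
    by_cases h0 : z = 0
    · subst h0
      exact ⟨0, Subtype.ext (map_zero _)⟩
    · obtain ⟨y, -⟩ : ∃ y : Y.obj n, (show Y.obj n →₀ Z.obj n from z) y ≠ 0 := by
        by_contra hc
        push Not at hc
        exact h0 (Finsupp.ext (M := Z.obj n) hc)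
      obtain ⟨m, hm⟩ := hs.surj n z
      have h4 : g.app n ((M.aug Y).app n m) = 0 := by
        rw [fsex_nat_apply, hm]
        exact hz
      obtain ⟨a, ha⟩ := (h.ex n _).1 h4
      let w : (M.fs Y).obj n := (Finsupp.single y (f.app n a) : Y.obj n →₀ M.obj n)
      have h6 : (M.aug Y).app n w = f.app n a := fsex_aug_single Y n y (f.app n a)
      have h7 : (SAb.fsMap g (𝟙 Y)).app n w = 0 := by
        refine (fsex_single g Y n y (f.app n a)).trans ?_
        rw [(h.ex n (f.app n a)).2 ⟨a, rfl⟩, Finsupp.single_zero]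
        rfl
      have h5 : (M.aug Y).app n (m - w) = 0 := by
        rw [map_sub, h6, ha, sub_self]
      refine ⟨⟨_, h5⟩, Subtype.ext ?_⟩
      change (SAb.fsMap g (𝟙 Y)).app n (m - w) = z
      rw [map_sub, hm, h7, sub_zero]

end Pool.Agent.FGK
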