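import Pool.Agent.FGK.Prods

/-!
# FGK fsProd: `M[Y × Y'] = M[Y][Y']`
-/

set_option autoImplicit false

noncomputable section

namespace Pool.Agent.FGK

open CategoryTheory Function Pool.Agent.KQ

universe u

/-- the map in one degree -/
def fsprod_f (A B M : Type u) [AddCommGroup M] : (B →₀ (A →₀ M)) →+ (A × B →₀ M) :=
  Finsupp.liftAddHom fun b => Finsupp.liftAddHom fun a => Finsupp.singleAddHom (a, b)

theorem fsprod_f_single (A B M : Type u) [AddCommGroup M] (a : A) (b : B) (m : M) :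
    fsprod_f A B M (Finsupp.single b (Finsupp.single a m)) = Finsupp.single (a, b) m := by
  unfold fsprod_f
  rw [Finsupp.liftAddHom_apply_single, Finsupp.liftAddHom_apply_single]
  rfl

/-- the inverse in one degree -/
def fsprod_g (A B M : Type u) [AddCommGroup M] : (A × B →₀ M) →+ (B →₀ (A →₀ M)) :=
  Finsupp.liftAddHom fun x => (Finsupp.singleAddHom x.2).comp (Finsupp.singleAddHom x.1)

theorem fsprod_g_single (A B M : Type u) [AddCommGroup M] (x : A × B) (m : M) :
    fsprod_g A B M (Finsupp.single x m) = Finsupp.single x.2 (Finsupp.single x.1 m) := by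
  unfold fsprod_g
  rw [Finsupp.liftAddHom_apply_single]
  rfl

theorem fsprod_bij (A B M : Type u) [AddCommGroup M] : Bijective (fsprod_f A B M) := by
  have h1 : (fsprod_g A B M).comp (fsprod_f A B M) = AddMonoidHom.id _ := by
    refine Finsupp.addHom_ext' fun b => Finsupp.addHom_ext' fun a => AddMonoidHom.ext fun m => ?_
    change fsprod_g A B M (fsprod_f A B M (Finsupp.single b (Finsupp.single a m))) = _
    rw [fsprod_f_single, fsprod_g_single]
    rfl
  have h2 : (fsprod_f A B M).comp (fsprod_g A B M) = AddMonoidHom.id _ := by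
    refine Finsupp.addHom_ext' fun x => AddMonoidHom.ext fun m => ?_
    change fsprod_f A B M (fsprod_g A B M (Finsupp.single x m)) = _
    rw [fsprod_g_single, fsprod_f_single]
    rfl
  exact ⟨fun x y h => by
    have h3 := DFunLike.congr_fun h1 x
    have h4 := DFunLike.congr_fun h1 y
    rw [AddMonoidHom.comp_apply] at h3 h4
    rw [← AddMonoidHom.id_apply _ x, ← h3, h, h4]
    rfl, fun y => ⟨_, DFunLike.congr_fun h2 y⟩⟩

theorem fsprod_map (M : SAb.{u}) (Y : SSt.{u}) {m n : ℕ} (θ : Mo m n) (y : Y.obj n)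
    (a : M.obj n) : (M.fs Y).map θ (prods_sg M Y y a) = prods_sg M Y (Y.map θ y) (M.map θ a) := by
  change Finsupp.mapDomain (Y.map θ) (Finsupp.mapRange (M.map θ) (map_zero _)
    (Finsupp.single y a)) = Finsupp.single (Y.map θ y) (M.map θ a)
  rw [Finsupp.mapRange_single, Finsupp.mapDomain_single]

/-- the map in degree `n` -/
def fsprod_F (M : SAb.{u}) (Y Y' : SSt.{u}) (n : ℕ) :
    ((M.fs Y).fs Y').obj n →+ (M.fs (Y.prod Y')).obj n :=
  fsprod_f (Y.obj n) (Y'.obj n) (M.obj n)

theorem fsprod_F_sg (M : SAb.{u}) (Y Y' : SSt.{u}) (n : ℕ) (y : Y.obj n) (y' : Y'.obj n)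
    (a : M.obj n) : fsprod_F M Y Y' n (prods_sg (M.fs Y) Y' y' (prods_sg M Y y a)) =
      prods_sg M (Y.prod Y') (y, y') a := fsprod_f_single _ _ _ y y' a

theorem fsprod_nat (M : SAb.{u}) (Y Y' : SSt.{u}) {m n : ℕ} (θ : Mo m n)
    (z : ((M.fs Y).fs Y').obj n) : fsprod_F M Y Y' m (((M.fs Y).fs Y').map θ z) =
      (M.fs (Y.prod Y')).map θ (fsprod_F M Y Y' n z) := by
  refine prods_ind (p := fun z => fsprod_F M Y Y' m (((M.fs Y).fs Y').map θ z) =
      (M.fs (Y.prod Y')).map θ (fsprod_F M Y Y' n z)) z ?_ (fun a b ha hb => ?_)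
      fun y' w => ?_
  · rw [map_zero, map_zero, map_zero, map_zero]
  · rw [map_add, map_add, map_add, map_add, ha, hb]
  · refine prods_ind (p := fun w => fsprod_F M Y Y' m (((M.fs Y).fs Y').map θ
      (prods_sg (M.fs Y) Y' y' w)) = (M.fs (Y.prod Y')).map θ
        (fsprod_F M Y Y' n (prods_sg (M.fs Y) Y' y' w))) w ?_ (fun a b ha hb => ?_)
        fun y a => ?_
    · rw [prods_sg_zero, map_zero, map_zero, map_zero, map_zero]
    · rw [prods_sg_add, map_add, map_add, map_add, map_add, ha, hb]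
    · rw [fsprod_map, fsprod_map, fsprod_F_sg, fsprod_F_sg, fsprod_map]
      rfl

/-- the comparison -/
def fsprod_φ (M : SAb.{u}) (Y Y' : SSt.{u}) : (M.fs Y).fs Y' ⟶ M.fs (Y.prod Y') :=
  ⟨fsprod_F M Y Y', fun θ x => fsprod_nat M Y Y' θ x⟩

theorem fsprod_φ_sg (M : SAb.{u}) (Y Y' : SSt.{u}) (n : ℕ) (y : Y.obj n) (y' : Y'.obj n)
    (a : M.obj n) : (fsprod_φ M Y Y').app n (prods_sg (M.fs Y) Y' y' (prods_sg M Y y a)) =
      prods_sg M (Y.prod Y') (y, y') a := fsprod_F_sg M Y Y' n y y' a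

theorem thm_fsProd : St_fsProd.{u} := by
  intro M Y Y'
  refine ⟨fsprod_φ M Y Y', fun n => fsprod_bij _ _ _,
    fun n y y' a => fsprod_φ_sg M Y Y' n y y' a, ?_, ?_⟩
  · refine prods_ext2 fun n x y a => ?_
    rw [SAb.comp_app, fsprod_φ_sg, prods_single, prods_aug_single]
    rfl
  · refine prods_ext2 fun n x y a => ?_
    rw [SAb.comp_app, SAb.comp_app, fsprod_φ_sg, prods_aug_single, prods_aug_single,
      prods_aug_single]

end Pool.Agent.FGK
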