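import Pool.Agent.FGK.StA

/-!
# FGK, C5: connectivity of `M ⊗ ℤ~[Y]` (helper22)
-/

set_option autoImplicit false
set_option linter.unusedVariables false

namespace Pool.Agent.FGK

open CategoryTheory Function Pool.Agent.KQ

universe u

/-! ### isomorphisms -/

theorem redtriv_iso {G H : SGp.{u}} (f : G ⟶ H) (g : H ⟶ G) (h1 : f ≫ g = 𝟙 G)
    (h2 : g ≫ f = 𝟙 H) (j : ℕ) : Bijective (SGp.PiMap f j) := by
  refine ⟨fun x y h => ?_, fun x => ⟨SGp.PiMap g j x, ?_⟩⟩
  · have h3 := congrArg (SGp.PiMap g j) h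
    rw [← SGp.PiMap_comp, ← SGp.PiMap_comp, h1, SGp.PiMap_id, SGp.PiMap_id] at h3
    exact h3
  · rw [← SGp.PiMap_comp, h2, SGp.PiMap_id]

theorem redtriv_triv {G H : SGp.{u}} (f : G ⟶ H) (g : H ⟶ G) (h1 : f ≫ g = 𝟙 G)
    (h2 : g ≫ f = 𝟙 H) (c : ℕ) (hG : SGp.Triv c G) : SGp.Triv c H := by
  intro j hj x
  obtain ⟨y, rfl⟩ := (redtriv_iso f g h1 h2 j).2 x
  rw [hG j hj y, map_one]

/-- all elements trivial -/
theorem redtriv_zero (G : SAb.{u}) (h : ∀ (n : ℕ) (x : G.obj n), x = 0) (c : ℕ) :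
    SAb.Triv c G := by
  intro j hj x
  obtain ⟨y, rfl⟩ := SGp.cls_surj _ j x
  have h1 : y = 1 := Subtype.ext (h j y.1)
  rw [h1, map_one]

/-! ### the Eilenberg subgroup of a simplicial abelian group -/

/-- the elements all of whose faces of dimension `< c` are zero -/
def redtriv_S (M : SAb.{u}) (c n : ℕ) : AddSubgroup (M.obj n) where
  carrier := {x | ∀ l < c, ∀ f : Mo l n, M.map f x = 0}
  add_mem' {a b} ha hb l hl f := by rw [map_add, ha l hl f, hb l hl f, add_zero]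
  zero_mem' l hl f := map_zero _
  neg_mem' {a} ha l hl f := by rw [map_neg, ha l hl f, neg_zero]

theorem redtriv_S_map (M : SAb.{u}) (c : ℕ) {m n : ℕ} (θ : Mo m n) (x : M.obj n)
    (hx : x ∈ redtriv_S M c n) : M.map θ x ∈ redtriv_S M c m := by
  intro l hl f
  rw [← M.map_comp]
  exact hx l hl _

/-- the Eilenberg subgroup -/
def redtriv_X (M : SAb.{u}) (c : ℕ) : SAb.{u} where
  obj n := redtriv_S M c n
  map {m n} θ := ((M.map θ).comp (redtriv_S M c n).subtype).codRestrict _ fun x =>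
    redtriv_S_map M c θ x.1 x.2
  map_id n x := Subtype.ext (M.map_id n x.1)
  map_comp f g x := Subtype.ext (M.map_comp f g x.1)

/-- the inclusion -/
def redtriv_i (M : SAb.{u}) (c : ℕ) : redtriv_X M c ⟶ M :=
  ⟨fun n => (redtriv_S M c n).subtype, fun _ _ => rfl⟩

/-- the quotient -/
def redtriv_Q (M : SAb.{u}) (c : ℕ) : SAb.{u} :=
  M.quot (redtriv_S M c) fun θ x hx => redtriv_S_map M c θ x hx

/-- the projection -/
def redtriv_p (M : SAb.{u}) (c : ℕ) : M ⟶ redtriv_Q M c :=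
  M.quotπ (redtriv_S M c) fun θ x hx => redtriv_S_map M c θ x hx

theorem redtriv_ses (M : SAb.{u}) (c : ℕ) : SAb.SES (redtriv_i M c) (redtriv_p M c) where
  inj n := Subtype.val_injective
  ex n y := by
    have h1 : (redtriv_p M c).app n y = 0 ↔ y ∈ redtriv_S M c n :=
      QuotientAddGroup.eq_zero_iff y
    rw [h1]
    exact ⟨fun h => ⟨⟨y, h⟩, rfl⟩, fun ⟨x, hx⟩ => hx ▸ x.2⟩
  surj n := QuotientAddGroup.mk'_surjective _

/-- comparison with `eil` -/
def redtriv_a (M : SAb.{u}) (c : ℕ) : SAb.gp.obj (redtriv_X M c) ⟶ eil (SAb.gp.obj M) c :=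
  ⟨fun n =>
    { toFun := fun x => ⟨Multiplicative.ofAdd (Multiplicative.toAdd x).1,
        (Multiplicative.toAdd x).2⟩
      map_one' := rfl
      map_mul' := fun _ _ => rfl }, fun _ _ => rfl⟩

/-- comparison with `eil` -/
def redtriv_b (M : SAb.{u}) (c : ℕ) : eil (SAb.gp.obj M) c ⟶ SAb.gp.obj (redtriv_X M c) :=
  ⟨fun n =>
    { toFun := fun x => Multiplicative.ofAdd ⟨Multiplicative.toAdd x.1, x.2⟩
      map_one' := rfl
      map_mul' := fun _ _ => rfl }, fun _ _ => rfl⟩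

theorem redtriv_weq (hE : St_Eil.{u}) (M : SAb.{u}) (c : ℕ) (hM : SAb.Triv c M) :
    SAb.Weq (redtriv_i M c) := by
  obtain ⟨-, h2, h3, -⟩ := hE (SAb.gp.obj M) c
  intro j
  rcases lt_or_ge j c with hj | hj
  · have h4 : SGp.Triv c (SAb.gp.obj (redtriv_X M c)) :=
      redtriv_triv (redtriv_b M c) (redtriv_a M c) rfl rfl c h3
    refine ⟨fun x y _ => ?_, fun x => ⟨1, ?_⟩⟩
    · rw [h4 j hj x, h4 j hj y]
    · rw [map_one]
      exact (hM j hj x).symm
  · have h5 : SAb.gp.map (redtriv_i M c) = redtriv_a M c ≫ eilι (SAb.gp.obj M) c := rfl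
    have h6 := redtriv_iso (redtriv_a M c) (redtriv_b M c) rfl rfl j
    have h7 : (SGp.PiMap (SAb.gp.map (redtriv_i M c)) j : _ → _) =
        (SGp.PiMap (eilι (SAb.gp.obj M) c) j) ∘ (SGp.PiMap (redtriv_a M c) j) := by
      funext x
      rw [h5, SGp.PiMap_comp]
      rfl
    rw [h7]
    exact (h2 j hj).comp h6

/-! ### the bisimplicial group -/

/-- a homomorphism, as a map of constant simplicial abelian groups -/
def redtriv_cm {A B : Type u} [AddCommGroup A] [AddCommGroup B] (f : A →+ B) :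
    SAb.const A ⟶ SAb.const B := ⟨fun _ => f, fun _ _ => rfl⟩

theorem redtriv_fs_app {A B : Type u} [AddCommGroup A] [AddCommGroup B] (f : A →+ B)
    (Y : SSt.{u}) (n : ℕ) (x : Y.obj n →₀ A) :
    (SAb.fsMap (redtriv_cm f) (𝟙 Y)).app n x = Finsupp.mapRange f (map_zero f) x := by
  change Finsupp.mapDomain (SSt.Hom.app (𝟙 Y) n) (Finsupp.mapRange f (map_zero f) x) = _
  exact Finsupp.mapDomain_id

/-- the rows -/
noncomputable def redtriv_rowMap {A B : Type u} [AddCommGroup A] [AddCommGroup B] (f : A →+ B)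
    (Y : SSt.{u}) : (SAb.const A).red Y ⟶ (SAb.const B).red Y :=
  SAb.kerMap (SAb.fsMap (redtriv_cm f) (𝟙 Y)) (redtriv_cm f) (by
    refine SAb.hom_ext fun n x => ?_
    change f (Finsupp.liftAddHom (fun _ => AddMonoidHom.id A) x) =
      Finsupp.liftAddHom (fun _ => AddMonoidHom.id B) ((SAb.fsMap (redtriv_cm f) (𝟙 Y)).app n x)
    rw [redtriv_fs_app]
    change (Y.obj n →₀ A) at x
    induction x using Finsupp.induction_linear with
    | zero => simp
    | add a b ha hb => rw [Finsupp.mapRange_add (map_add _), map_add, map_add, map_add, ha, hb]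
    | single a b => simp)

theorem redtriv_rowMap_app {A B : Type u} [AddCommGroup A] [AddCommGroup B] (f : A →+ B)
    (Y : SSt.{u}) (n : ℕ) (x : ((SAb.const A).red Y).obj n) :
    ((redtriv_rowMap f Y).app n x).1 = Finsupp.mapRange f (map_zero f) x.1 :=
  redtriv_fs_app f Y n x.1

/-- the bisimplicial abelian group with the rows `(SAb.const X_m).red Y` -/
noncomputable def redtriv_W (X : SAb.{u}) (Y : SSt.{u}) : SOb SAb.{u} where
  obj m := (SAb.const (X.obj m)).red Y
  map θ := redtriv_rowMap (X.map θ) Y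
  map_id m := by
    refine SAb.hom_ext fun n x => Subtype.ext ?_
    rw [redtriv_rowMap_app]
    refine Finsupp.ext fun y => ?_
    rw [Finsupp.mapRange_apply, X.map_id]
    rfl
  map_comp f g := by
    refine SAb.hom_ext fun n x => Subtype.ext ?_
    rw [SAb.comp_app, redtriv_rowMap_app, redtriv_rowMap_app, redtriv_rowMap_app]
    refine Finsupp.ext fun y => ?_
    rw [Finsupp.mapRange_apply, Finsupp.mapRange_apply, Finsupp.mapRange_apply, X.map_comp]

theorem redtriv_diag_map (X : SAb.{u}) (Y : SSt.{u}) {m n : ℕ} (θ : Mo m n)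
    (x : (X.red Y).obj n) : ((SAb.diag (redtriv_W X Y)).map θ x).1 = ((X.red Y).map θ x).1 := by
  change Finsupp.mapDomain (Y.map θ) (Finsupp.mapRange (AddMonoidHom.id (X.obj m)) (map_zero _)
    ((redtriv_rowMap (X.map θ) Y).app n x).1) =
    Finsupp.mapDomain (Y.map θ) (Finsupp.mapRange (X.map θ) (map_zero _) x.1)
  rw [redtriv_rowMap_app]
  congr 1
  refine Finsupp.ext fun y => ?_
  rw [Finsupp.mapRange_apply]
  rfl

/-- comparison -/
noncomputable def redtriv_u (X : SAb.{u}) (Y : SSt.{u}) : SAb.diag (redtriv_W X Y) ⟶ X.red Y :=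
  ⟨fun n => AddMonoidHom.id _, fun θ x => Subtype.ext (redtriv_diag_map X Y θ x)⟩

/-- comparison -/
noncomputable def redtriv_v (X : SAb.{u}) (Y : SSt.{u}) : X.red Y ⟶ SAb.diag (redtriv_W X Y) :=
  ⟨fun n => AddMonoidHom.id _, fun θ x => Subtype.ext (redtriv_diag_map X Y θ x).symm⟩

theorem redtriv_X_triv (hR : St_AbReal.{u}) (c d : ℕ) (M : SAb.{u}) (Y : SSt.{u})
    (hY : HTriv d Y) : SAb.Triv (c + d) ((redtriv_X M c).red Y) := by
  have h1 : SAb.Triv (c + d) (SAb.diag (redtriv_W (redtriv_X M c) Y)) := by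
    refine hR.2.2.2.2.1 c d (redtriv_W (redtriv_X M c) Y) ?_ ?_
    · intro m hm n x
      apply Subtype.ext
      refine Finsupp.ext fun y => ?_
      have h2 : ∀ z : (redtriv_X M c).obj m, z = 0 := by
        intro z
        apply Subtype.ext
        have h3 := z.2 m hm OrderHom.id
        rw [M.map_id] at h3
        exact h3
      exact h2 _
    · intro m
      exact hY ((redtriv_X M c).obj m)
  exact redtriv_triv (SAb.gp.map (redtriv_u (redtriv_X M c) Y))
    (SAb.gp.map (redtriv_v (redtriv_X M c) Y)) rfl rfl (c + d) h1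

/-- trivial coefficients -/
theorem redtriv_red (hA : St_AbEx.{u}) (hC : St_fsConn.{u}) (Q : SAb.{u}) (Y : SSt.{u})
    (hQ : ∀ d, SAb.Triv d Q) (d : ℕ) : SAb.Triv d (Q.red Y) := by
  by_cases hY : ∀ n, IsEmpty (Y.obj n)
  · refine redtriv_zero _ (fun n x => ?_) d
    apply Subtype.ext
    refine Finsupp.ext fun y => ?_
    exact ((hY n).false y).elim
  · push Not at hY
    obtain ⟨n₀, ⟨y₀⟩⟩ := hY
    have hne : ∀ n, Nonempty (Y.obj n) := fun n =>
      ⟨Y.map (⟨fun _ => 0, fun _ _ _ => le_rfl⟩ : Mo n n₀) y₀⟩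
    have hses : SAb.SES (SAb.kerι (Q.aug Y)) (Q.aug Y) :=
      { inj := fun n => Subtype.val_injective
        ex := fun n y => ⟨fun h => ⟨⟨y, h⟩, rfl⟩, fun ⟨x, hx⟩ => hx ▸ x.2⟩
        surj := fun n a => by
          obtain ⟨y⟩ := hne n
          refine ⟨Finsupp.single y a, ?_⟩
          change Finsupp.liftAddHom (fun _ => AddMonoidHom.id (Q.obj n)) (Finsupp.single y a) = a
          rw [Finsupp.liftAddHom_apply_single]
          rfl }
    exact (hA _ _ hses d).2.2.2.2.2.2.1 (hC.2.2 d Q Y (hQ d)) (hQ (d + 1))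

/-- **C5.** -/
theorem thm_redTriv (hE : St_Eil.{u}) (hA : St_AbEx.{u}) (hR : St_AbReal.{u})
    (hC : St_fsConn.{u}) (hX : St_fsEx.{u}) : St_redTriv.{u} := by
  intro c d M Y hM hY
  have hw := redtriv_weq hE M c hM
  have hQ : ∀ d, SAb.Triv d (redtriv_Q M c) :=
    ((hA _ _ (redtriv_ses M c) 0).2.2.2.2.2.2.2.2.2.2.2.2).2 hw
  obtain ⟨-, f', g', -, -, hs⟩ := hX _ _ (redtriv_ses M c) Y
  exact (hA _ _ hs (c + d)).1 (redtriv_X_triv hR c d M Y hY)
    (redtriv_red hA hC (redtriv_Q M c) Y hQ (c + d))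

end Pool.Agent.FGK
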