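import Pool.Agent.KQ.ExAll
import Pool.Agent.FGK.AbEx
import Pool.Agent.FGK.AbReal
import Pool.Agent.FGK.BG
import Pool.Agent.FGK.Cech
import Pool.Agent.FGK.CechSl
import Pool.Agent.FGK.CechZ
import Pool.Agent.FGK.Circle
import Pool.Agent.FGK.ClK
import Pool.Agent.FGK.Eil
import Pool.Agent.FGK.EilH
import Pool.Agent.FGK.FG2
import Pool.Agent.FGK.FTyX
import Pool.Agent.FGK.FinMod
import Pool.Agent.FGK.Fox
import Pool.Agent.FGK.FoxSl
import Pool.Agent.FGK.FoxTriv
import Pool.Agent.FGK.GpHTriv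
import Pool.Agent.FGK.Hur
import Pool.Agent.FGK.KA1
import Pool.Agent.FGK.KAn
import Pool.Agent.FGK.KFG
import Pool.Agent.FGK.Orb
import Pool.Agent.FGK.PQ
import Pool.Agent.FGK.PStr
import Pool.Agent.FGK.Path
import Pool.Agent.FGK.Post
import Pool.Agent.FGK.Prods
import Pool.Agent.FGK.RB
import Pool.Agent.FGK.RealUp
import Pool.Agent.FGK.RkConn
import Pool.Agent.FGK.RkTriv
import Pool.Agent.FGK.Sl
import Pool.Agent.FGK.SlDiag
import Pool.Agent.FGK.SlFin
import Pool.Agent.FGK.SpK
import Pool.Agent.FGK.Ups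
import Pool.Agent.FGK.WInj
import Pool.Agent.FGK.WSurj
import Pool.Agent.FGK.ZPSl
import Pool.Agent.FGK.ZQK
import Pool.Agent.FGK.ZR
import Pool.Agent.FGK.fsConn
import Pool.Agent.FGK.fsEx
import Pool.Agent.FGK.fsProd
import Pool.Agent.FGK.fsStrong
import Pool.Agent.FGK.redTriv

/-!
# FGK: all theorems without hypotheses; the K-groups of finite fields are finitely generated
-/

set_option autoImplicit false

noncomputable section

namespace Pool.Agent.FGK

open Pool.Agent.KQ

universe u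

theorem all_Sl : St_Sl.{u} := thm_Sl

theorem all_SlFin : St_SlFin.{u} := thm_SlFin all_Sl

theorem all_SlDiag : St_SlDiag.{u} := thm_SlDiag all_Sl thm_Bd thm_Bd0 thm_Split all_Dec

theorem all_Eil : St_Eil.{u} := thm_Eil

theorem all_Ups : St_Ups.{u} := thm_Ups thm_Bd thm_Bd0 thm_Split all_Dec all_Real

theorem all_RealUp : St_RealUp.{u} := thm_RealUp

theorem all_AbEx : St_AbEx.{u} := thm_AbEx all_Sl thm_Bd thm_Bd0

theorem all_AbReal : St_AbReal.{u} :=
  thm_AbReal all_Real all_RealW all_Dec all_RealUp all_Ups all_SlDiag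

theorem all_fsConn : St_fsConn.{u} := thm_fsConn all_AbReal

theorem all_fsStrong : St_fsStrong.{u} := thm_fsStrong all_RealW

theorem all_fsEx : St_fsEx.{u} := thm_fsEx

theorem all_fsProd : St_fsProd.{u} := thm_fsProd

theorem all_redTriv : St_redTriv.{u} :=
  thm_redTriv all_Eil all_AbEx all_AbReal all_fsConn all_fsEx

theorem all_Prods : St_Prods.{u} := thm_Prods all_redTriv all_AbEx all_fsConn all_fsProd

theorem all_Cech : St_Cech.{u} := thm_Cech all_StrCol all_StrHt

theorem all_CechZ : St_CechZ.{u} := thm_CechZ all_fsProd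

theorem all_Path : St_Path.{u} := thm_Path

theorem all_GpHTriv : St_GpHTriv.{u} :=
  thm_GpHTriv all_Path all_Cech all_CechZ all_fsStrong all_AbEx all_AbReal all_Prods

theorem all_WSurj : St_WSurj.{u} :=
  thm_WSurj all_GpHTriv all_Cech all_CechZ all_fsStrong all_redTriv all_AbEx all_AbReal

theorem all_WInj : St_WInj.{u} :=
  thm_WInj all_AbEx all_AbReal all_fsConn all_fsStrong all_redTriv all_GpHTriv all_Cech

theorem all_EilH : St_EilH.{u} := thm_EilH all_Eil all_WInj thm_Bd thm_Bd0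

theorem all_CechSl : St_CechSl.{u} :=
  thm_CechSl all_Sl all_Cech all_CechZ all_fsStrong all_fsProd all_redTriv all_AbEx all_AbReal

theorem all_Fox : St_Fox.{u} := thm_Fox

theorem all_FoxSl : St_FoxSl.{u} := thm_FoxSl all_Fox all_GpHTriv all_redTriv all_AbEx all_Sl

theorem all_Post : St_Post.{u} := thm_Post thm_Comm

theorem all_Hur : St_Hur.{u} := thm_Hur all_Sl thm_Comm

theorem all_Circle : St_Circle.{u} :=
  thm_Circle all_fsStrong thm_Str23 all_StrHt thm_StrUnion all_StrProd all_StrRow all_StrCol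

theorem all_BG : St_BG.{u} := thm_BG all_Circle all_Prods

theorem all_KA1 : St_KA1.{u} := thm_KA1 all_BG all_WSurj all_SlFin all_AbEx all_Sl

theorem all_KAn : St_KAn.{u} :=
  thm_KAn all_Sl all_KA1 all_Path all_Cech all_fsStrong all_AbReal all_StrProd

theorem all_FG2 : St_FG2.{u} :=
  thm_FG2 all_Sl all_Eil all_EilH all_Hur all_Post all_KAn all_GpHTriv all_CechSl

theorem all_ZR : St_ZR.{u} := thm_ZR

theorem all_RB : St_RB.{u} := thm_RB all_ZR all_AbEx

theorem all_Orb : St_Orb.{u} := thm_Orb all_AbReal all_fsStrong all_StrHt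

theorem all_PStr : St_PStr := thm_PStr

theorem all_PQ : St_PQ := thm_PQ

theorem all_RkTriv : St_RkTriv := thm_RkTriv all_RB all_PStr all_PQ all_Orb

theorem all_RkConn : St_RkConn := thm_RkConn all_ZR all_AbEx all_RkTriv

theorem all_FinMod : St_FinMod := thm_FinMod

theorem all_FTyX : St_FTyX := thm_FTyX all_FinMod all_fsStrong all_RkConn

theorem all_SpK : St_SpK.{u} := thm_SpK all_Spine

theorem all_ZQK : St_ZQK.{u} := thm_ZQK all_ZQ

theorem all_ClK : St_ClK :=
  thm_ClK all_FTyX all_SpK all_Prods all_SlFin all_AbReal all_fsStrong all_Sl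

theorem all_FoxTriv : St_FoxTriv.{u} := thm_FoxTriv all_Fox all_GpHTriv all_AbEx

theorem all_ZPSl : St_ZPSl.{u} := thm_ZPSl all_ZR all_AbEx all_SlFin

/-- THE K-GROUPS OF FINITE FIELDS ARE FINITELY GENERATED. -/
theorem all_KFG : St_KFG :=
  thm_KFG all_Sl all_fsStrong all_ClK all_ZQK all_ZPSl all_FoxTriv all_FoxSl all_FG2

end Pool.Agent.FGK
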