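import Pool.Agent.KQ.StStr
import Pool.Agent.KQ.Pow

/-!
# FGK: finite generation of `K'_n` of finite fields: definitions

Project FG for MP_e17fa799_al (architect helper71), on top of `Pool.Agent.KQ.DSG`: simplicial abelian
groups `SAb`, the simplicial abelian groups `M[Y]` (`SAb.fs`), `ℤ[Y]`, kernels, quotients, slender
groups `Sl` (all subgroups are finitely generated), Čech nerves of simplicial groups.
-/

set_option autoImplicit false
set_option linter.unusedVariables false

namespace Pool.Agent.FGK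

open CategoryTheory Function Pool.Agent.KQ

universe u

/-! ### slender groups -/

/-- all subgroups of `G` are finitely generated -/
def Sl (G : Type u) [Group G] : Prop := ∀ H : Subgroup G, H.FG

/-! ### simplicial abelian groups -/

/-- simplicial abelian groups -/
structure SAb where
  obj : ℕ → Type u
  [grp : ∀ n, AddCommGroup (obj n)]
  map : ∀ {m n : ℕ}, Mo m n → obj n →+ obj m
  map_id : ∀ (n : ℕ) (x : obj n), map (OrderHom.id : Mo n n) x = x
  map_comp : ∀ {l m n : ℕ} (f : Mo l m) (g : Mo m n) (x : obj n),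
    map (g.comp f) x = map f (map g x)

attribute [instance] SAb.grp

/-- homomorphisms of simplicial abelian groups -/
@[ext]
structure SAb.Hom (X Y : SAb.{u}) where
  app : ∀ n : ℕ, X.obj n →+ Y.obj n
  nat : ∀ {m n : ℕ} (f : Mo m n) (x : X.obj n), app m (X.map f x) = Y.map f (app n x)

instance : Category SAb.{u} where
  Hom := SAb.Hom
  id X := ⟨fun _ => AddMonoidHom.id _, fun _ _ => rfl⟩
  comp f g := ⟨fun n => (g.app n).comp (f.app n), fun θ x => by
    change g.app _ (f.app _ _) = _
    rw [f.nat, g.nat]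
    rfl⟩

@[ext]
theorem SAb.hom_ext {X Y : SAb.{u}} {f g : X ⟶ Y} (h : ∀ n x, f.app n x = g.app n x) : f = g :=
  SAb.Hom.ext (funext fun n => AddMonoidHom.ext (h n))

@[simp] theorem SAb.id_app (X : SAb.{u}) (n : ℕ) (x : X.obj n) : SAb.Hom.app (𝟙 X) n x = x := rfl

@[simp] theorem SAb.comp_app {X Y Z : SAb.{u}} (f : X ⟶ Y) (g : Y ⟶ Z) (n : ℕ) (x : X.obj n) :
    (f ≫ g).app n x = g.app n (f.app n x) := rfl

/-- a simplicial abelian group as a simplicial group (written multiplicatively) -/
def SAb.gpo (X : SAb.{u}) : SGp.{u} where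
  obj n := Multiplicative (X.obj n)
  map f := AddMonoidHom.toMultiplicative (X.map f)
  map_id n x := X.map_id n x
  map_comp f g x := X.map_comp f g x

/-- the functor from simplicial abelian groups to simplicial groups -/
def SAb.gp : SAb.{u} ⥤ SGp.{u} where
  obj := SAb.gpo
  map {X Y} f := ⟨fun n => (AddMonoidHom.toMultiplicative (f.app n) :
    Multiplicative (X.obj n) →* Multiplicative (Y.obj n)), fun θ x => f.nat θ x⟩

/-- `f` is `c`-connected -/
def SAb.Conn (c : ℕ) {X Y : SAb.{u}} (f : X ⟶ Y) : Prop := SGp.Conn c (SAb.gp.map f)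

/-- `f` is bijective on homotopy groups -/
def SAb.Weq {X Y : SAb.{u}} (f : X ⟶ Y) : Prop := SGp.Weq (SAb.gp.map f)

/-- `π_j = 0` for `j < c` -/
def SAb.Triv (c : ℕ) (X : SAb.{u}) : Prop := SGp.Triv c (SAb.gp.obj X)

/-- `π_j` is slender -/
def SAb.SlAt (X : SAb.{u}) (j : ℕ) : Prop := Sl ((SAb.gp.obj X).Pi j)

/-- the constant simplicial abelian group -/
def SAb.const (A : Type u) [AddCommGroup A] : SAb.{u} :=
  ⟨fun _ => A, fun _ => AddMonoidHom.id A, fun _ _ => rfl, fun _ _ _ => rfl⟩

/-- the kernel -/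
def SAb.ker {X Y : SAb.{u}} (f : X ⟶ Y) : SAb.{u} where
  obj n := (f.app n).ker
  map {m n} θ := ((X.map θ).comp (f.app n).ker.subtype).codRestrict _ fun x => by
    change f.app m (X.map θ x.1) = 0
    rw [f.nat, show f.app n x.1 = 0 from x.2, map_zero]
  map_id n x := Subtype.ext (X.map_id n x.1)
  map_comp θ η x := Subtype.ext (X.map_comp θ η x.1)

/-- the inclusion of the kernel -/
def SAb.kerι {X Y : SAb.{u}} (f : X ⟶ Y) : SAb.ker f ⟶ X :=
  ⟨fun n => (f.app n).ker.subtype, fun _ _ => rfl⟩

/-- the homomorphism of kernels of a commutative square -/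
def SAb.kerMap {X Y X' Y' : SAb.{u}} {f : X ⟶ Y} {f' : X' ⟶ Y'} (a : X ⟶ X') (b : Y ⟶ Y')
    (h : f ≫ b = a ≫ f') : SAb.ker f ⟶ SAb.ker f' :=
  ⟨fun n => ((a.app n).comp (f.app n).ker.subtype).codRestrict _ fun x => by
    change f'.app n (a.app n x.1) = 0
    have := congrArg (fun e : X ⟶ Y' => e.app n x.1) h
    change b.app n (f.app n x.1) = f'.app n (a.app n x.1) at this
    rw [← this, show f.app n x.1 = 0 from x.2, map_zero], fun θ x => Subtype.ext (a.nat θ x.1)⟩

/-- the quotient by a simplicial subgroup -/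
def SAb.quot (X : SAb.{u}) (S : ∀ n, AddSubgroup (X.obj n))
    (hS : ∀ {m n : ℕ} (θ : Mo m n) (x : X.obj n), x ∈ S n → X.map θ x ∈ S m) : SAb.{u} where
  obj n := X.obj n ⧸ S n
  map {m n} θ := QuotientAddGroup.map (S n) (S m) (X.map θ) (hS θ)
  map_id n x := by
    induction x using QuotientAddGroup.induction_on with
    | H x => exact congrArg _ (X.map_id n x)
  map_comp f g x := by
    induction x using QuotientAddGroup.induction_on with
    | H x => exact congrArg _ (X.map_comp f g x)

/-- the projection to the quotient -/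
def SAb.quotπ (X : SAb.{u}) (S : ∀ n, AddSubgroup (X.obj n))
    (hS : ∀ {m n : ℕ} (θ : Mo m n) (x : X.obj n), x ∈ S n → X.map θ x ∈ S m) : X ⟶ X.quot S hS :=
  ⟨fun n => QuotientAddGroup.mk' (S n), fun _ _ => rfl⟩

/-- the diagonal of a bisimplicial abelian group -/
def SAb.diag (X : SOb SAb.{u}) : SAb.{u} where
  obj n := (X.obj n).obj n
  map {m n} f := ((X.obj m).map f).comp ((X.map f).app n)
  map_id n x := by
    change (X.obj n).map _ ((X.map _).app n x) = x
    rw [X.map_id, (X.obj n).map_id]; rfl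
  map_comp {l m n} f g x := by
    change (X.obj l).map _ ((X.map _).app n x) =
      (X.obj l).map f ((X.map f).app m ((X.obj m).map g ((X.map g).app n x)))
    rw [X.map_comp, (X.obj _).map_comp, (X.map f).nat]
    rfl

/-- the diagonal, as a functor -/
def SAb.diagF : SOb SAb.{u} ⥤ SAb.{u} where
  obj := SAb.diag
  map {X Y} f := ⟨fun n => (f.app n).app n, fun {m n} θ x => by
    change (f.app m).app m ((X.obj m).map θ ((X.map θ).app n x)) =
      (Y.obj m).map θ ((Y.map θ).app n ((f.app n).app n x))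
    rw [(f.app m).nat, ← SAb.comp_app, ← SAb.comp_app, f.nat]⟩

/-! ### `M[Y]` -/

/-- `M[Y]`: finitely supported functions on `Y_n` with values in `M_n` (`M ⊗ ℤ[Y]`) -/
noncomputable def SAb.fs (M : SAb.{u}) (Y : SSt.{u}) : SAb.{u} where
  obj n := Y.obj n →₀ M.obj n
  map {m n} θ := (Finsupp.mapDomain.addMonoidHom (Y.map θ)).comp
    (Finsupp.mapRange.addMonoidHom (M.map θ))
  map_id n x := by
    change Finsupp.mapDomain (Y.map _) (Finsupp.mapRange (M.map _) (map_zero _) x) = x
    rw [show (Y.map (OrderHom.id : Mo n n)) = id from funext (Y.map_id n), Finsupp.mapDomain_id]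
    ext y
    rw [Finsupp.mapRange_apply, M.map_id]
  map_comp {l m n} f g x := by
    change Finsupp.mapDomain _ (Finsupp.mapRange _ (map_zero _) x) =
      Finsupp.mapDomain _ (Finsupp.mapRange _ (map_zero _)
        (Finsupp.mapDomain _ (Finsupp.mapRange _ (map_zero _) x)))
    induction x using Finsupp.induction_linear with
    | zero => simp
    | add a b ha hb =>
      rw [Finsupp.mapRange_add (map_add _), Finsupp.mapDomain_add, ha, hb,
        Finsupp.mapRange_add (map_add _), Finsupp.mapDomain_add, Finsupp.mapRange_add (map_add _),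
        Finsupp.mapDomain_add]
    | single a b =>
      rw [Finsupp.mapRange_single, Finsupp.mapDomain_single, Finsupp.mapRange_single,
        Finsupp.mapDomain_single, Finsupp.mapRange_single, Finsupp.mapDomain_single, M.map_comp,
        Y.map_comp]

/-- functoriality of `M[Y]` -/
noncomputable def SAb.fsMap {M M' : SAb.{u}} {Y Y' : SSt.{u}} (f : M ⟶ M') (g : Y ⟶ Y') :
    M.fs Y ⟶ M'.fs Y' :=
  ⟨fun n => (Finsupp.mapDomain.addMonoidHom (g.app n)).comp
    (Finsupp.mapRange.addMonoidHom (f.app n)), fun {m n} θ x => by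
    change Finsupp.mapDomain (g.app m) (Finsupp.mapRange (f.app m) (map_zero _)
      (Finsupp.mapDomain (Y.map θ) (Finsupp.mapRange (M.map θ) (map_zero _) x))) =
      Finsupp.mapDomain (Y'.map θ) (Finsupp.mapRange (M'.map θ) (map_zero _)
      (Finsupp.mapDomain (g.app n) (Finsupp.mapRange (f.app n) (map_zero _) x)))
    induction x using Finsupp.induction_linear with
    | zero => simp
    | add a b ha hb =>
      rw [Finsupp.mapRange_add (map_add _), Finsupp.mapDomain_add, Finsupp.mapRange_add (map_add _),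
        Finsupp.mapDomain_add, ha, hb, Finsupp.mapRange_add (map_add _), Finsupp.mapDomain_add,
        Finsupp.mapRange_add (map_add _), Finsupp.mapDomain_add]
    | single a b =>
      rw [Finsupp.mapRange_single, Finsupp.mapDomain_single, Finsupp.mapRange_single,
        Finsupp.mapDomain_single, Finsupp.mapRange_single, Finsupp.mapDomain_single,
        Finsupp.mapRange_single, Finsupp.mapDomain_single, g.nat, f.nat]⟩

/-- the augmentation `M[Y] → M` -/
noncomputable def SAb.aug (M : SAb.{u}) (Y : SSt.{u}) : M.fs Y ⟶ M :=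
  ⟨fun n => Finsupp.liftAddHom fun _ => AddMonoidHom.id _, fun {m n} θ x => by
    change Finsupp.liftAddHom (fun _ => AddMonoidHom.id (M.obj m)) (Finsupp.mapDomain (Y.map θ)
      (Finsupp.mapRange (M.map θ) (map_zero _) x)) =
      M.map θ (Finsupp.liftAddHom (fun _ => AddMonoidHom.id (M.obj n)) x)
    induction x using Finsupp.induction_linear with
    | zero => simp
    | add a b ha hb =>
      rw [Finsupp.mapRange_add (map_add _), Finsupp.mapDomain_add, map_add, ha, hb, map_add,
        map_add]
    | single a b =>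
      rw [Finsupp.mapRange_single, Finsupp.mapDomain_single, Finsupp.liftAddHom_apply_single,
        Finsupp.liftAddHom_apply_single]
      rfl⟩

/-- the kernel of the augmentation, `M ⊗ ℤ~[Y]` -/
noncomputable def SAb.red (M : SAb.{u}) (Y : SSt.{u}) : SAb.{u} := SAb.ker (M.aug Y)

/-- `ℤ[Y]` -/
noncomputable def ZS (Y : SSt.{u}) : SAb.{u} := (SAb.const (ULift.{u} ℤ)).fs Y

/-- `ℤ[Y]` of a map -/
noncomputable def ZSmap {Y Y' : SSt.{u}} (g : Y ⟶ Y') : ZS Y ⟶ ZS Y' := SAb.fsMap (𝟙 _) g

/-- the reduced homology of `Y` with arbitrary coefficients vanishes in degrees `< d` -/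
def HTriv (d : ℕ) (Y : SSt.{u}) : Prop :=
  ∀ (A : Type u) [AddCommGroup A], SAb.Triv d ((SAb.const A).red Y)

/-- the homology `H_j(Y; ℤ)` is slender -/
def HSl (Y : SSt.{u}) (j : ℕ) : Prop := (ZS Y).SlAt j

/-- the underlying simplicial set of a simplicial group -/
def _root_.Pool.Agent.KQ.SGp.und (G : SGp.{u}) : SSt.{u} :=
  ⟨G.obj, fun f => G.map f, G.map_id, G.map_comp⟩

/-- the underlying map of a homomorphism -/
def _root_.Pool.Agent.KQ.SGp.undMap {G H : SGp.{u}} (f : G ⟶ H) : G.und ⟶ H.und :=
  ⟨fun n => f.app n, fun θ x => f.nat θ x⟩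

/-! ### Čech nerves -/

/-- the fibre product of `p + 1` copies of `G` over `H` -/
def cechS {G H : SGp.{u}} (f : G ⟶ H) (p : ℕ) : SSt.{u} where
  obj n := {x : Fin (p + 1) → G.obj n // ∀ i j, f.app n (x i) = f.app n (x j)}
  map θ x := ⟨fun i => G.map θ (x.1 i), fun i j => by rw [f.nat, f.nat, x.2 i j]⟩
  map_id n x := Subtype.ext (funext fun _ => G.map_id _ _)
  map_comp θ η x := Subtype.ext (funext fun _ => G.map_comp _ _ _)

/-- the Čech nerve of a homomorphism of simplicial groups (external simplicial direction: the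
operators omit and repeat factors) -/
def cech {G H : SGp.{u}} (f : G ⟶ H) : SOb SSt.{u} where
  obj := cechS f
  map θ := ⟨fun _ x => ⟨fun i => x.1 (θ i), fun i j => x.2 _ _⟩, fun _ _ => rfl⟩
  map_id _ := rfl
  map_comp _ _ := rfl

/-- the augmentation of the diagonal of the Čech nerve -/
def cechAug {G H : SGp.{u}} (f : G ⟶ H) : SSt.diag (cech f) ⟶ H.und :=
  ⟨fun n x => f.app n (x.1 0), fun {m n} θ x => by
    change f.app m (G.map θ (x.1 (θ 0))) = H.map θ (f.app n (x.1 0))
    rw [f.nat, x.2 (θ 0) 0]⟩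

/-! ### relative simplicial abelian groups -/

/-- `ℤ[X] / ℤ[A]` -/
noncomputable def ZR (X : SSt.{u}) (A : SubS X) : SAb.{u} :=
  (ZS X).quot (fun n => AddSubgroup.closure
    {z | ∃ x ∈ A.s n, ∃ c, z = (Finsupp.single x c : X.obj n →₀ ULift.{u} ℤ)}) (by
    intro m n θ x hx
    induction hx using AddSubgroup.closure_induction with
    | mem z hz =>
      obtain ⟨x, hx, c, rfl⟩ := hz
      refine AddSubgroup.subset_closure ⟨X.map θ x, A.map_mem θ x hx, c, ?_⟩
      change Finsupp.mapDomain _ (Finsupp.mapRange _ (map_zero _) (Finsupp.single x c)) = _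
      rw [Finsupp.mapRange_single, Finsupp.mapDomain_single]
      rfl
    | zero => rw [map_zero]; exact zero_mem _
    | add a b _ _ ha hb => rw [map_add]; exact add_mem ha hb
    | neg a _ ha => rw [map_neg]; exact neg_mem ha)

end Pool.Agent.FGK
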