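import Pool.Agent.FGK.Defs

/-!
# FGK: more definitions: Eilenberg subgroups, path groups, classifying spaces, finite type
-/

set_option autoImplicit false
set_option linter.unusedVariables false

namespace Pool.Agent.FGK

open CategoryTheory Function Pool.Agent.KQ

universe u

/-! ### Eilenberg subgroups -/

/-- the elements of `G_n` all of whose faces of dimension `< c` are trivial -/
def eilS (G : SGp.{u}) (c n : ℕ) : Subgroup (G.obj n) where
  carrier := {x | ∀ l < c, ∀ f : Mo l n, G.map f x = 1}
  mul_mem' {a b} ha hb l hl f := by rw [map_mul, ha l hl f, hb l hl f, one_mul]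
  one_mem' l hl f := map_one _
  inv_mem' {a} ha l hl f := by rw [map_inv, ha l hl f, inv_one]

/-- the Eilenberg subgroup -/
def eil (G : SGp.{u}) (c : ℕ) : SGp.{u} where
  obj n := eilS G c n
  map {m n} θ := ((G.map θ).comp (eilS G c n).subtype).codRestrict _ fun x l hl f => by
    change G.map f (G.map θ x.1) = 1
    rw [← G.map_comp]
    exact x.2 l hl _
  map_id n x := Subtype.ext (G.map_id n x.1)
  map_comp f g x := Subtype.ext (G.map_comp f g x.1)

/-- the inclusion of the Eilenberg subgroup -/
def eilι (G : SGp.{u}) (c : ℕ) : eil G c ⟶ G := ⟨fun n => (eilS G c n).subtype, fun _ _ => rfl⟩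

/-! ### path groups and loop groups -/

/-- the path group: `{y ∈ G_(n+1) | vertex 0 of y is trivial}`, operators fix the vertex `0` -/
def pathG (G : SGp.{u}) : SGp.{u} where
  obj n := (G.map (v0 (n + 1))).ker
  map {m n} θ := ((G.map θ.bot).comp (G.map (v0 (n + 1))).ker.subtype).codRestrict _ fun x => by
    change G.map (v0 (m + 1)) (G.map θ.bot x.1) = 1
    rw [← G.map_comp]
    exact x.2
  map_id n x := Subtype.ext (by
    change G.map (Mo.bot OrderHom.id) x.1 = x.1
    rw [show Mo.bot (OrderHom.id : Mo n n) = OrderHom.id from ?_, G.map_id]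
    ext i
    refine Fin.cases ?_ (fun i => ?_) i <;> rfl)
  map_comp f g x := Subtype.ext (by
    change G.map (Mo.bot (g.comp f)) x.1 = G.map f.bot (G.map g.bot x.1)
    rw [← G.map_comp, show Mo.bot (g.comp f) = g.bot.comp f.bot from ?_]
    ext i
    refine Fin.cases ?_ (fun i => ?_) i <;> rfl)

/-- the projection `pathG G ⟶ G`, `d_0` -/
def pathπ (G : SGp.{u}) : pathG G ⟶ G :=
  ⟨fun n => (G.map (dl 0)).comp (G.map (v0 (n + 1))).ker.subtype, fun {m n} θ x => by
    change G.map (dl 0) (G.map θ.bot x.1) = G.map θ (G.map (dl 0) x.1)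
    rw [← G.map_comp, ← G.map_comp]
    rfl⟩

/-- the loop group, the kernel of `pathG G ⟶ G` -/
def loopG (G : SGp.{u}) : SGp.{u} := SGp.ker (pathπ G)

/-! ### pointed simplicial sets -/

/-- the base points -/
def baseS (X : SOb Pointed.{u}) : SubS (undS X) :=
  ⟨fun n => {x | x = (X.obj n).point}, fun {m n} θ x hx => by
    change (X.map θ).toFun x = _
    rw [show x = (X.obj n).point from hx]
    exact (X.map θ).map_point⟩

/-- `ℤ[X] / ℤ[base point]` -/
noncomputable def ZP (X : SOb Pointed.{u}) : SAb.{u} := ZR (undS X) (baseS X)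

/-! ### the classifying space of an abelian group -/

/-- `B A`: the functions `c` on `[m] × [m]` with `c (i, j) + c (j, k) = c (i, k)` -/
def BGs (A : Type u) [AddCommGroup A] (m : ℕ) : AddSubgroup (Fin (m + 1) → Fin (m + 1) → A) where
  carrier := {c | ∀ i j k, c i j + c j k = c i k}
  add_mem' {a b} ha hb i j k := by
    change a i j + b i j + (a j k + b j k) = a i k + b i k
    rw [← ha i j k, ← hb i j k]
    abel
  zero_mem' i j k := add_zero _
  neg_mem' {a} ha i j k := by
    change -a i j + -a j k = -a i k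
    rw [← ha i j k]
    abel

/-- the classifying space of an abelian group, a simplicial abelian group -/
def BG (A : Type u) [AddCommGroup A] : SAb.{u} where
  obj m := BGs A m
  map {m n} θ :=
    { toFun := fun c => ⟨fun i j => c.1 (θ i) (θ j), fun i j k => c.2 _ _ _⟩
      map_zero' := rfl
      map_add' := fun _ _ => rfl }
  map_id _ _ := rfl
  map_comp _ _ _ := rfl

/-! ### finite type -/

/-- homology of finite type: for every `c` there is a map from a simplicial set which is finite in
every degree, `c`-connected on homology -/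
def FTy (Y : SSt.{u}) : Prop :=
  ∀ c : ℕ, ∃ (Y' : SSt.{u}) (g : Y' ⟶ Y), (∀ n, Finite (Y'.obj n)) ∧ SAb.Conn c (ZSmap g)

/-- the kernel of a map of bisimplicial abelian groups -/
def kerBA {X Y : SOb SAb.{u}} (f : X ⟶ Y) : SOb SAb.{u} where
  obj m := SAb.ker (f.app m)
  map θ := SAb.kerMap (X.map θ) (Y.map θ) (f.nat θ).symm
  map_id m := SAb.hom_ext fun n x => Subtype.ext (by
    change (X.map _).app n x.1 = x.1
    rw [X.map_id]
    rfl)
  map_comp θ η := SAb.hom_ext fun n x => Subtype.ext (by
    change (X.map _).app n x.1 = (X.map θ).app n ((X.map η).app n x.1)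
    rw [X.map_comp]
    rfl)

/-- exactness of `0 → X → Y → Z → 0` in every degree -/
structure SAb.SES {X Y Z : SAb.{u}} (f : X ⟶ Y) (g : Y ⟶ Z) : Prop where
  inj : ∀ n, Injective (f.app n)
  ex : ∀ (n : ℕ) (y : Y.obj n), g.app n y = 0 ↔ ∃ x, f.app n x = y
  surj : ∀ n, Surjective (g.app n)

/-- the augmentation of the decalage -/
def decAugA (X : SOb SAb.{u}) : SAb.diag X.dec ⟶ X.obj 0 where
  app n := (X.map (v0 (n + 1))).app n
  nat {m n} θ x := by
    change (X.map (v0 (m + 1))).app m ((X.obj (m + 1)).map θ ((X.map θ.bot).app n x)) =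
      (X.obj 0).map θ ((X.map (v0 (n + 1))).app n x)
    rw [(X.map (v0 (m + 1))).nat]
    congr 1
    rw [← SAb.comp_app, ← X.map_comp]
    rfl

/-- the inclusion of the kernel of the decalage -/
def omI (X : SOb SAb.{u}) : SAb.diag (kerBA X.decπ) ⟶ SAb.diag X.dec :=
  ⟨fun n => ((X.decπ).app n |>.app n).ker.subtype, fun _ _ => rfl⟩

/-! ### nerves of preorders, flags of subspaces -/

/-- the nerve of a preorder -/
def nvS (P : Type) [Preorder P] : SSt.{u} where
  obj n := ULift.{u} (Fin (n + 1) →o P)
  map θ x := ⟨x.down.comp θ⟩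
  map_id _ _ := rfl
  map_comp _ _ _ := rfl

/-- the chains which do not start with `⊥` or do not end with `⊤` -/
def badS (P : Type) [PartialOrder P] [BoundedOrder P] : SubS (nvS.{u} P) where
  s n := {F | F.down 0 ≠ ⊥ ∨ F.down (Fin.last n) ≠ ⊤}
  map_mem {m n} θ F h := by
    rcases h with h | h
    · left
      intro h1
      exact h (le_bot_iff.1 (h1 ▸ F.down.monotone (Fin.zero_le (θ 0))))
    · right
      intro h1
      exact h (top_le_iff.1 (h1 ▸ F.down.monotone (Fin.le_last (θ (Fin.last m)))))

/-- the relative chains of a bounded partial order: the chains `⊥ = F_0 ≤ .. ≤ F_n = ⊤` -/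
noncomputable def RB (P : Type) [PartialOrder P] [BoundedOrder P] : SAb.{u} :=
  ZR (nvS.{u} P) (badS P)

end Pool.Agent.FGK
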