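import Pool.Agent.FGK.StC
import Pool.Agent.KQG.MDefs
import Pool.Agent.KQ.StEx

/-!
# FGK: definitions for the rank filtration and for the final step
-/

set_option autoImplicit false
set_option linter.unusedVariables false

noncomputable section

namespace Pool.Agent.FGK

open CategoryTheory CategoryTheory.Limits Function Pool.Agent.KQ

universe u

/-- the simplicial set of objects of the S-construction of the finite-dimensional vector spaces -/
abbrev XS (k : Type) [Field k] : SSt.{1} := obS.obj (Sd.obj (KQG.MA k))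

/-- the entries of an S-diagram -/
def ent {k : Type} [Field k] {n : ℕ} (D : (XS k).obj n) (x : Ar (Fin (n + 1))) :
    ModuleCat.{0} k := D.obj.obj x

/-- the maps of an S-diagram -/
def entMap {k : Type} [Field k] {n : ℕ} (D : (XS k).obj n) {x y : Ar (Fin (n + 1))} (h : x ≤ y) :
    ent D x →ₗ[k] ent D y :=
  ModuleCat.Hom.hom (show ent D x ⟶ ent D y from D.obj.map (homOfLE h))

/-- the last entry `D(0, n)` -/
def topE {k : Type} [Field k] {n : ℕ} (D : (XS k).obj n) : ModuleCat.{0} k :=
  ent D (ar 0 (Fin.last n) (Fin.zero_le _))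

theorem ent_finite {k : Type} [Field k] {n : ℕ} (D : (XS k).obj n) (x : Ar (Fin (n + 1))) :
    Module.Finite k (ent D x) := D.property.1 x

theorem ent_ses {k : Type} [Field k] {n : ℕ} (D : (XS k).obj n) (i j l : Fin (n + 1))
    (hij : i ≤ j) (hjl : j ≤ l) :
    Injective (entMap D (show ar i j hij ≤ ar i l (hij.trans hjl) from ⟨le_rfl, hjl⟩)) ∧
    Exact (entMap D (show ar i j hij ≤ ar i l (hij.trans hjl) from ⟨le_rfl, hjl⟩))
      (entMap D (show ar i l (hij.trans hjl) ≤ ar j l hjl from ⟨hij, le_rfl⟩)) ∧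
    Surjective (entMap D (show ar i l (hij.trans hjl) ≤ ar j l hjl from ⟨hij, le_rfl⟩)) :=
  (KQG.ses_mod _ _).1 (D.property.2.2 i j l hij hjl)

theorem ent_zero {k : Type} [Field k] {n : ℕ} (D : (XS k).obj n) (i : Fin (n + 1)) :
    Subsingleton (ent D (ar i i le_rfl)) :=
  ModuleCat.subsingleton_of_isZero (D.property.2.1 i)

/-- the S-diagrams with `dim D(0, n) ≤ r` -/
def rkS (k : Type) [Field k] (r : ℕ) : SubS (XS k) where
  s n := {D | Module.finrank k (topE D) ≤ r}
  map_mem {m n} θ D h := by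
    have h1 := ent_ses D 0 (θ (Fin.last m)) (Fin.last n) (Fin.zero_le _) (Fin.le_last _)
    have h2 := ent_ses D 0 (θ 0) (θ (Fin.last m)) (Fin.zero_le _) (θ.monotone (Fin.zero_le _))
    have := ent_finite D (ar 0 (Fin.last n) (Fin.zero_le _))
    have := ent_finite D (ar 0 (θ (Fin.last m)) (Fin.zero_le _))
    have e1 := LinearMap.finrank_le_finrank_of_injective h1.1
    have e2 := LinearMap.finrank_le_finrank_of_surjective h2.2.2
    exact (e2.trans e1).trans h

/-- flags `F` in `W` and quotients `F_j → M(i, j)` with kernel `F_i` for `i ≤ j` -/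
structure PO (k W : Type) [Field k] [AddCommGroup W] [Module k W] (n : ℕ) : Type 1 where
  /-- the flag -/
  F : Fin (n + 1) →o Submodule k W
  /-- the entries -/
  M : Ar (Fin (n + 1)) → ModuleCat.{0} k
  /-- the quotient maps -/
  p : ∀ x : Ar (Fin (n + 1)), F x.1.2 →ₗ[k] M x
  surj : ∀ x, Surjective (p x)
  ker : ∀ x, LinearMap.ker (p x) = (F x.1.1).submoduleOf (F x.1.2)

/-- the simplicial set of flags with chosen quotients -/
def PS (k W : Type) [Field k] [AddCommGroup W] [Module k W] : SSt.{1} where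
  obj n := PO k W n
  map θ P := ⟨P.F.comp θ, fun x => P.M (Ar.map θ x), fun x => P.p (Ar.map θ x),
    fun x => P.surj _, fun x => P.ker _⟩
  map_id _ _ := rfl
  map_comp _ _ _ := rfl

/-- the flags with `F_0 ≠ 0` or `F_n ≠ W` -/
def badP (k W : Type) [Field k] [AddCommGroup W] [Module k W] : SubS (PS k W) where
  s n := {P | P.F 0 ≠ ⊥ ∨ P.F (Fin.last n) ≠ ⊤}
  map_mem {m n} θ P h := by
    rcases h with h | h
    · left
      intro h1
      exact h (le_bot_iff.1 (h1 ▸ P.F.monotone (Fin.zero_le (θ 0))))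
    · right
      intro h1
      exact h (top_le_iff.1 (h1 ▸ P.F.monotone (Fin.le_last (θ (Fin.last m)))))

/-- `x ↦ (x(0,1), x(1,2), …, x(p-1,p))` on the `κ`-fold construction -/
def spK (κ : ℕ) (E : ExCat.{u}) (p : ℕ) :
    obS.obj ((itS Sd κ).obj (E.S (Fin (p + 1)))) ⟶ (obS.obj ((itS Sd κ).obj E)).pow p :=
  ⟨fun n x i => (obS.map ((itS Sd κ).map (X := E.S (Fin (p + 1))) (Y := E)
    (E.ev (ar i.castSucc i.succ (Fin.castSucc_le_succ i))))).app n x,
    fun θ x => funext fun i => (obS.map ((itS Sd κ).map (X := E.S (Fin (p + 1))) (Y := E)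
    (E.ev (ar i.castSucc i.succ (Fin.castSucc_le_succ i))))).nat θ x⟩

end Pool.Agent.FGK
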