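import Pool.Agent.FGK.StA

/-!
# FGK, D3: a `d`-trivial simplicial group has trivial reduced homology in degrees `< d`

Induction on `d`, for all groups. `f : pathG G ⟶ G`, kernel `loopG G`. The rows `cechS f p` of the Čech
nerve have trivial reduced homology in degrees `< d` (induction on `p`: `cechS f 0` is `pathG G`, which is
contractible, and `cechS f (p + 1) = cechS f p × loopG G`). By the realisation lemma the augmentation of
`A[diag (cech f)] = A[G]` is `(d + 1)`-connected.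
-/

set_option autoImplicit false

namespace Pool.Agent.FGK

open CategoryTheory Function Pool.Agent.KQ

universe u

theorem gphtriv_comp {X Y Z : SAb.{u}} (f : X ⟶ Y) (g : Y ⟶ Z) (j : ℕ)
    (x : (SAb.gp.obj X).Pi j) : SGp.PiMap (SAb.gp.map (f ≫ g)) j x =
      SGp.PiMap (SAb.gp.map g) j (SGp.PiMap (SAb.gp.map f) j x) := by
  rw [SAb.gp.map_comp]
  exact SGp.PiMap_comp _ _ _ _

theorem gphtriv_id (X : SAb.{u}) (j : ℕ) (x : (SAb.gp.obj X).Pi j) :
    SGp.PiMap (SAb.gp.map (𝟙 X)) j x = x := by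
  rw [SAb.gp.map_id]
  exact SGp.PiMap_id _ _ _

theorem gphtriv_retract {d : ℕ} {X Y : SAb.{u}} (a : X ⟶ Y) (b : Y ⟶ X) (h : a ≫ b = 𝟙 X)
    (hY : SAb.Triv d Y) : SAb.Triv d X := by
  intro j hj x
  have h1 : SGp.PiMap (SAb.gp.map b) j (SGp.PiMap (SAb.gp.map a) j x) = x := by
    rw [← gphtriv_comp, h, gphtriv_id]
  rw [← h1, hY j hj (SGp.PiMap (SAb.gp.map a) j x), map_one]

theorem gphtriv_weq_iso {X Y : SAb.{u}} (a : X ⟶ Y) (b : Y ⟶ X) (h : a ≫ b = 𝟙 X)
    (h' : b ≫ a = 𝟙 Y) : SAb.Weq a := by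
  intro j
  refine Function.bijective_iff_has_inverse.2 ⟨SGp.PiMap (SAb.gp.map b) j, fun x => ?_,
    fun x => ?_⟩
  · rw [← gphtriv_comp, h, gphtriv_id]
  · rw [← gphtriv_comp, h', gphtriv_id]

theorem gphtriv_cancel {c : ℕ} {X Y Z : SAb.{u}} (a : X ⟶ Y) (g : Y ⟶ Z) (ha : SAb.Weq a)
    (h : SAb.Conn c (a ≫ g)) : SAb.Conn c g := by
  refine ⟨fun j hj => ?_, fun z => ?_⟩
  · have h1 := h.1 j hj
    have h2 : (⇑(SGp.PiMap (SAb.gp.map (a ≫ g)) j)) =
        ⇑(SGp.PiMap (SAb.gp.map g) j) ∘ ⇑(SGp.PiMap (SAb.gp.map a) j) :=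
      funext fun x => gphtriv_comp a g j x
    rw [h2] at h1
    exact (Function.Bijective.of_comp_iff _ (ha j)).1 h1
  · obtain ⟨x, hx⟩ := h.2 z
    exact ⟨SGp.PiMap (SAb.gp.map a) c x, by rw [← gphtriv_comp]; exact hx⟩

theorem gphtriv_post {c : ℕ} {X Y Z : SAb.{u}} (g : X ⟶ Y) (e : Y ⟶ Z) (he : SAb.Weq e)
    (h : SAb.Conn c g) : SAb.Conn c (g ≫ e) := by
  refine ⟨fun j hj => ?_, fun z => ?_⟩
  · have h2 : (⇑(SGp.PiMap (SAb.gp.map (g ≫ e)) j)) =
        ⇑(SGp.PiMap (SAb.gp.map e) j) ∘ ⇑(SGp.PiMap (SAb.gp.map g) j) :=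
      funext fun x => gphtriv_comp g e j x
    rw [h2]
    exact (he j).comp (h.1 j hj)
  · obtain ⟨y, rfl⟩ := (he c).2 z
    obtain ⟨x, rfl⟩ := h.2 y
    exact ⟨x, gphtriv_comp _ _ _ _⟩

theorem gphtriv_weq_comp {X Y Z : SAb.{u}} (g : X ⟶ Y) (e : Y ⟶ Z) (hg : SAb.Weq g)
    (he : SAb.Weq e) : SAb.Weq (g ≫ e) := by
  intro j
  have h2 : (⇑(SGp.PiMap (SAb.gp.map (g ≫ e)) j)) =
      ⇑(SGp.PiMap (SAb.gp.map e) j) ∘ ⇑(SGp.PiMap (SAb.gp.map g) j) :=
    funext fun x => gphtriv_comp g e j x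
  rw [h2]
  exact (he j).comp (hg j)

/-! ### `M[Y]` -/

theorem gphtriv_fs_comp (M : SAb.{u}) {Y Y' Y'' : SSt.{u}} (a : Y ⟶ Y') (b : Y' ⟶ Y'') :
    SAb.fsMap (𝟙 M) a ≫ SAb.fsMap (𝟙 M) b = SAb.fsMap (𝟙 M) (a ≫ b) := by
  refine SAb.hom_ext fun n x => ?_
  change Finsupp.mapDomain (b.app n) (Finsupp.mapRange ((𝟙 M : SAb.Hom M M).app n) (map_zero _)
    (Finsupp.mapDomain (a.app n) (Finsupp.mapRange ((𝟙 M : SAb.Hom M M).app n) (map_zero _) x))) =
    Finsupp.mapDomain ((a ≫ b).app n) (Finsupp.mapRange ((𝟙 M : SAb.Hom M M).app n)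
      (map_zero _) x)
  induction x using Finsupp.induction_linear with
  | zero => simp
  | add x y hx hy =>
    rw [Finsupp.mapRange_add (map_add _), Finsupp.mapDomain_add, Finsupp.mapRange_add (map_add _),
      Finsupp.mapDomain_add, hx, hy, Finsupp.mapDomain_add]
  | single x y =>
    rw [Finsupp.mapRange_single, Finsupp.mapDomain_single, Finsupp.mapRange_single,
      Finsupp.mapDomain_single, Finsupp.mapDomain_single]
    rfl

theorem gphtriv_fs_id (M : SAb.{u}) (Y : SSt.{u}) : SAb.fsMap (𝟙 M) (𝟙 Y) = 𝟙 (M.fs Y) := by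
  refine SAb.hom_ext fun n x => ?_
  change Finsupp.mapDomain ((𝟙 Y : SSt.Hom Y Y).app n) (Finsupp.mapRange
    ((𝟙 M : SAb.Hom M M).app n) (map_zero _) x) = x
  induction x using Finsupp.induction_linear with
  | zero => simp
  | add x y hx hy =>
    rw [Finsupp.mapRange_add (map_add _), Finsupp.mapDomain_add, hx, hy]
  | single x y =>
    rw [Finsupp.mapRange_single, Finsupp.mapDomain_single]
    rfl

theorem gphtriv_aug (M : SAb.{u}) {Y Y' : SSt.{u}} (a : Y ⟶ Y') :
    SAb.fsMap (𝟙 M) a ≫ M.aug Y' = M.aug Y := by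
  refine SAb.hom_ext fun n x => ?_
  change Finsupp.liftAddHom (fun _ => AddMonoidHom.id (M.obj n)) (Finsupp.mapDomain (a.app n)
    (Finsupp.mapRange ((𝟙 M : SAb.Hom M M).app n) (map_zero _) x)) =
    Finsupp.liftAddHom (fun _ => AddMonoidHom.id (M.obj n)) x
  induction x using Finsupp.induction_linear with
  | zero => simp
  | add x y hx hy =>
    rw [Finsupp.mapRange_add (map_add _), Finsupp.mapDomain_add, map_add, hx, hy, map_add]
  | single x y =>
    rw [Finsupp.mapRange_single, Finsupp.mapDomain_single, Finsupp.liftAddHom_apply_single,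
      Finsupp.liftAddHom_apply_single]
    rfl

/-- the functor `Y ↦ M[Y]` -/
noncomputable def gphtriv_F (M : SAb.{u}) : SSt.{u} ⥤ SAb.{u} where
  obj Y := M.fs Y
  map a := SAb.fsMap (𝟙 M) a
  map_id Y := gphtriv_fs_id M Y
  map_comp a b := (gphtriv_fs_comp M a b).symm

theorem gphtriv_iso {d : ℕ} {Y Y' : SSt.{u}} (a : Y ⟶ Y') (b : Y' ⟶ Y) (h : a ≫ b = 𝟙 Y)
    (hY : HTriv d Y') : HTriv d Y := by
  intro A _
  have e1 : (SAb.const A).aug Y ≫ 𝟙 (SAb.const A) =
      SAb.fsMap (𝟙 (SAb.const A)) a ≫ (SAb.const A).aug Y' := by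
    rw [gphtriv_aug, Category.comp_id]
  have e2 : (SAb.const A).aug Y' ≫ 𝟙 (SAb.const A) =
      SAb.fsMap (𝟙 (SAb.const A)) b ≫ (SAb.const A).aug Y := by
    rw [gphtriv_aug, Category.comp_id]
  refine gphtriv_retract (SAb.kerMap (SAb.fsMap (𝟙 (SAb.const A)) a) (𝟙 _) e1)
    (SAb.kerMap (SAb.fsMap (𝟙 (SAb.const A)) b) (𝟙 _) e2) ?_ (hY A)
  refine SAb.hom_ext fun n x => Subtype.ext ?_
  change (SAb.fsMap (𝟙 (SAb.const A)) b).app n ((SAb.fsMap (𝟙 (SAb.const A)) a).app n x.1) = x.1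
  rw [← SAb.comp_app, gphtriv_fs_comp, h, gphtriv_fs_id]
  rfl

theorem gphtriv_ses (M : SAb.{u}) (Y : SSt.{u}) (hY : ∀ n, Nonempty (Y.obj n)) :
    SAb.SES (SAb.kerι (M.aug Y)) (M.aug Y) where
  inj n x y h := Subtype.ext h
  ex n y := ⟨fun h => ⟨⟨y, h⟩, rfl⟩, by
    rintro ⟨x, rfl⟩
    exact x.2⟩
  surj n m := by
    obtain ⟨y⟩ := hY n
    refine ⟨(Finsupp.single y m : Y.obj n →₀ M.obj n), ?_⟩
    change Finsupp.liftAddHom (fun _ => AddMonoidHom.id (M.obj n)) (Finsupp.single y m) = m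
    rw [Finsupp.liftAddHom_apply_single]
    rfl

/-- contractible simplicial sets -/
theorem gphtriv_contr (hS : St_fsStrong.{u}) (M : SAb.{u}) (Y : SSt.{u}) (hY : SSt.Contr Y) :
    SAb.Weq (M.aug Y) := by
  have h1 : SAb.Weq (SAb.fsMap (𝟙 M) Y.toPt) := hS M Y.toPt hY
  have h2 : SAb.Weq (M.aug (SSt.const PUnit.{u + 1})) := by
    refine gphtriv_weq_iso _ ⟨fun n => Finsupp.singleAddHom (PUnit.unit : PUnit.{u + 1}),
      fun {m n} θ x => ?_⟩ ?_ ?_
    · change Finsupp.single PUnit.unit (M.map θ x) = Finsupp.mapDomain id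
        (Finsupp.mapRange (M.map θ) (map_zero _) (Finsupp.single PUnit.unit x))
      rw [Finsupp.mapRange_single, Finsupp.mapDomain_single]
    · refine SAb.hom_ext fun n x => ?_
      change Finsupp.single PUnit.unit (Finsupp.liftAddHom
        (fun _ => AddMonoidHom.id (M.obj n)) x) = x
      induction x using Finsupp.induction_linear with
      | zero =>
        rw [map_zero, Finsupp.single_zero]
        rfl
      | add x y hx hy =>
        rw [map_add, Finsupp.single_add, hx, hy]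
        rfl
      | single x y =>
        rw [Finsupp.liftAddHom_apply_single]
        rfl
    · refine SAb.hom_ext fun n x => ?_
      change Finsupp.liftAddHom (fun _ => AddMonoidHom.id (M.obj n))
        (Finsupp.single PUnit.unit x) = x
      rw [Finsupp.liftAddHom_apply_single]
      rfl
  have h3 := gphtriv_weq_comp _ _ h1 h2
  rwa [gphtriv_aug] at h3

theorem gphtriv_mm {P Q R A : Type u} [AddCommGroup A] (f : P → Q) (g : Q → R) (h : P → R)
    (hh : ∀ z, g (f z) = h z) (x : P →₀ A) :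
    Finsupp.mapDomain g (Finsupp.mapRange (AddMonoidHom.id A) (map_zero _)
      (Finsupp.mapDomain f (Finsupp.mapRange (AddMonoidHom.id A) (map_zero _) x))) =
      Finsupp.mapDomain h (Finsupp.mapRange (AddMonoidHom.id A) (map_zero _) x) := by
  induction x using Finsupp.induction_linear with
  | zero => simp
  | add x y hx hy =>
    rw [Finsupp.mapRange_add (map_add _), Finsupp.mapDomain_add, Finsupp.mapRange_add (map_add _),
      Finsupp.mapDomain_add, hx, hy, Finsupp.mapDomain_add]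
  | single x y =>
    rw [Finsupp.mapRange_single, Finsupp.mapDomain_single, Finsupp.mapRange_single,
      Finsupp.mapDomain_single, Finsupp.mapDomain_single, hh]
    rfl

/-- the identification of `M[diag Z]` for constant `M` -/
noncomputable def gphtriv_diag (A : Type u) [AddCommGroup A] (Z : SOb SSt.{u}) :
    SAb.diag ((SOb.mapF (gphtriv_F (SAb.const A))).obj Z) ⟶ (SAb.const A).fs (SSt.diag Z) where
  app n := AddMonoidHom.id _
  nat {m n} θ x := by
    exact gphtriv_mm (A := A) ((Z.map θ).app n) ((Z.obj m).map θ) ((SSt.diag Z).map θ)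
      (fun _ => rfl) x

theorem gphtriv_diag_weq (A : Type u) [AddCommGroup A] (Z : SOb SSt.{u}) :
    SAb.Weq (gphtriv_diag A Z) := by
  refine gphtriv_weq_iso _ ⟨fun n => AddMonoidHom.id _, fun {m n} θ x =>
    ((gphtriv_diag A Z).nat θ x).symm⟩ ?_ ?_
  · exact SAb.hom_ext fun n x => rfl
  · exact SAb.hom_ext fun n x => rfl

theorem thm_GpHTriv (hPath : St_Path.{u}) (hCech : St_Cech.{u}) (hCechZ : St_CechZ.{u})
    (hStr : St_fsStrong.{u}) (hEx : St_AbEx.{u}) (hReal : St_AbReal.{u})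
    (hProds : St_Prods.{u}) : St_GpHTriv.{u} := by
  intro d
  induction d with
  | zero =>
    intro G _ A _ j hj
    exact absurd hj (Nat.not_lt_zero j)
  | succ d ih =>
    intro G hG
    obtain ⟨hsurj, hcontr, -, hδ⟩ := hPath G fun j hj => hG j (by omega)
    -- the loop group
    have hL : SGp.Triv d (loopG G) := by
      intro j hj x
      obtain ⟨δ, hδ⟩ := hδ j
      obtain ⟨y, rfl⟩ := hδ.2 x
      rw [hG (j + 1) (by omega) y, map_one]
    have hLH : HTriv d (loopG G).und := ih _ hL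
    -- nonempty
    have hne : ∀ p n, Nonempty ((cechS (pathπ G) p).obj n) := fun p n =>
      ⟨⟨fun _ => 1, fun _ _ => rfl⟩⟩
    -- the row 0
    have hC0 : ∀ M : SAb.{u}, SAb.Weq (M.aug (cechS (pathπ G) 0)) := by
      intro M
      have h1 : SAb.Weq (M.aug (pathG G).und) := gphtriv_contr hStr M _ hcontr
      let a : cechS (pathπ G) 0 ⟶ (pathG G).und := ⟨fun n x => x.1 0, fun _ _ => rfl⟩
      let b : (pathG G).und ⟶ cechS (pathπ G) 0 := ⟨fun n x => ⟨fun _ => x, fun _ _ => rfl⟩,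
        fun _ _ => rfl⟩
      have hab : a ≫ b = 𝟙 _ := SSt.hom_ext fun n x => Subtype.ext (funext fun i => by
        exact congrArg x.1 (Subsingleton.elim (α := Fin 1) 0 i))
      have hba : b ≫ a = 𝟙 _ := SSt.hom_ext fun n x => rfl
      have h2 : SAb.Weq (SAb.fsMap (𝟙 M) a) := by
        refine gphtriv_weq_iso _ (SAb.fsMap (𝟙 M) b) ?_ ?_
        · rw [gphtriv_fs_comp, hab, gphtriv_fs_id]
        · rw [gphtriv_fs_comp, hba, gphtriv_fs_id]
      have h3 := gphtriv_weq_comp _ _ h2 h1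
      rwa [gphtriv_aug] at h3
    -- all rows
    have hCp : ∀ p, HTriv d (cechS (pathπ G) p) := by
      intro p
      induction p with
      | zero =>
        intro A _
        exact ((hEx _ _ (gphtriv_ses (SAb.const A) _ (hne 0)) 0).2.2.2.2.2.2.2.2.2.2.2.1.2
          (hC0 (SAb.const A))) d
      | succ p ihp =>
        obtain ⟨⟨a, b, hab, -, -, -⟩, -⟩ := hCechZ (pathπ G) p
        exact gphtriv_iso a b hab (hProds.1 d _ _ ihp hLH)
    -- the diagonal
    intro A _
    let M : SAb.{u} := SAb.const A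
    let X : SOb SAb.{u} := (SOb.mapF (gphtriv_F M)).obj (cech (pathπ G))
    let a : X ⟶ SOb.const M :=
      ⟨fun p => M.aug (cechS (pathπ G) p), fun {m n} θ => by
        change SAb.fsMap (𝟙 M) ((cech (pathπ G)).map θ) ≫ M.aug (cechS (pathπ G) m) =
          M.aug (cechS (pathπ G) n) ≫ 𝟙 M
        rw [Category.comp_id]
        exact gphtriv_aug M ((cech (pathπ G)).map θ)⟩
    have ha : SAb.Conn (d + 1) (SAb.diagF.map a) := by
      refine hReal.2.2.1 d a (fun p => ?_) (hC0 M)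
      exact (hEx _ _ (gphtriv_ses M _ (hne p)) d).2.1 (hCp p A)
    let e : SAb.diagF.obj (SOb.const M) ⟶ M := ⟨fun n => AddMonoidHom.id _, fun _ _ => rfl⟩
    have he : SAb.Weq e := by
      refine gphtriv_weq_iso _ ⟨fun n => AddMonoidHom.id _, fun _ _ => rfl⟩ ?_ ?_
      · exact SAb.hom_ext fun n x => rfl
      · exact SAb.hom_ext fun n x => rfl
    have hψ : SAb.Weq (gphtriv_diag A (cech (pathπ G)) ≫
        SAb.fsMap (𝟙 M) (cechAug (pathπ G))) :=
      gphtriv_weq_comp _ _ (gphtriv_diag_weq A _) (hStr M _ (hCech _ hsurj))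
    have hcomm : (gphtriv_diag A (cech (pathπ G)) ≫ SAb.fsMap (𝟙 M) (cechAug (pathπ G))) ≫
        M.aug G.und = SAb.diagF.map a ≫ e := by
      rw [Category.assoc, gphtriv_aug]
      exact SAb.hom_ext fun n x => rfl
    have hfin : SAb.Conn (d + 1) (M.aug G.und) := by
      refine gphtriv_cancel _ _ hψ ?_
      rw [hcomm]
      exact gphtriv_post _ _ he ha
    exact (hEx _ _ (gphtriv_ses M G.und fun n => ⟨(1 : G.obj n)⟩) (d + 1)).2.2.2.1 hfin

end Pool.Agent.FGK
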