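import Pool.Agent.FGK.Defs2

/-!
# FGK: statements, part A: slender groups, `M[Y]`, Čech nerves, homology of simplicial groups

Library theorems of KQ which may be used (take them as hypotheses `h : Pool.Agent.KQ.St_X` or import
the module which proves them): `St_Bd`, `St_Bd0`, `St_BdNat`, `St_Split`, `St_Htpy`, `St_Comm`,
`St_Dec`, `St_Real`, `St_RealW`, `St_Up`, and the theorems on strong maps in `KQ/StStr.lean`.
-/

set_option autoImplicit false
set_option linter.unusedVariables false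

namespace Pool.Agent.FGK

open CategoryTheory Function Pool.Agent.KQ

universe u

/-! ### A1 - A3: slender groups -/

/-- **A1.** Subgroups, quotients, extensions.

Proof. Third part: let `H ≤ B`. `g(H)` is finitely generated, say by `g h_1, .., g h_r`; the subgroup
`{a | f a ∈ H}` of `A` is finitely generated, and its image contains `H ∩ ker g`. So `H` is generated by
the `h_i` and the images of the generators. -/
def St_Sl : Prop :=
  (∀ {G H : Type u} [Group G] [Group H] (f : H →* G), Injective f → Sl G → Sl H) ∧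
  (∀ {G H : Type u} [Group G] [Group H] (f : G →* H), Surjective f → Sl G → Sl H) ∧
  (∀ {A B C : Type u} [Group A] [Group B] [Group C] (f : A →* B) (g : B →* C),
    (∀ b, g b = 1 → ∃ a, f a = b) → Sl A → Sl C → Sl B)

/-- **A2.** Finitely generated abelian groups are slender; the homology groups of a simplicial set
which is finite in every degree; homology of finite type.

Proof. (1) `A` is a noetherian `ℤ`-module; a subgroup of `Multiplicative A` is
`AddSubgroup.toSubgroup` of a subgroup of `A`. (2) `(ZS Y).obj n = Y_n →₀ ULift ℤ` is finitely generated,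
so its subgroup `Z_j` and the quotient `Pi j` are slender (A1). (3) `SAb.Conn j (ZSmap g)` is surjective
on `Pi j`. -/
def St_SlFin : Prop :=
  (∀ (A : Type u) [AddCommGroup A], AddGroup.FG A → Sl (Multiplicative A)) ∧
  (∀ (Y : SSt.{u}), (∀ n, Finite (Y.obj n)) → ∀ j, HSl Y j) ∧
  (∀ (Y : SSt.{u}), FTy Y → ∀ j, HSl Y j)

/-- **A3.** A bisimplicial group with slender homotopy groups of the rows.

Proof. `E = G.dec`, `p = G.decπ`, `Ω = kerB p` as in the proof of `KQ.St_Real`: all levels of `p` are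
onto (split by `sg 0`), `π_q(Ω_m)` is a subgroup of `π_q(G_{m+1})` (`St_Split`), and
`π_j(diag E) = π_j(G_0)` (`St_Dec`). Induction on `j`, for all `G`: `π_0(diag E) → π_0(diag G)` is onto;
`π_{j+1}(diag E) → π_{j+1}(diag G) → π_j(diag Ω)` is exact (`St_Bd0`, `St_Bd`), use A1. -/
def St_SlDiag : Prop := ∀ (G : SOb SGp.{u}) (J : ℕ),
  (∀ m, ∀ q ≤ J, Sl ((G.obj m).Pi q)) → ∀ j ≤ J, Sl ((SGp.diag G).Pi j)

/-! ### B: Eilenberg subgroups, connectivity of bisimplicial groups -/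

/-- **B1.** The Eilenberg subgroup.

Proof. (1) `x = G.map id x`. (2) For `j ≥ c`: `Z_j(E) = Z_j(G)` and `N_{j+1}(E) = N_{j+1}(G)` (as sets
of elements of `G`): if `y ∈ N_{j+1}(G)` and `f : Mo l (j+1)`, `l < c ≤ j`, then `f` misses at least two
of the `j + 2` vertices, so it misses some `i.succ` and factors through `dl i.succ`; the same for
`x ∈ Z_j(G)`, `f : Mo l j`, `l < j`. So `π_j` is the same. (3) by (1). (4) is clear. -/
def St_Eil : Prop := ∀ (G : SGp.{u}) (c : ℕ),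
  (∀ n < c, ∀ x : (eil G c).obj n, x = 1) ∧
  (∀ j, c ≤ j → Bijective (SGp.PiMap (eilι G c) j)) ∧
  SGp.Triv c (eil G c) ∧
  ∀ n, (eilS G c n).Normal

/-- **B2.** The first `c` rows trivial.

Proof. Induction on `c`, for all `G`; `c = 0`: `St_Real` for `G → 1`. Step: `E = G.dec`, `Ω = kerB decπ`:
the rows `m < c` of `Ω` are trivial, as `Ω_m ≤ G_{m+1}`, all rows of `Ω` are `d`-trivial (`St_Split`), so
`diag Ω` is `(c + d)`-trivial; `π_*(diag E) = π_*(G_0) = 1` (`St_Dec`); exact sequence. -/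
def St_Ups : Prop := ∀ (c d : ℕ) (G : SOb SGp.{u}),
  (∀ m < c, ∀ (n : ℕ) (x : (G.obj m).obj n), x = 1) → (∀ m, SGp.Triv d (G.obj m)) →
    SGp.Triv (c + d) (SGp.diag G)

/-- **B3.** All rows `d`-connected, the row `0` an isomorphism on homotopy groups.

Proof. `Ω(f)` is `d`-connected on rows (see `St_Real`), so `diag Ω(f)` is `d`-connected; `E(f)` is an
isomorphism on `π_*(diag)` by `St_Dec` (naturality of `decAug`). Four lemma in
`π_j(diag Ω) → π_j(diag E) → π_j(diag G) → π_{j-1}(diag Ω) → π_{j-1}(diag E)`: surjective for `j ≤ d + 1`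
(`π_{j-1}(Ω)` onto), injective for `j ≤ d` (`π_{j-1}(Ω)` injective, `π_j(Ω)` onto); `j = 0` as there. -/
def St_RealUp : Prop := ∀ (d : ℕ) {G H : SOb SGp.{u}} (f : G ⟶ H),
  (∀ m, SGp.Conn d (f.app m)) → SGp.Weq (f.app 0) → SGp.Conn (d + 1) (SGp.diagF.map f)

/-! ### C: the simplicial abelian groups `M[Y]` -/

/-- **C0.** Short exact sequences of simplicial abelian groups: `c`-trivial terms.

Proof. `St_Bd`, `St_Bd0` for `SAb.gp.map g` (its kernel is isomorphic to `X.gpo`). -/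
def St_AbEx : Prop := ∀ {X Y Z : SAb.{u}} (f : X ⟶ Y) (g : Y ⟶ Z), SAb.SES f g → ∀ c : ℕ,
  (SAb.Triv c X → SAb.Triv c Z → SAb.Triv c Y) ∧
  (SAb.Triv c X → SAb.Conn c g) ∧
  (SAb.Triv (c + 1) X → Bijective (SGp.PiMap (SAb.gp.map g) c)) ∧
  (SAb.Conn c g → SAb.Triv c X) ∧
  (SAb.Triv c Z → ∀ j < c, Surjective (SGp.PiMap (SAb.gp.map f) j)) ∧
  (SAb.Triv (c + 1) Z → ∀ j < c, Bijective (SGp.PiMap (SAb.gp.map f) j)) ∧
  (SAb.Triv c Y → SAb.Triv (c + 1) Z → SAb.Triv c X) ∧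
  (∀ j, X.SlAt j → Z.SlAt j → Y.SlAt j) ∧
  (∀ j, Y.SlAt j → Z.SlAt (j + 1) → X.SlAt j) ∧
  (∀ j, X.SlAt j → Y.SlAt (j + 1) → Z.SlAt (j + 1)) ∧
  (Y.SlAt 0 → Z.SlAt 0) ∧
  ((∀ d, SAb.Triv d X) ↔ SAb.Weq g) ∧
  ((∀ d, SAb.Triv d Z) ↔ SAb.Weq f)

/-- **AbReal.** The realisation lemmas for simplicial abelian groups.

Proof. `SAb.gp` applied degreewise: the diagonal of `(SOb.mapF SAb.gp).obj X` is
`SAb.gp.obj (SAb.diag X)` (rfl or an obvious isomorphism), similarly kernels; then `KQ.St_Real`,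
`St_RealW`, B3, B2, A3, `St_Dec`; the last statement is clear (`decπ` is onto, split by `sg 0`). -/
def St_AbReal : Prop :=
  (∀ (c : ℕ) {X Y : SOb SAb.{u}} (f : X ⟶ Y), (∀ m, SAb.Conn c (f.app m)) →
    SAb.Conn c (SAb.diagF.map f)) ∧
  (∀ {X Y : SOb SAb.{u}} (f : X ⟶ Y), (∀ m, SAb.Weq (f.app m)) → SAb.Weq (SAb.diagF.map f)) ∧
  (∀ (c : ℕ) {X Y : SOb SAb.{u}} (f : X ⟶ Y), (∀ m, SAb.Conn c (f.app m)) → SAb.Weq (f.app 0) →
    SAb.Conn (c + 1) (SAb.diagF.map f)) ∧
  (∀ (c : ℕ) (X : SOb SAb.{u}), (∀ m, SAb.Triv c (X.obj m)) → SAb.Triv c (SAb.diag X)) ∧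
  (∀ (c d : ℕ) (X : SOb SAb.{u}), (∀ m < c, ∀ (n : ℕ) (x : (X.obj m).obj n), x = 0) →
    (∀ m, SAb.Triv d (X.obj m)) → SAb.Triv (c + d) (SAb.diag X)) ∧
  (∀ (X : SOb SAb.{u}) (J : ℕ), (∀ m, ∀ q ≤ J, (X.obj m).SlAt q) →
    ∀ j ≤ J, (SAb.diag X).SlAt j) ∧
  (∀ X : SOb SAb.{u}, SAb.Weq (decAugA X)) ∧
  (∀ X : SOb SAb.{u}, SAb.SES (omI X) (SAb.diagF.map X.decπ))

/-- **C1.** `M ↦ M[Y]` preserves `c`-connected maps, and `M[Y]` is `c`-trivial if `M` is.

Proof. `M[Y]` is the diagonal of the bisimplicial abelian group with the rows `M[const Y_m]`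
(finitely supported families in `M`, indexed by the set `Y_m`). For a set `S` a map `f : M → M'` which
is `c`-connected gives a `c`-connected map `M[const S] → M'[const S]`: `Z_n`, `N_n`, `B_n` of
`M[const S]` consist of the families with components in `Z_n(M)`, `N_n(M)`, `B_n(M)`: choose lifts
componentwise, `0` for zero components. Then `St_Real`. Second part: `M → 0`. -/
def St_fsConn : Prop :=
  (∀ (c : ℕ) {M M' : SAb.{u}} (f : M ⟶ M') (Y : SSt.{u}), SAb.Conn c f →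
    SAb.Conn c (SAb.fsMap f (𝟙 Y))) ∧
  (∀ {M M' : SAb.{u}} (f : M ⟶ M') (Y : SSt.{u}), SAb.Weq f → SAb.Weq (SAb.fsMap f (𝟙 Y))) ∧
  (∀ (c : ℕ) (M : SAb.{u}) (Y : SSt.{u}), SAb.Triv c M → SAb.Triv c (M.fs Y))

/-- **C2.** `Y ↦ M[Y]` for strong maps.

Proof. Bisimplicial group with the rows `(SAb.const M_m)[Y]`; `X ↦ Multiplicative (X →₀ M_m)` is a
finitary functor (`KQ.FGr`), so `M_m[Y] → M_m[Y']` is bijective on homotopy; `St_RealW`. -/
def St_fsStrong : Prop := ∀ (M : SAb.{u}) {Y Y' : SSt.{u}} (g : Y ⟶ Y'), SSt.Strong g →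
  SAb.Weq (SAb.fsMap (𝟙 M) g)

/-- **C3.** Exactness of `M ↦ M[Y]` and of `M ↦ M.red Y` (kernel of the augmentation).

Proof. Degreewise. For `red` and surjectivity: given `x ∈ Z_n[Y]` with augmentation `0`, lift it to
`y ∈ Y_n →₀ M_n`; its augmentation is in the image of `X_n`; subtract it at one element of the support
(if the support of `x` is empty, take `y = 0`). -/
def St_fsEx : Prop := ∀ {X M Z : SAb.{u}} (f : X ⟶ M) (g : M ⟶ Z), SAb.SES f g → ∀ Y : SSt.{u},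
  SAb.SES (SAb.fsMap f (𝟙 Y)) (SAb.fsMap g (𝟙 Y)) ∧
  ∃ (f' : X.red Y ⟶ M.red Y) (g' : M.red Y ⟶ Z.red Y),
    (∀ n x, (f'.app n x).1 = (SAb.fsMap f (𝟙 Y)).app n x.1) ∧
    (∀ n x, (g'.app n x).1 = (SAb.fsMap g (𝟙 Y)).app n x.1) ∧ SAb.SES f' g'

/-- **C4.** Products: `M[Y × Y'] = M[Y][Y']`, compatible with the projections.

Proof. Degreewise `Finsupp` currying; first the isomorphism
`(S →₀ A) `indexed by `T` = `(S × T →₀ A)`. -/
def St_fsProd : Prop := ∀ (M : SAb.{u}) (Y Y' : SSt.{u}),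
  ∃ (φ : (M.fs Y).fs Y' ⟶ M.fs (Y.prod Y')), (∀ n, Bijective (φ.app n)) ∧
    (∀ (n : ℕ) (y : Y.obj n) (y' : Y'.obj n) (a : M.obj n),
      φ.app n (Finsupp.single y' (Finsupp.single y a)) = Finsupp.single (y, y') a) ∧
    φ ≫ SAb.fsMap (𝟙 M) (⟨fun _ x => x.1, fun _ _ => rfl⟩ : Y.prod Y' ⟶ Y) = (M.fs Y).aug Y' ∧
    φ ≫ M.aug (Y.prod Y') = (M.fs Y).aug Y' ≫ M.aug Y

/-- **C5.** Connectivity of `M ⊗ ℤ~[Y]`.

Proof. Apply B1 to `M.gpo`: let `X ≤ M` be the simplicial subgroup `eilS M.gpo c` and `Q` the quotient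
(`SAb.quot`). `π_*(X) → π_*(M)` is bijective (`M` is `c`-trivial), so `Q` has trivial homotopy groups, so
`Q[Y]` too (C1), and `Q.red Y` too (C0 for `Q.red Y → Q[Y] → Q`; if all `Y_n` are empty everything is
`0`; if some `Y_n` is nonempty, all are and the augmentation is onto). By C3 and C0 it is enough to
show that `X.red Y` is `(c + d)`-trivial. It is the diagonal of the bisimplicial group with the rows
`(SAb.const X_m).red Y`, which are `0` for `m < c` and `d`-trivial by `HTriv`: B2. -/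
def St_redTriv : Prop := ∀ (c d : ℕ) (M : SAb.{u}) (Y : SSt.{u}), SAb.Triv c M → HTriv d Y →
  SAb.Triv (c + d) (M.red Y)

/-- **C6.** Products and powers: `HTriv`, homology of finite type.

Proof. (1) `A[Y × Y'] = A[Y][Y']` (C4): `0 → (A[Y]).red Y' → A.red (Y × Y') → A.red Y → 0` is exact,
the first term is `(0 + d)`-trivial by C5; C0. Powers by induction (`Y.pow (p+1)` is isomorphic to
`Y × Y.pow p`). (2) If `g : Y → Y'` is `c`-connected on homology, so is `Y × W → Y' × W`: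
`ℤ[Y × W] = ℤ[Y][W]` (C4) and C1; similarly on the other side. -/
def St_Prods : Prop :=
  (∀ (d : ℕ) (Y Y' : SSt.{u}), HTriv d Y → HTriv d Y' → HTriv d (Y.prod Y')) ∧
  (∀ (d : ℕ) (Y : SSt.{u}) (p : ℕ), HTriv d Y → HTriv d (Y.pow p)) ∧
  (∀ (c : ℕ) {Y Y' X X' : SSt.{u}} (g : Y ⟶ Y') (h : X ⟶ X'), SAb.Conn c (ZSmap g) →
    SAb.Conn c (ZSmap h) → SAb.Conn c (ZSmap (SSt.prodMap g h))) ∧
  (∀ (Y Y' : SSt.{u}), FTy Y → FTy Y' → FTy (Y.prod Y')) ∧
  (∀ (Y : SSt.{u}) (p : ℕ), FTy Y → FTy (Y.pow p)) ∧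
  (∀ {Y Y' : SSt.{u}} (g : Y ⟶ Y'), SAb.Weq (ZSmap g) → FTy Y → FTy Y')

/-! ### D: homology of simplicial groups -/

/-- **D1.** The Čech nerve of a surjection.

Proof. Columns (`KQ.St_StrCol`): for fixed `n` the simplicial set `p ↦ {x ∈ G_n^{p+1} | f x_i = f x_j}`
maps to the constant simplicial set `H_n` by a homotopy equivalence: section `h ↦ (s h, .., s h)`, `s` a
section of `f.app n`; homotopy `(α, x) ↦ (x_i if α i = false, s (f x_0) if α i = true)`
(`KQ.St_StrHt`). -/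
def St_Cech : Prop := ∀ {G H : SGp.{u}} (f : G ⟶ H), (∀ n, Surjective (f.app n)) →
  SSt.Strong (cechAug f)

/-- **CechZ.** The Čech nerve in the direction of the vertex `0`: `cechS f (p+1) = cechS f p × K`,
`K = ker f`, and the kernel of the operator which omits `x_0` on `M[cechS f (p+1)]` is
`(M[cechS f p]).red K`.

Proof. `x ↦ ((x_1, .., x_{p+1}), x_1⁻¹ x_0)`, inverse `(y, k) ↦ (y_0 k, y_0, .., y_p)`. Then C4. -/
def St_CechZ : Prop := ∀ {G H : SGp.{u}} (f : G ⟶ H) (p : ℕ),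
  (∃ (a : cechS f (p + 1) ⟶ (cechS f p).prod (SGp.ker f).und)
    (b : (cechS f p).prod (SGp.ker f).und ⟶ cechS f (p + 1)), a ≫ b = 𝟙 _ ∧ b ≫ a = 𝟙 _ ∧
    (∀ n x, (a.app n x).1 = ((cech f).map (dl 0)).app n x) ∧
    (∀ n x, (a.app n x).2.1 = (x.1 1)⁻¹ * x.1 0)) ∧
  ∀ M : SAb.{u}, ∃ φ : (M.fs (cechS f p)).red (SGp.ker f).und ⟶
    SAb.ker (SAb.fsMap (𝟙 M) ((cech f).map (dl 0) : cechS f (p + 1) ⟶ cechS f p)),
    ∀ n, Bijective (φ.app n)

/-- **D2.** The path group and the loop group of a connected simplicial group.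

Proof. (1) `x ∈ G_n`, `g` = vertex `0` of `x`. As `π_0(G) = 1` and `B_0 = {d_0 y | d_1 y = 1}`, there is
`y ∈ G_1` with `d_0 y = g`, `d_1 y = 1`; `w = s_0(g)⁻¹ * y` has `d_0 w = 1`, `d_1 w = g⁻¹`. (`d_1` is the
vertex `0`.) Let `ε : Mo (n+1) 1` with `ε 0 = 0`, `ε (i+1) = 1`; then `G.map ε w * s_0 x ∈ G_{n+1}` has
vertex `0` equal to `g⁻¹ * g = 1` and `d_0 = 1 * x`. (2) homotopy: `h n α y = G.map c_α y`,
`c_α : Mo (n+1) (n+1)`, `c_α 0 = 0`, `c_α (i+1) = i+1` if `α i`, `0` otherwise (as in `KQ.St_Dec`); it is a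
homotopy of homomorphisms and of simplicial sets from the trivial map to the identity. (3) the exact
sequence of `1 → loopG G → pathG G → G → 1` (`St_Bd`, `St_Bd0`), `π_*(pathG G) = 1`. -/
def St_Path : Prop := ∀ G : SGp.{u}, SGp.Triv 1 G →
  (∀ n, Surjective ((pathπ G).app n)) ∧ SSt.Contr (pathG G).und ∧
  (∀ j (x : (pathG G).Pi j), x = 1) ∧
  (∀ j, ∃ δ : G.Pi (j + 1) →* (loopG G).Pi j, Bijective δ)

/-- **D3.** A `d`-trivial simplicial group has trivial reduced homology in degrees `< d`.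

Proof. Induction on `d`, for all `G`. `d = 0` is trivial. Let `G` be `(d+1)`-trivial, `A` a coefficient
group. `d = 0` (i.e. `1`-trivial): `π_0` of `A.red G.und`: it is generated by the elements
`a [g] - a [1]`, `g = d_0 y`, `d_1 y = 1`, `y ∈ G_1`, which is `d_0` of `a [y] - a [1]`, and
`d_1 (a [y] - a [1]) = 0`. `d ≥ 1`: let `f = pathπ G`, onto with kernel `loopG G` (D2), which is
`d`-trivial, so `HTriv d (loopG G).und`. By D1 and C2 `A[G] = A[diag (cech f)]` (isomorphism on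
`π_*`), and `A[diag (cech f)]` is the diagonal of `p ↦ A[cechS f p]`. The map to the constant
bisimplicial group `A` (augmentation) is on the row `p`:
`cechS f p = pathG G × (loopG G)^p` (`x ↦ (x_0, x_0⁻¹ x_i)`), `A[P × L] = A[P][L]` (C4), `A[P] → A` is an
isomorphism on `π_*` (D2, C2), so `A[P × L] → A[L]`, `L = (loopG G).und.pow p`, too (C1 and C4), and
`A[L] → A` has a `d`-trivial kernel (C6), so it is `d`-connected (C0). Row `0`: isomorphism. By B3 the
diagonal is `(d + 1)`-connected; so is `A[G] → A`, and `A.red G` is `(d+1)`-trivial (C0). -/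
def St_GpHTriv : Prop := ∀ (d : ℕ) (G : SGp.{u}), SGp.Triv d G → HTriv d G.und

/-- **D4.** A surjection whose kernel has trivial homotopy groups induces isomorphisms on homology.

Proof. `K = ker f` has trivial reduced homology (D3 for all `d`). The simplicial map
`const G → cech f`, `x ↦ (x, .., x)`, is on the row `p` the map `G → cechS f p = G × K^p`, a section of the
projection, `ℤ[G × K^p] = ℤ[G][K^p] → ℤ[G]` is an isomorphism on `π_*` (C4, C5, C6, C0), so
`ℤ[G] → ℤ[diag (cech f)]` is one (`St_RealW`), and so is `ℤ[diag (cech f)] → ℤ[H]` (D1, C2); the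
composition is `ℤ[f]`. -/
def St_WSurj : Prop := ∀ {G H : SGp.{u}} (f : G ⟶ H), (∀ n, Surjective (f.app n)) →
  (∀ c, SGp.Triv c (SGp.ker f)) → SAb.Weq (ZSmap (SGp.undMap f))

/-- **D5.** A connected normal subgroup whose quotient has trivial homotopy groups.

Proof. `K = ker f`. Let `A_p = ℤ[cechS f p]`, `A'_p ≤ A_p` the subgroup of the functions with support in
the tuples in `K^{p+1}`, `M_p = A_p / A'_p`, a bisimplicial abelian group. (i) `diag A → ℤ[H] → ℤ` are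
isomorphisms on `π_*` (D1, C2, D3 for `H`), and so is `diag A' → ℤ` (`A'_p = ℤ[cechS (K → 1) p]`, D1,
C2). So `diag M` has trivial homotopy groups (C0). (ii) `cechS f (p+1) = cechS f p × K`,
`x ↦ ((x_1, .., x_{p+1}), x_1⁻¹ x_0)`, and the same for `K^{p+2} = K^{p+1} × K`; the operator which omits
`x_0` is the projection. So `M_{p+1} = M_p[K]` (C4, C3), and the kernel `Ω_p` of `d_0 : M_{p+1} → M_p` is
`M_p.red K`. (iii) Suppose that `M_0` is `c`-trivial. Then all `M_p` are (C1). `HTriv 1 K.und` (D3), so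
`Ω_p` is `(c+1)`-trivial (C5), and `diag Ω` is (`St_Real`). In the exact sequence
`π_c(diag Ω) → π_c(diag (dec M)) → π_c(diag M)` the middle term is `π_c(M_0)` (`St_Dec`); so
`π_c(M_0) = 0`. So `M_0 = ℤ[G] / ℤ[K]` has trivial homotopy groups, and C0. -/
def St_WInj : Prop := ∀ {G H : SGp.{u}} (f : G ⟶ H), (∀ n, Surjective (f.app n)) →
  (∀ c, SGp.Triv c H) → SGp.Triv 1 (SGp.ker f) → SAb.Weq (ZSmap (SGp.undMap (SGp.kerι f)))

/-- **D6.** The Eilenberg subgroup of an `n`-trivial simplicial group, `n ≥ 1`: same homology.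

Proof. Let `H = G / eil G n` (a simplicial group, B1 (4)) and `f : G → H` the projection; its kernel is
`eil G n` (isomorphic), which is `1`-trivial; `π_*(H) = 1` by B1 and the exact sequence. D5. -/
def St_EilH : Prop := ∀ (n : ℕ) (G : SGp.{u}), 1 ≤ n → SGp.Triv n G →
  SAb.Weq (ZSmap (SGp.undMap (eilι G n)))

/-- **D7.** Slender homology of the kernel.

Proof. `K = ker f`. `A_p = ℤ[cechS f p]`, `E = dec A`, `Ω = ker (E → A)`; as in D5 (ii),
`A_{p+1} = A_p[K]`, `Ω_p = A_p.red K`. (i) `π_j(diag A) = H_j(P)` (D1, C2),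
`π_j(diag E) = π_j(A_0) = H_j(G)`, so `π_j(diag Ω)` is slender for `j < R`: exact sequence
`π_{j+1}(diag A) → π_j(diag Ω) → π_j(diag E)`. (ii) the same once more: the kernel `Ω'_p` of the operator
`d_0 : Ω_{p+1} → Ω_p` is isomorphic to `(A_p.red K).red K`: `cechS f (p+2) = cechS f p × K × K`,
`x ↦ ((x_2, ..), x_2⁻¹ x_0, x_2⁻¹ x_1)`, and `Ω_{p+1}`, `Ω_p` are the kernels of omitting `x_0`, the operator
of `Ω` omits `x_1`. By C5 twice it is `2 n'`-trivial; so `diag Ω'` is, and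
`π_j(Ω_0) = π_j(diag (dec Ω)) → π_j(diag Ω)` is injective for `j < 2 n'`. So `π_j(Ω_0)` is slender for
`j < R`. (iii) `Ω_0 = ℤ[G].red K`, and `ℤ.red K` is a retract (`ℤ → ℤ[G]`, `1 ↦ [1]`, and the
augmentation), so `π_j(ℤ.red K)` is slender, and C0 for `ℤ.red K → ℤ[K] → ℤ`. -/
def St_CechSl : Prop := ∀ {G P : SGp.{u}} (f : G ⟶ P) (n' R : ℕ), (∀ n, Surjective (f.app n)) →
  HTriv n' (SGp.ker f).und → R ≤ 2 * n' → (∀ j < R, HSl G.und j) → (∀ j ≤ R, HSl P.und j) →
    ∀ j < R, HSl (SGp.ker f).und j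

end Pool.Agent.FGK
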