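import Pool.Agent.FGK.StB

/-!
# FGK: statements, part C: the theorem of Solomon and Tits
-/

set_option autoImplicit false
set_option linter.unusedVariables false

namespace Pool.Agent.FGK

open CategoryTheory Function Pool.Agent.KQ

universe u

/-- the intersection of two simplicial subsets, as a simplicial subset of the second -/
def subIn {X : SSt.{u}} (A B : SubS X) : SubS B.S :=
  ⟨fun n => {x | x.1 ∈ A.s n}, fun θ x hx => A.map_mem θ x.1 hx⟩

/-- the union of two simplicial subsets -/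
def subUn {X : SSt.{u}} (A B : SubS X) : SubS X :=
  ⟨fun n => A.s n ∪ B.s n, fun θ x hx => hx.imp (A.map_mem θ x) (B.map_mem θ x)⟩

/-- **R0.** Relative simplicial abelian groups.

Proof. Degreewise everything is about the free abelian groups on the complements. (3), (4): the
homotopy `h` on `X` preserves `A`, is the identity at one end and has values in `A` at the other end:
`ZR X A` has trivial homotopy groups (`KQ.St_Htpy`; `[x] ↦ [h n α x]`, extended linearly, passes to the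
quotient). -/
def St_ZR : Prop :=
  (∀ (X : SSt.{u}) (A B : SubS X), ∃ (i : ZR B.S (subIn A B) ⟶ ZR X A)
    (π : ZR X A ⟶ ZR X (subUn A B)), SAb.SES i π) ∧
  (∀ (X : SSt.{u}) (A : SubS X), ∃ π : ZS X ⟶ ZR X A, SAb.SES (ZSmap A.ι) π) ∧
  (∀ (X : SSt.{u}) (A : SubS X) (g : X ⟶ X) (h : SSt.Htpy (𝟙 X) g),
    (∀ n α x, x ∈ A.s n → h.h n α x ∈ A.s n) → (∀ n x, g.app n x ∈ A.s n) →
    ∀ c, SAb.Triv c (ZR X A)) ∧
  (∀ (X : SSt.{u}) (A : SubS X) (g : X ⟶ X) (h : SSt.Htpy g (𝟙 X)),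
    (∀ n α x, x ∈ A.s n → h.h n α x ∈ A.s n) → (∀ n x, g.app n x ∈ A.s n) →
    ∀ c, SAb.Triv c (ZR X A)) ∧
  (∀ (X Y : SSt.{u}) (A : SubS X) (B : SubS Y) (f : X ⟶ Y)
    (h : ∀ n x, x ∈ A.s n → f.app n x ∈ B.s n), ∃ g : ZR X A ⟶ ZR Y B,
    (SAb.Weq (ZSmap f) → SAb.Weq (ZSmap (SubS.mapS f A B h)) → SAb.Weq g) ∧
    ((∀ n (y : Y.obj n), y ∉ B.s n → ∃! x : X.obj n, f.app n x = y) →
      (∀ n (x : X.obj n), f.app n x ∈ B.s n → x ∈ A.s n) → ∀ n, Bijective (g.app n)))

/-- **R1.** THE THEOREM OF SOLOMON AND TITS: the relative chains of the lattice of subspaces of an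
`r`-dimensional vector space are `r`-trivial.

Proof. Induction on `r = finrank W`. `r = 0`: nothing. `r = 1`: `π_0`: `RB` is `0` in degree `0`, as
`⊥ ≠ ⊤`. `r ≥ 2`: choose a line `L ≤ W`; `ℋ` = the complements of `L` (`H ⊓ L = ⊥`, `H ⊔ L = ⊤`;
hyperplanes, coatoms, and no two of them are comparable). (i) Let `B = {F | no F_i in ℋ}`, a simplicial
subset of `nvS`, and `bad' = subIn bad B`. `ZR B.S bad'` has trivial homotopy groups: homotopy
`F_i ↦ F_i` if `α i = false`, `F_i ⊔ L` if `α i = true`: it preserves `B` (`F_i ⊔ L` contains `L`, so it is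
not in `ℋ`), preserves bad chains in `B` (`F_0 ≠ ⊥`: clear; `F_n ≠ ⊤`: if `F_n ⊔ L = ⊤`, then `F_n` is a
hyperplane with `F_n ⊓ L = ⊥` (dimension), so in `ℋ`), and ends in the bad chains (`F_0 ⊔ L ≠ ⊥`); R0 (3).
(ii) `ZR nvS (subUn bad B)` is the direct sum over `H ∈ ℋ` of
`C_H = ZR (nvS P_H) (F_0 ≠ ⊥, or H not in F, or ⊤ not in F)`, `P_H = {U | U ≤ H or U = ⊤}`: the generators
are the chains `F_0 = ⊥`, `F_n = ⊤` which contain some `H ∈ ℋ`, a unique one. (iii) `C_H` is
`r`-trivial: let `E_H = ZR (nvS P_H) (F_0 ≠ ⊥ or H not in F)`; R0 (1) with `B = {⊤ not in F}`: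
`0 → ZR (nvS (Iic H)) (F_0 ≠ ⊥ or H not in F) → E_H → C_H → 0`, the first term is
`RB (Submodule k H)`, `(r-1)`-trivial by induction
(`finrank H = r - 1`); `E_H` has trivial homotopy groups: homotopy `F_i ↦ F_i` if `α i = false`, `⊤` if
`α i = true` (`H` not in `F` is preserved, `F_0 ≠ ⊥` is preserved, the end is the chain `⊤, .., ⊤`, bad);
C0. (iv) direct sums of `r`-trivial simplicial abelian groups are `r`-trivial (componentwise), and
C0 for `0 → ZR B.S bad' → RB → ⊕ C_H → 0` (R0 (1)). -/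
def St_RB : Prop := ∀ (k W : Type) [Field k] [AddCommGroup W] [Module k W]
  [FiniteDimensional k W], SAb.Triv (Module.finrank k W) (RB.{u} (Submodule k W))

end Pool.Agent.FGK
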