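import Pool.Agent.FGK.Defs3

/-!
# FGK: statements, part D: the rank filtration, the k-fold construction, the final theorem

`XS k` = `n ↦ ob S_n V`, `V` the finite-dimensional `k`-vector spaces (`KQG.MA k`).
-/

set_option autoImplicit false
set_option linter.unusedVariables false

noncomputable section

namespace Pool.Agent.FGK

open CategoryTheory CategoryTheory.Limits Function Pool.Agent.KQ

universe u

/-- **Orb.** Free orbits.

Proof. `T` = bisimplicial set with rows `T_l = {(c, y) : y ∈ Y}`, `c : Fin (l+1) → Fin (l+1) → G` with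
`c i j * c j h = c i h` (so `c i i = 1`); external operator `θ : (c, y) ↦ (c ∘ θ, act (c (θ 0) 0) y)`;
`A_l = {(c, y) | y ∈ A}` (`act g` preserves `A` and its complement, by `act g ≫ f = f` and the
hypothesis on `f`). Bisimplicial abelian group `R_l = ZR T_l A_l`. (i) `R_l` is the simplicial abelian
group of the finitely supported families in `ZR Y A` indexed by the set of all `c`:
`R_l ≅ (ZR Y A).fs (const)`, so it is `r`-trivial (`St_fsConn` (3)), and `diag R` is (`St_AbReal` (4)).
(ii) the homomorphism `diag R → ZR Z B`, `(c, y) ↦ f y`, is an isomorphism on `π_*`: exchange the two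
directions (the transposed bisimplicial abelian group has the same diagonal), for fixed `n` the
simplicial abelian group `l ↦ ℤ[(T_l)_n ∖ (A_l)_n]` (the operators preserve the complement) maps to the
constant one `ℤ[Z_n ∖ B_n]`, and this is `ℤ[-]` of a map of simplicial sets which has a section and a
homotopy: choose `y_z ∉ A` over every `z ∉ B`; `(c, y)` corresponds to the tuple `y_i = act (c i 0) y`,
`i ≤ l`, of elements in one free orbit (`c i j` is determined by `y_i`, `y_j`); homotopy
`h α (y_i) = (y_i if α i = false, y_{f y} if α i = true)`; section `z ↦ (y_z, .., y_z)`. `KQ.St_StrHt`,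
`St_fsStrong` (or directly `KQ.St_Htpy`), `St_AbReal` (2). -/
def St_Orb : Prop := ∀ (r : ℕ) (G : Type) [Group G] {Y Z : SSt.{u}} (A : SubS Y) (B : SubS Z)
  (f : Y ⟶ Z) (act : G → (Y ⟶ Y)), act 1 = 𝟙 Y → (∀ g h, act (g * h) = act h ≫ act g) →
  (∀ g, act g ≫ f = f) → (∀ n y, f.app n y ∈ B.s n ↔ y ∈ A.s n) →
  (∀ n z, z ∉ B.s n → ∃ y, f.app n y = z) →
  (∀ n y y', y ∉ A.s n → y' ∉ A.s n → f.app n y = f.app n y' → ∃ g, (act g).app n y = y') →
  (∀ n y g, y ∉ A.s n → (act g).app n y = y → g = 1) →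
  SAb.Triv r (ZR Y A) → SAb.Triv r (ZR Z B)

/-- **PStr.** Forget the chosen quotients.

Proof. `g : PS k W ⟶ nvS (Submodule k W)`, `P ↦ P.F`; `badP` is the preimage of `badS`. `g` and its
restriction to the bad parts are strong (`KQ.St_StrHt`): section `s : F ↦ (F, x ↦ F_j ⧸ F_i, mkQ)`
(`x = (i, j)`; `Submodule.submoduleOf`), `s ≫ g = 𝟙`; homotopy from `𝟙` to `g ≫ s`:
`h n α P = (P.F, M', p')`, `(M' x, p' x) = (P.M x, P.p x)` if `α x.1.2 = false`, `(F_j ⧸ F_i, mkQ)`
otherwise (use a dependent pair). Then `St_fsStrong` and `St_ZR` (5). -/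
def St_PStr : Prop := ∀ (k W : Type) [Field k] [AddCommGroup W] [Module k W] (c : ℕ),
  SAb.Triv c (RB.{1} (Submodule k W)) → SAb.Triv c (ZR (PS k W) (badP k W))

/-- **PQ.** The map to the S-diagrams, the group action.

Proof. `f P` = the diagram with entries `P.M x` and the unique maps `M x → M y`, `x ≤ y`, compatible
with `p` and the inclusions `F_{x.2} ≤ F_{y.2}` (they exist because `ker (p x) = F_{x.1}` maps into
`F_{y.1}`, and are unique because `p x` is onto; functoriality and naturality in `θ` by uniqueness).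
It is an S-diagram: `F_j/F_i → F_l/F_i → F_l/F_j` is exact (`KQG.ses_mod`; `P.M x` is finite, a quotient
of a subspace of `W`; `M (i,i)` is zero), and `dim M(0,n) = dim F_n - dim F_0 ≤ r + 1` with equality iff
`F_0 = ⊥` and `F_n = ⊤`. `act g P = (g F, M, p ∘ g⁻¹)`. Onto: `D(0,n)` has dimension `r + 1`, so there is
an isomorphism `e : W → D(0,n)`; `F_i = e⁻¹ (image of D(0,i))`, `p_(i,j) : F_j ≅ D(0,j) → D(i,j)`
(`D(0,j) → D(0,n)` is injective, `D(0,j) → D(i,j)` is onto with kernel the image of `D(0,i)`). Orbits: for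
good `P`, `P'` with `f P = f P'` (so the same entries and maps) `p_(0,n) : F_n = W → M(0,n)` and `p'_(0,n)` are
isomorphisms; `g = p'_(0,n)⁻¹ p_(0,n)`; `p_(0,n)(F_i)` is the image of `M(0,i) → M(0,n)` (as `p_(0,i)` is
onto), so `g F_i = F'_i`; `p'_(0,j) g = p_(0,j)` on `F_j` because `M(0,j) → M(0,n)` is injective, and
`p_(i,j)` is `p_(0,j)` followed by `M(0,j) → M(i,j)`. Free: `act g P = P` gives
`p_(0,n) g⁻¹ = p_(0,n)`, injective on `W`. -/
def St_PQ : Prop := ∀ (k W : Type) [Field k] [AddCommGroup W] [Module k W]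
  [FiniteDimensional k W] (r : ℕ), Module.finrank k W = r + 1 →
  ∃ (f : PS k W ⟶ (rkS k (r + 1)).S) (act : (W ≃ₗ[k] W) → (PS k W ⟶ PS k W)),
    act 1 = 𝟙 _ ∧ (∀ g h, act (g * h) = act h ≫ act g) ∧ (∀ g, act g ≫ f = f) ∧
    (∀ n y, f.app n y ∈ (subIn (rkS k r) (rkS k (r + 1))).s n ↔ y ∈ (badP k W).s n) ∧
    (∀ n z, z ∉ (subIn (rkS k r) (rkS k (r + 1))).s n → ∃ y, f.app n y = z) ∧
    (∀ n y y', y ∉ (badP k W).s n → y' ∉ (badP k W).s n → f.app n y = f.app n y' →
      ∃ g, (act g).app n y = y') ∧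
    ∀ n y g, y ∉ (badP k W).s n → (act g).app n y = y → g = 1

/-- **RkTriv.** The quotients of the rank filtration.

Proof. `St_RB` for `W = (Fin (r+1) → k)`, `St_PStr`, `St_PQ`, `St_Orb`. -/
def St_RkTriv : Prop := ∀ (k : Type) [Field k] (r : ℕ),
  SAb.Triv (r + 1) (ZR (rkS k (r + 1)).S (subIn (rkS k r) (rkS k (r + 1))))

/-- **RkConn.** The inclusion of the rank filtration is `r`-connected on homology.

Proof. (i) `(rkS k s).S → (rkS k (s+1)).S` is `s`-connected: `St_ZR` (2) for
`A = subIn (rkS k s) (rkS k (s+1))` (`A.S` is isomorphic to `(rkS k s).S`), `St_RkTriv`, `St_AbEx`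
(surjective on `π_j` for `j ≤ s`, injective for `j < s`; use the long exact sequence or parts (5), (6) and a
direct argument for surjectivity on `π_s`: `π_s (ZR) = 1`). (ii) so `(rkS k r).S → (rkS k s).S` is
`r`-connected for `r ≤ s` (induction). (iii) `ZS (XS k)` in every degree is the union of the images of
`ZS (rkS k s).S` (finite support; `ZSmap ι` is injective in every degree): a cycle of degree `≤ r` comes
from some `s ≥ r`, and if a cycle of `ZS (rkS k r).S` is a boundary in `ZS (XS k)`, it is one in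
`ZS (rkS k s).S` for some `s ≥ r`. -/
def St_RkConn : Prop := ∀ (k : Type) [Field k] (r : ℕ), SAb.Conn r (ZSmap (rkS k r).ι)

/-- **FinMod.** Finite models.

Proof. `Y` = the simplicial subset of the diagrams all of whose entries are standard,
`D(x) = ModuleCat.of k (Fin d → k)`, `d ≤ r` (all entries of a diagram in `rkS k r` have dimension `≤ r`).
Finite in every degree: it is the image of the set of all `(d, φ)`, `d : Ar → Fin (r+1)`,
`φ x y (x ≤ y) : (Fin (d x) → k) →ₗ (Fin (d y) → k)` satisfying the functor laws and the conditions of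
`S`-diagrams, a subset of a finite set (`Finite.of_surjective`; for `D ∈ Y` choose `d`, then
`obtain rfl : D.obj.obj = ..`). Strong (`KQ.St_StrHt`): `s M = ModuleCat.of k (Fin (finrank k M) → k)` for
finite-dimensional `M`, with an isomorphism `e_M : M ≅ s M` chosen for every `M`; for `α` replace the entry
`D(i,j)` by itself if `α j = false` and by `s (D(i,j))` if `α j = true`, conjugate the maps by the isomorphisms
(`Functor.copyObj`): compatible with the operators (`α (θ j)`), a homotopy from the identity to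
`ρ ≫ ι`, `ρ : (rkS k r).S → Y`, and it preserves `Y`. -/
def St_FinMod : Prop := ∀ (k : Type) [Field k] [Finite k] (r : ℕ),
  ∃ (Y : SSt.{1}) (g : Y ⟶ (rkS k r).S), (∀ n, Finite (Y.obj n)) ∧ SSt.Strong g

/-- **FTyX.** `ob S.V` has homology of finite type for finite `k`.

Proof. `St_FinMod` for `r = c`, `St_fsStrong`, `St_RkConn`; composition. -/
def St_FTyX : Prop := ∀ (k : Type) [Field k] [Finite k], FTy (XS k)

/-- **SpK.** `ob S^κ (S_p E) → (ob S^κ E)^p` is strong for `κ ≥ 1`.

Proof. Induction on `κ`, for all `E`. `κ = 1`: `(itS Sd 1).obj E` is `Sd.obj E` in every degree, operators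
`(Sd.obj E).map θ` up to an identity; `KQ.St_Spine`. `κ + 1`: `obS.obj ((itS Sd (κ+1)).obj E')` is the
diagonal of the bisimplicial set with the rows `obS.obj ((itS Sd κ).obj (S_m E'))`. By `KQ.St_StrRow` we need:
`x ↦ (i ↦ ((itS Sd κ).map (S_m ev_i)) x)`, `ob S^κ (S_m (S_p E)) → (ob S^κ (S_m E))^p`, is strong. The flip
`S_m S_p E ≅ S_p S_m E` (`Functor.flip` on diagrams, an isomorphism in the category `ExCat`; define it, with
inverse the other flip; composites are the identity by `rfl` or `Functor.ext`) composed with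
`spK κ (S_m E) p` is this map (`(ev_i).S = flip ≫ ev_i` by `rfl`), and it is an isomorphism, so strong. The
power commutes with the diagonal (`rfl`). -/
def St_SpK : Prop := ∀ (κ : ℕ), 1 ≤ κ → ∀ (E : ExCat.{u}) (p : ℕ), SSt.Strong (spK κ E p)

/-- **ZQK.** Identify the zero objects in the `κ`-fold construction.

Proof. Induction on `κ ≥ 1`, for all `E`. `κ = 1`: `KQ.St_ZQ` for `SOb.const E` (all operators agree up to
identities). `κ + 1`: `zq` of the diagonal is the diagonal of the `zq ((itS Sd κ).obj (S_m E))`,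
`KQ.St_StrRow`. -/
def St_ZQK : Prop := ∀ (κ : ℕ), 1 ≤ κ → ∀ E : ExCat.{u}, SSt.Strong (zq ((itS Sd κ).obj E))

/-- **ClK.** The `κ`-fold construction and its powers have slender homology.

Proof. Induction on `κ`, for all `p` and `j`. `κ = 1`: `obS.obj ((itS Sd 1).obj V)` is isomorphic to
`XS k`; `St_FTyX`, `St_Prods` (5), `St_SlFin` (3). `κ + 1`: `(ob S^{κ+1} V)^p` is the diagonal of the
bisimplicial set with the rows `(ob S^κ (S_m V))^p`; `ℤ[-]` of it is the diagonal of the bisimplicial
abelian group `m ↦ ZS ((ob S^κ (S_m V))^p)`, and this row has the homology of `((ob S^κ V)^m)^p`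
(`St_SpK`, powers of strong maps are strong by `KQ.St_StrProd` and induction, `St_fsStrong`), isomorphic to
`(ob S^κ V)^(p m)`, slender by induction. `St_AbReal` (6). -/
def St_ClK : Prop := ∀ (k : Type) [Field k] [Finite k] (κ : ℕ), 1 ≤ κ → ∀ p j : ℕ,
  HSl ((obS.obj ((itS Sd κ).obj (KQG.MA k))).pow p) j

/-- **FoxTriv.** `ℤ~[X]` is as connected as `F(X)`.

Proof. `F = (frS X).und`. `HTriv κ F` (`St_GpHTriv`), so `(ZP X)[F] ≅ ℤ.red F` (`St_Fox`) is `κ`-trivial, and
`ZP X` is a retract of `(ZP X)[F]`: `y ↦ single 1 y`, then the augmentation. -/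
def St_FoxTriv : Prop := ∀ (κ : ℕ) (X : SOb Pointed.{u}), SGp.Triv κ (frS X) →
  SAb.Triv κ (ZP X)

/-- **ZPSl.** Pointed and unpointed homology.

Proof. `St_ZR` (2) for the base points (`ZS (baseS X).S` is finitely generated in every degree, so it has
slender homotopy groups, `St_SlFin` (2)), `St_AbEx` (10), (11). -/
def St_ZPSl : Prop := ∀ X : SOb Pointed.{u}, (∀ j, HSl (undS X) j) → ∀ j, (ZP X).SlAt j

/-- **KFG.** THE K-GROUPS OF FINITE FIELDS ARE FINITELY GENERATED.

Proof. `κ = n + 3`, `X = (itP Sd obF κ).obj V`; `(DK κ).obj V ≅ frS X` (`KQ.dIso`). `κ`-trivial: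
`KQ.all_Low` with `Zc = ZcE` (zero exact categories; `ZClass Sd ZcE`). `HSl (undS X) j` for all `j`:
`St_ClK` for `p = 1`, `St_ZQK` (`undS X = undF.obj ((SOb.mapF obF).obj ..)`), `St_fsStrong`. So
`(ZP X).SlAt j` (`St_ZPSl`), `SAb.Triv κ (ZP X)` (`St_FoxTriv`), `HSl (frS X).und j` for `j < 2κ`
(`St_FoxSl`), `Sl ((frS X).Pi j)` for `j < 2κ` (`St_FG2` with `R = 2κ`); `2n + 3 < 2n + 6`. A slender group is
finitely generated. -/
def St_KFG : Prop := ∀ (k : Type) [Field k] [Finite k] (n : ℕ),
  AddGroup.FG (Kn n (KQG.MA k))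

end Pool.Agent.FGK
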