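import Pool.Agent.FGK.StA
import Pool.Agent.KQ.UP

/-!
# FGK B2: the first `c` rows trivial (helper35)

`thm_Ups (hBd : St_Bd) (hBd0 : St_Bd0) (hS : St_Split) (hD : St_Dec) (hReal : St_Real) : St_Ups`.
-/

set_option autoImplicit false

namespace Pool.Agent.FGK

open CategoryTheory Function Pool.Agent.KQ

universe u

/-- the first `c` rows trivial, all rows `d`-trivial -/
theorem thm_Ups (hBd : St_Bd.{u}) (hBd0 : St_Bd0.{u}) (hS : St_Split.{u}) (hD : St_Dec.{u})
    (hReal : St_Real.{u}) : St_Ups.{u} := by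
  intro c
  induction c with
  | zero =>
    intro d G _ hG
    rw [Nat.zero_add]
    exact up_diag hReal G hG
  | succ c ih =>
    intro d G h0 hG
    have hsurj : ∀ n, Surjective ((SGp.diagF.map G.decπ).app n) := by
      intro n x
      refine ⟨(G.map (sg (0 : Fin (n + 1)))).app n x, ?_⟩
      have h1 := congrArg (fun e : G.obj n ⟶ G.obj n => e.app n x) (up_split G n)
      exact h1
    have hΩ : ∀ m, SGp.Triv d ((kerB G.decπ).obj m) := fun m j hj x =>
      up_inj (SGp.kerι (G.decπ.app m))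
        (hS (G.decπ.app m) (G.map (sg (0 : Fin (m + 1)))) (up_split G m) j).1
        (hG (m + 1) j hj) x
    have hΩ0 : ∀ m < c, ∀ (n : ℕ) (x : ((kerB G.decπ).obj m).obj n), x = 1 :=
      fun m hm n x => Subtype.ext (h0 (m + 1) (by omega) n x.1)
    have hker : SGp.Triv (c + d) (SGp.ker (SGp.diagF.map G.decπ)) := by
      intro j hj x
      have h1 := SGp.PiMap_comp (upKer G.decπ) (kerDiag G.decπ) j x
      rw [up_ker, SGp.PiMap_id, ih d _ hΩ0 hΩ j hj (SGp.PiMap (upKer G.decπ) j x),
        map_one] at h1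
      exact h1
    have hE : ∀ j (e : (SGp.diagF.obj G.dec).Pi j), e = 1 := fun j e =>
      up_inj (decAug G) (hD G j).1 (up_triv (h0 0 (Nat.succ_pos c)) j) e
    intro j hj x
    cases j with
    | zero =>
      obtain ⟨e, rfl⟩ := (hBd0 (SGp.diagF.map G.decπ) hsurj).2 x
      rw [hE 0 e, map_one]
      rfl
    | succ j =>
      obtain ⟨δ, -, h1, -⟩ := hBd (SGp.diagF.map G.decπ) hsurj j
      obtain ⟨e, he⟩ := (h1 x).1 (hker j (by omega) _)
      rw [hE (j + 1) e, map_one] at he
      exact he.symm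

end Pool.Agent.FGK
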